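import Pool.Agent.RFK.Targets

/-!
# MP_35334d_an: target BDD, minimizers are bounded (De Giorgi iteration)
-/

set_option autoImplicit false

open MeasureTheory Filter Topology Metric Set
open scoped ENNReal NNReal

namespace RFK

namespace BDD_

variable {n : ℕ} {σ : ℝ}

theorem cut_one : Cut (fun _ : X n => (1 : ℝ)) 1 :=
  ⟨one_pos, fun _ => ⟨zero_le_one, le_rfl⟩, fun x y => by simp⟩

/-- energy of the truncations on the positivity set -/
theorem en_le (hCAC : T_CAC) (hOK : OK n σ) {u : X n → ℝ} {L : ℝ} (hN : NM σ u L) {k : ℝ}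
    (hk : 0 ≤ k) : En σ {x | 0 < u x} (fun x => pos (u x - k)) ≤
      ENNReal.ofReal L * ∫⁻ x in {x | 0 < u x}, ENNReal.ofReal (u x * pos (u x - k)) := by
  have h := hCAC n σ hOK u L hN k 1 (fun _ => 1) hk cut_one
  have h0 : DI σ {x | 0 < u x} {x | 0 < u x} (fun x y =>
      ENNReal.ofReal (pos (u x - k) * pos (u y - k) * ((1 : ℝ) - 1) ^ 2)) = 0 := by
    unfold DI
    simp
  rw [h0, zero_add] at h
  simp only [mul_one, one_pow] at h
  exact le_trans le_self_add h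

theorem trunc_zero {u : X n → ℝ} {k : ℝ} (hk : 0 ≤ k) {x : X n} (hx : u x ≤ 0) :
    pos (u x - k) = 0 := pos_of_nonpos (by linarith)

/-- energy of the truncations on the whole space -/
theorem en_univ (hCAC : T_CAC) (hHAR : T_HAR) (hOK : OK n σ) : ∃ C : ℝ≥0, ∀ {u : X n → ℝ} {L : ℝ}, NM σ u L → ∀ {k : ℝ},
    0 ≤ k → En σ univ (fun x => pos (u x - k)) ≤
      C * (ENNReal.ofReal L * ∫⁻ x in {x | 0 < u x}, ENNReal.ofReal (u x * pos (u x - k))) := by
  obtain ⟨C, hC⟩ := hHAR n σ hOK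
  refine ⟨1 + 2 * C, ?_⟩
  intro u L hN k hk
  set Ω : Set (X n) := {x | 0 < u x} with hΩ
  set w : X n → ℝ := fun x => pos (u x - k) with hw
  have hΩm : MeasurableSet Ω := measurableSet_lt measurable_const hN.meas
  have hwm : Measurable w := measurable_pos.comp (hN.meas.sub_const k)
  have hw0 : ∀ x ∈ Ωᶜ, w x = 0 := by
    intro x hx
    exact trunc_zero hk (not_lt.1 hx)
  have h1 : En σ univ w = En σ Ω w + 2 * DI σ Ωᶜ Ω (fun _ y => sq (w y)) := by
    have e1 := En_union (σ := σ) (A := Ω) hΩm.compl disjoint_compl_right hwm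
    rw [union_compl_self] at e1
    have e2 : En σ Ωᶜ w = 0 := by
      rw [En_eq]
      have : DI σ Ωᶜ Ωᶜ (fun x y => sq (w x - w y)) = DI σ Ωᶜ Ωᶜ (fun _ _ => 0) := by
        apply DI_congr hΩm.compl hΩm.compl
        intro x hx y hy
        rw [hw0 x hx, hw0 y hy, sub_zero, sq_zero]
      rw [this]
      unfold DI
      simp
    have e3 : DI σ Ω Ωᶜ (fun x y => sq (w x - w y)) = DI σ Ωᶜ Ω (fun _ y => sq (w y)) := by
      rw [DI_swap (measurable_dsq hwm)]
      apply DI_congr hΩm.compl hΩm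
      intro x hx y hy
      rw [hw0 x hx, sub_zero]
    rw [e1, e2, e3, add_zero]
  have hfin : En σ univ w ≠ ∞ := by
    refine ne_top_of_le_ne_top hN.fin ?_
    rw [En_eq, En_eq]
    apply DI_mono MeasurableSet.univ MeasurableSet.univ
    intro x _ y _
    apply sq_le
    refine (abs_pos_sub_pos_le _ _).trans (le_of_eq ?_)
    congr 1
    ring
  have hfin2 : DI σ Ωᶜ Ω (fun _ y => sq (w y)) ≠ ∞ := by
    refine ne_top_of_le_ne_top hfin ?_
    rw [h1, two_mul]
    exact le_trans le_self_add le_add_self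
  have h2 := hC univ Ω w convex_univ MeasurableSet.univ hΩm hwm
  rw [univ_inter, ← compl_eq_univ_sdiff] at h2
  have h3 := h2 hfin2
  have h4 := en_le hCAC hOK hN hk
  rw [h1]
  calc En σ Ω w + 2 * DI σ Ωᶜ Ω (fun _ y => sq (w y))
      ≤ En σ Ω w + 2 * (C * En σ Ω w) := by gcongr
    _ = ((1 + 2 * C : ℝ≥0) : ℝ≥0∞) * En σ Ω w := by
        push_cast
        ring
    _ ≤ _ := by gcongr

/-- Chebyshev's inequality for the truncations -/
theorem cheb {u : X n → ℝ} (hu : Measurable u) {k k' : ℝ} (hkk : k < k') :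
    volume {x | k' < u x} ≤ ENNReal.ofReal (((k' - k) ^ 2)⁻¹) * ∫⁻ x, sq (pos (u x - k)) := by
  have h : 0 < k' - k := by linarith
  have hm : MeasurableSet {x | k' < u x} := measurableSet_lt measurable_const hu
  rw [← lintegral_const_mul' _ _ ENNReal.ofReal_ne_top, ← lintegral_indicator_one hm]
  apply lintegral_mono
  intro x
  by_cases hx : x ∈ {x | k' < u x}
  · rw [Set.indicator_of_mem hx]
    have hx' : k' < u x := hx
    unfold sq
    show (1 : ℝ≥0∞) ≤ ENNReal.ofReal (((k' - k) ^ 2)⁻¹) * ENNReal.ofReal (pos (u x - k) ^ 2)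
    rw [← ENNReal.ofReal_mul (by positivity), ← ENNReal.ofReal_one]
    apply ENNReal.ofReal_le_ofReal
    rw [pos_of_nonneg (by linarith), inv_mul_eq_div, one_le_div (by positivity)]
    gcongr
  · rw [Set.indicator_of_notMem hx]
    exact zero_le

/-- control of u times the positive part of u - k' by the square of the positive part of u - k -/
theorem uw {t k k' : ℝ} (hk : 0 ≤ k) (hkk : k < k') :
    t * pos (t - k') ≤ (1 + k' / (k' - k)) * pos (t - k) ^ 2 := by
  have h : 0 < k' - k := by linarith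
  by_cases ht : t ≤ k'
  · rw [pos_of_nonpos (by linarith), mul_zero]
    have h5 : 0 ≤ k' / (k' - k) := div_nonneg (by linarith) h.le
    positivity
  · push Not at ht
    rw [pos_of_nonneg (by linarith), pos_of_nonneg (by linarith)]
    have h1 : t * (t - k') = (t - k') ^ 2 + k' * (t - k') := by ring
    have h2 : (t - k') ^ 2 ≤ (t - k) ^ 2 := by
      apply pow_le_pow_left₀ (by linarith)
      linarith
    have h3 : k' * (t - k') ≤ k' / (k' - k) * (t - k) ^ 2 := by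
      rw [div_mul_eq_mul_div, le_div_iff₀ h]
      have : (t - k') * (k' - k) ≤ (t - k) ^ 2 := by nlinarith
      nlinarith
    rw [h1, add_mul, one_mul]
    exact add_le_add h2 h3

/-- one step of the iteration, with values in `[0, ∞]` -/
theorem step (hCAC : T_CAC) (hHAR : T_HAR) (hPOI : T_POI) (hOK : OK n σ) :
    ∃ C : ℝ≥0, ∀ {u : X n → ℝ} {L : ℝ}, NM σ u L → ∀ {k k' : ℝ}, 0 ≤ k → k < k' →
    ∫⁻ x, sq (pos (u x - k')) ≤
      C * (ENNReal.ofReal (((k' - k) ^ 2)⁻¹) * ∫⁻ x, sq (pos (u x - k))) ^ (2 * σ / n) *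
        (ENNReal.ofReal L * (ENNReal.ofReal (1 + k' / (k' - k)) *
          ∫⁻ x, sq (pos (u x - k)))) := by
  obtain ⟨C₁, hC₁⟩ := en_univ hCAC hHAR hOK
  obtain ⟨C₂, hC₂⟩ := hPOI n σ hOK
  refine ⟨C₂ * C₁, ?_⟩
  intro u L hN k k' hk hkk
  have hs : 0 ≤ 2 * σ / n := by
    have := hOK.2.1
    positivity
  have hk' : 0 ≤ k' := by linarith
  have hm : MeasurableSet {x | k' < u x} := measurableSet_lt measurable_const hN.meas
  have hwm : Measurable fun x => pos (u x - k') := measurable_pos.comp (hN.meas.sub_const k')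
  have hvol : volume {x | k' < u x} ≠ ∞ := by
    refine ne_top_of_le_ne_top hN.vol (measure_mono ?_)
    intro x (hx : k' < u x)
    exact lt_of_le_of_lt hk' hx
  have h1 := hC₂ {x | k' < u x} (fun x => pos (u x - k')) hm hvol hwm (by
    intro x hx
    exact pos_of_nonpos (by
      have : u x ≤ k' := not_lt.1 hx
      linarith))
  have h2 := hC₁ hN hk'
  have h3 := cheb hN.meas hkk
  have h4 : ∫⁻ x in {x | 0 < u x}, ENNReal.ofReal (u x * pos (u x - k')) ≤
      ENNReal.ofReal (1 + k' / (k' - k)) * ∫⁻ x, sq (pos (u x - k)) := by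
    refine (setLIntegral_le_lintegral _ _).trans ?_
    rw [← lintegral_const_mul' _ _ ENNReal.ofReal_ne_top]
    apply lintegral_mono
    intro x
    have h5 : 0 ≤ 1 + k' / (k' - k) := by
      have : 0 ≤ k' / (k' - k) := div_nonneg (by linarith) (by linarith)
      linarith
    show ENNReal.ofReal (u x * pos (u x - k')) ≤
      ENNReal.ofReal (1 + k' / (k' - k)) * ENNReal.ofReal (pos (u x - k) ^ 2)
    rw [← ENNReal.ofReal_mul h5]
    exact ENNReal.ofReal_le_ofReal (uw hk hkk)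
  calc ∫⁻ x, sq (pos (u x - k'))
      ≤ C₂ * volume {x | k' < u x} ^ (2 * σ / n) * En σ univ (fun x => pos (u x - k')) := h1
    _ ≤ C₂ * (ENNReal.ofReal (((k' - k) ^ 2)⁻¹) * ∫⁻ x, sq (pos (u x - k))) ^ (2 * σ / n) *
        (C₁ * (ENNReal.ofReal L * (ENNReal.ofReal (1 + k' / (k' - k)) *
          ∫⁻ x, sq (pos (u x - k))))) := by
        gcongr
        exact h2.trans (by gcongr)
    _ = _ := by
        push_cast
        ring

theorem Y_le {u : X n → ℝ} {L : ℝ} (hN : NM σ u L) {k : ℝ} (hk : 0 ≤ k) :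
    ∫⁻ x, sq (pos (u x - k)) ≤ 1 := by
  rw [← hN.norm]
  apply lintegral_mono
  intro x
  apply sq_le
  rw [abs_of_nonneg (pos_nonneg _), abs_of_nonneg (hN.nonneg x)]
  exact max_le (by linarith) (hN.nonneg x)

/-- one step of the iteration, real numbers -/
theorem stepR (hCAC : T_CAC) (hHAR : T_HAR) (hPOI : T_POI) (hOK : OK n σ) :
    ∃ C : ℝ≥0, ∀ {u : X n → ℝ} {L : ℝ}, NM σ u L → ∀ {k k' : ℝ}, 0 ≤ k → k < k' →
    (∫⁻ x, sq (pos (u x - k'))).toReal ≤
      C * (((k' - k) ^ 2)⁻¹ * (∫⁻ x, sq (pos (u x - k))).toReal) ^ (2 * σ / n) *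
        (L * ((1 + k' / (k' - k)) * (∫⁻ x, sq (pos (u x - k))).toReal)) := by
  obtain ⟨C, hC⟩ := step hCAC hHAR hPOI hOK
  refine ⟨C, ?_⟩
  intro u L hN k k' hk hkk
  have hs : 0 ≤ 2 * σ / n := by
    have := hOK.2.1
    positivity
  have h := hC hN hk hkk
  set Y := ∫⁻ x, sq (pos (u x - k)) with hY
  have hYt : Y ≠ ∞ := ne_top_of_le_ne_top ENNReal.one_ne_top (Y_le hN hk)
  have h5 : 0 ≤ 1 + k' / (k' - k) := by
    have : 0 ≤ k' / (k' - k) := div_nonneg (by linarith) (by linarith)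
    linarith
  have h6 : (C : ℝ≥0∞) * (ENNReal.ofReal (((k' - k) ^ 2)⁻¹) * Y) ^ (2 * σ / n) *
        (ENNReal.ofReal L * (ENNReal.ofReal (1 + k' / (k' - k)) * Y)) ≠ ∞ := by
    refine ENNReal.mul_ne_top (ENNReal.mul_ne_top ENNReal.coe_ne_top ?_) ?_
    · exact ENNReal.rpow_ne_top_of_nonneg hs (ENNReal.mul_ne_top ENNReal.ofReal_ne_top hYt)
    · exact ENNReal.mul_ne_top ENNReal.ofReal_ne_top
        (ENNReal.mul_ne_top ENNReal.ofReal_ne_top hYt)
  refine (ENNReal.toReal_mono h6 h).trans (le_of_eq ?_)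
  rw [ENNReal.toReal_mul, ENNReal.toReal_mul, ENNReal.toReal_mul, ENNReal.toReal_mul,
    ← ENNReal.toReal_rpow, ENNReal.toReal_mul, ENNReal.toReal_ofReal hN.L0,
    ENNReal.toReal_ofReal h5, ENNReal.toReal_ofReal (by positivity), ENNReal.coe_toReal]

end BDD_

open BDD_ in
theorem p_BDD (hCAC : T_CAC) (hHAR : T_HAR) (hPOI : T_POI) (hDGI : T_DGI) : T_BDD := by
  intro n σ hOK u L hN
  obtain ⟨C₀, hC₀⟩ := stepR hCAC hHAR hPOI hOK
  have hn : (0 : ℝ) < n := by
    have := hOK.1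
    positivity
  have hσ : 0 < σ := by
    have := hOK.2.1
    linarith
  set s : ℝ := 2 * σ / n with hs
  have hs0 : 0 < s := by positivity
  have hL := hN.L0
  set b : ℝ := 2 * 4 ^ s with hb
  have h4s : 1 ≤ (4 : ℝ) ^ s := Real.one_le_rpow (by norm_num) hs0.le
  have hb1 : 1 < b := by linarith
  set C₁ : ℝ := C₀ * L * 8 * 4 ^ s + 1 with hC₁
  have hC₁0 : 0 < C₁ := by positivity
  obtain ⟨ε, hε, hD⟩ := hDGI C₁ b s hC₁0 hb1 hs0
  set M : ℝ := 1 + ε⁻¹ with hM
  have hM1 : 1 ≤ M := by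
    have : 0 < ε⁻¹ := by positivity
    linarith
  have hM0 : 0 < M := by linarith
  set kk : ℕ → ℝ := fun j => M * (2 - (2 ^ j)⁻¹) with hkk
  have hkk0 : ∀ j, 0 ≤ kk j := by
    intro j
    have h1 : ((2 : ℝ) ^ j)⁻¹ ≤ 1 := inv_le_one_of_one_le₀ (one_le_pow₀ (by norm_num))
    have : 0 ≤ 2 - ((2 : ℝ) ^ j)⁻¹ := by linarith
    positivity
  have hkk2 : ∀ j, kk j ≤ 2 * M := by
    intro j
    have h1 : 0 ≤ ((2 : ℝ) ^ j)⁻¹ := by positivity
    show M * (2 - (2 ^ j)⁻¹) ≤ 2 * M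
    nlinarith
  have hdiff : ∀ j, kk (j + 1) - kk j = M / 2 ^ (j + 1) := by
    intro j
    show M * (2 - (2 ^ (j + 1))⁻¹) - M * (2 - (2 ^ j)⁻¹) = M / 2 ^ (j + 1)
    rw [pow_succ]
    field_simp
    ring
  set y : ℕ → ℝ := fun j => (∫⁻ x, sq (pos (u x - kk j))).toReal with hy
  have hy0 : ∀ j, 0 ≤ y j := fun j => ENNReal.toReal_nonneg
  have hy1 : ∀ j, y j ≤ 1 := by
    intro j
    have := ENNReal.toReal_mono ENNReal.one_ne_top (Y_le hN (hkk0 j))
    rwa [ENNReal.toReal_one] at this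
  set Z : ℕ → ℝ := fun j => y j / M ^ 2 with hZ
  have hZ0 : ∀ j, 0 ≤ Z j := fun j => div_nonneg (hy0 j) (by positivity)
  have hlim := hD Z hZ0 (by
    show y 0 / M ^ 2 ≤ ε
    rw [div_le_iff₀ (by positivity)]
    have h1 : 1 ≤ ε * M := by
      rw [hM, mul_add, mul_inv_cancel₀ hε.ne']
      linarith
    have h2 : ε * M ≤ ε * M ^ 2 := by
      have : M ≤ M ^ 2 := by nlinarith
      gcongr
    linarith [hy1 0]) (by
    intro j
    have hd := hdiff j
    have hd0 : 0 < M / 2 ^ (j + 1) := by positivity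
    have h1 := hC₀ hN (hkk0 j) (by linarith : kk j < kk (j + 1))
    rw [hd] at h1
    have e1 : ((M / 2 ^ (j + 1)) ^ 2)⁻¹ * (∫⁻ x, sq (pos (u x - kk j))).toReal =
        4 ^ (j + 1) * Z j := by
      show _ * y j = 4 ^ (j + 1) * (y j / M ^ 2)
      have e4 : (4 : ℝ) ^ (j + 1) = (2 ^ (j + 1)) ^ 2 := by
        rw [← pow_mul, mul_comm, pow_mul]
        norm_num
      rw [e4]
      field_simp
    rw [e1] at h1
    have e2 : kk (j + 1) / (M / 2 ^ (j + 1)) ≤ 2 * 2 ^ (j + 1) := by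
      rw [div_le_iff₀ hd0]
      have : 2 * (2 : ℝ) ^ (j + 1) * (M / 2 ^ (j + 1)) = 2 * M := by field_simp
      rw [this]
      exact hkk2 (j + 1)
    have e3 : (1 : ℝ) + kk (j + 1) / (M / 2 ^ (j + 1)) ≤ 8 * 2 ^ j := by
      have e5 : (1 : ℝ) ≤ 2 ^ j := one_le_pow₀ (by norm_num)
      have e6 : (2 : ℝ) ^ (j + 1) = 2 * 2 ^ j := by ring
      rw [e6] at e2
      rw [e6]
      linarith
    have e7 : ((4 : ℝ) ^ (j + 1) * Z j) ^ s = 4 ^ s * (4 ^ s) ^ j * Z j ^ s := by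
      rw [Real.mul_rpow (by positivity) (hZ0 j), ← Real.rpow_natCast, ← Real.rpow_mul (by norm_num),
        ← Real.rpow_natCast, ← Real.rpow_mul (by norm_num), ← Real.rpow_add (by norm_num)]
      congr 2
      push_cast
      ring
    rw [e7] at h1
    have e8 : Z j ^ (1 + s) = Z j * Z j ^ s := by
      rw [Real.rpow_add_of_nonneg (hZ0 j) (by norm_num) hs0.le, Real.rpow_one]
    have e9 : b ^ j = 2 ^ j * (4 ^ s) ^ j := by rw [hb, mul_pow]
    have hZs : 0 ≤ Z j ^ s := Real.rpow_nonneg (hZ0 j) s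
    show y (j + 1) / M ^ 2 ≤ C₁ * b ^ j * Z j ^ (1 + s)
    rw [div_le_iff₀ (by positivity), e8, e9]
    calc y (j + 1) ≤ C₀ * (4 ^ s * (4 ^ s) ^ j * Z j ^ s) *
          (L * ((1 + kk (j + 1) / (M / 2 ^ (j + 1))) * y j)) := h1
      _ ≤ C₀ * (4 ^ s * (4 ^ s) ^ j * Z j ^ s) * (L * ((8 * 2 ^ j) * y j)) := by
          have := hy0 j
          gcongr
      _ = (C₀ * L * 8 * 4 ^ s) * (2 ^ j * (4 ^ s) ^ j) * (y j / M ^ 2 * Z j ^ s) * M ^ 2 := by
          field_simp
      _ ≤ C₁ * (2 ^ j * (4 ^ s) ^ j) * (Z j * Z j ^ s) * M ^ 2 := by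
          have h10 : 0 ≤ y j / M ^ 2 := hZ0 j
          have h11 : C₀ * L * 8 * 4 ^ s ≤ C₁ := by linarith
          show _ ≤ C₁ * (2 ^ j * (4 ^ s) ^ j) * (y j / M ^ 2 * Z j ^ s) * M ^ 2
          gcongr)
  -- the limit
  have hylim : Tendsto y atTop (𝓝 0) := by
    have h1 := hlim.mul_const (M ^ 2)
    rw [zero_mul] at h1
    refine h1.congr (fun j => ?_)
    show y j / M ^ 2 * M ^ 2 = y j
    field_simp
  have hzero : (∫⁻ x, sq (pos (u x - 2 * M))).toReal = 0 := by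
    apply le_antisymm _ ENNReal.toReal_nonneg
    refine ge_of_tendsto' hylim (fun j => ?_)
    apply ENNReal.toReal_mono (ne_top_of_le_ne_top ENNReal.one_ne_top (Y_le hN (hkk0 j)))
    apply lintegral_mono
    intro x
    apply sq_le
    rw [abs_of_nonneg (pos_nonneg _), abs_of_nonneg (pos_nonneg _)]
    apply pos_mono
    linarith [hkk2 j]
  have hfin : ∫⁻ x, sq (pos (u x - 2 * M)) ≠ ∞ :=
    ne_top_of_le_ne_top ENNReal.one_ne_top (Y_le hN (by positivity))
  have hz : ∫⁻ x, sq (pos (u x - 2 * M)) = 0 := by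
    rcases (ENNReal.toReal_eq_zero_iff _).1 hzero with h | h
    · exact h
    · exact absurd h hfin
  refine ⟨2 * M, by positivity, ?_⟩
  have hm : Measurable fun x => sq (pos (u x - 2 * M)) :=
    measurable_sq.comp (measurable_pos.comp (hN.meas.sub_const _))
  rw [lintegral_eq_zero_iff hm] at hz
  filter_upwards [hz] with x hx
  have h1 : sq (pos (u x - 2 * M)) = 0 := hx
  unfold sq at h1
  rw [ENNReal.ofReal_eq_zero] at h1
  have h2 : pos (u x - 2 * M) ^ 2 = 0 := le_antisymm h1 (by positivity)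
  have h3 : pos (u x - 2 * M) = 0 := by
    exact pow_eq_zero_iff (by norm_num) |>.1 h2
  have h4 := le_pos (u x - 2 * M)
  linarith

end RFK
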