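import Pool.Agent.RFK.Targets

/-!
# MP_35334d_an, CAL: the Caccioppoli inequality from below (helper36, for helper27)
-/

set_option autoImplicit false

open MeasureTheory Filter Topology Metric Set
open scoped ENNReal NNReal

namespace RFK

namespace CAL_

variable {n : ℕ} {σ : ℝ}

theorem cut_meas {η : X n → ℝ} {d : ℝ} (h : Cut η d) : Measurable η := by
  have hd := h.1
  have hL : LipschitzWith (Real.toNNReal (1 / d)) η := by
    apply LipschitzWith.of_dist_le_mul
    intro x y
    rw [Real.dist_eq, dist_eq_norm, Real.coe_toNNReal _ (by positivity)]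
    calc |η x - η y| ≤ ‖x - y‖ / d := h.2.2 x y
      _ = 1 / d * ‖x - y‖ := by ring
  exact hL.continuous.measurable

theorem En_congr_set {A A' : Set (X n)} (h : A =ᵐ[volume] A') (u : X n → ℝ) :
    En σ A u = En σ A' u := by
  unfold En
  rw [Measure.restrict_congr_set h]

/-- the pointwise identity -/
theorem key (k t p q r s : ℝ) :
    ((p + t * (pos (k - p) * r ^ 2)) - (q + t * (pos (k - q) * s ^ 2))) ^ 2 +
      2 * t * ((pos (k - p) * r - pos (k - q) * s) ^ 2 +
        (pos (k - p) * r ^ 2 * pos (q - k) + pos (k - q) * s ^ 2 * pos (p - k))) =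
    (p - q) ^ 2 + (2 * t * (pos (k - p) * pos (k - q) * (r - s) ^ 2) +
      t ^ 2 * (pos (k - p) * r ^ 2 - pos (k - q) * s ^ 2) ^ 2) := by
  rcases le_total p k with hp | hp <;> rcases le_total q k with hq | hq
  · rw [pos_of_nonneg (by linarith : 0 ≤ k - p), pos_of_nonneg (by linarith : 0 ≤ k - q),
      pos_of_nonpos (by linarith : q - k ≤ 0), pos_of_nonpos (by linarith : p - k ≤ 0)]
    ring
  · rw [pos_of_nonneg (by linarith : 0 ≤ k - p), pos_of_nonpos (by linarith : k - q ≤ 0),
      pos_of_nonneg (by linarith : 0 ≤ q - k), pos_of_nonpos (by linarith : p - k ≤ 0)]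
    ring
  · rw [pos_of_nonpos (by linarith : k - p ≤ 0), pos_of_nonneg (by linarith : 0 ≤ k - q),
      pos_of_nonpos (by linarith : q - k ≤ 0), pos_of_nonneg (by linarith : 0 ≤ p - k)]
    ring
  · rw [pos_of_nonpos (by linarith : k - p ≤ 0), pos_of_nonpos (by linarith : k - q ≤ 0),
      pos_of_nonneg (by linarith : 0 ≤ q - k), pos_of_nonneg (by linarith : 0 ≤ p - k)]
    ring

/-- the pointwise identity in `[0, ∞]` -/
theorem keyE (k t p q r s : ℝ) (ht : 0 ≤ t) :
    sq ((p + t * (pos (k - p) * r ^ 2)) - (q + t * (pos (k - q) * s ^ 2))) +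
      ENNReal.ofReal (2 * t) * (sq (pos (k - p) * r - pos (k - q) * s) +
        (ENNReal.ofReal (pos (k - p) * r ^ 2 * pos (q - k)) +
          ENNReal.ofReal (pos (k - q) * s ^ 2 * pos (p - k)))) =
    sq (p - q) + (ENNReal.ofReal (2 * t) *
      ENNReal.ofReal (pos (k - p) * pos (k - q) * (r - s) ^ 2) +
      ENNReal.ofReal (t ^ 2) * sq (pos (k - p) * r ^ 2 - pos (k - q) * s ^ 2)) := by
  have h1 := pos_nonneg (k - p)
  have h2 := pos_nonneg (k - q)
  have h3 := pos_nonneg (p - k)
  have h4 := pos_nonneg (q - k)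
  unfold sq
  rw [← ENNReal.ofReal_add (by positivity) (by positivity),
    ← ENNReal.ofReal_add (by positivity) (by positivity),
    ← ENNReal.ofReal_mul (by positivity), ← ENNReal.ofReal_mul (by positivity),
    ← ENNReal.ofReal_mul (by positivity),
    ← ENNReal.ofReal_add (by positivity) (by positivity),
    ← ENNReal.ofReal_add (by positivity) (by positivity),
    ← ENNReal.ofReal_add (by positivity) (by positivity), key]

/-- the limit `t → 0` -/
theorem lim {P N E : ℝ≥0∞} (hE : E ≠ ∞)
    (h : ∀ t : ℝ, 0 < t → t ≤ 1 →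
      ENNReal.ofReal (2 * t) * P ≤ ENNReal.ofReal (2 * t) * N + ENNReal.ofReal (t ^ 2) * E) :
    P ≤ N := by
  apply ENNReal.le_of_forall_pos_le_add
  intro ε hε _
  have he : (0 : ℝ) ≤ E.toReal := ENNReal.toReal_nonneg
  have hε' : (0 : ℝ) < ε := hε
  obtain ⟨t, ht0, ht1, ht2⟩ : ∃ t : ℝ, 0 < t ∧ t ≤ 1 ∧ t * E.toReal ≤ ε := by
    refine ⟨min 1 (ε / (E.toReal + 1)), by positivity, min_le_left _ _, ?_⟩
    calc min 1 (ε / (E.toReal + 1)) * E.toReal ≤ ε / (E.toReal + 1) * (E.toReal + 1) := by
          apply mul_le_mul (min_le_right _ _) (by linarith) he (by positivity)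
      _ = ε := by field_simp
  have h1 := h t ht0 ht1
  have hc0 : ENNReal.ofReal (2 * t) ≠ 0 := by
    rw [Ne, ENNReal.ofReal_eq_zero, not_le]
    positivity
  have hct : ENNReal.ofReal (2 * t) ≠ ∞ := ENNReal.ofReal_ne_top
  rw [← ENNReal.mul_le_mul_iff_right hc0 hct, mul_add]
  refine h1.trans (add_le_add le_rfl ?_)
  rw [← ENNReal.ofReal_toReal hE, ← ENNReal.ofReal_mul (by positivity)]
  have h2 : (ε : ℝ≥0∞) = ENNReal.ofReal (ε : ℝ) := by simp
  rw [h2, ← ENNReal.ofReal_mul (by positivity)]
  apply ENNReal.ofReal_le_ofReal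
  nlinarith [mul_nonneg ht0.le hε'.le]

/-- the support of the cut-off function has finite measure -/
theorem supp_fin {u η : X n → ℝ} (hv : volume {x | 0 < u x} ≠ ∞)
    (h0 : volume ({x | η x ≠ 0} \ {x | 0 < u x}) = 0) : volume {x | η x ≠ 0} ≠ ∞ := by
  have h1 : volume {x | η x ≠ 0} ≤ volume {x | 0 < u x} + 0 := by
    rw [← h0]
    refine (measure_mono ?_).trans (measure_union_le _ _)
    intro x hx
    by_cases h : x ∈ {x | 0 < u x}
    · exact Or.inl h
    · exact Or.inr ⟨hx, h⟩
  rw [add_zero] at h1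
  exact ne_top_of_le_ne_top hv h1

end CAL_

open CAL_ in
/-- CAL: the Caccioppoli inequality from below -/
theorem p_CAL (hE : T_ETA) : T_CAL := by
  intro n σ hok u L hu k d η hη h0
  obtain ⟨CE, hCE⟩ := hE n σ hok
  have hηm := cut_meas hη
  have hum := hu.meas
  -- `φ`
  set φ : X n → ℝ := fun x => pos (k - u x) * η x ^ 2 with hφ
  have hφm : Measurable φ := by
    have := measurable_pos
    fun_prop
  have hφ0 : ∀ x, 0 ≤ φ x := fun x => mul_nonneg (pos_nonneg _) (sq_nonneg _)
  have hpk : ∀ x, pos (k - u x) ≤ |k| := by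
    intro x
    unfold pos
    apply max_le _ (abs_nonneg k)
    linarith [hu.nonneg x, le_abs_self k]
  have hφk : ∀ x, φ x ≤ |k| := by
    intro x
    have h1 := hη.2.1 x
    calc φ x ≤ |k| * 1 := by
          apply mul_le_mul (hpk x) (by nlinarith) (sq_nonneg _) (abs_nonneg k)
      _ = |k| := mul_one _
  have hΩm : MeasurableSet {x | 0 < u x} := measurableSet_lt measurable_const hum
  have hsf := supp_fin hu.vol h0
  have hSm : MeasurableSet {x | η x ≠ 0} := (measurableSet_eq_fun hηm measurable_const).compl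
  -- `∫ φ²` is finite
  have hφ2 : ∫⁻ x, sq (φ x) ≠ ∞ := by
    have h1 : ∫⁻ x, sq (φ x) ≤ ∫⁻ x in {x | η x ≠ 0}, ENNReal.ofReal (|k| ^ 2) := by
      rw [← lintegral_indicator hSm]
      apply lintegral_mono
      intro x
      by_cases hx : η x = 0
      · simp [hφ, hx, sq]
      · rw [indicator_of_mem (show x ∈ {x | η x ≠ 0} from hx)]
        apply ENNReal.ofReal_le_ofReal
        exact pow_le_pow_left₀ (hφ0 x) (hφk x) 2
    rw [lintegral_const, Measure.restrict_apply MeasurableSet.univ, univ_inter] at h1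
    exact ne_top_of_le_ne_top (ENNReal.mul_ne_top ENNReal.ofReal_ne_top hsf) h1
  -- the energy of `φ` is finite
  have hEη : En σ univ η ≠ ∞ :=
    ne_top_of_le_ne_top (ENNReal.mul_ne_top (ENNReal.mul_ne_top ENNReal.coe_ne_top
      ENNReal.ofReal_ne_top) hsf) (hCE η d hη)
  have hEφ : En σ univ φ ≠ ∞ := by
    have h1 : En σ univ φ ≤ 2 * En σ univ u + ENNReal.ofReal (8 * |k| ^ 2) * En σ univ η := by
      rw [En_eq, En_eq, En_eq, ← DI_const_mul (by simp), ← DI_const_mul ENNReal.ofReal_ne_top,
        ← DI_add ((measurable_dsq hum).const_mul 2)]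
      apply DI_mono MeasurableSet.univ MeasurableSet.univ
      intro x _ y _
      have h2 : φ x - φ y = (pos (k - u x) - pos (k - u y)) * η x ^ 2 +
          pos (k - u y) * (η x + η y) * (η x - η y) := by
        simp only [hφ]
        ring
      rw [h2]
      refine (sq_add_le _ _).trans ?_
      gcongr ?_ + ?_
      · gcongr
        apply sq_le
        rw [abs_mul, abs_of_nonneg (sq_nonneg (η x))]
        have h3 := hη.2.1 x
        calc |pos (k - u x) - pos (k - u y)| * η x ^ 2 ≤ |(k - u x) - (k - u y)| * 1 := by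
              apply mul_le_mul (abs_pos_sub_pos_le _ _) (by nlinarith) (sq_nonneg _)
                (abs_nonneg _)
          _ = |u x - u y| := by
              rw [mul_one, ← abs_neg]
              congr 1
              ring
      · rw [show (2 : ℝ≥0∞) = ENNReal.ofReal 2 by simp]
        unfold sq
        rw [← ENNReal.ofReal_mul (by norm_num), ← ENNReal.ofReal_mul (by positivity)]
        apply ENNReal.ofReal_le_ofReal
        have h3 := hη.2.1 x
        have h4 := hη.2.1 y
        have h5 : (pos (k - u y) * (η x + η y)) ^ 2 ≤ (|k| * 2) ^ 2 := by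
          apply pow_le_pow_left₀ (mul_nonneg (pos_nonneg _) (by linarith))
          exact mul_le_mul (hpk y) (by linarith) (by linarith) (abs_nonneg k)
        rw [mul_pow]
        nlinarith [sq_nonneg (η x - η y), mul_le_mul_of_nonneg_right h5 (sq_nonneg (η x - η y))]
    refine ne_top_of_le_ne_top ?_ h1
    exact ENNReal.add_ne_top.mpr ⟨ENNReal.mul_ne_top (by simp) hu.fin,
      ENNReal.mul_ne_top ENNReal.ofReal_ne_top hEη⟩
  have hEφΩ : En σ {x | 0 < u x} φ ≠ ∞ := ne_top_of_le_ne_top hEφ (En_mono (subset_univ _) φ)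
  -- measurability
  have hmP := measurable_pos
  have hm1 : Measurable (Function.uncurry fun x y : X n =>
      ENNReal.ofReal (pos (k - u x) * η x ^ 2 * pos (u y - k))) := by
    apply ENNReal.measurable_ofReal.comp
    exact (((measurable_pos.comp (measurable_const.sub (hum.comp measurable_fst))).mul
      ((hηm.comp measurable_fst).pow_const 2)).mul
      (measurable_pos.comp ((hum.comp measurable_snd).sub_const k)))
  have hm2 : Measurable (Function.uncurry fun x y : X n =>
      ENNReal.ofReal (pos (k - u x) * pos (k - u y) * (η x - η y) ^ 2)) := by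
    apply ENNReal.measurable_ofReal.comp
    exact (((measurable_pos.comp (measurable_const.sub (hum.comp measurable_fst))).mul
      (measurable_pos.comp (measurable_const.sub (hum.comp measurable_snd)))).mul
      (((hηm.comp measurable_fst).sub (hηm.comp measurable_snd)).pow_const 2))
  have hwm : Measurable fun x => pos (k - u x) * η x :=
    (measurable_pos.comp (measurable_const.sub hum)).mul hηm
  apply lim hEφΩ
  intro t ht0 ht1
  -- the competitor
  set v : X n → ℝ := fun x => u x + t * φ x with hv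
  have hvm : Measurable v := hum.add (hφm.const_mul t)
  have hv0 : ∀ x, 0 ≤ v x := fun x => add_nonneg (hu.nonneg x) (mul_nonneg ht0.le (hφ0 x))
  have huv : ∀ x, u x ≤ v x := fun x => le_add_of_nonneg_right (mul_nonneg ht0.le (hφ0 x))
  have hvn : ∫⁻ x, sq (v x) ≠ ∞ := by
    have h1 : ∫⁻ x, sq (v x) ≤ (2 * ∫⁻ x, sq (u x)) + 2 * (sq t * ∫⁻ x, sq (φ x)) := by
      rw [← lintegral_const_mul' _ _ (sq_ne_top t), ← lintegral_const_mul' _ _ (by simp),
        ← lintegral_const_mul' _ _ (by simp),
        ← lintegral_add_left ((measurable_sq_comp hum).const_mul 2)]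
      apply lintegral_mono
      intro x
      simp only [hv]
      refine (sq_add_le _ _).trans_eq ?_
      rw [sq_mul]
    refine ne_top_of_le_ne_top ?_ h1
    rw [hu.norm]
    exact ENNReal.add_ne_top.mpr ⟨by simp, ENNReal.mul_ne_top (by simp)
      (ENNReal.mul_ne_top (sq_ne_top t) hφ2)⟩
  have hvE : En σ univ v ≠ ∞ := by
    have h1 : En σ univ v ≤ 2 * En σ univ u + 2 * sq t * En σ univ φ := by
      rw [En_eq, En_eq, En_eq, ← DI_const_mul (by simp),
        ← DI_const_mul (ENNReal.mul_ne_top (by simp) (sq_ne_top t)),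
        ← DI_add ((measurable_dsq hum).const_mul 2)]
      apply DI_mono MeasurableSet.univ MeasurableSet.univ
      intro x _ y _
      have h2 : v x - v y = (u x - u y) + t * (φ x - φ y) := by
        simp only [hv]
        ring
      rw [h2]
      refine (sq_add_le _ _).trans_eq ?_
      rw [sq_mul, mul_assoc]
    refine ne_top_of_le_ne_top ?_ h1
    exact ENNReal.add_ne_top.mpr ⟨ENNReal.mul_ne_top (by simp) hu.fin,
      ENNReal.mul_ne_top (ENNReal.mul_ne_top (by simp) (sq_ne_top t)) hEφ⟩
  have hsub : {x | 0 < u x} ⊆ {x | 0 < v x} := fun x hx => lt_of_lt_of_le hx (huv x)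
  have hset : {x | 0 < v x} =ᵐ[volume] {x | 0 < u x} := by
    rw [ae_eq_set]
    refine ⟨measure_mono_null ?_ h0, by rw [sdiff_eq_empty.mpr hsub]; exact measure_empty⟩
    rintro x ⟨hx1, hx2⟩
    refine ⟨?_, hx2⟩
    intro hη0
    apply hx2
    have h3 : φ x = 0 := by simp [hφ, hη0]
    have h4 : 0 < v x := hx1
    simp only [hv, h3, mul_zero, add_zero] at h4
    exact h4
  have hvol : volume {x | 0 < v x} = volume {x | 0 < u x} := measure_congr hset
  have hmin := hu.min v hvm hv0 hvn hvE (by rw [hvol]; exact hu.vol)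
  have hvolr : volume.real {x | 0 < v x} = volume.real {x | 0 < u x} := by
    simp only [Measure.real, hvol]
  rw [hvolr, add_sub_cancel_right, En_congr_set hset v] at hmin
  have hEvΩ : En σ {x | 0 < u x} v ≠ ∞ := ne_top_of_le_ne_top hvE (En_mono (subset_univ _) v)
  have hone : 1 ≤ (∫⁻ x, sq (v x)).toReal := by
    have h1 : ∫⁻ x, sq (u x) ≤ ∫⁻ x, sq (v x) := by
      apply lintegral_mono
      intro x
      apply sq_le
      rw [abs_of_nonneg (hu.nonneg x), abs_of_nonneg (hv0 x)]
      exact huv x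
    rw [hu.norm] at h1
    have h2 := ENNReal.toReal_mono hvn h1
    simpa using h2
  have hL : L ≤ (En σ {x | 0 < u x} v).toReal := by
    refine le_trans ?_ hmin
    nlinarith [hu.L0]
  have hLE : En σ {x | 0 < u x} u ≤ En σ {x | 0 < u x} v := by
    rw [hu.lam, ← ENNReal.ofReal_toReal hEvΩ]
    exact ENNReal.ofReal_le_ofReal hL
  -- integrate the identity
  have hswap : DI σ {x | 0 < u x} {x | 0 < u x}
      (fun x y => ENNReal.ofReal (pos (k - u y) * η y ^ 2 * pos (u x - k))) =
      DI σ {x | 0 < u x} {x | 0 < u x}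
      (fun x y => ENNReal.ofReal (pos (k - u x) * η x ^ 2 * pos (u y - k))) :=
    (DI_swap hm1).symm
  have hint : En σ {x | 0 < u x} v + ENNReal.ofReal (2 * t) *
      (En σ {x | 0 < u x} (fun x => pos (k - u x) * η x) +
        2 * DI σ {x | 0 < u x} {x | 0 < u x}
        (fun x y => ENNReal.ofReal (pos (k - u x) * η x ^ 2 * pos (u y - k)))) =
      En σ {x | 0 < u x} u + (ENNReal.ofReal (2 * t) * DI σ {x | 0 < u x} {x | 0 < u x}
        (fun x y => ENNReal.ofReal (pos (k - u x) * pos (k - u y) * (η x - η y) ^ 2)) +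
        ENNReal.ofReal (t ^ 2) * En σ {x | 0 < u x} φ) := by
    have hc : ENNReal.ofReal (2 * t) ≠ ∞ := ENNReal.ofReal_ne_top
    have hc' : ENNReal.ofReal (t ^ 2) ≠ ∞ := ENNReal.ofReal_ne_top
    rw [two_mul (DI σ {x | 0 < u x} {x | 0 < u x}
      (fun x y => ENNReal.ofReal (pos (k - u x) * η x ^ 2 * pos (u y - k))))]
    nth_rewrite 2 [← hswap]
    rw [En_eq _ v, En_eq _ (fun x => pos (k - u x) * η x), En_eq _ u, En_eq _ φ,
      ← DI_add hm1, ← DI_add (measurable_dsq hwm), ← DI_const_mul hc, ← DI_const_mul hc,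
      ← DI_const_mul hc', ← DI_add (measurable_dsq hvm), ← DI_add (hm2.const_mul _),
      ← DI_add (measurable_dsq hum)]
    apply DI_congr hΩm hΩm
    intro x _ y _
    simp only [hv, hφ]
    exact keyE k t (u x) (u y) (η x) (η y) ht0.le
  have hfinu : En σ {x | 0 < u x} u ≠ ∞ := by
    rw [hu.lam]
    exact ENNReal.ofReal_ne_top
  have hfinal : En σ {x | 0 < u x} u + ENNReal.ofReal (2 * t) *
      (En σ {x | 0 < u x} (fun x => pos (k - u x) * η x) +
        2 * DI σ {x | 0 < u x} {x | 0 < u x}
        (fun x y => ENNReal.ofReal (pos (k - u x) * η x ^ 2 * pos (u y - k)))) ≤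
      En σ {x | 0 < u x} u + (ENNReal.ofReal (2 * t) * DI σ {x | 0 < u x} {x | 0 < u x}
        (fun x y => ENNReal.ofReal (pos (k - u x) * pos (k - u y) * (η x - η y) ^ 2)) +
        ENNReal.ofReal (t ^ 2) * En σ {x | 0 < u x} φ) := by
    rw [← hint]
    gcongr
  exact (ENNReal.add_le_add_iff_left hfinu).mp hfinal

end RFK
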