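import Pool.Agent.RFK.Targets

/-!
# CMP: the competitor `max u (k η)`
-/

set_option autoImplicit false

open MeasureTheory Filter Topology Metric Set
open scoped ENNReal NNReal

namespace RFK

namespace CMP_

variable {n : ℕ} {σ : ℝ}

theorem cut_cont {η : X n → ℝ} {d : ℝ} (h : Cut η d) : Continuous η := by
  have hl : LipschitzWith (Real.toNNReal (1 / d)) η := by
    apply LipschitzWith.of_dist_le_mul
    intro x y
    rw [Real.dist_eq, dist_eq_norm, Real.coe_toNNReal _ (by have := h.1; positivity)]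
    refine (h.2.2 x y).trans (le_of_eq ?_)
    ring
  exact hl.continuous

theorem set_eq {η : X n → ℝ} {d : ℝ} (h : Cut η d) : {x | η x ≠ 0} = {x | 0 < η x} := by
  ext x
  simp only [mem_ofPred_eq]
  exact ⟨fun hx => lt_of_le_of_ne (h.2.1 x).1 (Ne.symm hx), fun hx => hx.ne'⟩

theorem sq_max_sub (a b c e : ℝ) : sq (max a b - max c e) ≤ sq (a - c) + sq (b - e) := by
  unfold sq
  rw [← ENNReal.ofReal_add (by positivity) (by positivity)]
  apply ENNReal.ofReal_le_ofReal
  have h := abs_max_sub_max_le_max a b c e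
  have h1 : (max a b - max c e) ^ 2 ≤ (max |a - c| |b - e|) ^ 2 := by
    rw [← sq_abs (max a b - max c e)]
    exact pow_le_pow_left₀ (abs_nonneg _) h 2
  refine h1.trans ?_
  rcases max_choice |a - c| |b - e| with h2 | h2
  · rw [h2, sq_abs]
    nlinarith [sq_nonneg (b - e)]
  · rw [h2, sq_abs]
    nlinarith [sq_nonneg (a - c)]

theorem sq_max_le (a b : ℝ) : sq (max a b) ≤ sq a + sq b := by
  unfold sq
  rw [← ENNReal.ofReal_add (by positivity) (by positivity)]
  apply ENNReal.ofReal_le_ofReal
  rcases max_choice a b with h2 | h2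
  · rw [h2]
    nlinarith [sq_nonneg b]
  · rw [h2]
    nlinarith [sq_nonneg a]

end CMP_

open CMP_

theorem p_CMP (h : T_ETA) : T_CMP := by
  intro n σ hOK u L hu k d η hk hη hvol
  obtain ⟨C, hC⟩ := h n σ hOK
  have hE := hC η d hη
  rw [set_eq hη] at hE
  have hηm : Measurable η := (cut_cont hη).measurable
  have hEη : En σ univ η ≠ ∞ := by
    refine ne_top_of_le_ne_top ?_ hE
    exact ENNReal.mul_ne_top (ENNReal.mul_ne_top ENNReal.coe_ne_top ENNReal.ofReal_ne_top) hvol
  set v : X n → ℝ := fun x => max (u x) (k * η x) with hv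
  have hvm : Measurable v := hu.meas.max (hηm.const_mul k)
  have hv0 : ∀ x, 0 ≤ v x := fun x => le_max_of_le_left (hu.nonneg x)
  have hset : {x | 0 < v x} = {x | 0 < u x} ∪ {x | 0 < η x} := by
    ext x
    simp only [hv, mem_ofPred_eq, mem_union, lt_max_iff]
    constructor
    · rintro (h1 | h1)
      · exact Or.inl h1
      · exact Or.inr ((mul_pos_iff_of_pos_left hk).1 h1)
    · rintro (h1 | h1)
      · exact Or.inl h1
      · exact Or.inr (mul_pos hk h1)
  have hum := hu.meas
  have hΩ : MeasurableSet {x | 0 < u x} := measurableSet_lt measurable_const hum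
  have hA : MeasurableSet {x | 0 < η x} := measurableSet_lt measurable_const hηm
  -- the norm of `v`
  have hsqv : ∫⁻ x, sq (v x) ≤ 1 + ENNReal.ofReal (k ^ 2) * volume {x | 0 < η x} := by
    calc ∫⁻ x, sq (v x) ≤ ∫⁻ x, (sq (u x) + ENNReal.ofReal (k ^ 2) *
          ({x | 0 < η x}.indicator (fun _ => 1) x)) := by
          apply lintegral_mono
          intro x
          refine (sq_max_le _ _).trans ?_
          apply add_le_add le_rfl
          rw [sq_mul]
          unfold sq
          apply mul_le_mul' le_rfl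
          by_cases hx : 0 < η x
          · rw [indicator_of_mem (show x ∈ {x | 0 < η x} from hx)]
            rw [← ENNReal.ofReal_one]
            apply ENNReal.ofReal_le_ofReal
            have h1 := (hη.2.1 x).2
            nlinarith
          · have h1 : η x = 0 := le_antisymm (not_lt.1 hx) (hη.2.1 x).1
            rw [h1]
            simp
      _ = 1 + ENNReal.ofReal (k ^ 2) * volume {x | 0 < η x} := by
          rw [lintegral_add_left (measurable_sq_comp hum), hu.norm,
            lintegral_const_mul' _ _ ENNReal.ofReal_ne_top, lintegral_indicator hA]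
          simp
  have hfin : ∫⁻ x, sq (v x) ≠ ∞ := by
    refine ne_top_of_le_ne_top ?_ hsqv
    exact ENNReal.add_ne_top.2 ⟨ENNReal.one_ne_top, ENNReal.mul_ne_top ENNReal.ofReal_ne_top hvol⟩
  have hge : 1 ≤ ∫⁻ x, sq (v x) := by
    rw [← hu.norm]
    apply lintegral_mono
    intro x
    apply sq_le
    rw [abs_of_nonneg (hu.nonneg x), abs_of_nonneg (hv0 x)]
    exact le_max_left _ _
  -- the energy of `v`
  have hEnv : En σ univ v ≠ ∞ := by
    have h1 : En σ univ v ≤ En σ univ u + ENNReal.ofReal (k ^ 2) * En σ univ η := by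
      rw [En_eq, En_eq, En_eq, ← DI_const_mul ENNReal.ofReal_ne_top,
        ← DI_add (measurable_dsq hum)]
      apply DI_mono MeasurableSet.univ MeasurableSet.univ
      intro x _ y _
      refine (sq_max_sub _ _ _ _).trans ?_
      rw [← mul_sub, sq_mul]
      rfl
    refine ne_top_of_le_ne_top ?_ h1
    exact ENNReal.add_ne_top.2 ⟨hu.fin, ENNReal.mul_ne_top ENNReal.ofReal_ne_top hEη⟩
  have hvolv : volume {x | 0 < v x} ≠ ∞ := by
    rw [hset]
    refine ne_top_of_le_ne_top ?_ (measure_union_le _ _)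
    exact ENNReal.add_ne_top.2 ⟨hu.vol, hvol⟩
  have hmin := hu.min v hvm hv0 hfin hEnv hvolv
  rw [hset] at hmin
  -- the volumes
  have hdec : {x | 0 < u x} ∪ {x | 0 < η x} = {x | 0 < u x} ∪ ({x | 0 < η x} \ {x | 0 < u x}) := by
    rw [union_sdiff_self]
  have hαfin : volume ({x | 0 < η x} \ {x | 0 < u x}) ≠ ∞ :=
    ne_top_of_le_ne_top hvol (measure_mono sdiff_subset)
  have hreal : volume.real ({x | 0 < u x} ∪ {x | 0 < η x}) = volume.real {x | 0 < u x} +
      volume.real ({x | 0 < η x} \ {x | 0 < u x}) := by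
    rw [hdec, measureReal_union disjoint_sdiff_self_right (hA.diff hΩ) hu.vol hαfin]
  set α := volume.real ({x | 0 < η x} \ {x | 0 < u x}) with hα
  have hα0 : 0 ≤ α := measureReal_nonneg
  have hEfin : En σ ({x | 0 < u x} ∪ {x | 0 < η x}) v ≠ ∞ :=
    ne_top_of_le_ne_top hEnv (En_mono (subset_univ _) v)
  set E := (En σ ({x | 0 < u x} ∪ {x | 0 < η x}) v).toReal with hEdef
  have hE0 : 0 ≤ E := ENNReal.toReal_nonneg
  set V := (∫⁻ x, sq (v x)).toReal with hV
  have hV1 : 1 ≤ V := by
    rw [hV, ← ENNReal.toReal_one]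
    exact ENNReal.toReal_mono hfin hge
  have hV2 : V ≤ 1 + k ^ 2 * volume.real {x | 0 < η x} := by
    have h1 := ENNReal.toReal_mono (ENNReal.add_ne_top.2 ⟨ENNReal.one_ne_top,
      ENNReal.mul_ne_top ENNReal.ofReal_ne_top hvol⟩) hsqv
    rw [ENNReal.toReal_add ENNReal.one_ne_top (ENNReal.mul_ne_top ENNReal.ofReal_ne_top hvol),
      ENNReal.toReal_mul, ENNReal.toReal_ofReal (by positivity), ENNReal.toReal_one] at h1
    exact h1
  have hL : L ≤ E + (1 + k ^ 2 * volume.real {x | 0 < η x}) * α := by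
    rw [hreal] at hmin
    have h1 : (L + volume.real {x | 0 < u x} - (volume.real {x | 0 < u x} + α)) * V =
        L * V - α * V := by ring
    rw [h1] at hmin
    have h2 : L ≤ L * V := le_mul_of_one_le_right hu.L0 hV1
    have h3 : α * V ≤ α * (1 + k ^ 2 * volume.real {x | 0 < η x}) :=
      mul_le_mul_of_nonneg_left hV2 hα0
    linarith
  rw [hu.lam]
  refine (ENNReal.ofReal_le_ofReal hL).trans (le_of_eq ?_)
  have hvr : 0 ≤ volume.real {x | 0 < η x} := measureReal_nonneg
  have hαe : ENNReal.ofReal α = volume ({x | 0 < η x} \ {x | 0 < u x}) := by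
    rw [hα, measureReal_def, ENNReal.ofReal_toReal hαfin]
  rw [ENNReal.ofReal_add hE0 (by positivity), ENNReal.ofReal_mul (by positivity), hEdef,
    ENNReal.ofReal_toReal hEfin, hαe]

end RFK
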