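import Pool.Agent.RFK.Targets

/-!
# MP_35334d_an, CNT: the continuous representative (helper76, for helper27)
-/

set_option autoImplicit false

open MeasureTheory Filter Topology Metric Set
open scoped ENNReal NNReal

namespace RFK

namespace CNT_

variable {n : ℕ}

/-- the exponent -/
theorem exponent {θ : ℝ} (h0 : 0 < θ) (h1 : θ ≤ 1 / 4) :
    ∃ α : ℝ, 0 < α ∧ α ≤ 1 ∧ (1 / 4 : ℝ) ^ α = 1 - θ := by
  have e := Real.rpow_logb (b := (1 / 4 : ℝ)) (x := 1 - θ) (by norm_num) (by norm_num) (by linarith)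
  refine ⟨Real.logb (1 / 4) (1 - θ),
    Real.logb_pos_of_base_lt_one (by norm_num) (by norm_num) (by linarith) (by linarith), ?_, e⟩
  by_contra hc
  push Not at hc
  have h2 : (1 / 4 : ℝ) ^ (Real.logb (1 / 4) (1 - θ)) ≤ (1 / 4 : ℝ) ^ (1 : ℝ) :=
    Real.rpow_le_rpow_of_exponent_ge (by norm_num) (by norm_num) hc.le
  rw [e, Real.rpow_one] at h2
  linarith

theorem rpow_subadd {α s t : ℝ} (h0 : 0 < α) (h1 : α ≤ 1) (hs : 0 ≤ s) (ht : 0 ≤ t) :
    (s + t) ^ α ≤ s ^ α + t ^ α := by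
  have h := NNReal.rpow_add_le_add_rpow ⟨s, hs⟩ ⟨t, ht⟩ h0.le h1
  exact_mod_cast h

/-- extension of Hölder continuous functions -/
theorem extend {N : Set (X n)} {u : X n → ℝ} {α C : ℝ} (h0 : 0 < α) (h1 : α ≤ 1) (hC : 0 ≤ C)
    (hne : (Nᶜ).Nonempty) (hu0 : ∀ x ∈ Nᶜ, 0 ≤ u x)
    (hu : ∀ x ∈ Nᶜ, ∀ y ∈ Nᶜ, |u x - u y| ≤ C * ‖x - y‖ ^ α) :
    ∃ g : X n → ℝ, (∀ x y, |g x - g y| ≤ C * ‖x - y‖ ^ α) ∧ ∀ x ∈ Nᶜ, u x = g x := by
  have : Nonempty (Nᶜ : Set (X n)) := hne.to_subtype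
  set g : X n → ℝ := fun x => ⨅ y : (Nᶜ : Set (X n)), (u y + C * ‖x - y‖ ^ α) with hg
  have hb : ∀ x : X n, BddBelow (range fun y : (Nᶜ : Set (X n)) => u y + C * ‖x - y‖ ^ α) := by
    intro x
    refine ⟨0, ?_⟩
    rintro _ ⟨y, rfl⟩
    have h2 := hu0 y y.2
    positivity
  have hle : ∀ x y : X n, g x ≤ g y + C * ‖x - y‖ ^ α := by
    intro x y
    rw [← sub_le_iff_le_add]
    refine le_ciInf (fun z => ?_)
    rw [sub_le_iff_le_add]
    refine (ciInf_le (hb x) z).trans ?_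
    have h2 : ‖x - z‖ ^ α ≤ ‖y - z‖ ^ α + ‖x - y‖ ^ α := by
      calc ‖x - z‖ ^ α ≤ (‖y - z‖ + ‖x - y‖) ^ α := by
            refine Real.rpow_le_rpow (norm_nonneg _) ?_ h0.le
            have h3 := norm_add_le (x - y) (y - (z : X n))
            rw [sub_add_sub_cancel] at h3
            linarith
        _ ≤ _ := rpow_subadd h0 h1 (norm_nonneg _) (norm_nonneg _)
    have h4 := mul_le_mul_of_nonneg_left h2 hC
    linarith
  refine ⟨g, ?_, ?_⟩
  · intro x y
    rw [abs_sub_le_iff]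
    constructor
    · have := hle x y
      linarith
    · have := hle y x
      rw [norm_sub_rev] at this
      linarith
  · intro x hx
    apply le_antisymm
    · refine le_ciInf (fun y => ?_)
      have h2 := (abs_le.mp (hu x hx y y.2)).2
      linarith
    · refine (ciInf_le (hb x) ⟨x, hx⟩).trans ?_
      simp [Real.zero_rpow h0.ne']

end CNT_

open CNT_ in
theorem p_CNT : T_CNT := by
  intro n u θ R₀ M₀ hθ hθ1 hR hM hu hosc
  obtain ⟨α, hα0, hα1, hα⟩ := exponent hθ hθ1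
  choose a ha using hosc
  -- the exceptional set
  have hae : ∀ᵐ x : X n, (0 ≤ u x ∧ u x ≤ M₀) ∧ ∀ i j : ℕ,
      x ∈ ball (TopologicalSpace.denseSeq (X n) i) (R₀ / 4 ^ j) →
        a (TopologicalSpace.denseSeq (X n) i) j ≤ u x ∧
          u x ≤ a (TopologicalSpace.denseSeq (X n) i) j + M₀ * (1 - θ) ^ j := by
    refine hu.and ?_
    rw [ae_all_iff]
    intro i
    rw [ae_all_iff]
    intro j
    exact ha _ j
  set N : Set (X n) := {x | (0 ≤ u x ∧ u x ≤ M₀) ∧ ∀ i j : ℕ,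
      x ∈ ball (TopologicalSpace.denseSeq (X n) i) (R₀ / 4 ^ j) →
        a (TopologicalSpace.denseSeq (X n) i) j ≤ u x ∧
          u x ≤ a (TopologicalSpace.denseSeq (X n) i) j + M₀ * (1 - θ) ^ j}ᶜ with hN
  have hNc : ∀ x, x ∈ Nᶜ → (0 ≤ u x ∧ u x ≤ M₀) ∧ ∀ i j : ℕ,
      x ∈ ball (TopologicalSpace.denseSeq (X n) i) (R₀ / 4 ^ j) →
        a (TopologicalSpace.denseSeq (X n) i) j ≤ u x ∧
          u x ≤ a (TopologicalSpace.denseSeq (X n) i) j + M₀ * (1 - θ) ^ j := by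
    intro x hx
    rw [hN, compl_compl] at hx
    exact hx
  have hne : (Nᶜ).Nonempty := by
    rw [hN, compl_compl]
    exact hae.exists
  set C : ℝ := M₀ * (16 / R₀) ^ α with hC
  have hC0 : 0 ≤ C := by positivity
  have hH : ∀ x ∈ Nᶜ, ∀ y ∈ Nᶜ, |u x - u y| ≤ C * ‖x - y‖ ^ α := by
    intro x hx y hy
    obtain ⟨⟨hx0, hx1⟩, hx2⟩ := hNc x hx
    obtain ⟨⟨hy0, hy1⟩, hy2⟩ := hNc y hy
    rcases eq_or_ne x y with rfl | hxy
    · rw [sub_self, abs_zero]
      positivity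
    have ht : 0 < ‖x - y‖ := norm_pos_iff.mpr (sub_ne_zero.mpr hxy)
    have hCe : C * ‖x - y‖ ^ α = M₀ * (16 * ‖x - y‖ / R₀) ^ α := by
      rw [hC, mul_assoc, ← Real.mul_rpow (by positivity) (by positivity)]
      congr 2
      ring
    rw [hCe]
    rcases le_or_gt (R₀ / 4) ‖x - y‖ with hbig | hsmall
    · have h1 : (1 : ℝ) ≤ (16 * ‖x - y‖ / R₀) ^ α := by
        refine Real.one_le_rpow ?_ hα0.le
        rw [le_div_iff₀ hR]
        linarith
      have h2 : |u x - u y| ≤ M₀ := by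
        rw [abs_le]
        constructor <;> linarith
      calc |u x - u y| ≤ M₀ * 1 := by linarith
        _ ≤ _ := mul_le_mul_of_nonneg_left h1 hM.le
    · obtain ⟨j, hj1, hj2⟩ := exists_nat_pow_near_of_lt_one (x := 4 * ‖x - y‖ / R₀)
        (y := (1 / 4 : ℝ)) (by positivity) (by rw [div_le_one hR]; linarith) (by norm_num)
        (by norm_num)
      have h4j : (0 : ℝ) < 4 ^ j := by positivity
      have hj2' : ‖x - y‖ ≤ R₀ / 4 ^ (j + 1) := by
        rw [one_div, inv_pow, div_le_iff₀ hR, inv_mul_eq_div, le_div_iff₀ h4j] at hj2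
        rw [le_div_iff₀ (by positivity), pow_succ]
        linarith
      have hj1' : (1 / 4 : ℝ) ^ j ≤ 16 * ‖x - y‖ / R₀ := by
        rw [pow_succ] at hj1
        have h5 : (4 * ‖x - y‖ / R₀) * 4 = 16 * ‖x - y‖ / R₀ := by ring
        linarith
      obtain ⟨i, hi⟩ := (TopologicalSpace.denseRange_denseSeq (X n)).exists_dist_lt x
        (show (0 : ℝ) < R₀ / 4 ^ (j + 1) by positivity)
      have h6 : R₀ / 4 ^ (j + 1) + R₀ / 4 ^ (j + 1) ≤ R₀ / 4 ^ j := by
        have h7 : R₀ / 4 ^ (j + 1) = R₀ / 4 ^ j / 4 := by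
          rw [pow_succ, div_div]
        have h8 : 0 < R₀ / 4 ^ j := by positivity
        rw [h7]
        linarith
      have h9 : (0 : ℝ) < R₀ / 4 ^ (j + 1) := by positivity
      have hxb : x ∈ ball (TopologicalSpace.denseSeq (X n) i) (R₀ / 4 ^ j) := by
        rw [mem_ball]
        linarith
      have hyb : y ∈ ball (TopologicalSpace.denseSeq (X n) i) (R₀ / 4 ^ j) := by
        rw [mem_ball]
        have h10 := dist_triangle y x (TopologicalSpace.denseSeq (X n) i)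
        have h11 : dist y x = ‖x - y‖ := by rw [dist_comm, dist_eq_norm]
        linarith
      have hx3 := hx2 i j hxb
      have hy3 := hy2 i j hyb
      have h12 : |u x - u y| ≤ M₀ * (1 - θ) ^ j := by
        rw [abs_le]
        constructor <;> linarith [hx3.1, hx3.2, hy3.1, hy3.2]
      refine h12.trans (mul_le_mul_of_nonneg_left ?_ hM.le)
      calc (1 - θ) ^ j = ((1 / 4 : ℝ) ^ α) ^ j := by rw [hα]
        _ = ((1 / 4 : ℝ) ^ j) ^ α := by
            rw [← Real.rpow_natCast, ← Real.rpow_natCast, ← Real.rpow_mul (by norm_num),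
              ← Real.rpow_mul (by norm_num), mul_comm]
        _ ≤ _ := Real.rpow_le_rpow (by positivity) hj1' hα0.le
  obtain ⟨g, hg1, hg2⟩ := extend hα0 hα1 hC0 hne (fun x hx => (hNc x hx).1.1) hH
  refine ⟨g, α, C, hα0, hg1, ?_⟩
  filter_upwards [hae] with x hx
  apply hg2
  rw [hN, compl_compl]
  exact hx

end RFK
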