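import Pool.Agent.RFK.Targets

/-!
# MP_35334d_an, target DE1: density of functions with compact support
-/

set_option autoImplicit false

open MeasureTheory Filter Topology Metric Set
open scoped ENNReal NNReal

namespace RFK

namespace DE1_

variable {n : ℕ} {σ : ℝ}

lemma sq_one_sub_le {t : ℝ} (h0 : 0 ≤ t) (h1 : t ≤ 1) : sq (1 - t) ≤ 1 := by
  unfold sq
  rw [← ENNReal.ofReal_one]
  exact ENNReal.ofReal_le_ofReal (by nlinarith)

lemma first (v η : X n → ℝ) :
    DI σ univ univ (fun x y => 2 * (sq (1 - η x) * sq (v x - v y))) =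
      2 * ∫⁻ x, sq (1 - η x) * ∫⁻ y, sq (v x - v y) * K σ (x - y) := by
  rw [DI_const_mul (by norm_num)]
  congr 1
  unfold DI
  simp only [Measure.restrict_univ]
  apply lintegral_congr
  intro x
  rw [← lintegral_const_mul' _ _ (sq_ne_top _)]
  apply lintegral_congr
  intro y
  rw [mul_assoc]

lemma second (v η : X n → ℝ) (hv : Measurable v) (hη : Measurable η) {A : ℝ≥0∞} (hA : A ≠ ∞)
    (h : ∀ x, ∫⁻ y, sq (η x - η y) * K σ (x - y) ≤ A) :
    DI σ univ univ (fun x y => 2 * (sq (v y) * sq (η x - η y))) ≤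
      2 * (A * ∫⁻ x, sq (v x)) := by
  rw [DI_const_mul (by norm_num)]
  gcongr
  rw [DI_swap ((measurable_sq_comp (hv.comp measurable_snd)).mul (measurable_dsq hη))]
  unfold DI
  simp only [Measure.restrict_univ]
  rw [← lintegral_const_mul' _ _ hA]
  apply lintegral_mono
  intro x
  change ∫⁻ y, sq (v x) * sq (η y - η x) * K σ (x - y) ≤ A * sq (v x)
  have h1 : ∀ y, sq (v x) * sq (η y - η x) * K σ (x - y) =
      sq (v x) * (sq (η x - η y) * K σ (x - y)) := by
    intro y
    rw [sq_sub_comm (η y) (η x), mul_assoc]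
  simp_rw [h1]
  rw [lintegral_const_mul' _ _ (sq_ne_top _), mul_comm]
  gcongr
  exact h x

lemma bound (v η : X n → ℝ) (hv : Measurable v) (hη : Measurable η) {A : ℝ≥0∞} (hA : A ≠ ∞)
    (h : ∀ x, ∫⁻ y, sq (η x - η y) * K σ (x - y) ≤ A) :
    En σ univ (fun x => v x * η x - v x) ≤
      2 * (∫⁻ x, sq (1 - η x) * ∫⁻ y, sq (v x - v y) * K σ (x - y)) +
      2 * (A * ∫⁻ x, sq (v x)) := by
  rw [En_eq, ← first]
  refine le_trans ?_ (add_le_add le_rfl (second v η hv hη hA h))
  rw [← DI_add]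
  · refine DI_mono MeasurableSet.univ MeasurableSet.univ fun x _ y _ => ?_
    have e : v x * η x - v x - (v y * η y - v y) =
        -((1 - η x) * (v x - v y)) + v y * (η x - η y) := by ring
    rw [e]
    refine (sq_add_le _ _).trans ?_
    rw [sq_neg, sq_mul, sq_mul]
  · have h1 : Measurable (Function.uncurry fun x _ : X n => sq (1 - η x)) :=
      measurable_sq_comp (measurable_const.sub (hη.comp measurable_fst))
    exact measurable_const.mul (h1.mul (measurable_dsq hv))

end DE1_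

open DE1_

theorem p_DE1 (hKCU : T_KCU) (hPRO : T_PRO) : T_DE1 := by
  intro n σ hok v hv hv2 hvE ε hε
  have hσ : 0 < σ := by linarith [hok.2.1]
  obtain ⟨C, hC⟩ := hKCU n σ hok
  obtain ⟨C', hC'⟩ := hPRO n σ hok
  set η : ℕ → X n → ℝ := fun k => cut ((k : ℝ) + 1) (2 * ((k : ℝ) + 1)) with hη
  have hk0 : ∀ k : ℕ, (0:ℝ) < (k : ℝ) + 1 := fun k => by positivity
  have hlt : ∀ k : ℕ, (k : ℝ) + 1 < 2 * ((k : ℝ) + 1) := fun k => by linarith [hk0 k]
  have hcut : ∀ k, Cut (η k) ((k : ℝ) + 1) := by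
    intro k
    refine ⟨hk0 k, fun x => ⟨cut_nonneg _ _ _, cut_le_one _ _ _⟩, fun x y => ?_⟩
    have := cut_lip (hlt k) x y
    rw [show 2 * ((k : ℝ) + 1) - ((k : ℝ) + 1) = (k : ℝ) + 1 by ring] at this
    exact this
  have hηm : ∀ k, Measurable (η k) := fun k => measurable_cut _ _
  have hev : ∀ x : X n, ∀ᶠ k : ℕ in atTop, η k x = 1 := by
    intro x
    obtain ⟨N, hN⟩ := exists_nat_ge ‖x‖
    refine Filter.eventually_atTop.2 ⟨N, fun k hk => ?_⟩
    have h1 : (N : ℝ) ≤ k := by exact_mod_cast hk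
    exact cut_eq_one (hlt k) (by linarith)
  -- the `L²` part
  have hL2 : Tendsto (fun k => ∫⁻ x, sq (v x * η k x - v x)) atTop (𝓝 0) := by
    have h1 : Tendsto (fun k => ∫⁻ x, sq (v x * η k x - v x)) atTop (𝓝 (∫⁻ _ : X n, (0 : ℝ≥0∞))) := by
      refine tendsto_lintegral_of_dominated_convergence (fun x => sq (v x))
        (fun k => measurable_sq_comp ((hv.mul (hηm k)).sub hv)) (fun k => ?_) hv2 ?_
      · refine ae_of_all _ fun x => ?_
        refine sq_le ?_
        rw [show v x * η k x - v x = -(v x * (1 - η k x)) by ring, abs_neg, abs_mul]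
        have h2 := (hcut k).2.1 x
        have h3 : |1 - η k x| ≤ 1 := by
          rw [abs_le]
          constructor <;> linarith [h2.1, h2.2]
        exact mul_le_of_le_one_right (abs_nonneg _) h3
      · refine ae_of_all _ fun x => ?_
        refine tendsto_const_nhds.congr' ?_
        filter_upwards [hev x] with k hk
        rw [hk, mul_one, sub_self, sq_zero]
    simpa using h1
  -- the first part of the energy
  have hGm : Measurable fun x => ∫⁻ y, sq (v x - v y) * K σ (x - y) := by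
    have := measurable_inner (σ := σ) (measurable_dsq hv) univ
    simpa using this
  have hGf : ∫⁻ x, ∫⁻ y, sq (v x - v y) * K σ (x - y) ≠ ∞ := by
    rw [En_eq] at hvE
    unfold DI at hvE
    simpa using hvE
  have hE1 : Tendsto (fun k => ∫⁻ x, sq (1 - η k x) * ∫⁻ y, sq (v x - v y) * K σ (x - y))
      atTop (𝓝 0) := by
    have h1 : Tendsto (fun k => ∫⁻ x, sq (1 - η k x) * ∫⁻ y, sq (v x - v y) * K σ (x - y))
        atTop (𝓝 (∫⁻ _ : X n, (0 : ℝ≥0∞))) := by
      refine tendsto_lintegral_of_dominated_convergence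
        (fun x => ∫⁻ y, sq (v x - v y) * K σ (x - y))
        (fun k => (measurable_sq_comp (measurable_const.sub (hηm k))).mul hGm)
        (fun k => ?_) hGf ?_
      · refine ae_of_all _ fun x => ?_
        have h2 := (hcut k).2.1 x
        exact mul_le_of_le_one_left' (sq_one_sub_le h2.1 h2.2)
      · refine ae_of_all _ fun x => ?_
        refine tendsto_const_nhds.congr' ?_
        filter_upwards [hev x] with k hk
        rw [hk, sub_self, sq_zero, zero_mul]
    simpa using h1
  -- the second part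
  have hpow : Tendsto (fun k : ℕ => ENNReal.ofReal (((k : ℝ) + 1) ^ (-(2 * σ)))) atTop (𝓝 0) := by
    have h1 : Tendsto (fun k : ℕ => ((k : ℝ) + 1) ^ (-(2 * σ))) atTop (𝓝 0) :=
      (tendsto_rpow_neg_atTop (by linarith)).comp
        (tendsto_atTop_add_const_right _ _ tendsto_natCast_atTop_atTop)
    have h2 := ENNReal.tendsto_ofReal h1
    rwa [ENNReal.ofReal_zero] at h2
  have hE2 : Tendsto (fun k : ℕ => (C : ℝ≥0∞) * ENNReal.ofReal (((k : ℝ) + 1) ^ (-(2 * σ))) *
      ∫⁻ x, sq (v x)) atTop (𝓝 0) := by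
    have h1 := ENNReal.Tendsto.const_mul hpow (Or.inr (ENNReal.coe_ne_top (r := C)))
    rw [mul_zero] at h1
    have h2 := ENNReal.Tendsto.mul_const h1 (Or.inr hv2)
    rwa [zero_mul] at h2
  have hE : Tendsto (fun k : ℕ =>
      2 * (∫⁻ x, sq (1 - η k x) * ∫⁻ y, sq (v x - v y) * K σ (x - y)) +
      2 * ((C : ℝ≥0∞) * ENNReal.ofReal (((k : ℝ) + 1) ^ (-(2 * σ))) * ∫⁻ x, sq (v x)))
      atTop (𝓝 0) := by
    have h1 := ENNReal.Tendsto.const_mul hE1 (Or.inr (by norm_num : (2 : ℝ≥0∞) ≠ ∞))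
    have h2 := ENNReal.Tendsto.const_mul hE2 (Or.inr (by norm_num : (2 : ℝ≥0∞) ≠ ∞))
    have h3 := h1.add h2
    simpa using h3
  obtain ⟨k, hk1, hk2⟩ := ((hL2.eventually_le_const hε).and (hE.eventually_le_const hε)).exists
  refine ⟨fun x => v x * η k x, hv.mul (hηm k), ?_, ?_, ?_, hk1, ?_⟩
  · refine HasCompactSupport.of_support_subset_isCompact
      (isCompact_closedBall (0 : X n) (2 * ((k : ℝ) + 1))) ?_
    intro x hx
    rw [mem_closedBall_zero_iff]
    by_contra hc
    push Not at hc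
    apply hx
    change v x * η k x = 0
    have : η k x = 0 := cut_eq_zero (hlt k) hc.le
    rw [this, mul_zero]
  · refine ne_top_of_le_ne_top hv2 (lintegral_mono fun x => ?_)
    refine sq_le ?_
    rw [abs_mul]
    have h2 := (hcut k).2.1 x
    have h3 : |η k x| ≤ 1 := by
      rw [abs_le]
      constructor <;> linarith [h2.1, h2.2]
    exact mul_le_of_le_one_right (abs_nonneg _) h3
  · refine ne_top_of_le_ne_top ?_ (hC' (η k) v _ (hcut k) hv)
    refine ENNReal.add_ne_top.2 ⟨ENNReal.mul_ne_top (by norm_num) hvE, ?_⟩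
    exact ENNReal.mul_ne_top (ENNReal.mul_ne_top ENNReal.coe_ne_top ENNReal.ofReal_ne_top) hv2
  · refine (bound v (η k) hv (hηm k) (A := C * ENNReal.ofReal (((k : ℝ) + 1) ^ (-(2 * σ))))
      (ENNReal.mul_ne_top ENNReal.coe_ne_top ENNReal.ofReal_ne_top)
      (hC (η k) _ (hcut k))).trans hk2

end RFK
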