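import Pool.Agent.RFK.Targets

/-!
# MP_35334d_an, DE2: density of `C¹_c` by mollification (helper75)
-/

set_option autoImplicit false

open MeasureTheory Filter Topology Metric Set
open scoped ENNReal NNReal Convolution

namespace RFK

namespace DE2_

variable {n : ℕ} {σ : ℝ}

theorem sq_eq_enorm (t : ℝ) : sq t = ‖t‖ₑ ^ (2 : ℝ) := by
  rw [sq, ← sq_abs, ← Real.norm_eq_abs, ENNReal.ofReal_pow (norm_nonneg _), ofReal_norm]
  norm_cast

/-- Jensen's inequality for the square -/
theorem jensen {α : Type*} [MeasurableSpace α] {μ : Measure α} {ρ h : α → ℝ}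
    (hρ : ∀ t, 0 ≤ ρ t) (hρm : Measurable ρ) (hρ1 : ∫⁻ t, ENNReal.ofReal (ρ t) ∂μ = 1)
    (hh : Measurable h) :
    sq (∫ t, ρ t * h t ∂μ) ≤ ∫⁻ t, ENNReal.ofReal (ρ t) * sq (h t) ∂μ := by
  have hρm' : Measurable fun t => ENNReal.ofReal (ρ t) := hρm.ennreal_ofReal
  have hprob : IsProbabilityMeasure (μ.withDensity fun t => ENNReal.ofReal (ρ t)) := by
    constructor
    rw [withDensity_apply _ MeasurableSet.univ, setLIntegral_univ, hρ1]
  have h1 : ‖∫ t, ρ t * h t ∂μ‖ₑ ≤
      eLpNorm h 1 (μ.withDensity fun t => ENNReal.ofReal (ρ t)) := by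
    refine (enorm_integral_le_lintegral_enorm _).trans ?_
    rw [eLpNorm_one_eq_lintegral_enorm,
      lintegral_withDensity_eq_lintegral_mul _ hρm' hh.enorm]
    apply lintegral_mono
    intro t
    simp only [Pi.mul_apply]
    rw [enorm_mul, Real.enorm_eq_ofReal (hρ t)]
  have h2 : eLpNorm h 1 (μ.withDensity fun t => ENNReal.ofReal (ρ t)) ≤
      eLpNorm h 2 (μ.withDensity fun t => ENNReal.ofReal (ρ t)) :=
    eLpNorm_le_eLpNorm_of_exponent_le (by norm_num) hh.aestronglyMeasurable
  have h3 := eLpNorm_nnreal_pow_eq_lintegral (f := h)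
    (μ := μ.withDensity fun t => ENNReal.ofReal (ρ t)) (p := 2) two_ne_zero
  rw [lintegral_withDensity_eq_lintegral_mul _ hρm' (hh.enorm.pow_const _)] at h3
  rw [sq_eq_enorm]
  calc ‖∫ t, ρ t * h t ∂μ‖ₑ ^ (2 : ℝ)
      ≤ eLpNorm h 2 (μ.withDensity fun t => ENNReal.ofReal (ρ t)) ^ (2 : ℝ) :=
        ENNReal.rpow_le_rpow (h1.trans h2) (by norm_num)
    _ = _ := by
        have h4 : ((2 : ℝ≥0) : ℝ≥0∞) = 2 := by norm_num
        have h5 : ((2 : ℝ≥0) : ℝ) = 2 := by norm_num
        rw [h4, h5] at h3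
        rw [h3]
        apply lintegral_congr
        intro t
        simp only [Pi.mul_apply]
        rw [sq_eq_enorm]

/-- the bound for a mollification: functions of one variable -/
theorem moll_sq {ρ : X n → ℝ} (hρ : ∀ t, 0 ≤ ρ t) (hρm : Measurable ρ)
    (hρ1 : ∫⁻ t, ENNReal.ofReal (ρ t) = 1) {G : X n → X n → ℝ}
    (hG : Measurable (Function.uncurry G)) {ε : ℝ≥0∞} {d : ℝ} (hd : ∀ t, d ≤ ‖t‖ → ρ t = 0)
    (hε : ∀ t, ‖t‖ < d → ∫⁻ x, sq (G x t) ≤ ε) :
    ∫⁻ x, sq (∫ t, ρ t * G x t) ≤ ε := by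
  have hm : Measurable (Function.uncurry fun x t : X n => ENNReal.ofReal (ρ t) * sq (G x t)) :=
    ((hρm.comp measurable_snd).ennreal_ofReal).mul (measurable_sq.comp hG)
  calc ∫⁻ x, sq (∫ t, ρ t * G x t)
      ≤ ∫⁻ x, ∫⁻ t, ENNReal.ofReal (ρ t) * sq (G x t) :=
        lintegral_mono fun x => jensen hρ hρm hρ1
          (hG.comp (measurable_const.prodMk measurable_id))
    _ = ∫⁻ t, ∫⁻ x, ENNReal.ofReal (ρ t) * sq (G x t) :=
        lintegral_lintegral_swap hm.aemeasurable
    _ = ∫⁻ t, ENNReal.ofReal (ρ t) * ∫⁻ x, sq (G x t) :=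
        lintegral_congr fun t => lintegral_const_mul' _ _ ENNReal.ofReal_ne_top
    _ ≤ ∫⁻ t, ENNReal.ofReal (ρ t) * ε := by
        apply lintegral_mono
        intro t
        rcases le_or_gt d ‖t‖ with ht | ht
        · simp [hd t ht]
        · exact mul_le_mul' le_rfl (hε t ht)
    _ = ε := by
        rw [lintegral_mul_const _ hρm.ennreal_ofReal, hρ1, one_mul]

/-- the bound for a mollification: energies -/
theorem moll_En {ρ : X n → ℝ} (hρ : ∀ t, 0 ≤ ρ t) (hρm : Measurable ρ)
    (hρ1 : ∫⁻ t, ENNReal.ofReal (ρ t) = 1) {G : X n → X n → ℝ}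
    (hG : Measurable (Function.uncurry G)) {ε : ℝ≥0∞} {d : ℝ} (hd : ∀ t, d ≤ ‖t‖ → ρ t = 0)
    (hint : ∀ x, Integrable fun t => ρ t * G x t)
    (hε : ∀ t, ‖t‖ < d → En σ univ (fun x => G x t) ≤ ε) :
    En σ univ (fun x => ∫ t, ρ t * G x t) ≤ ε := by
  have hm3 : Measurable fun p : X n × X n × X n =>
      ENNReal.ofReal (ρ p.2.2) * sq (G p.1 p.2.2 - G p.2.1 p.2.2) * K σ (p.1 - p.2.1) := by
    have h1 : Measurable fun p : X n × X n × X n => ENNReal.ofReal (ρ p.2.2) :=
      (hρm.comp (measurable_snd.comp measurable_snd)).ennreal_ofReal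
    have h2 : Measurable fun p : X n × X n × X n => G p.1 p.2.2 :=
      hG.comp (measurable_fst.prodMk (measurable_snd.comp measurable_snd))
    have h3 : Measurable fun p : X n × X n × X n => G p.2.1 p.2.2 :=
      hG.comp ((measurable_fst.comp measurable_snd).prodMk (measurable_snd.comp measurable_snd))
    have h4 : Measurable fun p : X n × X n × X n => K σ (p.1 - p.2.1) :=
      measurable_K.comp (measurable_fst.sub (measurable_fst.comp measurable_snd))
    exact (h1.mul (measurable_sq.comp (h2.sub h3))).mul h4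
  have hpt : ∀ x y : X n, sq ((∫ t, ρ t * G x t) - ∫ t, ρ t * G y t) ≤
      ∫⁻ t, ENNReal.ofReal (ρ t) * sq (G x t - G y t) := by
    intro x y
    rw [← integral_sub (hint x) (hint y)]
    have h1 : ∀ t, ρ t * G x t - ρ t * G y t = ρ t * (G x t - G y t) := fun t => by ring
    simp_rw [h1]
    exact jensen hρ hρm hρ1 ((hG.comp (measurable_const.prodMk measurable_id)).sub
      (hG.comp (measurable_const.prodMk measurable_id)))
  rw [En_eq]
  unfold DI
  rw [setLIntegral_univ]
  simp_rw [setLIntegral_univ]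
  have hyt : ∀ x : X n, Measurable (Function.uncurry fun y t : X n =>
      ENNReal.ofReal (ρ t) * sq (G x t - G y t) * K σ (x - y)) := fun x =>
    hm3.comp (measurable_const.prodMk (measurable_fst.prodMk measurable_snd))
  have hxt : Measurable (Function.uncurry fun x t : X n =>
      ∫⁻ y, ENNReal.ofReal (ρ t) * sq (G x t - G y t) * K σ (x - y)) := by
    have h1 : Measurable (Function.uncurry fun (q : X n × X n) (y : X n) =>
        ENNReal.ofReal (ρ q.2) * sq (G q.1 q.2 - G y q.2) * K σ (q.1 - y)) :=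
      hm3.comp ((measurable_fst.comp measurable_fst).prodMk
        (measurable_snd.prodMk (measurable_snd.comp measurable_fst)))
    exact h1.lintegral_prod_right'
  calc ∫⁻ x, ∫⁻ y, sq ((∫ t, ρ t * G x t) - ∫ t, ρ t * G y t) * K σ (x - y)
      ≤ ∫⁻ x, ∫⁻ y, ∫⁻ t, ENNReal.ofReal (ρ t) * sq (G x t - G y t) * K σ (x - y) := by
        apply lintegral_mono
        intro x
        apply lintegral_mono
        intro y
        simp only
        rw [lintegral_mul_const' _ _ (K_ne_top _)]
        exact mul_le_mul' (hpt x y) le_rfl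
    _ = ∫⁻ x, ∫⁻ t, ∫⁻ y, ENNReal.ofReal (ρ t) * sq (G x t - G y t) * K σ (x - y) :=
        lintegral_congr fun x => lintegral_lintegral_swap (hyt x).aemeasurable
    _ = ∫⁻ t, ∫⁻ x, ∫⁻ y, ENNReal.ofReal (ρ t) * sq (G x t - G y t) * K σ (x - y) :=
        lintegral_lintegral_swap hxt.aemeasurable
    _ = ∫⁻ t, ENNReal.ofReal (ρ t) * En σ univ (fun x => G x t) := by
        apply lintegral_congr
        intro t
        rw [En_eq]
        unfold DI
        rw [setLIntegral_univ]
        simp_rw [setLIntegral_univ]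
        rw [← lintegral_const_mul' _ _ ENNReal.ofReal_ne_top]
        apply lintegral_congr
        intro x
        rw [← lintegral_const_mul' _ _ ENNReal.ofReal_ne_top]
        apply lintegral_congr
        intro y
        rw [mul_assoc]
    _ ≤ ∫⁻ t, ENNReal.ofReal (ρ t) * ε := by
        apply lintegral_mono
        intro t
        rcases le_or_gt d ‖t‖ with ht | ht
        · simp [hd t ht]
        · exact mul_le_mul' le_rfl (hε t ht)
    _ = ε := by
        rw [lintegral_mul_const _ hρm.ennreal_ofReal, hρ1, one_mul]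

/-- a square integrable function with compact support is integrable -/
theorem integrable_of_sq {w : X n → ℝ} (hw : Measurable w) (hc : HasCompactSupport w)
    (h2 : ∫⁻ x, sq (w x) ≠ ∞) : Integrable w := by
  have h1 : MemLp w 2 volume := by
    refine ⟨hw.aestronglyMeasurable, ?_⟩
    have h3 := eLpNorm_nnreal_pow_eq_lintegral (f := w)
      (μ := (volume : Measure (X n))) (p := 2) two_ne_zero
    have h4 : ((2 : ℝ≥0) : ℝ≥0∞) = 2 := by norm_num
    have h5 : ((2 : ℝ≥0) : ℝ) = 2 := by norm_num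
    rw [h4, h5] at h3
    by_contra hcon
    rw [not_lt, top_le_iff] at hcon
    rw [hcon, ENNReal.top_rpow_of_pos (by norm_num)] at h3
    apply h2
    rw [h3]
    exact lintegral_congr fun x => sq_eq_enorm _
  have h2' : IntegrableOn w (tsupport w) := by
    have hfin : IsFiniteMeasure ((volume : Measure (X n)).restrict (tsupport w)) :=
      ⟨by rw [Measure.restrict_apply_univ]; exact hc.isCompact.measure_lt_top⟩
    exact (h1.restrict _).integrable (by norm_num)
  rwa [integrableOn_iff_integrable_of_support_subset (subset_tsupport w)] at h2'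

end DE2_

open DE2_ in
theorem p_DE2 (hT : T_TRC) : T_DE2 := by
  intro n σ hok w hw hc h2 hE ε hε
  obtain ⟨t1, t2⟩ := hT n σ hok w hw h2 hE
  have hwi : Integrable w := integrable_of_sq hw hc h2
  have e1 : ∀ᶠ z : X n in 𝓝 0, ∫⁻ x, sq (w (x - z) - w x) ≤ ε :=
    (t1.eventually (ge_mem_nhds hε)).mono fun z hz => hz
  have e2 : ∀ᶠ z : X n in 𝓝 0, En σ univ (fun x => w (x - z) - w x) ≤ ε :=
    (t2.eventually (ge_mem_nhds hε)).mono fun z hz => hz
  obtain ⟨d, hd, hball⟩ := Metric.eventually_nhds_iff_ball.mp (e1.and e2)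
  let b : ContDiffBump (0 : X n) := ⟨d / 2, d, by linarith, by linarith⟩
  let ρ : X n → ℝ := b.normed volume
  have hρ : ∀ t, 0 ≤ ρ t := b.nonneg_normed
  have hρc : Continuous ρ := b.continuous_normed
  have hρm : Measurable ρ := hρc.measurable
  have hρi : Integrable ρ := b.integrable_normed
  have hρ1' : ∫ t, ρ t = 1 := b.integral_normed
  have hρ1 : ∫⁻ t, ENNReal.ofReal (ρ t) = 1 := by
    rw [← ofReal_integral_eq_lintegral_ofReal hρi (Eventually.of_forall hρ), hρ1',
      ENNReal.ofReal_one]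
  have hρd : ∀ t, d ≤ ‖t‖ → ρ t = 0 := by
    intro t ht
    by_contra hne
    have h1 : t ∈ Function.support (b.normed volume) := hne
    rw [b.support_normed_eq, mem_ball_zero_iff] at h1
    exact absurd h1 (not_lt.mpr ht)
  have hρb : ∃ M, ∀ t, ‖ρ t‖ ≤ M := by
    obtain ⟨M, hM⟩ := hρc.bounded_above_of_compact_support b.hasCompactSupport_normed
    exact ⟨M, hM⟩
  obtain ⟨M, hM⟩ := hρb
  let G : X n → X n → ℝ := fun x t => w (x - t) - w x
  have hG : Measurable (Function.uncurry G) :=
    (hw.comp (measurable_fst.sub measurable_snd)).sub (hw.comp measurable_fst)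
  have hint1 : ∀ x, Integrable fun t => ρ t * w (x - t) := by
    intro x
    have h1 : Integrable fun t => w (x - t) := hwi.comp_sub_left x
    exact h1.bdd_mul hρm.aestronglyMeasurable (Eventually.of_forall hM)
  have hint : ∀ x, Integrable fun t => ρ t * G x t := by
    intro x
    have h1 : (fun t => ρ t * G x t) = fun t => ρ t * w (x - t) - ρ t * w x := by
      funext t
      simp only [G]
      ring
    rw [h1]
    exact (hint1 x).sub (hρi.mul_const _)
  let φ : X n → ℝ := ρ ⋆[ContinuousLinearMap.lsmul ℝ ℝ, volume] w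
  have hφ : ∀ x, φ x - w x = ∫ t, ρ t * G x t := by
    intro x
    have h1 : φ x = ∫ t, ρ t * w (x - t) := by
      simp only [φ, convolution_lsmul, smul_eq_mul]
    have h2 : w x = ∫ t, ρ t * w x := by
      rw [integral_mul_const, hρ1', one_mul]
    rw [h1]
    rw [h2]
    rw [← integral_sub (hint1 x) (hρi.mul_const _)]
    congr 1
    funext t
    simp only [G]
    ring
  refine ⟨φ, ?_, ?_, ?_, ?_⟩
  · exact HasCompactSupport.contDiff_convolution_left (n := 1) _ b.hasCompactSupport_normed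
      b.contDiff_normed hwi.locallyIntegrable
  · exact b.hasCompactSupport_normed.convolution _ hc
  · simp_rw [hφ]
    refine moll_sq hρ hρm hρ1 hG hρd ?_
    intro t ht
    exact (hball t (mem_ball_zero_iff.mpr ht)).1
  · simp_rw [hφ]
    refine moll_En hρ hρm hρ1 hG hρd hint ?_
    intro t ht
    exact (hball t (mem_ball_zero_iff.mpr ht)).2

end RFK
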