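import Pool.Agent.RFK.Targets

/-!
# MP_35334d_an, RFK-DEN: functions of finite energy and finite norm belong to the completion
(helper62)
-/

set_option autoImplicit false

open MeasureTheory Filter Topology Metric Set
open scoped ENNReal NNReal

namespace RFK

namespace DEN_

variable {n : ℕ} {σ : ℝ}

theorem En_add_le {a b c : X n → ℝ} (ha : Measurable a) (hb : Measurable b) (_hc : Measurable c) :
    En σ univ (fun x => a x - c x) ≤
      2 * En σ univ (fun x => a x - b x) + 2 * En σ univ (fun x => b x - c x) := by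
  rw [En_eq, En_eq, En_eq, ← DI_const_mul (by norm_num), ← DI_const_mul (by norm_num)]
  have h1 : Measurable (Function.uncurry fun x y : X n =>
      2 * sq ((fun x => a x - b x) x - (fun x => a x - b x) y)) :=
    (measurable_dsq (ha.sub hb)).const_mul 2
  rw [← DI_add h1]
  apply DI_mono MeasurableSet.univ MeasurableSet.univ
  intro x _ y _
  have h2 : a x - c x - (a y - c y) = (a x - b x - (a y - b y)) + (b x - c x - (b y - c y)) := by
    ring
  change sq (a x - c x - (a y - c y)) ≤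
    2 * sq (a x - b x - (a y - b y)) + 2 * sq (b x - c x - (b y - c y))
  rw [h2]
  exact sq_add_le _ _

theorem int_add_le {a b c : X n → ℝ} (ha : Measurable a) (hb : Measurable b) (_hc : Measurable c) :
    ∫⁻ x, sq (a x - c x) ≤ 2 * (∫⁻ x, sq (a x - b x)) + 2 * ∫⁻ x, sq (b x - c x) := by
  have hm : Measurable fun x => 2 * sq (a x - b x) :=
    (measurable_sq_comp (f := fun x => a x - b x) (ha.sub hb)).const_mul 2
  rw [← lintegral_const_mul' 2 _ (by norm_num), ← lintegral_const_mul' 2 _ (by norm_num),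
    ← lintegral_add_left hm]
  apply lintegral_mono
  intro x
  have h2 : a x - c x = (a x - b x) + (b x - c x) := by ring
  change sq (a x - c x) ≤ 2 * sq (a x - b x) + 2 * sq (b x - c x)
  rw [h2]
  exact sq_add_le _ _

theorem step (h1 : T_DE1) (h2 : T_DE2) (hOK : OK n σ) {v : X n → ℝ} (hv : Measurable v)
    (hi : ∫⁻ x, sq (v x) ≠ ∞) (he : En σ univ v ≠ ∞) {ε : ℝ≥0∞} (hε : 0 < ε) :
    ∃ φ : X n → ℝ, ContDiff ℝ 1 φ ∧ HasCompactSupport φ ∧
      ∫⁻ x, sq (φ x - v x) ≤ ε ∧ En σ univ (fun x => φ x - v x) ≤ ε := by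
  have hε4 : 0 < ε / 4 := ENNReal.div_pos hε.ne' (by norm_num)
  obtain ⟨w, hw, hwc, hwi, hwe, hd1, hd2⟩ := h1 n σ hOK v hv hi he (ε / 4) hε4
  obtain ⟨φ, hφ, hφc, hd3, hd4⟩ := h2 n σ hOK w hw hwc hwi hwe (ε / 4) hε4
  have hsum : 2 * (ε / 4) + 2 * (ε / 4) = ε := by
    rw [← add_mul]
    have h4 : (2 : ℝ≥0∞) + 2 = 4 := by norm_num
    rw [h4]
    exact ENNReal.mul_div_cancel (by norm_num) (by norm_num)
  have hφm : Measurable φ := hφ.continuous.measurable
  refine ⟨φ, hφ, hφc, ?_, ?_⟩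
  · refine (int_add_le hφm hw hv).trans ?_
    calc 2 * (∫⁻ x, sq (φ x - w x)) + 2 * ∫⁻ x, sq (w x - v x)
        ≤ 2 * (ε / 4) + 2 * (ε / 4) := by gcongr
      _ = ε := hsum
  · refine (En_add_le hφm hw hv).trans ?_
    calc 2 * En σ univ (fun x => φ x - w x) + 2 * En σ univ (fun x => w x - v x)
        ≤ 2 * (ε / 4) + 2 * (ε / 4) := by gcongr
      _ = ε := hsum

theorem tendsto_of_sq {f : ℕ → ℝ} {t : ℝ} (h : Tendsto (fun k => sq (f k - t)) atTop (𝓝 0)) :
    Tendsto f atTop (𝓝 t) := by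
  have h1 : Tendsto (fun k => (sq (f k - t)).toReal) atTop (𝓝 0) := by
    have := (ENNReal.tendsto_toReal ENNReal.zero_ne_top).comp h
    rw [ENNReal.toReal_zero] at this
    exact this
  have h2 : Tendsto (fun k => Real.sqrt ((sq (f k - t)).toReal)) atTop (𝓝 0) := by
    have := (Real.continuous_sqrt.tendsto 0).comp h1
    rw [Real.sqrt_zero] at this
    exact this
  have h3 : ∀ k, Real.sqrt ((sq (f k - t)).toReal) = |f k - t| := by
    intro k
    rw [sq_eq, ENNReal.toReal_ofReal (sq_nonneg _), Real.sqrt_sq_eq_abs]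
  simp_rw [h3] at h2
  have h4 : Tendsto (fun k => f k - t) atTop (𝓝 0) := tendsto_zero_iff_abs_tendsto_zero _ |>.mpr h2
  have h5 := h4.add_const t
  simpa using h5

end DEN_

open DEN_ in
theorem p_DEN (h1 : T_DE1) (h2 : T_DE2) : T_DEN := by
  intro n σ hOK v hv hi he
  have hpos : ∀ k : ℕ, (0 : ℝ≥0∞) < (2⁻¹ : ℝ≥0∞) ^ k := by
    intro k
    exact ENNReal.pow_pos (by norm_num) k
  choose φ hφ hφc hd1 hd2 using fun k : ℕ => step h1 h2 hOK hv hi he (hpos k)
  have hlim : Tendsto (fun k : ℕ => (2⁻¹ : ℝ≥0∞) ^ k) atTop (𝓝 0) :=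
    ENNReal.tendsto_pow_atTop_nhds_zero_of_lt_one (by norm_num)
  refine ⟨φ, fun k => ⟨hφ k, hφc k⟩, ?_, ?_⟩
  · exact tendsto_of_tendsto_of_tendsto_of_le_of_le tendsto_const_nhds hlim
      (fun _ => bot_le) hd2
  · have hm : ∀ k, Measurable fun x => sq (φ k x - v x) := fun k =>
      measurable_sq_comp ((hφ k).continuous.measurable.sub hv)
    have hsum : ∫⁻ x, ∑' k, sq (φ k x - v x) ≠ ∞ := by
      rw [lintegral_tsum fun k => (hm k).aemeasurable]
      refine ne_top_of_le_ne_top ?_ (ENNReal.tsum_le_tsum hd1)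
      rw [ENNReal.tsum_geometric]
      norm_num
    have hae : ∀ᵐ x, ∑' k, sq (φ k x - v x) < ∞ :=
      ae_lt_top (Measurable.tsum hm) hsum
    filter_upwards [hae] with x hx
    apply tendsto_of_sq
    exact ENNReal.tendsto_atTop_zero_of_tsum_ne_top hx.ne

end RFK
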