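import Pool.Agent.RFK.Basic

/-!
# MP_35334d_an: targets (helper27)

Every minimizer of `J` is Hölder continuous.
-/

set_option autoImplicit false

open MeasureTheory Filter Topology Metric Set
open scoped ENNReal NNReal

namespace RFK

/-! ## Numbers -/

/-- DGI: De Giorgi's fast geometric convergence -/
def T_DGI : Prop := ∀ C b α : ℝ, 0 < C → 1 < b → 0 < α → ∃ ε : ℝ, 0 < ε ∧ ∀ Y : ℕ → ℝ,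
  (∀ j, 0 ≤ Y j) → Y 0 ≤ ε → (∀ j, Y (j + 1) ≤ C * b ^ j * Y j ^ (1 + α)) →
  Tendsto Y atTop (𝓝 0)

/-- GIA: the iteration lemma of Giaquinta -/
def T_GIA : Prop := ∀ θ s : ℝ, 0 ≤ θ → θ < 1 → 0 < s → ∃ C : ℝ, 0 < C ∧
  ∀ (f : ℝ → ℝ) (a b A D M : ℝ), a < b → 0 ≤ A → 0 ≤ D → (∀ t ∈ Icc a b, 0 ≤ f t ∧ f t ≤ M) →
  (∀ ρ r : ℝ, a ≤ ρ → ρ < r → r ≤ b → f ρ ≤ θ * f r + A * (r - ρ) ^ (-s) + D) →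
  f a ≤ C * (A * (b - a) ^ (-s) + D)

/-! ## The kernel -/

/-- KTL: the tail of the kernel -/
def T_KTL : Prop := ∀ (n : ℕ) (σ : ℝ), OK n σ → ∃ C : ℝ≥0, ∀ ρ : ℝ, 0 < ρ → ∀ x : X n,
  ∫⁻ y in (ball x ρ)ᶜ, K σ (x - y) ≤ C * ENNReal.ofReal (ρ ^ (-(2 * σ)))

/-- a Lipschitz function with values in `[0,1]` -/
def Cut {n : ℕ} (η : X n → ℝ) (d : ℝ) : Prop := 0 < d ∧ (∀ x, 0 ≤ η x ∧ η x ≤ 1) ∧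
  ∀ x y, |η x - η y| ≤ ‖x - y‖ / d

/-- KCU: energy density of a cut-off function -/
def T_KCU : Prop := ∀ (n : ℕ) (σ : ℝ), OK n σ → ∃ C : ℝ≥0, ∀ (η : X n → ℝ) (d : ℝ), Cut η d →
  ∀ x, ∫⁻ y, sq (η x - η y) * K σ (x - y) ≤ C * ENNReal.ofReal (d ^ (-(2 * σ)))

/-! ## Inequalities -/

/-- HAR: Hardy's inequality for `σ > 1/2` (midpoint argument) -/
def T_HAR : Prop := ∀ (n : ℕ) (σ : ℝ), OK n σ → ∃ C : ℝ≥0, ∀ (B' Ω : Set (X n)) (g : X n → ℝ),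
  Convex ℝ B' → MeasurableSet B' → MeasurableSet Ω → Measurable g →
  DI σ (B' \ Ω) (B' ∩ Ω) (fun _ y => sq (g y)) ≠ ∞ →
  DI σ (B' \ Ω) (B' ∩ Ω) (fun _ y => sq (g y)) ≤ C * En σ (B' ∩ Ω) g

/-- POI: Poincaré's inequality for functions supported on a set of finite measure -/
def T_POI : Prop := ∀ (n : ℕ) (σ : ℝ), OK n σ → ∃ C : ℝ≥0, ∀ (D : Set (X n)) (w : X n → ℝ),
  MeasurableSet D → volume D ≠ ∞ → Measurable w → (∀ x, x ∉ D → w x = 0) →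
  ∫⁻ x, sq (w x) ≤ C * volume D ^ (2 * σ / n) * En σ univ w

/-- TRA: the transition lemma (midpoint argument) -/
def T_TRA : Prop := ∀ (n : ℕ) (σ : ℝ), OK n σ → ∀ ε E₀ : ℝ, 0 < ε → 0 < E₀ → ∃ c : ℝ, 0 < c ∧
  ∀ u : X n → ℝ, Measurable u → En σ (B 2) u ≤ ENNReal.ofReal E₀ →
  ENNReal.ofReal ε ≤ volume (B 2 ∩ {x | u x ≤ 1 / 4}) →
  ENNReal.ofReal ε ≤ volume (B 2 ∩ {x | 1 / 2 ≤ u x}) →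
  ENNReal.ofReal c ≤ volume (B 2 ∩ {x | 1 / 4 < u x ∧ u x < 1 / 2})

/-- ETA: energy of a cut-off function with small support -/
def T_ETA : Prop := ∀ (n : ℕ) (σ : ℝ), OK n σ → ∃ C : ℝ≥0, ∀ (η : X n → ℝ) (d : ℝ), Cut η d →
  En σ univ η ≤ C * ENNReal.ofReal (d ^ (-(2 * σ))) * volume {x | η x ≠ 0}

/-- PRO: energy of a product -/
def T_PRO : Prop := ∀ (n : ℕ) (σ : ℝ), OK n σ → ∃ C : ℝ≥0, ∀ (η w : X n → ℝ) (d : ℝ), Cut η d →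
  Measurable w → En σ univ (fun x => w x * η x) ≤
    2 * En σ univ w + C * ENNReal.ofReal (d ^ (-(2 * σ))) * ∫⁻ x, sq (w x)

/-! ## The space `H` -/

/-- HFI: functions in `H` -/
def T_HFI : Prop := ∀ (n : ℕ) (σ : ℝ), OK n σ → ∀ u : X n → ℝ, InH σ u →
  AEMeasurable u volume ∧ En σ univ u ≠ ∞

/-- DE1: density of functions with compact support -/
def T_DE1 : Prop := ∀ (n : ℕ) (σ : ℝ), OK n σ → ∀ v : X n → ℝ, Measurable v →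
  ∫⁻ x, sq (v x) ≠ ∞ → En σ univ v ≠ ∞ → ∀ ε : ℝ≥0∞, 0 < ε → ∃ w : X n → ℝ, Measurable w ∧
  HasCompactSupport w ∧ ∫⁻ x, sq (w x) ≠ ∞ ∧ En σ univ w ≠ ∞ ∧
  ∫⁻ x, sq (w x - v x) ≤ ε ∧ En σ univ (fun x => w x - v x) ≤ ε

/-- TRC: continuity of translations -/
def T_TRC : Prop := ∀ (n : ℕ) (σ : ℝ), OK n σ → ∀ w : X n → ℝ, Measurable w →
  ∫⁻ x, sq (w x) ≠ ∞ → En σ univ w ≠ ∞ →
  Tendsto (fun z : X n => ∫⁻ x, sq (w (x - z) - w x)) (𝓝 0) (𝓝 0) ∧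
  Tendsto (fun z : X n => En σ univ (fun x => w (x - z) - w x)) (𝓝 0) (𝓝 0)

/-- DE2 (from TRC): density of `C¹_c` -/
def T_DE2 : Prop := ∀ (n : ℕ) (σ : ℝ), OK n σ → ∀ w : X n → ℝ, Measurable w →
  HasCompactSupport w → ∫⁻ x, sq (w x) ≠ ∞ → En σ univ w ≠ ∞ → ∀ ε : ℝ≥0∞, 0 < ε →
  ∃ φ : X n → ℝ, ContDiff ℝ 1 φ ∧ HasCompactSupport φ ∧
  ∫⁻ x, sq (φ x - w x) ≤ ε ∧ En σ univ (fun x => φ x - w x) ≤ ε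

/-- DEN (from DE1, DE2) -/
def T_DEN : Prop := ∀ (n : ℕ) (σ : ℝ), OK n σ → ∀ v : X n → ℝ, Measurable v →
  ∫⁻ x, sq (v x) ≠ ∞ → En σ univ v ≠ ∞ → InH σ v

/-- JFI: there is an admissible function with `J < ∞` -/
def T_JFI : Prop := ∀ (n : ℕ) (σ : ℝ), OK n σ → ∃ v : X n → ℝ, Adm σ v ∧ J σ v ≠ ∞

/-! ## Minimizers -/

/-- a normalised minimizer -/
structure NM {n : ℕ} (σ : ℝ) (u : X n → ℝ) (L : ℝ) : Prop where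
  meas : Measurable u
  nonneg : ∀ x, 0 ≤ u x
  norm : ∫⁻ x, sq (u x) = 1
  fin : En σ univ u ≠ ∞
  vol : volume {x | 0 < u x} ≠ ∞
  L0 : 0 ≤ L
  lam : En σ {x | 0 < u x} u = ENNReal.ofReal L
  min : ∀ v : X n → ℝ, Measurable v → (∀ x, 0 ≤ v x) → ∫⁻ x, sq (v x) ≠ ∞ → En σ univ v ≠ ∞ →
    volume {x | 0 < v x} ≠ ∞ →
    (L + volume.real {x | 0 < u x} - volume.real {x | 0 < v x}) * (∫⁻ x, sq (v x)).toReal ≤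
      (En σ {x | 0 < v x} v).toReal

/-- NRM (from HFI, DEN, JFI, POI): normalisation -/
def T_NRM : Prop := ∀ (n : ℕ) (σ : ℝ), OK n σ → ∀ u : X n → ℝ, IsMin σ u →
  ∃ (w : X n → ℝ) (L c : ℝ), NM σ w L ∧ 0 < c ∧ ∀ᵐ x, u x = c * w x

/-- CAC (from PRO): the Caccioppoli inequality -/
def T_CAC : Prop := ∀ (n : ℕ) (σ : ℝ), OK n σ → ∀ (u : X n → ℝ) (L : ℝ), NM σ u L →
  ∀ (k d : ℝ) (η : X n → ℝ), 0 ≤ k → Cut η d →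
  En σ {x | 0 < u x} (fun x => pos (u x - k) * η x) +
    2 * DI σ {x | 0 < u x} {x | 0 < u x}
      (fun x y => ENNReal.ofReal (pos (u x - k) * η x ^ 2 * pos (k - u y))) ≤
  DI σ {x | 0 < u x} {x | 0 < u x}
      (fun x y => ENNReal.ofReal (pos (u x - k) * pos (u y - k) * (η x - η y) ^ 2)) +
    ENNReal.ofReal L * ∫⁻ x in {x | 0 < u x}, ENNReal.ofReal (u x * (pos (u x - k) * η x ^ 2))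

/-- CAL (from PRO, ETA): the Caccioppoli inequality from below, in the interior -/
def T_CAL : Prop := ∀ (n : ℕ) (σ : ℝ), OK n σ → ∀ (u : X n → ℝ) (L : ℝ), NM σ u L →
  ∀ (k d : ℝ) (η : X n → ℝ), Cut η d → volume ({x | η x ≠ 0} \ {x | 0 < u x}) = 0 →
  En σ {x | 0 < u x} (fun x => pos (k - u x) * η x) +
    2 * DI σ {x | 0 < u x} {x | 0 < u x}
      (fun x y => ENNReal.ofReal (pos (k - u x) * η x ^ 2 * pos (u y - k))) ≤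
  DI σ {x | 0 < u x} {x | 0 < u x}
      (fun x y => ENNReal.ofReal (pos (k - u x) * pos (k - u y) * (η x - η y) ^ 2))

/-- CMP (from ETA): the competitor `max u (k η)` -/
def T_CMP : Prop := ∀ (n : ℕ) (σ : ℝ), OK n σ → ∀ (u : X n → ℝ) (L : ℝ), NM σ u L →
  ∀ (k d : ℝ) (η : X n → ℝ), 0 < k → Cut η d → volume {x | 0 < η x} ≠ ∞ →
  En σ {x | 0 < u x} u ≤
    En σ ({x | 0 < u x} ∪ {x | 0 < η x}) (fun x => max (u x) (k * η x)) +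
    ENNReal.ofReal (1 + k ^ 2 * volume.real {x | 0 < η x}) *
      volume ({x | 0 < η x} \ {x | 0 < u x})

/-- BDD (from CAC, HAR, POI, DGI): minimizers are bounded -/
def T_BDD : Prop := ∀ (n : ℕ) (σ : ℝ), OK n σ → ∀ (u : X n → ℝ) (L : ℝ), NM σ u L →
  ∃ M : ℝ, 0 < M ∧ ∀ᵐ x, u x ≤ M

/-! ## Unit scale -/

/-- the Caccioppoli inequality at unit scale -/
def SubC {n : ℕ} (σ : ℝ) (Ω : Set (X n)) (f : X n → ℝ) (Λ : ℝ) : Prop :=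
  ∀ k r' r : ℝ, 0 ≤ k → 1 ≤ r' → r' < r → r ≤ 3 →
  En σ Ω (fun x => pos (f x - k) * cut r' r x) +
    2 * DI σ Ω Ω (fun x y => ENNReal.ofReal (pos (f x - k) * cut r' r x ^ 2 * pos (k - f y))) ≤
  DI σ Ω Ω (fun x y =>
      ENNReal.ofReal (pos (f x - k) * pos (f y - k) * (cut r' r x - cut r' r y) ^ 2)) +
    ENNReal.ofReal Λ * ∫⁻ x in Ω, ENNReal.ofReal (pos (f x - k) * cut r' r x ^ 2)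

/-- qualitative finiteness -/
def FinC {n : ℕ} (σ : ℝ) (Ω : Set (X n)) (f : X n → ℝ) : Prop :=
  ∀ k r' r : ℝ, 0 ≤ k → 1 ≤ r' → r' < r → r ≤ 3 →
  DI σ Ωᶜ Ω (fun _ y => sq (pos (f y - k) * cut r' r y)) ≠ ∞

/-- small tail -/
def TailC {n : ℕ} (σ : ℝ) (Ω : Set (X n)) (f : X n → ℝ) (δ CT : ℝ) : Prop :=
  ∫⁻ y in Ω \ B 4, ENNReal.ofReal (pos (f y - (1 - δ))) * K σ y ≤ ENNReal.ofReal (CT * δ)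

/-- UPA (from KCU): few points near the maximum, if there are enough small values in `Ω` -/
def T_UPA : Prop := ∀ (n : ℕ) (σ : ℝ), OK n σ → ∀ κ ε ε₂ CT : ℝ, 0 < κ → κ ≤ 1 / 2 → 0 < ε →
  0 < ε₂ → 0 < CT → ∃ δ₀ : ℝ, 0 < δ₀ ∧ δ₀ ≤ 1 / 2 ∧ ∀ δ : ℝ, 0 < δ → δ ≤ δ₀ →
  ∀ (Ω : Set (X n)) (f : X n → ℝ), MeasurableSet Ω → Measurable f → SubC σ Ω f δ →
  (∀ᵐ x, x ∈ Ω → x ∈ B 4 → f x ≤ 1) → TailC σ Ω f δ CT →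
  ENNReal.ofReal ε ≤ volume (Ω ∩ B 2 ∩ {x | f x < 1 - κ}) →
  volume (Ω ∩ B 2 ∩ {x | 1 - δ / 2 < f x}) ≤ ENNReal.ofReal ε₂

/-- UPD (from KCU, HAR, POI, DGI): De Giorgi iteration near the maximum -/
def T_UPD : Prop := ∀ (n : ℕ) (σ : ℝ), OK n σ → ∀ CT : ℝ, 0 < CT → ∃ ε₂ : ℝ, 0 < ε₂ ∧
  ∀ δ : ℝ, 0 < δ → δ ≤ 1 / 2 →
  ∀ (Ω : Set (X n)) (f : X n → ℝ), MeasurableSet Ω → Measurable f → SubC σ Ω f δ →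
  FinC σ Ω f → (∀ᵐ x, x ∈ Ω → x ∈ B 4 → f x ≤ 1) → TailC σ Ω f δ CT →
  volume (Ω ∩ B 2 ∩ {x | 1 - δ / 2 < f x}) ≤ ENNReal.ofReal ε₂ →
  ∀ᵐ x, x ∈ Ω → x ∈ B 1 → f x ≤ 1 - δ / 4

/-- the competitor inequality at unit scale -/
def CmpC {n : ℕ} (σ : ℝ) (f : X n → ℝ) (C₀ : ℝ) : Prop :=
  ∀ k r' r : ℝ, 0 < k → k ≤ 1 → 1 ≤ r' → r' < r → r ≤ 3 →
  En σ {x | 0 < f x} f ≤
    En σ ({x | 0 < f x} ∪ B r) (fun x => max (f x) (k * cut r' r x)) +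
    ENNReal.ofReal C₀ * volume (B r \ {x | 0 < f x})

/-- LW1 (from KCU, ETA): the energy of `(k η - f)⁺` -/
def T_LW1 : Prop := ∀ (n : ℕ) (σ : ℝ), OK n σ → ∃ C : ℝ, 0 < C ∧ ∀ (f : X n → ℝ) (C₀ : ℝ),
  Measurable f → (∀ x, 0 ≤ f x) → En σ univ f ≠ ∞ → 0 ≤ C₀ → CmpC σ f C₀ →
  ∀ k r' r : ℝ, 0 < k → k ≤ 1 → 1 ≤ r' → r' < r → r ≤ 3 →
  En σ {x | 0 < f x} (fun x => pos (k * cut r' r x - f x)) ≤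
    8 * DI σ (B r \ {x | 0 < f x}) {x | 0 < f x} (fun _ y => sq (pos (f y - k * cut r' r y))) +
    ENNReal.ofReal (C * ((r - r') ^ (-(2 * σ)) + C₀)) * volume (B r ∩ {x | f x < k})

/-- the hypotheses of the lower density lemma -/
structure LowC {n : ℕ} (σ : ℝ) (f : X n → ℝ) (C₀ CT : ℝ) : Prop where
  meas : Measurable f
  nonneg : ∀ x, 0 ≤ f x
  fin : En σ univ f ≠ ∞
  C0 : 0 ≤ C₀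
  CT0 : 0 ≤ CT
  cmp : CmpC σ f C₀
  up : ∀ᵐ x, x ∈ B 4 → f x ≤ 1
  tail : ∫⁻ y in (B 4)ᶜ, sq (f y) * K σ y ≤ ENNReal.ofReal CT

/-- LW2 (from LW1, HAR, KTL): hole filling -/
def T_LW2 : Prop := ∀ (n : ℕ) (σ : ℝ), OK n σ → ∃ ϑ C : ℝ, 0 < ϑ ∧ ϑ ≤ 1 / 2 ∧ 0 < C ∧
  ∀ (f : X n → ℝ) (C₀ CT : ℝ), LowC σ f C₀ CT →
  ∀ k ρ r : ℝ, 1 - ϑ ≤ k → k ≤ 1 → 1 ≤ ρ → ρ < r → r ≤ 2 →
  En σ {x | 0 < f x} (fun x => pos (k * cut ((ρ + r) / 2) r x - f x)) ≤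
    ENNReal.ofReal C * DI σ ((B r \ B ρ) \ {x | 0 < f x}) {x | 0 < f x} (fun _ y => sq (f y)) +
    ENNReal.ofReal (C * ((r - ρ) ^ (-(2 * σ)) + CT + C₀)) * volume (B r ∩ {x | f x < k}) ∧
  DI σ (B ρ \ {x | 0 < f x}) {x | 0 < f x} (fun _ y => sq (f y)) ≤
    ENNReal.ofReal C * DI σ ((B r \ B ρ) \ {x | 0 < f x}) {x | 0 < f x} (fun _ y => sq (f y)) +
    ENNReal.ofReal (C * ((r - ρ) ^ (-(2 * σ)) + CT + C₀)) * volume (B r ∩ {x | f x < k})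

/-- LW3 (from LW2, GIA, KCU): bounds for the energies -/
def T_LW3 : Prop := ∀ (n : ℕ) (σ : ℝ), OK n σ → ∃ ϑ C : ℝ, 0 < ϑ ∧ ϑ ≤ 1 / 2 ∧ 0 < C ∧
  ∀ (f : X n → ℝ) (C₀ CT : ℝ), LowC σ f C₀ CT →
  ∀ k r₁ r₂ : ℝ, 1 - ϑ ≤ k → k ≤ 1 → 1 ≤ r₁ → r₁ < r₂ → r₂ ≤ 2 →
  ∃ r' r : ℝ, r₁ ≤ r' ∧ r' < r ∧ r ≤ r₂ ∧
  En σ univ (fun x => pos (k * cut r' r x - f x)) ≤
    ENNReal.ofReal (C * ((r₂ - r₁) ^ (-(2 * σ)) + CT + C₀)) * volume (B r₂ ∩ {x | f x < k})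

/-- LOW (from LW3, POI, DGI): the lower density lemma -/
def T_LOW : Prop := ∀ (n : ℕ) (σ : ℝ), OK n σ → ∃ ϑ : ℝ, 0 < ϑ ∧ ϑ ≤ 1 / 2 ∧ ∀ C₀ CT : ℝ,
  0 ≤ C₀ → 0 ≤ CT → ∃ ε₀ : ℝ, 0 < ε₀ ∧ ∀ f : X n → ℝ, LowC σ f C₀ CT →
  volume (B 2 ∩ {x | f x < 1 - ϑ / 2}) ≤ ENNReal.ofReal ε₀ → ∀ᵐ x, x ∈ B 1 → 1 - ϑ ≤ f x

/-- ENB (from KCU, HAR): energy bound -/
def T_ENB : Prop := ∀ (n : ℕ) (σ : ℝ), OK n σ → ∀ CT : ℝ, 0 < CT → ∃ E₀ : ℝ, 0 < E₀ ∧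
  ∀ f : X n → ℝ, Measurable f → (∀ x, 0 ≤ f x) → En σ univ f ≠ ∞ →
  SubC σ {x | 0 < f x} f 1 → (∀ᵐ x, x ∈ B 4 → f x ≤ 1) →
  ∫⁻ y in (B 4)ᶜ, ENNReal.ofReal (f y) * K σ y ≤ ENNReal.ofReal CT →
  En σ (B 2) f ≤ ENNReal.ofReal E₀

/-- the growth condition -/
def Gr {n : ℕ} (θ : ℝ) (f : X n → ℝ) : Prop :=
  ∀ l : ℕ, ∀ᵐ x, x ∈ B (4 ^ (l + 1)) → f x ≤ ((1 - θ) ^ l)⁻¹

/-- TL1 (from KTL): tails of level sets -/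
def T_TL1 : Prop := ∀ (n : ℕ) (σ : ℝ), OK n σ → ∃ CT : ℝ, 0 < CT ∧ ∀ δ : ℝ, 0 < δ → δ ≤ 1 / 2 →
  ∃ θ₀ : ℝ, 0 < θ₀ ∧ θ₀ ≤ 1 / 4 ∧ ∀ θ : ℝ, 0 < θ → θ ≤ θ₀ → ∀ f : X n → ℝ, Measurable f → Gr θ f →
  ∫⁻ y in (B 4)ᶜ, ENNReal.ofReal (pos (f y - (1 - δ))) * K σ y ≤ ENNReal.ofReal (CT * δ)

/-- TL2 (from KTL): tails -/
def T_TL2 : Prop := ∀ (n : ℕ) (σ : ℝ), OK n σ → ∃ CT : ℝ, 0 < CT ∧ ∀ θ : ℝ, 0 < θ → θ ≤ 1 / 4 →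
  ∀ f : X n → ℝ, Measurable f → (∀ x, 0 ≤ f x) → Gr θ f →
  ∫⁻ y in (B 4)ᶜ, ENNReal.ofReal (f y) * K σ y ≤ ENNReal.ofReal CT ∧
  ∫⁻ y in (B 4)ᶜ, sq (f y) * K σ y ≤ ENNReal.ofReal CT

/-- the configuration at unit scale -/
structure Cfg {n : ℕ} (σ θ δ C₀ : ℝ) (Ω : Set (X n)) (f : X n → ℝ) (a : ℝ) : Prop where
  meas : Measurable f
  a0 : 0 ≤ a
  nonneg : ∀ x, 0 ≤ f x + a
  om : Ω = {x | 0 < f x + a}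
  fin : En σ univ f ≠ ∞
  up : Gr θ f
  lo : Gr θ (fun x => 1 - f x)
  sub : SubC σ Ω f δ
  sub' : volume (B 4 \ Ω) = 0 → SubC σ Ω (fun x => 1 - f x) δ
  cmp : a = 0 → CmpC σ f C₀

/-- FNC (from KTL, KCU): finiteness -/
def T_FNC : Prop := ∀ (n : ℕ) (σ : ℝ), OK n σ → ∀ (θ δ C₀ a : ℝ) (Ω : Set (X n)) (f : X n → ℝ),
  Cfg σ θ δ C₀ Ω f a → FinC σ Ω f ∧ (volume (B 4 \ Ω) = 0 → FinC σ Ω fun x => 1 - f x)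

/-- STB (from UPA, UPD, LOW, ENB, TRA, TL1, TL2, FNC): the step at the boundary -/
def T_STB : Prop := ∀ (n : ℕ) (σ : ℝ), OK n σ → ∀ C₀ : ℝ, 0 ≤ C₀ → ∃ θ₀ δ : ℝ, 0 < θ₀ ∧
  θ₀ ≤ 1 / 4 ∧ 0 < δ ∧ δ ≤ 1 ∧ ∀ θ δ' : ℝ, 0 < θ → θ ≤ θ₀ → 0 ≤ δ' → δ' ≤ δ →
  ∀ (Ω : Set (X n)) (f : X n → ℝ), Cfg σ θ δ' C₀ Ω f 0 →
  (∀ᵐ x, x ∈ B 1 → f x ≤ 1 - θ) ∨ ∀ᵐ x, x ∈ B 1 → θ ≤ f x

/-- STI (from UPA, UPD, TL1, FNC): the step in the interior -/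
def T_STI : Prop := ∀ (n : ℕ) (σ : ℝ), OK n σ → ∃ θ₀ δ : ℝ, 0 < θ₀ ∧
  θ₀ ≤ 1 / 4 ∧ 0 < δ ∧ δ ≤ 1 ∧ ∀ θ δ' C₀ a : ℝ, 0 < θ → θ ≤ θ₀ → 0 ≤ δ' → δ' ≤ δ → 0 < a →
  ∀ (Ω : Set (X n)) (f : X n → ℝ), Cfg σ θ δ' C₀ Ω f a →
  (∀ᵐ x, x ∈ B 1 → f x ≤ 1 - θ) ∨ ∀ᵐ x, x ∈ B 1 → θ ≤ f x

/-! ## Scaling and iteration -/

/-- SC1 (from CAC): scaling of the Caccioppoli inequality -/
def T_SC1 : Prop := ∀ (n : ℕ) (σ : ℝ), OK n σ → ∀ (u : X n → ℝ) (L Mg : ℝ), NM σ u L → 0 < Mg →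
  (∀ᵐ x, u x ≤ Mg) → ∀ (x₀ : X n) (R M a : ℝ), 0 < R → 0 < M → 0 ≤ a →
  SubC σ {x | 0 < u (x₀ + R • x)} (fun x => (u (x₀ + R • x) - a) / M)
    (L * R ^ (2 * σ) * Mg / M)

/-- SC2 (from CAL): from below, in the interior -/
def T_SC2 : Prop := ∀ (n : ℕ) (σ : ℝ), OK n σ → ∀ (u : X n → ℝ) (L : ℝ), NM σ u L →
  ∀ (x₀ : X n) (R M a : ℝ), 0 < R → 0 < M → 0 ≤ a →
  volume (B 4 \ {x | 0 < u (x₀ + R • x)}) = 0 →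
  SubC σ {x | 0 < u (x₀ + R • x)} (fun x => 1 - (u (x₀ + R • x) - a) / M) 0

/-- SC3 (from CMP): the competitor inequality -/
def T_SC3 : Prop := ∀ (n : ℕ) (σ : ℝ), OK n σ → ∃ C : ℝ, 0 < C ∧ ∀ (u : X n → ℝ) (L : ℝ),
  NM σ u L → ∀ (x₀ : X n) (R M : ℝ), 0 < R → R ≤ 1 → 0 < M → R ^ (2 * σ) ≤ M ^ 2 →
  CmpC σ (fun x => u (x₀ + R • x) / M) C

/-- SC4: finiteness -/
def T_SC4 : Prop := ∀ (n : ℕ) (σ : ℝ), OK n σ → ∀ u : X n → ℝ, Measurable u →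
  En σ univ u ≠ ∞ → ∀ (x₀ : X n) (R M a : ℝ), 0 < R → 0 < M →
  En σ univ (fun x => (u (x₀ + R • x) - a) / M) ≠ ∞

/-- ITR (from STB, STI, SC1, SC2, SC3, SC4, BDD): decay of the oscillation -/
def T_ITR : Prop := ∀ (n : ℕ) (σ : ℝ), OK n σ → ∀ (u : X n → ℝ) (L : ℝ), NM σ u L →
  ∃ θ R₀ M₀ : ℝ, 0 < θ ∧ θ ≤ 1 / 4 ∧ 0 < R₀ ∧ 0 < M₀ ∧ (∀ᵐ x, u x ≤ M₀) ∧
  ∀ (x₀ : X n) (j : ℕ), ∃ a : ℝ, ∀ᵐ x, x ∈ ball x₀ (R₀ / 4 ^ j) →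
    a ≤ u x ∧ u x ≤ a + M₀ * (1 - θ) ^ j

/-- CNT: decay of the oscillation gives a Hölder continuous representative -/
def T_CNT : Prop := ∀ (n : ℕ) (u : X n → ℝ) (θ R₀ M₀ : ℝ), 0 < θ → θ ≤ 1 / 4 → 0 < R₀ → 0 < M₀ →
  (∀ᵐ x, 0 ≤ u x ∧ u x ≤ M₀) → (∀ (x₀ : X n) (j : ℕ), ∃ a : ℝ, ∀ᵐ x, x ∈ ball x₀ (R₀ / 4 ^ j) →
    a ≤ u x ∧ u x ≤ a + M₀ * (1 - θ) ^ j) →
  ∃ (g : X n → ℝ) (α C : ℝ), 0 < α ∧ (∀ x y, |g x - g y| ≤ C * ‖x - y‖ ^ α) ∧ ∀ᵐ x, u x = g x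

/-- REG (from NRM, ITR, CNT): the regularity theorem -/
def T_REG : Prop := ∀ (n : ℕ) (σ : ℝ), OK n σ → ∀ u : X n → ℝ, IsMin σ u →
  ∃ (g : X n → ℝ) (α C : ℝ), 0 < α ∧ (∀ x y, |g x - g y| ≤ C * ‖x - y‖ ^ α) ∧ ∀ᵐ x, u x = g x

end RFK
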