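import Mathlib
import Pool.Agent.RFK.Targets

/-!
DGI: De Giorgi's fast geometric convergence
-/

open MeasureTheory Set Filter Topology

namespace RFK

namespace DGI_

theorem main (C b α : ℝ) (hC : 0 < C) (hb : 1 < b) (hα : 0 < α) (Y : ℕ → ℝ)
    (h0 : ∀ j, 0 ≤ Y j) (r : ℝ) (hr : r = b ^ (-(1 / α))) (ε : ℝ)
    (hε : ε = (C⁻¹ * r) ^ (1 / α)) (hY : Y 0 ≤ ε)
    (hs : ∀ j, Y (j + 1) ≤ C * b ^ j * Y j ^ (1 + α)) :
    Tendsto Y atTop (𝓝 0) := by
  have hb0 : 0 < b := lt_trans one_pos hb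
  have hr0 : 0 < r := by rw [hr]; exact Real.rpow_pos_of_pos hb0 _
  have hr1 : r < 1 := by
    rw [hr]
    exact Real.rpow_lt_one_of_one_lt_of_neg hb (by rw [neg_lt_zero]; positivity)
  have hCr : 0 < C⁻¹ * r := by positivity
  have hε0 : 0 < ε := by rw [hε]; exact Real.rpow_pos_of_pos hCr _
  have hεα : ε ^ α = C⁻¹ * r := by
    rw [hε, ← Real.rpow_mul hCr.le, one_div_mul_cancel hα.ne', Real.rpow_one]
  have hrα : r ^ α = b⁻¹ := by
    rw [hr, ← Real.rpow_mul hb0.le, neg_mul, one_div_mul_cancel hα.ne', Real.rpow_neg_one]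
  have key : ∀ j, Y j ≤ ε * r ^ j := by
    intro j
    induction j with
    | zero => simpa using hY
    | succ j ih =>
      have h1 : Y j ^ (1 + α) ≤ (ε * r ^ j) ^ (1 + α) :=
        Real.rpow_le_rpow (h0 j) ih (by positivity)
      have h2 : (ε * r ^ j) ^ (1 + α) = ε * r ^ j * (C⁻¹ * r * (b⁻¹) ^ j) := by
        rw [Real.rpow_add (by positivity), Real.rpow_one,
          Real.mul_rpow hε0.le (by positivity), hεα]
        congr 2
        rw [← hrα, ← Real.rpow_natCast, ← Real.rpow_natCast, ← Real.rpow_mul hr0.le,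
          ← Real.rpow_mul hr0.le, mul_comm]
      calc Y (j + 1) ≤ C * b ^ j * Y j ^ (1 + α) := hs j
        _ ≤ C * b ^ j * (ε * r ^ j * (C⁻¹ * r * (b⁻¹) ^ j)) := by
            rw [← h2]
            exact mul_le_mul_of_nonneg_left h1 (by positivity)
        _ = ε * r ^ (j + 1) := by
            rw [inv_pow, pow_succ]
            field_simp
  have hlim : Tendsto (fun j : ℕ => ε * r ^ j) atTop (𝓝 0) := by
    simpa using (tendsto_pow_atTop_nhds_zero_of_lt_one hr0.le hr1).const_mul ε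
  exact squeeze_zero h0 key hlim

end DGI_

theorem p_DGI : T_DGI := by
  intro C b α hC hb hα
  have hb0 : 0 < b := lt_trans one_pos hb
  refine ⟨(C⁻¹ * b ^ (-(1 / α))) ^ (1 / α), ?_, fun Y h0 hY hs =>
    DGI_.main C b α hC hb hα Y h0 _ rfl _ rfl hY hs⟩
  have : 0 < b ^ (-(1 / α)) := Real.rpow_pos_of_pos hb0 _
  exact Real.rpow_pos_of_pos (by positivity) _

end RFK
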