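import Pool.Agent.RFK.Targets

/-!
# MP_35334d_an: ENB, the energy bound (helper41)
-/

set_option autoImplicit false

open MeasureTheory Filter Topology Metric Set
open scoped ENNReal NNReal

namespace RFK

namespace ENB_

variable {n : ℕ} {σ : ℝ}

theorem K_far (h : 0 ≤ (n : ℝ) + 2 * σ) {x y : X n} (hx : ‖x‖ ≤ 3) (hy : 4 ≤ ‖y‖) :
    K σ (x - y) ≤ ENNReal.ofReal (4 ^ ((n : ℝ) + 2 * σ)) * K σ y := by
  unfold K
  rw [← ENNReal.ofReal_mul (by positivity)]
  apply ENNReal.ofReal_le_ofReal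
  have h1 : ‖y‖ / 4 ≤ ‖x - y‖ := by
    have := norm_sub_norm_le y x
    rw [norm_sub_rev] at this
    linarith
  have hy0 : 0 < ‖y‖ := by linarith
  have h2 : (‖y‖ / 4) ^ ((n : ℝ) + 2 * σ) ≤ ‖x - y‖ ^ ((n : ℝ) + 2 * σ) :=
    Real.rpow_le_rpow (by positivity) h1 h
  have h3 : (‖x - y‖ ^ ((n : ℝ) + 2 * σ))⁻¹ ≤ ((‖y‖ / 4) ^ ((n : ℝ) + 2 * σ))⁻¹ :=
    inv_anti₀ (by positivity) h2
  refine h3.trans (le_of_eq ?_)
  rw [Real.div_rpow hy0.le (by norm_num), inv_div, div_eq_mul_inv]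

/-- the integrand -/
theorem meas_G {f η : X n → ℝ} (hf : Measurable f) (hη : Measurable η) :
    Measurable (Function.uncurry fun x y : X n =>
      ENNReal.ofReal (pos (f x - 0) * pos (f y - 0) * (η x - η y) ^ 2)) := by
  have h1 : Measurable fun p : X n × X n => pos (f p.1 - 0) :=
    measurable_pos.comp ((hf.comp measurable_fst).sub measurable_const)
  have h2 : Measurable fun p : X n × X n => pos (f p.2 - 0) :=
    measurable_pos.comp ((hf.comp measurable_snd).sub measurable_const)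
  have h3 : Measurable fun p : X n × X n => (η p.1 - η p.2) ^ 2 :=
    ((hη.comp measurable_fst).sub (hη.comp measurable_snd)).pow_const 2
  exact ((h1.mul h2).mul h3).ennreal_ofReal

theorem far_part (h : 0 ≤ (n : ℝ) + 2 * σ) {f : X n → ℝ}
    (hf0 : ∀ x, 0 ≤ f x) (hup : ∀ᵐ x, x ∈ B 4 → f x ≤ 1) {CT : ℝ}
    (hT : ∫⁻ y in (B 4)ᶜ, ENNReal.ofReal (f y) * K σ y ≤ ENNReal.ofReal CT) :
    DI σ (B 4) (B 4)ᶜ (fun x y : X n =>
      ENNReal.ofReal (pos (f x - 0) * pos (f y - 0) * (cut 2 3 x - cut 2 3 y) ^ 2)) ≤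
    ENNReal.ofReal (4 ^ ((n : ℝ) + 2 * σ)) * ENNReal.ofReal CT * volume (B 3 : Set (X n)) := by
  have hB4 : MeasurableSet (B 4 : Set (X n)) := measurableSet_ball
  have hB3 : MeasurableSet (B 3 : Set (X n)) := measurableSet_ball
  set c : ℝ≥0∞ := ENNReal.ofReal (4 ^ ((n : ℝ) + 2 * σ)) with hc
  have hctop : c ≠ ∞ := ENNReal.ofReal_ne_top
  have hmain : ∀ᵐ x : X n, x ∈ B 4 → ∫⁻ y in (B 4)ᶜ,
      ENNReal.ofReal (pos (f x - 0) * pos (f y - 0) * (cut 2 3 x - cut 2 3 y) ^ 2) * K σ (x - y) ≤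
      (B 3).indicator (fun _ => c * ENNReal.ofReal CT) x := by
    filter_upwards [hup] with x hx hx4
    by_cases hx3 : x ∈ (B 3 : Set (X n))
    · rw [indicator_of_mem hx3]
      have hstep : ∀ y ∈ ((B 4)ᶜ : Set (X n)),
          ENNReal.ofReal (pos (f x - 0) * pos (f y - 0) * (cut 2 3 x - cut 2 3 y) ^ 2) *
            K σ (x - y) ≤ c * (ENNReal.ofReal (f y) * K σ y) := by
        intro y hy
        have hy4 : 4 ≤ ‖y‖ := by
          have : ¬ ‖y‖ < 4 := by simpa [B, mem_ball_zero_iff] using hy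
          linarith
        have hx3' : ‖x‖ ≤ 3 := by
          have : ‖x‖ < 3 := by simpa [B, mem_ball_zero_iff] using hx3
          linarith
        have h1 : ENNReal.ofReal (pos (f x - 0) * pos (f y - 0) * (cut 2 3 x - cut 2 3 y) ^ 2) ≤
            ENNReal.ofReal (f y) := by
          apply ENNReal.ofReal_le_ofReal
          rw [sub_zero, sub_zero, pos_of_nonneg (hf0 x), pos_of_nonneg (hf0 y),
            cut_eq_zero (by norm_num) (by linarith : (3 : ℝ) ≤ ‖y‖), sub_zero]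
          have ha := hx hx4
          have hb := cut_nonneg 2 3 x
          have hb1 := cut_le_one 2 3 x
          have hb2 : cut 2 3 x ^ 2 ≤ 1 := pow_le_one₀ hb hb1
          have hfy := hf0 y
          have hfx := hf0 x
          calc f x * f y * cut 2 3 x ^ 2 ≤ 1 * f y * 1 := by gcongr
            _ = f y := by ring
        calc ENNReal.ofReal (pos (f x - 0) * pos (f y - 0) * (cut 2 3 x - cut 2 3 y) ^ 2) *
            K σ (x - y) ≤ ENNReal.ofReal (f y) * (c * K σ y) := by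
              gcongr
              exact K_far h hx3' hy4
          _ = c * (ENNReal.ofReal (f y) * K σ y) := by ring
      calc ∫⁻ y in (B 4)ᶜ,
          ENNReal.ofReal (pos (f x - 0) * pos (f y - 0) * (cut 2 3 x - cut 2 3 y) ^ 2) * K σ (x - y)
          ≤ ∫⁻ y in (B 4)ᶜ, c * (ENNReal.ofReal (f y) * K σ y) :=
            setLIntegral_mono' hB4.compl hstep
        _ = c * ∫⁻ y in (B 4)ᶜ, ENNReal.ofReal (f y) * K σ y := lintegral_const_mul' _ _ hctop
        _ ≤ c * ENNReal.ofReal CT := by gcongr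
    · rw [indicator_of_notMem hx3]
      have hstep : ∀ y ∈ ((B 4)ᶜ : Set (X n)),
          ENNReal.ofReal (pos (f x - 0) * pos (f y - 0) * (cut 2 3 x - cut 2 3 y) ^ 2) *
            K σ (x - y) ≤ 0 := by
        intro y hy
        have hy4 : 4 ≤ ‖y‖ := by
          have : ¬ ‖y‖ < 4 := by simpa [B, mem_ball_zero_iff] using hy
          linarith
        have hx3' : 3 ≤ ‖x‖ := by
          have : ¬ ‖x‖ < 3 := by simpa [B, mem_ball_zero_iff] using hx3
          linarith
        rw [cut_eq_zero (by norm_num) hx3', cut_eq_zero (by norm_num) (by linarith : (3 : ℝ) ≤ ‖y‖)]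
        simp
      calc ∫⁻ y in (B 4)ᶜ,
          ENNReal.ofReal (pos (f x - 0) * pos (f y - 0) * (cut 2 3 x - cut 2 3 y) ^ 2) * K σ (x - y)
          ≤ ∫⁻ y in ((B 4)ᶜ : Set (X n)), 0 := setLIntegral_mono' hB4.compl hstep
        _ = 0 := by simp
        _ ≤ 0 := le_rfl
  calc DI σ (B 4) (B 4)ᶜ (fun x y : X n =>
      ENNReal.ofReal (pos (f x - 0) * pos (f y - 0) * (cut 2 3 x - cut 2 3 y) ^ 2))
      ≤ ∫⁻ x in (B 4 : Set (X n)), (B 3).indicator (fun _ => c * ENNReal.ofReal CT) x := by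
        unfold DI
        apply lintegral_mono_ae
        rw [ae_restrict_iff' hB4]
        exact hmain
    _ ≤ ∫⁻ x : X n, (B 3).indicator (fun _ => c * ENNReal.ofReal CT) x :=
        setLIntegral_le_lintegral _ _
    _ = c * ENNReal.ofReal CT * volume (B 3 : Set (X n)) := by
        rw [lintegral_indicator hB3, setLIntegral_const]

theorem near_part {C : ℝ≥0} (hK : ∀ x : X n,
    ∫⁻ y, sq (cut 2 3 x - cut 2 3 y) * K σ (x - y) ≤ C) {f : X n → ℝ}
    (hf0 : ∀ x, 0 ≤ f x) (hup : ∀ᵐ x, x ∈ B 4 → f x ≤ 1) :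
    DI σ (B 4) (B 4) (fun x y : X n =>
      ENNReal.ofReal (pos (f x - 0) * pos (f y - 0) * (cut 2 3 x - cut 2 3 y) ^ 2)) ≤
    C * volume (B 4 : Set (X n)) := by
  have hB4 : MeasurableSet (B 4 : Set (X n)) := measurableSet_ball
  calc DI σ (B 4) (B 4) (fun x y : X n =>
      ENNReal.ofReal (pos (f x - 0) * pos (f y - 0) * (cut 2 3 x - cut 2 3 y) ^ 2))
      ≤ DI σ (B 4) (B 4) (fun x y : X n => sq (cut 2 3 x - cut 2 3 y)) := by
        apply DI_mono_ae hB4 hB4
        filter_upwards [hup] with x hx hx4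
        filter_upwards [hup] with y hy hy4
        unfold sq
        apply ENNReal.ofReal_le_ofReal
        rw [sub_zero, sub_zero, pos_of_nonneg (hf0 x), pos_of_nonneg (hf0 y)]
        have h1 := hx hx4
        have h2 := hy hy4
        have h3 := hf0 x
        have h4 := hf0 y
        have h5 : f x * f y ≤ 1 := by nlinarith
        have h6 : 0 ≤ (cut 2 3 x - cut 2 3 y) ^ 2 := sq_nonneg _
        nlinarith
    _ ≤ ∫⁻ x in (B 4 : Set (X n)), (C : ℝ≥0∞) := by
        unfold DI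
        apply lintegral_mono
        intro x
        exact (setLIntegral_le_lintegral _ _).trans (hK x)
    _ = C * volume (B 4 : Set (X n)) := by rw [setLIntegral_const]

theorem zero_part {f : X n → ℝ} :
    DI σ (B 4)ᶜ (B 4)ᶜ (fun x y : X n =>
      ENNReal.ofReal (pos (f x - 0) * pos (f y - 0) * (cut 2 3 x - cut 2 3 y) ^ 2)) = 0 := by
  have hB4 : MeasurableSet (B 4 : Set (X n)) := measurableSet_ball
  rw [← nonpos_iff_eq_zero]
  calc DI σ (B 4)ᶜ (B 4)ᶜ (fun x y : X n =>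
      ENNReal.ofReal (pos (f x - 0) * pos (f y - 0) * (cut 2 3 x - cut 2 3 y) ^ 2))
      ≤ DI σ (B 4)ᶜ (B 4)ᶜ (fun _ _ : X n => 0) := by
        apply DI_mono hB4.compl hB4.compl
        intro x hx y hy
        have hy4 : 3 ≤ ‖y‖ := by
          have : ¬ ‖y‖ < 4 := by simpa [B, mem_ball_zero_iff] using hy
          linarith
        have hx4 : 3 ≤ ‖x‖ := by
          have : ¬ ‖x‖ < 4 := by simpa [B, mem_ball_zero_iff] using hx
          linarith
        rw [cut_eq_zero (by norm_num) hx4, cut_eq_zero (by norm_num) hy4]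
        simp
    _ ≤ 0 := by
        unfold DI
        simp

theorem rhs_bound (h : 0 ≤ (n : ℝ) + 2 * σ) {C : ℝ≥0} (hK : ∀ x : X n,
    ∫⁻ y, sq (cut 2 3 x - cut 2 3 y) * K σ (x - y) ≤ C) {f : X n → ℝ} (hf : Measurable f)
    (hf0 : ∀ x, 0 ≤ f x) (hup : ∀ᵐ x, x ∈ B 4 → f x ≤ 1) {CT : ℝ}
    (hT : ∫⁻ y in (B 4)ᶜ, ENNReal.ofReal (f y) * K σ y ≤ ENNReal.ofReal CT) (Ω : Set (X n)) :
    DI σ Ω Ω (fun x y : X n =>
      ENNReal.ofReal (pos (f x - 0) * pos (f y - 0) * (cut 2 3 x - cut 2 3 y) ^ 2)) ≤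
    C * volume (B 4 : Set (X n)) +
      2 * (ENNReal.ofReal (4 ^ ((n : ℝ) + 2 * σ)) * ENNReal.ofReal CT *
        volume (B 3 : Set (X n))) := by
  have hB4 : MeasurableSet (B 4 : Set (X n)) := measurableSet_ball
  set G : X n → X n → ℝ≥0∞ := fun x y : X n =>
      ENNReal.ofReal (pos (f x - 0) * pos (f y - 0) * (cut 2 3 x - cut 2 3 y) ^ 2) with hG
  have hGm : Measurable (Function.uncurry G) := meas_G hf (measurable_cut 2 3)
  have hdis : Disjoint (B 4 : Set (X n)) (B 4)ᶜ := disjoint_compl_right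
  have hfar := far_part h hf0 hup hT
  have hnear := near_part hK hf0 hup
  have hzero := zero_part (σ := σ) (f := f)
  have hswap : DI σ (B 4)ᶜ (B 4) G = DI σ (B 4) (B 4)ᶜ G := by
    rw [DI_swap hGm]
    congr 1
    funext x y
    have he : pos (f y - 0) * pos (f x - 0) * (cut 2 3 y - cut 2 3 x) ^ 2 =
        pos (f x - 0) * pos (f y - 0) * (cut 2 3 x - cut 2 3 y) ^ 2 := by ring
    show ENNReal.ofReal (pos (f y - 0) * pos (f x - 0) * (cut 2 3 y - cut 2 3 x) ^ 2) =
      ENNReal.ofReal (pos (f x - 0) * pos (f y - 0) * (cut 2 3 x - cut 2 3 y) ^ 2)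
    rw [he]
  calc DI σ Ω Ω G ≤ DI σ univ univ G := DI_mono_set (subset_univ _) (subset_univ _) _
    _ = DI σ (B 4 ∪ (B 4)ᶜ) (B 4 ∪ (B 4)ᶜ) G := by rw [union_compl_self]
    _ = (DI σ (B 4) (B 4) G + DI σ (B 4) (B 4)ᶜ G) +
        (DI σ (B 4)ᶜ (B 4) G + DI σ (B 4)ᶜ (B 4)ᶜ G) := by
        rw [DI_union_left hB4.compl hdis, DI_union_right hB4.compl hdis hGm,
          DI_union_right hB4.compl hdis hGm]
    _ = DI σ (B 4) (B 4) G + 2 * DI σ (B 4) (B 4)ᶜ G := by
        rw [hswap, hzero]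
        ring
    _ ≤ _ := by gcongr

theorem last_bound {f : X n → ℝ} (hf0 : ∀ x, 0 ≤ f x) (hup : ∀ᵐ x, x ∈ B 4 → f x ≤ 1)
    (Ω : Set (X n)) :
    ∫⁻ x in Ω, ENNReal.ofReal (pos (f x - 0) * cut 2 3 x ^ 2) ≤ volume (B 3 : Set (X n)) := by
  have hB3 : MeasurableSet (B 3 : Set (X n)) := measurableSet_ball
  calc ∫⁻ x in Ω, ENNReal.ofReal (pos (f x - 0) * cut 2 3 x ^ 2)
      ≤ ∫⁻ x, ENNReal.ofReal (pos (f x - 0) * cut 2 3 x ^ 2) := setLIntegral_le_lintegral _ _
    _ ≤ ∫⁻ x, (B 3 : Set (X n)).indicator (fun _ => (1 : ℝ≥0∞)) x := by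
        apply lintegral_mono_ae
        filter_upwards [hup] with x hx
        by_cases hx3 : x ∈ (B 3 : Set (X n))
        · rw [indicator_of_mem hx3]
          have hx3' : ‖x‖ < 3 := by simpa [B, mem_ball_zero_iff] using hx3
          have hx4 : x ∈ (B 4 : Set (X n)) := by
            simp only [B, mem_ball_zero_iff]
            linarith
          rw [← ENNReal.ofReal_one]
          apply ENNReal.ofReal_le_ofReal
          rw [sub_zero, pos_of_nonneg (hf0 x)]
          have hb := cut_nonneg 2 3 x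
          have hb1 := cut_le_one 2 3 x
          have hb2 : cut 2 3 x ^ 2 ≤ 1 := pow_le_one₀ hb hb1
          exact mul_le_one₀ (hx hx4) (by positivity) hb2
        · rw [indicator_of_notMem hx3]
          have hx3' : 3 ≤ ‖x‖ := by
            have : ¬ ‖x‖ < 3 := by simpa [B, mem_ball_zero_iff] using hx3
            linarith
          rw [cut_eq_zero (by norm_num) hx3']
          simp
    _ = volume (B 3 : Set (X n)) := by
        rw [lintegral_indicator hB3, setLIntegral_const, one_mul]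

end ENB_

theorem p_ENB (hKCU : T_KCU) (hHAR : T_HAR) : T_ENB := by
  intro n σ hOK CT hCT
  obtain ⟨CK, hCK⟩ := hKCU n σ hOK
  obtain ⟨CH, hCH⟩ := hHAR n σ hOK
  have hnσ : 0 ≤ (n : ℝ) + 2 * σ := by
    have := hOK.2.1
    positivity
  set R : ℝ≥0∞ := (CK * volume (B 4 : Set (X n)) +
      2 * (ENNReal.ofReal (4 ^ ((n : ℝ) + 2 * σ)) * ENNReal.ofReal CT *
        volume (B 3 : Set (X n)))) + volume (B 3 : Set (X n)) with hR
  have hv3 : volume (B 3 : Set (X n)) ≠ ∞ := measure_ball_lt_top.ne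
  have hv4 : volume (B 4 : Set (X n)) ≠ ∞ := measure_ball_lt_top.ne
  have hRtop : R ≠ ∞ := by
    rw [hR]
    refine ENNReal.add_ne_top.2 ⟨ENNReal.add_ne_top.2 ⟨ENNReal.mul_ne_top ENNReal.coe_ne_top hv4,
      ENNReal.mul_ne_top (by norm_num) (ENNReal.mul_ne_top (ENNReal.mul_ne_top
        ENNReal.ofReal_ne_top ENNReal.ofReal_ne_top) hv3)⟩, hv3⟩
  set E : ℝ≥0∞ := (1 + 2 * CH) * R with hE
  have hEtop : E ≠ ∞ := ENNReal.mul_ne_top (ENNReal.add_ne_top.2 ⟨by norm_num,
    ENNReal.mul_ne_top (by norm_num) ENNReal.coe_ne_top⟩) hRtop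
  refine ⟨E.toReal + 1, by positivity, ?_⟩
  intro f hf hf0 hfin hsub hup hT
  have hle : En σ (B 2) f ≤ E := by
    set Ω : Set (X n) := {x | 0 < f x} with hΩ
    have hΩm : MeasurableSet Ω := measurableSet_lt measurable_const hf
    have hB2 : MeasurableSet (B 2 : Set (X n)) := measurableSet_ball
    have hKc : ∀ x : X n, ∫⁻ y, sq (cut 2 3 x - cut 2 3 y) * K σ (x - y) ≤ CK := by
      intro x
      have h1 := hCK (cut 2 3) 1 ⟨one_pos, fun x => ⟨cut_nonneg 2 3 x, cut_le_one 2 3 x⟩,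
        fun x y => by
          have := cut_lip (by norm_num : (2 : ℝ) < 3) x y
          norm_num at this ⊢
          exact this⟩ x
      simpa using h1
    have h1 := hsub 0 2 3 le_rfl (by norm_num) (by norm_num) le_rfl
    have h2 := ENB_.rhs_bound hnσ hKc hf hf0 hup hT Ω
    have h3 := ENB_.last_bound hf0 hup Ω
    have h4 : En σ Ω (fun x => pos (f x - 0) * cut 2 3 x) ≤ R := by
      refine (le_trans le_self_add h1).trans ?_
      rw [hR, ENNReal.ofReal_one, one_mul]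
      gcongr
    have h5 : En σ (B 2 ∩ Ω) f ≤ R := by
      have h6 : En σ (B 2 ∩ Ω) f = En σ (B 2 ∩ Ω) (fun x => pos (f x - 0) * cut 2 3 x) := by
        rw [En_eq, En_eq]
        apply DI_congr (hB2.inter hΩm) (hB2.inter hΩm)
        intro x hx y hy
        have hx2 : ‖x‖ < 2 := by simpa [B, mem_ball_zero_iff] using hx.1
        have hy2 : ‖y‖ < 2 := by simpa [B, mem_ball_zero_iff] using hy.1
        rw [sub_zero, sub_zero, pos_of_nonneg (hf0 x), pos_of_nonneg (hf0 y),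
          cut_eq_one (by norm_num) hx2.le, cut_eq_one (by norm_num) hy2.le, mul_one, mul_one]
      rw [h6]
      exact (En_mono inter_subset_right _).trans h4
    have hzero : ∀ x, x ∉ Ω → f x = 0 := by
      intro x hx
      have : ¬ 0 < f x := hx
      exact le_antisymm (not_lt.1 this) (hf0 x)
    have hD : DI σ (B 2 \ Ω) (B 2 ∩ Ω) (fun x y => sq (f x - f y)) =
        DI σ (B 2 \ Ω) (B 2 ∩ Ω) (fun _ y => sq (f y)) := by
      apply DI_congr (hB2.diff hΩm) (hB2.inter hΩm)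
      intro x hx y _
      rw [hzero x hx.2, zero_sub, sq_neg]
    have hDfin : DI σ (B 2 \ Ω) (B 2 ∩ Ω) (fun _ y => sq (f y)) ≠ ∞ := by
      rw [← hD]
      exact ne_top_of_le_ne_top hfin (DI_le_En f)
    have h7 := hCH (B 2) Ω f (convex_ball _ _) hB2 hΩm hf hDfin
    have h8 : En σ (B 2) f = En σ (B 2 ∩ Ω) f +
        2 * DI σ (B 2 ∩ Ω) (B 2 \ Ω) (fun x y => sq (f x - f y)) + En σ (B 2 \ Ω) f := by
      rw [← En_union (hB2.diff hΩm) (disjoint_sdiff_inter.symm) hf, inter_union_sdiff]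
    have h9 : En σ (B 2 \ Ω) f = 0 := by
      rw [En_eq, DI_congr (H := fun _ _ => 0) (hB2.diff hΩm) (hB2.diff hΩm)]
      · unfold DI
        simp
      · intro x hx y hy
        rw [hzero x hx.2, hzero y hy.2, sub_zero, sq_zero]
    have h10 : DI σ (B 2 ∩ Ω) (B 2 \ Ω) (fun x y => sq (f x - f y)) =
        DI σ (B 2 \ Ω) (B 2 ∩ Ω) (fun _ y => sq (f y)) := by
      rw [DI_swap (measurable_dsq hf), ← hD]
      congr 1
      funext x y
      exact sq_sub_comm _ _
    rw [h8, h9, h10, add_zero]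
    calc En σ (B 2 ∩ Ω) f + 2 * DI σ (B 2 \ Ω) (B 2 ∩ Ω) (fun _ y => sq (f y))
        ≤ R + 2 * (CH * R) := by
          gcongr
          exact h7.trans (by gcongr)
      _ = E := by
          rw [hE]
          ring
  refine hle.trans ?_
  rw [← ENNReal.ofReal_toReal hEtop]
  apply ENNReal.ofReal_le_ofReal
  rw [ENNReal.toReal_ofReal ENNReal.toReal_nonneg]
  linarith

end RFK
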