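import Pool.Agent.RFK.Targets

/-!
# ETA: energy of a cut-off function with small support (job RFK-ETA)
-/

set_option autoImplicit false

open MeasureTheory Filter Topology Metric Set
open scoped ENNReal NNReal

namespace RFK

namespace ETA_

variable {n : ℕ} {σ : ℝ}

theorem cut_continuous {η : X n → ℝ} {d : ℝ} (h : Cut η d) : Continuous η := by
  have h1 : LipschitzWith (Real.toNNReal d⁻¹) η := by
    apply LipschitzWith.of_dist_le_mul
    intro x y
    rw [Real.dist_eq, dist_eq_norm, Real.coe_toNNReal _ (inv_nonneg.mpr h.1.le)]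
    have h2 := h.2.2 x y
    rwa [div_eq_inv_mul] at h2
  exact h1.continuous

theorem DI_zero {A B' : Set (X n)} (hA : MeasurableSet A) (hB : MeasurableSet B')
    {G : X n → X n → ℝ≥0∞} (h : ∀ x ∈ A, ∀ y ∈ B', G x y = 0) : DI σ A B' G = 0 := by
  rw [DI_congr (H := fun _ _ => 0) hA hB h]
  unfold DI
  simp

/-- the energy is at most twice the integral over `S × ℝⁿ`, if `η` vanishes off `S` -/
theorem En_le {η : X n → ℝ} (hη : Measurable η) {S : Set (X n)} (hS : MeasurableSet S)
    (h0 : ∀ x, x ∉ S → η x = 0) :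
    En σ univ η ≤ 2 * DI σ S univ (fun x y => sq (η x - η y)) := by
  have hm := measurable_dsq hη
  have hd : Disjoint S Sᶜ := disjoint_compl_right
  have hsym : (fun x y : X n => sq (η y - η x)) = fun x y => sq (η x - η y) := by
    funext x y
    exact sq_sub_comm _ _
  have h1 : DI σ univ univ (fun x y => sq (η x - η y)) =
      DI σ S univ (fun x y => sq (η x - η y)) + DI σ Sᶜ univ (fun x y => sq (η x - η y)) := by
    rw [← DI_union_left hS.compl hd, union_compl_self]
  have h2 : DI σ Sᶜ univ (fun x y => sq (η x - η y)) =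
      DI σ univ Sᶜ (fun x y => sq (η x - η y)) := by
    rw [DI_swap hm]
    exact congrArg (DI σ univ Sᶜ) hsym
  have h3 : DI σ univ Sᶜ (fun x y => sq (η x - η y)) =
      DI σ S Sᶜ (fun x y => sq (η x - η y)) + DI σ Sᶜ Sᶜ (fun x y => sq (η x - η y)) := by
    rw [← DI_union_left hS.compl hd, union_compl_self]
  have h4 : DI σ Sᶜ Sᶜ (fun x y => sq (η x - η y)) = 0 := by
    apply DI_zero hS.compl hS.compl
    intro x hx y hy
    rw [h0 x hx, h0 y hy, sub_zero, sq_zero]
  have h5 : DI σ S Sᶜ (fun x y => sq (η x - η y)) ≤ DI σ S univ (fun x y => sq (η x - η y)) :=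
    DI_mono_set (Subset.refl S) (subset_univ _) _
  rw [En_eq, h1, h2, h3, h4, add_zero, two_mul]
  gcongr

end ETA_

open ETA_ in
/-- ETA: energy of a cut-off function with small support -/
theorem p_ETA (h : T_KCU) : T_ETA := by
  intro n σ hOK
  obtain ⟨C, hC⟩ := h n σ hOK
  refine ⟨2 * C, fun η d hc => ?_⟩
  have hm : Measurable η := (cut_continuous hc).measurable
  have hS : MeasurableSet {x : X n | η x ≠ 0} := by
    have h1 : {x : X n | η x ≠ 0} = (η ⁻¹' {0})ᶜ := by
      ext x
      simp
    rw [h1]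
    exact (hm (measurableSet_singleton 0)).compl
  refine (En_le hm hS (fun x hx => ?_)).trans ?_
  · by_contra hne
    exact hx hne
  · have h2 : DI σ {x : X n | η x ≠ 0} univ (fun x y => sq (η x - η y)) ≤
        C * ENNReal.ofReal (d ^ (-(2 * σ))) * volume {x : X n | η x ≠ 0} := by
      unfold DI
      have h3 : ∀ x : X n, ∫⁻ y in univ, sq (η x - η y) * K σ (x - y) ≤
          C * ENNReal.ofReal (d ^ (-(2 * σ))) := by
        intro x
        rw [Measure.restrict_univ]
        exact hC η d hc x
      refine (lintegral_mono h3).trans ?_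
      rw [lintegral_const, Measure.restrict_apply_univ]
    calc 2 * DI σ {x : X n | η x ≠ 0} univ (fun x y => sq (η x - η y))
        ≤ 2 * (C * ENNReal.ofReal (d ^ (-(2 * σ))) * volume {x : X n | η x ≠ 0}) := by
          gcongr
      _ = ((2 * C : ℝ≥0) : ℝ≥0∞) * ENNReal.ofReal (d ^ (-(2 * σ))) *
          volume {x : X n | η x ≠ 0} := by
          rw [ENNReal.coe_mul, ENNReal.coe_ofNat]
          ring

end RFK
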