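import Pool.Agent.RFK.Defs

/-!
# MP_35334d_an: basic facts about the double integrals (helper27)
-/

set_option autoImplicit false

open MeasureTheory Filter Topology Metric Set
open scoped ENNReal NNReal

namespace RFK

variable {n : ℕ} {σ : ℝ}

theorem measurable_K : Measurable (K σ : X n → ℝ≥0∞) := by
  unfold K
  fun_prop

theorem K_neg (z : X n) : K σ (-z) = K σ z := by simp [K]

theorem K_comm (x y : X n) : K σ (x - y) = K σ (y - x) := by rw [← K_neg, neg_sub]

theorem K_zero (h : (n : ℝ) + 2 * σ ≠ 0) : K σ (0 : X n) = 0 := by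
  simp [K, Real.zero_rpow h]

theorem K_ne_top (z : X n) : K σ z ≠ ∞ := ENNReal.ofReal_ne_top

theorem K_smul {R : ℝ} (hR : 0 < R) (z : X n) :
    K σ (R • z) = ENNReal.ofReal (R ^ (-((n : ℝ) + 2 * σ))) * K σ z := by
  unfold K
  rw [← ENNReal.ofReal_mul (by positivity), norm_smul, Real.norm_eq_abs, abs_of_pos hR,
    Real.mul_rpow hR.le (norm_nonneg z), Real.rpow_neg hR.le, mul_inv]

theorem K_anti (h : 0 ≤ (n : ℝ) + 2 * σ) {z w : X n} (hz : z ≠ 0) (hzw : ‖z‖ ≤ ‖w‖) :
    K σ w ≤ K σ z := by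
  unfold K
  apply ENNReal.ofReal_le_ofReal
  have hz0 : 0 < ‖z‖ := norm_pos_iff.mpr hz
  exact inv_anti₀ (by positivity) (Real.rpow_le_rpow hz0.le hzw h)

theorem K_le (h : 0 ≤ (n : ℝ) + 2 * σ) {ρ : ℝ} (hρ : 0 < ρ) {z : X n} (hz : ρ ≤ ‖z‖) :
    K σ z ≤ ENNReal.ofReal ((ρ ^ ((n : ℝ) + 2 * σ))⁻¹) := by
  unfold K
  apply ENNReal.ofReal_le_ofReal
  exact inv_anti₀ (by positivity) (Real.rpow_le_rpow hρ.le hz h)

theorem le_K (h : 0 ≤ (n : ℝ) + 2 * σ) {ρ : ℝ} {z : X n} (hz0 : z ≠ 0) (hz : ‖z‖ ≤ ρ) :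
    ENNReal.ofReal ((ρ ^ ((n : ℝ) + 2 * σ))⁻¹) ≤ K σ z := by
  unfold K
  apply ENNReal.ofReal_le_ofReal
  have hz0 : 0 < ‖z‖ := norm_pos_iff.mpr hz0
  exact inv_anti₀ (by positivity) (Real.rpow_le_rpow hz0.le hz h)

theorem sq_eq (t : ℝ) : sq t = ENNReal.ofReal (t ^ 2) := rfl

theorem sq_zero : sq 0 = 0 := by simp [sq]

theorem sq_ne_top (t : ℝ) : sq t ≠ ∞ := ENNReal.ofReal_ne_top

theorem sq_le {s t : ℝ} (h : |s| ≤ |t|) : sq s ≤ sq t :=
  ENNReal.ofReal_le_ofReal (sq_le_sq.mpr h)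

theorem sq_neg (t : ℝ) : sq (-t) = sq t := by simp [sq]

theorem sq_sub_comm (s t : ℝ) : sq (s - t) = sq (t - s) := by rw [← sq_neg, neg_sub]

theorem sq_mul (s t : ℝ) : sq (s * t) = sq s * sq t := by
  unfold sq
  rw [mul_pow, ENNReal.ofReal_mul (by positivity)]

/-- `(s + t)² ≤ 2 s² + 2 t²` -/
theorem sq_add_le (s t : ℝ) : sq (s + t) ≤ 2 * sq s + 2 * sq t := by
  unfold sq
  rw [show (2 : ℝ≥0∞) = ENNReal.ofReal 2 by simp, ← ENNReal.ofReal_mul (by norm_num),
    ← ENNReal.ofReal_mul (by norm_num), ← ENNReal.ofReal_add (by positivity) (by positivity)]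
  exact ENNReal.ofReal_le_ofReal (by nlinarith [sq_nonneg (s - t)])

@[fun_prop]
theorem measurable_sq : Measurable sq := by
  unfold sq
  fun_prop

theorem measurable_sq_comp {α : Type*} [MeasurableSpace α] {f : α → ℝ} (hf : Measurable f) :
    Measurable fun x => sq (f x) := measurable_sq.comp hf

theorem measurable_pos : Measurable pos := by
  unfold pos
  fun_prop

theorem pos_nonneg (t : ℝ) : 0 ≤ pos t := le_max_right _ _

theorem le_pos (t : ℝ) : t ≤ pos t := le_max_left _ _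

theorem pos_of_nonneg {t : ℝ} (h : 0 ≤ t) : pos t = t := max_eq_left h

theorem pos_of_nonpos {t : ℝ} (h : t ≤ 0) : pos t = 0 := max_eq_right h

theorem pos_mono {s t : ℝ} (h : s ≤ t) : pos s ≤ pos t := max_le_max h le_rfl

theorem abs_pos_sub_pos_le (s t : ℝ) : |pos s - pos t| ≤ |s - t| := abs_max_sub_max_le_abs s t 0

/-! ## Cut-off functions -/

theorem cut_nonneg (r' r : ℝ) (x : X n) : 0 ≤ cut r' r x := le_max_left _ _

theorem cut_le_one (r' r : ℝ) (x : X n) : cut r' r x ≤ 1 :=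
  max_le zero_le_one (min_le_left _ _)

theorem cut_eq_one {r' r : ℝ} (h : r' < r) {x : X n} (hx : ‖x‖ ≤ r') : cut r' r x = 1 := by
  have h1 : 1 ≤ (r - ‖x‖) / (r - r') := by
    rw [one_le_div (by linarith)]
    linarith
  rw [cut, min_eq_left h1, max_eq_right zero_le_one]

theorem cut_eq_zero {r' r : ℝ} (h : r' < r) {x : X n} (hx : r ≤ ‖x‖) : cut r' r x = 0 := by
  have h1 : (r - ‖x‖) / (r - r') ≤ 0 := div_nonpos_of_nonpos_of_nonneg (by linarith) (by linarith)
  rw [cut, min_eq_right (by linarith), max_eq_left h1]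

theorem cut_pos_iff {r' r : ℝ} (h : r' < r) {x : X n} : 0 < cut r' r x ↔ ‖x‖ < r := by
  constructor
  · intro hx
    by_contra hc
    rw [cut_eq_zero h (not_lt.mp hc)] at hx
    exact lt_irrefl _ hx
  · intro hx
    unfold cut
    have h1 : 0 < (r - ‖x‖) / (r - r') := div_pos (by linarith) (by linarith)
    exact lt_max_of_lt_right (lt_min one_pos h1)

theorem cut_lip {r' r : ℝ} (h : r' < r) (x y : X n) :
    |cut r' r x - cut r' r y| ≤ ‖x - y‖ / (r - r') := by
  unfold cut
  have h0 : 0 < r - r' := by linarith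
  rw [max_comm 0, max_comm 0]
  refine (abs_max_sub_max_le_abs _ _ 0).trans ?_
  refine (abs_min_sub_min_le_max _ _ _ _).trans ?_
  rw [sub_self, abs_zero, max_eq_right (abs_nonneg _), ← sub_div, abs_div, abs_of_pos h0]
  gcongr
  rw [show r - ‖x‖ - (r - ‖y‖) = ‖y‖ - ‖x‖ by ring]
  have := abs_norm_sub_norm_le y x
  rwa [norm_sub_rev] at this

theorem measurable_cut (r' r : ℝ) : Measurable (cut r' r : X n → ℝ) := by
  unfold cut
  fun_prop

/-! ## Energy and double integrals -/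

theorem En_eq (E : Set (X n)) (u : X n → ℝ) :
    En σ E u = DI σ E E (fun x y => sq (u x - u y)) := by
  unfold En DI sq K
  apply lintegral_congr
  intro x
  apply lintegral_congr
  intro y
  rw [← ENNReal.ofReal_mul (by positivity), div_eq_mul_inv]

/-- measurability of the integrand -/
theorem measurable_GK {G : X n → X n → ℝ≥0∞} (hG : Measurable (Function.uncurry G)) :
    Measurable (Function.uncurry fun x y : X n => G x y * K σ (x - y)) :=
  hG.mul (measurable_K.comp (measurable_fst.sub measurable_snd))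

theorem measurable_inner {G : X n → X n → ℝ≥0∞} (hG : Measurable (Function.uncurry G))
    (B' : Set (X n)) : Measurable fun x => ∫⁻ y in B', G x y * K σ (x - y) :=
  (measurable_GK hG).lintegral_prod_right'

theorem DI_mono_set {A A' B' B'' : Set (X n)} (hA : A ⊆ A') (hB : B' ⊆ B'')
    (G : X n → X n → ℝ≥0∞) : DI σ A B' G ≤ DI σ A' B'' G :=
  (lintegral_mono fun _ => lintegral_mono_set hB).trans (lintegral_mono_set hA)

theorem DI_mono {A B' : Set (X n)} (hA : MeasurableSet A) (hB : MeasurableSet B')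
    {G H : X n → X n → ℝ≥0∞} (h : ∀ x ∈ A, ∀ y ∈ B', G x y ≤ H x y) :
    DI σ A B' G ≤ DI σ A B' H := by
  unfold DI
  apply setLIntegral_mono' hA
  intro x hx
  apply setLIntegral_mono' hB
  intro y hy
  gcongr
  exact h x hx y hy

/-- off the diagonal is enough -/
theorem DI_mono_ae {A B' : Set (X n)} (hA : MeasurableSet A) (hB : MeasurableSet B')
    {G H : X n → X n → ℝ≥0∞} (h : ∀ᵐ x, x ∈ A → ∀ᵐ y, y ∈ B' → G x y ≤ H x y) :
    DI σ A B' G ≤ DI σ A B' H := by
  unfold DI
  apply lintegral_mono_ae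
  rw [ae_restrict_iff' hA]
  filter_upwards [h] with x hx hxA
  apply lintegral_mono_ae
  rw [ae_restrict_iff' hB]
  filter_upwards [hx hxA] with y hy hyB
  gcongr
  exact hy hyB

theorem DI_congr {A B' : Set (X n)} (hA : MeasurableSet A) (hB : MeasurableSet B')
    {G H : X n → X n → ℝ≥0∞} (h : ∀ x ∈ A, ∀ y ∈ B', G x y = H x y) :
    DI σ A B' G = DI σ A B' H :=
  le_antisymm (DI_mono hA hB fun x hx y hy => (h x hx y hy).le)
    (DI_mono hA hB fun x hx y hy => (h x hx y hy).ge)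

theorem DI_congr_ae {A B' : Set (X n)} (hA : MeasurableSet A) (hB : MeasurableSet B')
    {G H : X n → X n → ℝ≥0∞} (h : ∀ᵐ x, x ∈ A → ∀ᵐ y, y ∈ B' → G x y = H x y) :
    DI σ A B' G = DI σ A B' H := by
  apply le_antisymm
  · apply DI_mono_ae hA hB
    filter_upwards [h] with x hx hxA
    filter_upwards [hx hxA] with y hy hyB
    exact (hy hyB).le
  · apply DI_mono_ae hA hB
    filter_upwards [h] with x hx hxA
    filter_upwards [hx hxA] with y hy hyB
    exact (hy hyB).ge

theorem DI_swap {A B' : Set (X n)} {G : X n → X n → ℝ≥0∞}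
    (hG : Measurable (Function.uncurry G)) :
    DI σ A B' G = DI σ B' A (fun x y => G y x) := by
  unfold DI
  rw [lintegral_lintegral_swap (measurable_GK hG).aemeasurable]
  apply lintegral_congr
  intro y
  apply lintegral_congr
  intro x
  rw [K_comm]

theorem DI_add {A B' : Set (X n)} {G H : X n → X n → ℝ≥0∞}
    (hG : Measurable (Function.uncurry G)) :
    DI σ A B' (fun x y => G x y + H x y) = DI σ A B' G + DI σ A B' H := by
  unfold DI
  rw [← lintegral_add_left (measurable_inner hG B')]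
  apply lintegral_congr
  intro x
  have h1 : Measurable fun y => G x y * K σ (x - y) :=
    (measurable_GK hG).comp (measurable_const.prodMk measurable_id)
  rw [← lintegral_add_left h1]
  apply lintegral_congr
  intro y
  rw [add_mul]

theorem DI_const_mul {A B' : Set (X n)} {c : ℝ≥0∞} (hc : c ≠ ∞) (G : X n → X n → ℝ≥0∞) :
    DI σ A B' (fun x y => c * G x y) = c * DI σ A B' G := by
  unfold DI
  rw [← lintegral_const_mul' c _ hc]
  apply lintegral_congr
  intro x
  rw [← lintegral_const_mul' c _ hc]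
  apply lintegral_congr
  intro y
  rw [mul_assoc]

theorem DI_union_left {A A' B' : Set (X n)} (hA' : MeasurableSet A') (hd : Disjoint A A')
    (G : X n → X n → ℝ≥0∞) : DI σ (A ∪ A') B' G = DI σ A B' G + DI σ A' B' G := by
  unfold DI
  exact lintegral_union hA' hd

theorem DI_union_right {A B' B'' : Set (X n)} (hB'' : MeasurableSet B'') (hd : Disjoint B' B'')
    {G : X n → X n → ℝ≥0∞} (hG : Measurable (Function.uncurry G)) :
    DI σ A (B' ∪ B'') G = DI σ A B' G + DI σ A B'' G := by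
  unfold DI
  rw [← lintegral_add_left (measurable_inner hG B')]
  apply lintegral_congr
  intro x
  exact lintegral_union hB'' hd

theorem measurable_dsq {u : X n → ℝ} (hu : Measurable u) :
    Measurable (Function.uncurry fun x y : X n => sq (u x - u y)) :=
  measurable_sq.comp ((hu.comp measurable_fst).sub (hu.comp measurable_snd))

/-- the energy on a disjoint union -/
theorem En_union {A A' : Set (X n)} (hA' : MeasurableSet A')
    (hd : Disjoint A A') {u : X n → ℝ} (hu : Measurable u) :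
    En σ (A ∪ A') u = En σ A u + 2 * DI σ A A' (fun x y => sq (u x - u y)) + En σ A' u := by
  have hm := measurable_dsq hu
  have hs : DI σ A' A (fun x y => sq (u x - u y)) = DI σ A A' (fun x y => sq (u x - u y)) := by
    rw [DI_swap hm]
    congr 1
    funext x y
    exact sq_sub_comm _ _
  rw [En_eq, En_eq, En_eq, DI_union_left hA' hd, DI_union_right hA' hd hm,
    DI_union_right hA' hd hm, hs, two_mul]
  ring

theorem En_mono {A A' : Set (X n)} (h : A ⊆ A') (u : X n → ℝ) : En σ A u ≤ En σ A' u :=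
  (lintegral_mono fun _ => lintegral_mono_set h).trans (lintegral_mono_set h)

/-- points outside a set -/
theorem DI_le_En {A A' : Set (X n)} (u : X n → ℝ) :
    DI σ A A' (fun x y => sq (u x - u y)) ≤ En σ univ u := by
  rw [En_eq]
  exact DI_mono_set (subset_univ _) (subset_univ _) _

/-- the change of variables `x ↦ x₀ + R x` -/
theorem lintegral_aff {R : ℝ} (hR : 0 < R) (x₀ : X n) (A : Set (X n)) (F : X n → ℝ≥0∞) :
    ∫⁻ x in A, F x = ENNReal.ofReal (R ^ (n : ℝ)) *
      ∫⁻ x in (fun x => x₀ + R • x) ⁻¹' A, F (x₀ + R • x) := by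
  have hemb : MeasurableEmbedding (fun x : X n => x₀ + R • x) :=
    (Homeomorph.addLeft x₀).measurableEmbedding.comp
      (Homeomorph.smulOfNeZero R hR.ne').measurableEmbedding
  have hmap : Measure.map (fun x : X n => x₀ + R • x) volume =
      ENNReal.ofReal ((R ^ (n : ℝ))⁻¹) • volume := by
    have h1 : (fun x : X n => x₀ + R • x) = (fun x => x₀ + x) ∘ (fun x => R • x) := rfl
    rw [h1, ← Measure.map_map (by fun_prop) (by fun_prop), Measure.map_addHaar_smul _ hR.ne',
      Measure.map_smul, map_add_left_eq_self]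
    congr 2
    rw [finrank_euclideanSpace, Fintype.card_fin, Real.rpow_natCast, abs_of_pos (by positivity)]
  have h2 : ∫⁻ x in A, F x ∂(Measure.map (fun x : X n => x₀ + R • x) volume) =
      ∫⁻ x in (fun x => x₀ + R • x) ⁻¹' A, F (x₀ + R • x) := by
    rw [hemb.restrict_map, hemb.lintegral_map]
  rw [← h2, hmap, Measure.restrict_smul, lintegral_smul_measure, smul_eq_mul, ← mul_assoc,
    ← ENNReal.ofReal_mul (by positivity), mul_inv_cancel₀ (by positivity), ENNReal.ofReal_one,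
    one_mul]

/-- translation and scaling of double integrals -/
theorem DI_scale {R : ℝ} (hR : 0 < R) (x₀ : X n) (A B' : Set (X n)) (G : X n → X n → ℝ≥0∞) :
    DI σ A B' G = ENNReal.ofReal (R ^ ((n : ℝ) - 2 * σ)) *
      DI σ ((fun x => x₀ + R • x) ⁻¹' A) ((fun x => x₀ + R • x) ⁻¹' B')
        (fun x y => G (x₀ + R • x) (x₀ + R • y)) := by
  unfold DI
  rw [lintegral_aff hR x₀ A]
  have h1 : ∀ x : X n, ∫⁻ y in B', G (x₀ + R • x) y * K σ (x₀ + R • x - y) =
      ENNReal.ofReal (R ^ (-(2 * σ))) * ∫⁻ y in (fun x => x₀ + R • x) ⁻¹' B',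
        G (x₀ + R • x) (x₀ + R • y) * K σ (x - y) := by
    intro x
    rw [lintegral_aff hR x₀ B']
    have h2 : ∀ y : X n, G (x₀ + R • x) (x₀ + R • y) * K σ (x₀ + R • x - (x₀ + R • y)) =
        ENNReal.ofReal (R ^ (-((n : ℝ) + 2 * σ))) * (G (x₀ + R • x) (x₀ + R • y) * K σ (x - y)) := by
      intro y
      rw [add_sub_add_left_eq_sub, ← smul_sub, K_smul hR]
      ring
    simp_rw [h2]
    rw [lintegral_const_mul' _ _ ENNReal.ofReal_ne_top, ← mul_assoc,
      ← ENNReal.ofReal_mul (by positivity), ← Real.rpow_add hR]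
    congr 3
    ring
  simp_rw [h1]
  rw [lintegral_const_mul' _ _ ENNReal.ofReal_ne_top, ← mul_assoc,
    ← ENNReal.ofReal_mul (by positivity), ← Real.rpow_add hR]
  congr 3

/-- the midpoint transformation -/
theorem DI_mid (A B' : Set (X n)) (G : X n → X n → ℝ≥0∞) :
    ∫⁻ x in A, ∫⁻ y in (fun y => (2 : ℝ)⁻¹ • (x + y)) ⁻¹' B', G x ((2 : ℝ)⁻¹ • (x + y)) * K σ (x - y) =
      ENNReal.ofReal (2 ^ (-(2 * σ))) * DI σ A B' G := by
  unfold DI
  rw [← lintegral_const_mul' _ _ ENNReal.ofReal_ne_top]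
  apply lintegral_congr
  intro x
  rw [lintegral_aff (by norm_num : (0 : ℝ) < 2⁻¹) ((2 : ℝ)⁻¹ • x) B' (fun y => G x y * K σ (x - y))]
  have h2 : ∀ y : X n, G x ((2 : ℝ)⁻¹ • x + (2 : ℝ)⁻¹ • y) *
      K σ (x - ((2 : ℝ)⁻¹ • x + (2 : ℝ)⁻¹ • y)) =
      ENNReal.ofReal ((2 : ℝ)⁻¹ ^ (-((n : ℝ) + 2 * σ))) *
        (G x ((2 : ℝ)⁻¹ • (x + y)) * K σ (x - y)) := by
    intro y
    have h3 : x - ((2 : ℝ)⁻¹ • x + (2 : ℝ)⁻¹ • y) = (2 : ℝ)⁻¹ • (x - y) := by
      rw [smul_sub]
      have : x = (2 : ℝ)⁻¹ • x + (2 : ℝ)⁻¹ • x := by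
        rw [← add_smul]
        norm_num
      nth_rewrite 1 [this]
      abel
    rw [h3, K_smul (by norm_num), ← smul_add]
    ring
  simp_rw [h2]
  rw [lintegral_const_mul' _ _ ENNReal.ofReal_ne_top, ← mul_assoc, ← mul_assoc,
    ← ENNReal.ofReal_mul (by positivity), ← ENNReal.ofReal_mul (by positivity)]
  have h4 : (2 : ℝ) ^ (-(2 * σ)) * (2 : ℝ)⁻¹ ^ (n : ℝ) * (2 : ℝ)⁻¹ ^ (-((n : ℝ) + 2 * σ)) = 1 := by
    rw [Real.inv_rpow (by norm_num), Real.inv_rpow (by norm_num), ← Real.rpow_neg (by norm_num),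
      ← Real.rpow_neg (by norm_num), ← Real.rpow_add (by norm_num), ← Real.rpow_add (by norm_num)]
    ring_nf
    simp
  rw [h4, ENNReal.ofReal_one, one_mul]
  simp_rw [← smul_add]

end RFK
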