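import Pool.Agent.RFK.TargetsE
import Pool.Agent.RFK.Basic

/-!
# MP_35334d_an, RFK-EX1: a minimizing sequence (helper44)
-/

set_option autoImplicit false

open MeasureTheory Filter Topology Metric Set
open scoped ENNReal NNReal

namespace RFK

namespace EX1_

variable {n : ℕ} {σ : ℝ}

/-- the infimum of `J` -/
noncomputable def MM (n : ℕ) (σ : ℝ) : ℝ≥0∞ := ⨅ v : {v : X n → ℝ // Adm σ v}, J σ v.1

theorem MM_le {v : X n → ℝ} (hv : Adm σ v) : MM n σ ≤ J σ v :=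
  iInf_le (fun v : {v : X n → ℝ // Adm σ v} => J σ v.1) ⟨v, hv⟩

theorem MM_ne_top (hok : OK n σ) (hJ : T_JFI) : MM n σ ≠ ∞ := by
  obtain ⟨v, hv, hv'⟩ := hJ n σ hok
  exact ne_top_of_le_ne_top hv' (MM_le hv)

theorem exists_lt {ε : ℝ≥0∞} (hM : MM n σ ≠ ∞) (hε : ε ≠ 0) :
    ∃ v : X n → ℝ, Adm σ v ∧ J σ v < MM n σ + ε := by
  have h : MM n σ < MM n σ + ε := ENNReal.lt_add_right hM hε
  obtain ⟨⟨v, hv⟩, hlt⟩ := iInf_lt_iff.mp h
  exact ⟨v, hv, hlt⟩

theorem LB_MM (hok : OK n σ) (hD : T_DEN) : LB n σ (MM n σ).toReal := by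
  refine ⟨ENNReal.toReal_nonneg, ?_⟩
  intro v hm h0 hS hE hV
  by_cases hz : ∀ᵐ x, v x = 0
  · have h1 : ∫⁻ x, sq (v x) = 0 := by
      rw [lintegral_eq_zero_iff (measurable_sq_comp hm)]
      filter_upwards [hz] with x hx
      rw [hx, sq_zero]
      rfl
    rw [h1, ENNReal.toReal_zero, mul_zero]
    exact ENNReal.toReal_nonneg
  · have hA : Adm σ v := ⟨hD n σ hok v hm hS hE, Eventually.of_forall h0, hz⟩
    have hS0 : ∫⁻ x, sq (v x) ≠ 0 := by
      intro h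
      apply hz
      rw [lintegral_eq_zero_iff (measurable_sq_comp hm)] at h
      filter_upwards [h] with x hx
      have hx' : ENNReal.ofReal (v x ^ 2) = 0 := hx
      rw [ENNReal.ofReal_eq_zero] at hx'
      have h2 : v x ^ 2 = 0 := le_antisymm hx' (by positivity)
      exact pow_eq_zero_iff (two_ne_zero) |>.mp h2
    have hEO : En σ {x | 0 < v x} v ≠ ∞ := ne_top_of_le_ne_top hE (En_mono (subset_univ _) v)
    have hdiv : En σ {x | 0 < v x} v / (∫⁻ x, sq (v x)) ≠ ∞ := ENNReal.div_ne_top hEO hS0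
    have hJv : J σ v = En σ {x | 0 < v x} v / (∫⁻ x, sq (v x)) + volume {x | 0 < v x} := rfl
    have h1 : MM n σ ≤ J σ v := MM_le hA
    have h2 : (MM n σ).toReal ≤ (J σ v).toReal := by
      apply ENNReal.toReal_mono _ h1
      rw [hJv]
      exact ENNReal.add_ne_top.mpr ⟨hdiv, hV⟩
    rw [hJv, ENNReal.toReal_add hdiv hV, ENNReal.toReal_div] at h2
    have hSp : 0 < (∫⁻ x, sq (v x)).toReal := ENNReal.toReal_pos hS0 hS
    have h3 : (MM n σ).toReal - (volume {x | 0 < v x}).toReal ≤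
        (En σ {x | 0 < v x} v).toReal / (∫⁻ x, sq (v x)).toReal := by linarith
    rw [le_div_iff₀ hSp] at h3
    exact h3

end EX1_

open EX1_ in
/-- EX1: a minimizing sequence -/
theorem p_EX1 (hN : T_NAD) (hJ : T_JFI) (hD : T_DEN) : T_EX1 := by
  intro n σ hok
  have hM := MM_ne_top hok hJ
  refine ⟨(MM n σ).toReal, LB_MM hok hD, ?_, ?_⟩
  · intro v hv
    rw [ENNReal.ofReal_toReal hM]
    exact MM_le hv
  · have hex : ∀ j : ℕ, ∃ w : X n → ℝ, NA σ w ∧ MM n σ ≤ FF σ w ∧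
        FF σ w < MM n σ + ((j : ℝ≥0∞) + 1)⁻¹ := by
      intro j
      have hj : ((j : ℝ≥0∞) + 1)⁻¹ ≠ 0 := by
        rw [ENNReal.inv_ne_zero]
        exact ENNReal.add_ne_top.mpr ⟨ENNReal.natCast_ne_top j, ENNReal.one_ne_top⟩
      obtain ⟨v, hv, hlt⟩ := exists_lt hM hj
      have hfin : J σ v ≠ ∞ := hlt.ne_top
      obtain ⟨w, hw, hFF⟩ := hN n σ hok v hv hfin
      exact ⟨w, hw, hFF ▸ MM_le hv, hFF ▸ hlt⟩
    choose w hw h1 h2 using hex
    refine ⟨w, hw, ?_⟩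
    have hlim : Tendsto (fun j : ℕ => MM n σ + ((j : ℝ≥0∞) + 1)⁻¹) atTop (𝓝 (MM n σ)) := by
      have h3 : Tendsto (fun j : ℕ => ((j : ℝ≥0∞) + 1)⁻¹) atTop (𝓝 0) := by
        have h4 := (tendsto_add_atTop_iff_nat (f := fun j : ℕ => ((j : ℝ≥0∞))⁻¹)
          (l := 𝓝 0) 1).mpr ENNReal.tendsto_inv_nat_nhds_zero
        refine h4.congr fun j => ?_
        push_cast
        rfl
      have h5 : Tendsto (fun j : ℕ => MM n σ + ((j : ℝ≥0∞) + 1)⁻¹) atTop (𝓝 (MM n σ + 0)) :=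
        Tendsto.const_add (MM n σ) h3
      rwa [add_zero] at h5
    have h6 : Tendsto (fun j => FF σ (w j)) atTop (𝓝 (MM n σ)) :=
      tendsto_of_tendsto_of_tendsto_of_le_of_le tendsto_const_nhds hlim h1 fun j => (h2 j).le
    exact (ENNReal.tendsto_toReal hM).comp h6

end RFK
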