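import Pool.Agent.RFK.TargetsE

/-!
# MP_35334d_an, target EX2: the full energy
-/

set_option autoImplicit false

open MeasureTheory Filter Topology Metric Set
open scoped ENNReal NNReal

namespace RFK

theorem p_EX2 (hHAR : T_HAR) : T_EX2 := by
  intro n σ hok
  obtain ⟨C, hC⟩ := hHAR n σ hok
  refine ⟨1 + 2 * C, fun u hu => ?_⟩
  set Ω : Set (X n) := {x | 0 < u x} with hΩ
  have hΩm : MeasurableSet Ω := measurableSet_lt measurable_const hu.meas
  have h0 : ∀ x ∈ Ωᶜ, u x = 0 := fun x hx =>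
    le_antisymm (not_lt.1 hx) (hu.nonneg x)
  have h1 : En σ univ u = En σ Ω u + 2 * DI σ Ω Ωᶜ (fun x y => sq (u x - u y)) + En σ Ωᶜ u := by
    rw [← En_union hΩm.compl disjoint_compl_right hu.meas, union_compl_self]
  have h2 : En σ Ωᶜ u = 0 := by
    rw [En_eq, DI_congr hΩm.compl hΩm.compl (H := fun _ _ => 0)
      (fun x hx y hy => by rw [h0 x hx, h0 y hy, sub_zero, sq_zero])]
    unfold DI
    simp
  have h3 : DI σ Ω Ωᶜ (fun x y => sq (u x - u y)) = DI σ (univ \ Ω) (univ ∩ Ω)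
      (fun _ y => sq (u y)) := by
    rw [DI_congr hΩm hΩm.compl (H := fun x _ => sq (u x))
      (fun x _ y hy => by rw [h0 y hy, sub_zero]),
      DI_swap (measurable_sq_comp (hu.meas.comp measurable_fst)), univ_inter, ← compl_eq_univ_diff]
  have h4 : DI σ Ω Ωᶜ (fun x y => sq (u x - u y)) ≠ ∞ :=
    ne_top_of_le_ne_top hu.fin (DI_le_En u)
  have h5 := hC univ Ω u convex_univ MeasurableSet.univ hΩm hu.meas (by rw [← h3]; exact h4)
  rw [← h3, univ_inter] at h5
  rw [h1, h2, add_zero]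
  calc En σ Ω u + 2 * DI σ Ω Ωᶜ (fun x y => sq (u x - u y))
      ≤ En σ Ω u + 2 * (C * En σ Ω u) := by gcongr
    _ = ((1 + 2 * C : ℝ≥0) : ℝ≥0∞) * En σ Ω u := by push_cast; ring

end RFK
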