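import Pool.Agent.RFK.TargetsE
import Pool.Agent.RFK.Basic

/-!
# MP_35334d_an, entry EX3: non-vanishing
-/

set_option autoImplicit false

open MeasureTheory Filter Topology Metric Set
open scoped ENNReal NNReal

namespace RFK

namespace EX3_

variable {n : ℕ} {σ : ℝ}

/-- averaging over all unit balls -/
lemma avg (F : X n → ℝ≥0∞) (hF : Measurable F) :
    ∫⁻ z : X n, ∫⁻ x in ball z 1, F x = volume (ball (0 : X n) 1) * ∫⁻ x, F x := by
  have hS : MeasurableSet {p : X n × X n | dist p.2 p.1 < 1} :=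
    (isOpen_lt (by fun_prop) (by fun_prop)).measurableSet
  have h1 : ∀ z : X n, ∫⁻ x in ball z 1, F x =
      ∫⁻ x, {p : X n × X n | dist p.2 p.1 < 1}.indicator (fun p => F p.2) (z, x) := by
    intro z
    rw [← lintegral_indicator measurableSet_ball]
    refine lintegral_congr fun x => ?_
    by_cases hx : dist x z < 1
    · have a1 : x ∈ ball z 1 := hx
      have a2 : (z, x) ∈ {p : X n × X n | dist p.2 p.1 < 1} := hx
      rw [indicator_of_mem a1, indicator_of_mem a2]
    · have a1 : x ∉ ball z 1 := hx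
      have a2 : (z, x) ∉ {p : X n × X n | dist p.2 p.1 < 1} := hx
      rw [indicator_of_notMem a1, indicator_of_notMem a2]
  simp_rw [h1]
  have hm : Measurable (fun p : X n × X n =>
      {p : X n × X n | dist p.2 p.1 < 1}.indicator (fun p => F p.2) p) :=
    (hF.comp measurable_snd).indicator hS
  rw [lintegral_lintegral_swap (f := fun z x : X n =>
    {p : X n × X n | dist p.2 p.1 < 1}.indicator (fun p => F p.2) (z, x)) hm.aemeasurable]
  rw [← lintegral_const_mul _ hF]
  refine lintegral_congr fun x => ?_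
  have h2 : ∀ z : X n, {p : X n × X n | dist p.2 p.1 < 1}.indicator (fun p => F p.2) (z, x) =
      (ball x 1).indicator (fun _ => F x) z := by
    intro z
    by_cases hx : dist x z < 1
    · have a1 : z ∈ ball x 1 := by
        rw [mem_ball, dist_comm]
        exact hx
      have a2 : (z, x) ∈ {p : X n × X n | dist p.2 p.1 < 1} := hx
      rw [indicator_of_mem a1, indicator_of_mem a2]
    · have a1 : z ∉ ball x 1 := by
        rw [mem_ball, dist_comm]
        exact hx
      have a2 : (z, x) ∉ {p : X n × X n | dist p.2 p.1 < 1} := hx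
      rw [indicator_of_notMem a1, indicator_of_notMem a2]
  simp_rw [h2]
  rw [lintegral_indicator measurableSet_ball, setLIntegral_const, mul_comm,
    Measure.addHaar_ball_center]

/-- the averaged energy -/
lemma avgE {v : X n → ℝ} (hv : Measurable v) :
    ∫⁻ z : X n, En σ (ball z 1) v ≤ volume (ball (0 : X n) 1) * En σ univ v := by
  have hm : Measurable (fun x => ∫⁻ y in univ, sq (v x - v y) * K σ (x - y)) :=
    measurable_inner (measurable_dsq hv) univ
  have h2 : En σ univ v = ∫⁻ x, ∫⁻ y in univ, sq (v x - v y) * K σ (x - y) := by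
    rw [En_eq, DI, setLIntegral_univ]
  rw [h2, ← avg _ hm]
  refine lintegral_mono fun z => ?_
  rw [En_eq, DI]
  exact lintegral_mono fun x => lintegral_mono_set (subset_univ _)

end EX3_

open EX3_

theorem p_EX3 (hEXL : T_EXL) (hEXB : T_EXB) : T_EX3 := by
  intro n σ hOK C₁ hC₁
  obtain ⟨ε, cL, hε, hcL, hL⟩ := hEXL n σ hOK C₁ hC₁
  set κ : ℝ := (ε / 2) ^ 2 * cL / (2 * C₁) with hκ
  have hκ0 : 0 < κ := by positivity
  obtain ⟨cB, hcB, hB⟩ := hEXB n σ hOK κ hκ0
  refine ⟨(ε / 2) ^ 2 * cB, by positivity, ?_⟩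
  intro u hu hE hvol
  have h1 := hL u hu hE hvol
  set v : X n → ℝ := fun x => pos (u x - ε / 2) with hv
  have hvm : Measurable v := measurable_pos.comp (hu.meas.sub_const _)
  have hvu : ∀ x, sq (v x) ≤ sq (u x) := by
    intro x
    apply sq_le
    rw [abs_of_nonneg (hu.nonneg x), hv, abs_of_nonneg (pos_nonneg _)]
    exact max_le (by linarith) (hu.nonneg x)
  have hvE : En σ univ v ≤ En σ univ u := by
    rw [En_eq, En_eq]
    refine DI_mono MeasurableSet.univ MeasurableSet.univ fun x _ y _ => ?_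
    apply sq_le
    have h := abs_pos_sub_pos_le (u x - ε / 2) (u y - ε / 2)
    rwa [show u x - ε / 2 - (u y - ε / 2) = u x - u y by ring] at h
  have hv2f : ∫⁻ x, sq (v x) ≠ ∞ := by
    refine ne_top_of_le_ne_top (b := ∫⁻ x, sq (u x)) ?_ (lintegral_mono hvu)
    rw [hu.norm]
    exact ENNReal.one_ne_top
  have hv2 : ENNReal.ofReal ((ε / 2) ^ 2 * cL) ≤ ∫⁻ x, sq (v x) := by
    have hms : MeasurableSet {x | ε < u x} := measurableSet_lt measurable_const hu.meas
    calc ENNReal.ofReal ((ε / 2) ^ 2 * cL)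
        = ENNReal.ofReal ((ε / 2) ^ 2) * ENNReal.ofReal cL := ENNReal.ofReal_mul (by positivity)
      _ ≤ ENNReal.ofReal ((ε / 2) ^ 2) * volume {x | ε < u x} := by gcongr
      _ = ∫⁻ x in {x | ε < u x}, ENNReal.ofReal ((ε / 2) ^ 2) := by rw [setLIntegral_const]
      _ ≤ ∫⁻ x in {x | ε < u x}, sq (v x) := by
          refine setLIntegral_mono' hms fun x hx => ?_
          have hx' : ε < u x := hx
          have h3 : ε / 2 ≤ v x := (by linarith : ε / 2 ≤ u x - ε / 2).trans (le_pos _)
          exact ENNReal.ofReal_le_ofReal (pow_le_pow_left₀ (by positivity) h3 2)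
      _ ≤ ∫⁻ x, sq (v x) := setLIntegral_le_lintegral _ _
  -- a good ball
  have hz : ∃ z : X n, 0 < ∫⁻ x in ball z 1, sq (v x) ∧
      ENNReal.ofReal κ * En σ (ball z 1) v ≤ ∫⁻ x in ball z 1, sq (v x) := by
    by_contra hcon
    push Not at hcon
    have h3 : ∀ z : X n, ∫⁻ x in ball z 1, sq (v x) ≤ ENNReal.ofReal κ * En σ (ball z 1) v := by
      intro z
      rcases eq_or_ne (∫⁻ x in ball z 1, sq (v x)) 0 with h | h
      · rw [h]
        exact zero_le
      · exact (hcon z (pos_iff_ne_zero.2 h)).le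
    have hω0 : volume (ball (0 : X n) 1) ≠ 0 := (measure_ball_pos _ _ one_pos).ne'
    have hω1 : volume (ball (0 : X n) 1) ≠ ∞ := measure_ball_lt_top.ne
    have h4 : volume (ball (0 : X n) 1) * ∫⁻ x, sq (v x) ≤
        volume (ball (0 : X n) 1) * ENNReal.ofReal ((ε / 2) ^ 2 * cL / 2) := by
      calc volume (ball (0 : X n) 1) * ∫⁻ x, sq (v x)
          = ∫⁻ z : X n, ∫⁻ x in ball z 1, sq (v x) := (avg _ (measurable_sq_comp hvm)).symm
        _ ≤ ∫⁻ z : X n, ENNReal.ofReal κ * En σ (ball z 1) v := lintegral_mono h3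
        _ = ENNReal.ofReal κ * ∫⁻ z : X n, En σ (ball z 1) v :=
            lintegral_const_mul' _ _ ENNReal.ofReal_ne_top
        _ ≤ ENNReal.ofReal κ * (volume (ball (0 : X n) 1) * ENNReal.ofReal C₁) := by
            gcongr
            exact (avgE hvm).trans (by gcongr; exact hvE.trans hE)
        _ = volume (ball (0 : X n) 1) * (ENNReal.ofReal κ * ENNReal.ofReal C₁) := by ring
        _ = volume (ball (0 : X n) 1) * ENNReal.ofReal ((ε / 2) ^ 2 * cL / 2) := by
            rw [← ENNReal.ofReal_mul hκ0.le]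
            congr 2
            rw [hκ]
            field_simp
    have h5 : ∫⁻ x, sq (v x) ≤ ENNReal.ofReal ((ε / 2) ^ 2 * cL / 2) :=
      (ENNReal.mul_le_mul_iff_right hω0 hω1).1 h4
    have h6 := hv2.trans h5
    rw [ENNReal.ofReal_le_ofReal_iff (by positivity)] at h6
    have h7 : 0 < (ε / 2) ^ 2 * cL := by positivity
    linarith
  obtain ⟨z, hz0, hz1⟩ := hz
  refine ⟨z, ?_⟩
  have hfin : ∫⁻ x in ball z 1, sq (v x) ≠ ∞ :=
    ne_top_of_le_ne_top hv2f (setLIntegral_le_lintegral _ _)
  have h8 := hB z v hvm hz0 hfin hz1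
  have hms : MeasurableSet (ball z 1 ∩ {x | v x ≠ 0}) :=
    measurableSet_ball.inter (hvm (measurableSet_singleton 0)).compl
  calc ENNReal.ofReal ((ε / 2) ^ 2 * cB)
      = ENNReal.ofReal ((ε / 2) ^ 2) * ENNReal.ofReal cB := ENNReal.ofReal_mul (by positivity)
    _ ≤ ENNReal.ofReal ((ε / 2) ^ 2) * volume (ball z 1 ∩ {x | v x ≠ 0}) := by gcongr
    _ = ∫⁻ x in ball z 1 ∩ {x | v x ≠ 0}, ENNReal.ofReal ((ε / 2) ^ 2) := by
        rw [setLIntegral_const]
    _ ≤ ∫⁻ x in ball z 1 ∩ {x | v x ≠ 0}, sq (u x) := by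
        refine setLIntegral_mono' hms fun x hx => ?_
        have hx' : v x ≠ 0 := hx.2
        have h9 : ε / 2 ≤ u x := by
          by_contra hc
          apply hx'
          rw [hv]
          exact pos_of_nonpos (by linarith [not_le.1 hc])
        exact ENNReal.ofReal_le_ofReal (pow_le_pow_left₀ (by positivity) h9 2)
    _ ≤ ∫⁻ x in ball z 1, sq (u x) := lintegral_mono_set inter_subset_left

end RFK
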