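import Pool.Agent.RFK.TargetsE

/-!
EX4: the fractional Rellich theorem (averages over cubes)
-/

set_option autoImplicit false

open MeasureTheory Filter Topology Metric Set
open scoped ENNReal NNReal

namespace RFK

namespace EX4_

variable {n : ℕ} {σ : ℝ}

/-- index of the cube which contains `x` -/
noncomputable def ci (m : ℕ) (x : X n) : Fin n → ℤ := fun i => ⌊((m : ℝ) + 1) * x i⌋

theorem measurable_ci (m : ℕ) : Measurable (ci m : X n → Fin n → ℤ) := by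
  unfold ci
  apply measurable_pi_lambda
  intro i
  apply Int.measurable_floor.comp
  fun_prop

/-- the cube with a given index -/
def Q (m : ℕ) (k : Fin n → ℤ) : Set (X n) := {y | ci m y = k}

theorem measurableSet_Q (m : ℕ) (k : Fin n → ℤ) : MeasurableSet (Q m k : Set (X n)) :=
  measurable_ci m (measurableSet_singleton k)

theorem volume_Q (m : ℕ) (k : Fin n → ℤ) :
    volume (Q m k : Set (X n)) = ENNReal.ofReal ((((m : ℝ) + 1) ^ n)⁻¹) := by
  have hm : (0 : ℝ) < (m : ℝ) + 1 := by positivity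
  have h1 : (Q m k : Set (X n)) = (fun y : X n => (WithLp.ofLp y : Fin n → ℝ)) ⁻¹'
      (Set.pi univ fun i => Ico ((k i : ℝ) / ((m : ℝ) + 1)) (((k i : ℝ) + 1) / ((m : ℝ) + 1))) := by
    ext y
    simp only [Q, Set.mem_ofPred_eq, mem_preimage, Set.mem_pi, mem_univ, forall_true_left, mem_Ico]
    unfold ci
    rw [funext_iff]
    apply forall_congr'
    intro i
    rw [Int.floor_eq_iff, div_le_iff₀ hm, lt_div_iff₀ hm, mul_comm]
  rw [h1, (PiLp.volume_preserving_ofLp (Fin n)).measure_preimage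
    (MeasurableSet.univ_pi fun i => measurableSet_Ico).nullMeasurableSet, Real.volume_pi_Ico]
  have h2 : ∀ i : Fin n, ((k i : ℝ) + 1) / ((m : ℝ) + 1) - (k i : ℝ) / ((m : ℝ) + 1) =
      ((m : ℝ) + 1)⁻¹ := by
    intro i
    field_simp
    ring
  simp only [h2]
  rw [Finset.prod_const, Finset.card_univ, Fintype.card_fin, ← ENNReal.ofReal_pow (by positivity),
    inv_pow]

theorem norm_sub_le (m : ℕ) {x y : X n} (h : ci m x = ci m y) :
    ‖x - y‖ ≤ √n / ((m : ℝ) + 1) := by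
  have hm : (0 : ℝ) < (m : ℝ) + 1 := by positivity
  rw [EuclideanSpace.norm_eq]
  have h1 : ∀ i, ‖(x - y) i‖ ^ 2 ≤ (1 / ((m : ℝ) + 1)) ^ 2 := by
    intro i
    have h2 : ⌊((m : ℝ) + 1) * x i⌋ = ⌊((m : ℝ) + 1) * y i⌋ := congrFun h i
    have h3 := Int.abs_sub_lt_one_of_floor_eq_floor h2
    rw [← mul_sub, abs_mul, abs_of_pos hm] at h3
    have h4 : ‖(x - y) i‖ ≤ 1 / ((m : ℝ) + 1) := by
      rw [le_div_iff₀ hm, mul_comm, Real.norm_eq_abs]
      exact h3.le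
    exact pow_le_pow_left₀ (norm_nonneg _) h4 2
  calc √(∑ i, ‖(x - y) i‖ ^ 2) ≤ √(∑ i : Fin n, (1 / ((m : ℝ) + 1)) ^ 2) :=
        Real.sqrt_le_sqrt (Finset.sum_le_sum fun i _ => h1 i)
    _ = √n / ((m : ℝ) + 1) := by
        rw [Finset.sum_const, Finset.card_univ, Fintype.card_fin, nsmul_eq_mul,
          Real.sqrt_mul (by positivity), Real.sqrt_sq (by positivity)]
        ring

theorem sq_eq_enorm (t : ℝ) : sq t = ‖t‖ₑ ^ 2 := by
  rw [Real.enorm_eq_ofReal_abs, ← ENNReal.ofReal_pow (abs_nonneg t), sq_abs]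
  rfl

theorem enorm_le_sq (t : ℝ) : ‖t‖ₑ ≤ 1 + sq t := by
  rw [Real.enorm_eq_ofReal_abs, sq_eq, ← ENNReal.ofReal_one,
    ← ENNReal.ofReal_add zero_le_one (sq_nonneg t)]
  apply ENNReal.ofReal_le_ofReal
  have h1 := sq_abs t
  nlinarith [sq_nonneg (|t| - 1), abs_nonneg t]

theorem lint_sq {α : Type*} [MeasurableSpace α] (μ : Measure α) {f : α → ℝ≥0∞}
    (hf : AEMeasurable f μ) : (∫⁻ a, f a ∂μ) ^ 2 ≤ μ univ * ∫⁻ a, f a ^ 2 ∂μ := by
  have h := ENNReal.lintegral_mul_le_Lp_mul_Lq μ Real.HolderConjugate.two_two hf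
    (aemeasurable_const (b := (1 : ℝ≥0∞)))
  simp only [Pi.mul_apply, mul_one, ENNReal.one_rpow, lintegral_const, one_mul] at h
  have h2 : (∫⁻ a, f a ∂μ) ^ 2 ≤
      ((∫⁻ a, f a ^ (2 : ℝ) ∂μ) ^ (1 / (2 : ℝ)) * μ univ ^ (1 / (2 : ℝ))) ^ 2 := by
    gcongr
  refine h2.trans (le_of_eq ?_)
  have h3 : ∀ z : ℝ≥0∞, (z ^ (1 / (2 : ℝ))) ^ 2 = z := by
    intro z
    rw [← ENNReal.rpow_natCast, ← ENNReal.rpow_mul]
    norm_num
  rw [mul_pow, h3, h3, mul_comm]
  simp only [ENNReal.rpow_ofNat]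

/-- averages over cubes -/
noncomputable def av (m : ℕ) (w : X n → ℝ) (k : Fin n → ℤ) : ℝ :=
  ((m : ℝ) + 1) ^ n * ∫ y in Q m k, w y

/-- the projection onto functions which are constant on the cubes -/
noncomputable def P (m : ℕ) (w : X n → ℝ) (x : X n) : ℝ := av m w (ci m x)

theorem measurable_P (m : ℕ) (w : X n → ℝ) : Measurable (P m w) := by
  unfold P
  exact (measurable_of_countable (av m w)).comp (measurable_ci m)

theorem lint_enorm_le {w : X n → ℝ} (m : ℕ) (k : Fin n → ℤ) :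
    ∫⁻ y in Q m k, ‖w y‖ₑ ≤ 1 + ∫⁻ y, sq (w y) := by
  have hm : (1 : ℝ) ≤ ((m : ℝ) + 1) ^ n := one_le_pow₀ (by linarith [m.cast_nonneg (α := ℝ)])
  calc ∫⁻ y in Q m k, ‖w y‖ₑ ≤ ∫⁻ y in Q m k, (1 + sq (w y)) :=
        lintegral_mono fun y => enorm_le_sq (w y)
    _ = volume (Q m k : Set (X n)) + ∫⁻ y in Q m k, sq (w y) := by
        rw [lintegral_add_left measurable_const, lintegral_const, one_mul,
          Measure.restrict_apply_univ]
    _ ≤ 1 + ∫⁻ y, sq (w y) := by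
        gcongr
        · rw [volume_Q, ← ENNReal.ofReal_one]
          exact ENNReal.ofReal_le_ofReal (inv_le_one_of_one_le₀ hm)
        · exact Measure.restrict_le_self

theorem integrableOn_Q {w : X n → ℝ} (hw : Measurable w) (hfin : ∫⁻ x, sq (w x) ≠ ∞) (m : ℕ)
    (k : Fin n → ℤ) : IntegrableOn w (Q m k) := by
  refine ⟨hw.aestronglyMeasurable, ?_⟩
  refine lt_of_le_of_lt (lint_enorm_le m k) ?_
  exact ENNReal.add_lt_top.mpr ⟨ENNReal.one_lt_top, lt_top_iff_ne_top.mpr hfin⟩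

theorem sq_sub_P_le {w : X n → ℝ} (hw : Measurable w) (hfin : ∫⁻ x, sq (w x) ≠ ∞) (m : ℕ)
    (x : X n) : sq (w x - P m w x) ≤
      ENNReal.ofReal (((m : ℝ) + 1) ^ n) * ∫⁻ y in Q m (ci m x), sq (w x - w y) := by
  have hm : (0 : ℝ) < ((m : ℝ) + 1) ^ n := by positivity
  have hi := integrableOn_Q hw hfin m (ci m x)
  have hv : volume (Q m (ci m x) : Set (X n)) ≠ ∞ := by
    rw [volume_Q]
    exact ENNReal.ofReal_ne_top
  have hc : Integrable (fun _ : X n => w x) (volume.restrict (Q m (ci m x))) :=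
    integrableOn_const hv
  have h1 : w x - P m w x = ((m : ℝ) + 1) ^ n * ∫ y in Q m (ci m x), (w x - w y) := by
    rw [integral_sub hc hi, setIntegral_const, Measure.real, volume_Q,
      ENNReal.toReal_ofReal (by positivity), smul_eq_mul, mul_sub, ← mul_assoc,
      mul_inv_cancel₀ hm.ne', one_mul]
    rfl
  have h2 : sq (∫ y in Q m (ci m x), (w x - w y)) ≤
      ENNReal.ofReal ((((m : ℝ) + 1) ^ n)⁻¹) * ∫⁻ y in Q m (ci m x), sq (w x - w y) := by
    rw [sq_eq_enorm]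
    calc ‖∫ y in Q m (ci m x), (w x - w y)‖ₑ ^ 2
        ≤ (∫⁻ y in Q m (ci m x), ‖w x - w y‖ₑ) ^ 2 := by
          gcongr
          exact enorm_integral_le_lintegral_enorm _
      _ ≤ (volume.restrict (Q m (ci m x))) univ * ∫⁻ y in Q m (ci m x), ‖w x - w y‖ₑ ^ 2 :=
          lint_sq _ (by fun_prop)
      _ = _ := by
          rw [Measure.restrict_apply_univ, volume_Q]
          simp only [sq_eq_enorm]
  rw [h1, sq_mul, sq_eq (((m : ℝ) + 1) ^ n)]
  calc ENNReal.ofReal ((((m : ℝ) + 1) ^ n) ^ 2) * sq (∫ y in Q m (ci m x), (w x - w y))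
      ≤ ENNReal.ofReal ((((m : ℝ) + 1) ^ n) ^ 2) * (ENNReal.ofReal ((((m : ℝ) + 1) ^ n)⁻¹) *
        ∫⁻ y in Q m (ci m x), sq (w x - w y)) := by gcongr
    _ = _ := by
        rw [← mul_assoc, ← ENNReal.ofReal_mul (by positivity)]
        congr 2
        field_simp

theorem int_Q_le (hs : 0 ≤ (n : ℝ) + 2 * σ) (w : X n → ℝ) (m : ℕ) (x : X n) :
    ∫⁻ y in Q m (ci m x), sq (w x - w y) ≤
      ENNReal.ofReal ((√n / ((m : ℝ) + 1)) ^ ((n : ℝ) + 2 * σ)) *
        ∫⁻ y, sq (w x - w y) * K σ (x - y) := by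
  set ρ : ℝ := √n / ((m : ℝ) + 1) with hρ
  rw [← lintegral_const_mul' _ _ ENNReal.ofReal_ne_top]
  refine le_trans ?_ (setLIntegral_le_lintegral (Q m (ci m x)) _)
  apply setLIntegral_mono' (measurableSet_Q m _)
  intro y hy
  have hy' : ci m y = ci m x := hy
  by_cases hxy : x = y
  · subst hxy
    simp [sq_zero]
  · have hz : x - y ≠ 0 := sub_ne_zero.mpr hxy
    have hd : ‖x - y‖ ≤ ρ := norm_sub_le m hy'.symm
    have hρ0 : 0 < ρ := lt_of_lt_of_le (norm_pos_iff.mpr hz) hd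
    have hp : 0 < ρ ^ ((n : ℝ) + 2 * σ) := Real.rpow_pos_of_pos hρ0 _
    have hK := le_K (σ := σ) hs hz hd
    calc sq (w x - w y) = ENNReal.ofReal (ρ ^ ((n : ℝ) + 2 * σ)) *
          (sq (w x - w y) * ENNReal.ofReal ((ρ ^ ((n : ℝ) + 2 * σ))⁻¹)) := by
          rw [mul_comm (sq (w x - w y)), ← mul_assoc, ← ENNReal.ofReal_mul hp.le,
            mul_inv_cancel₀ hp.ne', ENNReal.ofReal_one, one_mul]
      _ ≤ _ := by gcongr

theorem P_est (hs : 0 ≤ (n : ℝ) + 2 * σ) {w : X n → ℝ} (hw : Measurable w)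
    (hfin : ∫⁻ x, sq (w x) ≠ ∞) (m : ℕ) :
    ∫⁻ x, sq (w x - P m w x) ≤
      ENNReal.ofReal (√n ^ ((n : ℝ) + 2 * σ) * ((m : ℝ) + 1) ^ (-(2 * σ))) * En σ univ w := by
  have hm : (0 : ℝ) < (m : ℝ) + 1 := by positivity
  have h1 : ∀ x, sq (w x - P m w x) ≤
      ENNReal.ofReal (√n ^ ((n : ℝ) + 2 * σ) * ((m : ℝ) + 1) ^ (-(2 * σ))) *
        ∫⁻ y, sq (w x - w y) * K σ (x - y) := by
    intro x
    refine (sq_sub_P_le hw hfin m x).trans ?_
    refine (mul_le_mul_right (int_Q_le hs w m x) _).trans (le_of_eq ?_)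
    rw [← mul_assoc, ← ENNReal.ofReal_mul (by positivity)]
    congr 2
    rw [Real.div_rpow (Real.sqrt_nonneg _) hm.le, ← Real.rpow_natCast ((m : ℝ) + 1) n,
      mul_div_assoc', mul_comm, mul_div_assoc, ← Real.rpow_sub hm]
    congr 2
    ring
  calc ∫⁻ x, sq (w x - P m w x) ≤ ∫⁻ x,
        ENNReal.ofReal (√n ^ ((n : ℝ) + 2 * σ) * ((m : ℝ) + 1) ^ (-(2 * σ))) *
        ∫⁻ y, sq (w x - w y) * K σ (x - y) := lintegral_mono h1
    _ = _ := by
        rw [lintegral_const_mul' _ _ ENNReal.ofReal_ne_top, En_eq]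
        unfold DI
        simp only [Measure.restrict_univ]

/-- the density of the auxiliary finite measure -/
noncomputable def G (x : X n) : ℝ≥0∞ := ENNReal.ofReal ((1 + ‖x‖) ^ (-((n : ℝ) + 1)))

theorem measurable_G : Measurable (G : X n → ℝ≥0∞) := by
  unfold G
  fun_prop

theorem G_pos (x : X n) : 0 < G x := by
  unfold G
  rw [ENNReal.ofReal_pos]
  apply Real.rpow_pos_of_pos
  linarith [norm_nonneg x]

theorem G_le_one (x : X n) : G x ≤ 1 := by
  unfold G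
  rw [← ENNReal.ofReal_one]
  apply ENNReal.ofReal_le_ofReal
  apply Real.rpow_le_one_of_one_le_of_nonpos
  · linarith [norm_nonneg x]
  · have h := n.cast_nonneg (α := ℝ)
    linarith

theorem lint_G : ∫⁻ x : X n, G x ≠ ∞ := by
  have h : Integrable (fun x : X n => (1 + ‖x‖) ^ (-((n : ℝ) + 1))) := by
    apply integrable_one_add_norm
    rw [finrank_euclideanSpace, Fintype.card_fin]
    linarith
  exact h.lintegral_lt_top.ne

/-- the auxiliary finite measure -/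
noncomputable def ν : Measure (X n) := volume.withDensity G

theorem lint_ν {f : X n → ℝ≥0∞} (hf : Measurable f) : ∫⁻ x, f x ∂ν = ∫⁻ x, G x * f x := by
  unfold ν
  rw [lintegral_withDensity_eq_lintegral_mul _ measurable_G hf]
  rfl

theorem lint_ν_le {f : X n → ℝ≥0∞} (hf : Measurable f) : ∫⁻ x, f x ∂ν ≤ ∫⁻ x, f x := by
  rw [lint_ν hf]
  apply lintegral_mono
  intro x
  calc G x * f x ≤ 1 * f x := by
        gcongr
        exact G_le_one x
    _ = f x := one_mul _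

theorem ν_univ : (ν : Measure (X n)) univ ≠ ∞ := by
  unfold ν
  rw [withDensity_apply _ MeasurableSet.univ, Measure.restrict_univ]
  exact lint_G

theorem ae_of_ae_ν {p : X n → Prop} (h : ∀ᵐ x ∂ν, p x) : ∀ᵐ x, p x := by
  have h2 := (ae_withDensity_iff measurable_G).mp h
  filter_upwards [h2] with x hx
  exact hx (G_pos x).ne'

theorem abs_int_le {w : X n → ℝ} {C : ℝ} (hC : 0 ≤ C)
    (h : ∫⁻ x, sq (w x) ≤ ENNReal.ofReal C) (m : ℕ) (k : Fin n → ℤ) :
    |∫ y in Q m k, w y| ≤ 1 + C := by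
  have h1 : ‖∫ y in Q m k, w y‖ₑ ≤ ENNReal.ofReal (1 + C) := by
    refine (enorm_integral_le_lintegral_enorm _).trans ?_
    refine (lint_enorm_le m k).trans ?_
    rw [ENNReal.ofReal_add zero_le_one hC, ENNReal.ofReal_one]
    gcongr
  rw [Real.enorm_eq_ofReal_abs] at h1
  exact (ENNReal.ofReal_le_ofReal_iff (by linarith)).mp h1

theorem abs_av_le {w : X n → ℝ} {C : ℝ} (hC : 0 ≤ C)
    (h : ∫⁻ x, sq (w x) ≤ ENNReal.ofReal C) (m : ℕ) (k : Fin n → ℤ) :
    |av m w k| ≤ ((m : ℝ) + 1) ^ n * (1 + C) := by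
  unfold av
  rw [abs_mul, abs_of_pos (by positivity)]
  gcongr
  exact abs_int_le hC h m k

theorem exists_subseq {C : ℝ} (hC : 0 ≤ C) (w : ℕ → X n → ℝ)
    (hw : ∀ j, ∫⁻ x, sq (w j x) ≤ ENNReal.ofReal C) :
    ∃ (φ : ℕ → ℕ) (a : ℕ → (Fin n → ℤ) → ℝ), StrictMono φ ∧
      ∀ m k, Tendsto (fun j => av m (w (φ j)) k) atTop (𝓝 (a m k)) := by
  have hS : IsCompact (Set.pi univ fun p : ℕ × (Fin n → ℤ) =>
      Icc (-(((p.1 : ℝ) + 1) ^ n * (1 + C))) (((p.1 : ℝ) + 1) ^ n * (1 + C))) :=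
    isCompact_univ_pi fun p => isCompact_Icc
  obtain ⟨a, -, φ, hφ, ha⟩ := hS.tendsto_subseq
    (x := fun (j : ℕ) (p : ℕ × (Fin n → ℤ)) => av p.1 (w j) p.2) (by
      intro j p _
      exact abs_le.mp (abs_av_le hC (hw j) p.1 p.2))
  refine ⟨φ, fun m k => a (m, k), hφ, fun m k => ?_⟩
  exact tendsto_pi_nhds.mp ha (m, k)

theorem sq4 (x y p q a : ℝ) :
    sq (x - y) ≤ 4 * ((sq (x - p) + sq (p - a)) + (sq (q - a) + sq (y - q))) := by
  unfold sq
  rw [← ENNReal.ofReal_add (by positivity) (by positivity),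
    ← ENNReal.ofReal_add (by positivity) (by positivity),
    ← ENNReal.ofReal_add (by positivity) (by positivity),
    show (4 : ℝ≥0∞) = ENNReal.ofReal 4 by simp, ← ENNReal.ofReal_mul (by norm_num)]
  apply ENNReal.ofReal_le_ofReal
  have h1 : x - y = (x - p) + (p - a) - (q - a) - (y - q) := by ring
  rw [h1]
  generalize x - p = A
  generalize p - a = B'
  generalize q - a = C
  generalize y - q = D
  nlinarith [sq_nonneg (A - B'), sq_nonneg (A + C), sq_nonneg (A + D), sq_nonneg (B' + C),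
    sq_nonneg (B' + D), sq_nonneg (C - D)]

theorem cauchy_est (hs : 0 ≤ (n : ℝ) + 2 * σ) (hσ : 0 < σ) {C : ℝ} (hC : 0 ≤ C)
    (w : ℕ → X n → ℝ) (hm : ∀ j, Measurable (w j))
    (h2 : ∀ j, ∫⁻ x, sq (w j x) ≤ ENNReal.ofReal C)
    (hE : ∀ j, En σ univ (w j) ≤ ENNReal.ofReal C) (a : ℕ → (Fin n → ℤ) → ℝ)
    (ha : ∀ m k, Tendsto (fun j => av m (w j) k) atTop (𝓝 (a m k))) (ε : ℝ≥0∞) (hε : 0 < ε) :
    ∃ N, ∀ i j, N ≤ i → N ≤ j → ∫⁻ x, sq (w i x - w j x) ∂ν < ε := by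
  -- the first error term
  have hA : Tendsto (fun m : ℕ => 8 * (ENNReal.ofReal (√n ^ ((n : ℝ) + 2 * σ) *
      ((m : ℝ) + 1) ^ (-(2 * σ))) * ENNReal.ofReal C)) atTop (𝓝 0) := by
    have h3 : Tendsto (fun m : ℕ => ((m : ℝ) + 1) ^ (-(2 * σ))) atTop (𝓝 0) :=
      (tendsto_rpow_neg_atTop (by positivity)).comp
        (tendsto_atTop_add_const_right _ _ tendsto_natCast_atTop_atTop)
    have h4 : Tendsto (fun m : ℕ => 8 * ENNReal.ofReal (√n ^ ((n : ℝ) + 2 * σ) *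
        ((m : ℝ) + 1) ^ (-(2 * σ)) * C)) atTop (𝓝 (8 * ENNReal.ofReal (√n ^ ((n : ℝ) + 2 * σ) *
        0 * C))) := by
      apply ENNReal.Tendsto.const_mul _ (Or.inr (by simp))
      exact ENNReal.tendsto_ofReal ((h3.const_mul _).mul_const _)
    simp only [mul_zero, zero_mul, ENNReal.ofReal_zero] at h4
    refine h4.congr fun m => ?_
    rw [ENNReal.ofReal_mul (by positivity)]
  obtain ⟨m, hm1⟩ := ((tendsto_order.1 hA).2 (ε / 2) (ENNReal.half_pos hε.ne')).exists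
  -- the second error term
  have hma : Measurable fun x : X n => a m (ci m x) :=
    (measurable_of_countable (a m)).comp (measurable_ci m)
  have hD : Tendsto (fun j => 4 * ∫⁻ x, sq (P m (w j) x - a m (ci m x)) ∂ν) atTop (𝓝 0) := by
    have h3 : Tendsto (fun j => ∫⁻ x, sq (P m (w j) x - a m (ci m x)) ∂ν) atTop
        (𝓝 (∫⁻ x : X n, 0 ∂ν)) := by
      refine tendsto_lintegral_of_dominated_convergence
        (fun _ => sq (2 * (((m : ℝ) + 1) ^ n * (1 + C)))) ?_ ?_ ?_ ?_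
      · intro j
        exact measurable_sq_comp ((measurable_P m (w j)).sub hma)
      · intro j
        refine Eventually.of_forall fun x => ?_
        apply sq_le
        have h5 := abs_av_le hC (h2 j) m (ci m x)
        have h6 : |a m (ci m x)| ≤ ((m : ℝ) + 1) ^ n * (1 + C) :=
          le_of_tendsto (ha m (ci m x)).abs
            (Eventually.of_forall fun i => abs_av_le hC (h2 i) m (ci m x))
        calc |P m (w j) x - a m (ci m x)| ≤ |P m (w j) x| + |a m (ci m x)| := abs_sub _ _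
          _ ≤ ((m : ℝ) + 1) ^ n * (1 + C) + ((m : ℝ) + 1) ^ n * (1 + C) := add_le_add h5 h6
          _ = 2 * (((m : ℝ) + 1) ^ n * (1 + C)) := by ring
          _ ≤ |2 * (((m : ℝ) + 1) ^ n * (1 + C))| := le_abs_self _
      · rw [lintegral_const]
        exact ENNReal.mul_ne_top (sq_ne_top _) ν_univ
      · refine Eventually.of_forall fun x => ?_
        have h7 : Tendsto (fun j => P m (w j) x - a m (ci m x)) atTop (𝓝 0) := by
          have h8 := (ha m (ci m x)).sub_const (a m (ci m x))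
          rwa [sub_self] at h8
        have h9 : Tendsto (fun j => sq (P m (w j) x - a m (ci m x))) atTop
            (𝓝 (ENNReal.ofReal (0 ^ 2))) := ENNReal.tendsto_ofReal (h7.pow 2)
        simpa using h9
    rw [lintegral_zero] at h3
    have h4 := ENNReal.Tendsto.const_mul (a := 4) h3 (Or.inr (by simp))
    rwa [mul_zero] at h4
  obtain ⟨N, hN⟩ := eventually_atTop.mp ((tendsto_order.1 hD).2 (ε / 2 / 2)
    (ENNReal.half_pos (ENNReal.half_pos hε.ne').ne'))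
  refine ⟨N, fun i j hi hj => ?_⟩
  have hPm : ∀ j, ∫⁻ x, sq (w j x - P m (w j) x) ∂ν ≤ ENNReal.ofReal (√n ^ ((n : ℝ) + 2 * σ) *
      ((m : ℝ) + 1) ^ (-(2 * σ))) * ENNReal.ofReal C := by
    intro j
    refine (lint_ν_le (measurable_sq_comp ((hm j).sub (measurable_P m (w j))))).trans ?_
    refine (P_est hs (hm j) (ne_top_of_le_ne_top ENNReal.ofReal_ne_top (h2 j)) m).trans ?_
    gcongr
    exact hE j
  have hsum : ∫⁻ x, sq (w i x - w j x) ∂ν ≤
      4 * ((∫⁻ x, sq (w i x - P m (w i) x) ∂ν + ∫⁻ x, sq (P m (w i) x - a m (ci m x)) ∂ν) +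
        (∫⁻ x, sq (P m (w j) x - a m (ci m x)) ∂ν + ∫⁻ x, sq (w j x - P m (w j) x) ∂ν)) := by
    have e1 : Measurable fun x => sq (w i x - P m (w i) x) :=
      measurable_sq_comp ((hm i).sub (measurable_P m (w i)))
    have e2 : Measurable fun x => sq (P m (w i) x - a m (ci m x)) :=
      measurable_sq_comp ((measurable_P m (w i)).sub hma)
    have e3 : Measurable fun x => sq (P m (w j) x - a m (ci m x)) :=
      measurable_sq_comp ((measurable_P m (w j)).sub hma)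
    refine (lintegral_mono fun x => sq4 (w i x) (w j x) (P m (w i) x) (P m (w j) x)
      (a m (ci m x))).trans (le_of_eq ?_)
    have e12 : Measurable fun x => sq (w i x - P m (w i) x) +
      sq (P m (w i) x - a m (ci m x)) := e1.add e2
    rw [lintegral_const_mul' _ _ (by simp), lintegral_add_left e12,
      lintegral_add_left e1, lintegral_add_left e3]
  refine lt_of_le_of_lt hsum ?_
  calc 4 * ((∫⁻ x, sq (w i x - P m (w i) x) ∂ν + ∫⁻ x, sq (P m (w i) x - a m (ci m x)) ∂ν) +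
        (∫⁻ x, sq (P m (w j) x - a m (ci m x)) ∂ν + ∫⁻ x, sq (w j x - P m (w j) x) ∂ν))
      ≤ 4 * ((ENNReal.ofReal (√n ^ ((n : ℝ) + 2 * σ) *
        ((m : ℝ) + 1) ^ (-(2 * σ))) * ENNReal.ofReal C +
          ∫⁻ x, sq (P m (w i) x - a m (ci m x)) ∂ν) +
        (∫⁻ x, sq (P m (w j) x - a m (ci m x)) ∂ν + ENNReal.ofReal (√n ^ ((n : ℝ) + 2 * σ) *
        ((m : ℝ) + 1) ^ (-(2 * σ))) * ENNReal.ofReal C)) := by
        gcongr
        · exact hPm i
        · exact hPm j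
    _ = 8 * (ENNReal.ofReal (√n ^ ((n : ℝ) + 2 * σ) *
        ((m : ℝ) + 1) ^ (-(2 * σ))) * ENNReal.ofReal C) +
        (4 * ∫⁻ x, sq (P m (w i) x - a m (ci m x)) ∂ν +
          4 * ∫⁻ x, sq (P m (w j) x - a m (ci m x)) ∂ν) := by ring
    _ < ε / 2 + (ε / 2 / 2 + ε / 2 / 2) :=
        ENNReal.add_lt_add hm1 (ENNReal.add_lt_add (hN i hi) (hN j hj))
    _ = ε := by rw [ENNReal.add_halves, ENNReal.add_halves]

theorem eLpNorm_eq (g : X n → ℝ) : eLpNorm g 2 ν = (∫⁻ x, sq (g x) ∂ν) ^ (1 / (2 : ℝ)) := by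
  rw [eLpNorm_eq_lintegral_rpow_enorm_toReal (by norm_num) (by norm_num)]
  simp only [ENNReal.toReal_ofNat, ENNReal.rpow_ofNat, sq_eq_enorm]

theorem B_est (R : ℝ) {f : X n → ℝ≥0∞} (hf : Measurable f) :
    ∫⁻ x in B R, f x ≤ ENNReal.ofReal ((1 + |R|) ^ ((n : ℝ) + 1)) * ∫⁻ x, f x ∂ν := by
  rw [lint_ν hf, ← lintegral_const_mul' _ _ ENNReal.ofReal_ne_top]
  refine le_trans ?_ (setLIntegral_le_lintegral (B R) _)
  apply setLIntegral_mono' measurableSet_ball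
  intro x hx
  have h1 : ‖x‖ < R := by simpa [B] using hx
  have h2 : (1 : ℝ≥0∞) ≤ ENNReal.ofReal ((1 + |R|) ^ ((n : ℝ) + 1)) * G x := by
    unfold G
    rw [← ENNReal.ofReal_mul (by positivity), ← ENNReal.ofReal_one]
    apply ENNReal.ofReal_le_ofReal
    rw [Real.rpow_neg (by positivity), ← div_eq_mul_inv, one_le_div (by positivity)]
    apply Real.rpow_le_rpow (by positivity) _ (by positivity)
    linarith [le_abs_self R]
  calc f x = 1 * f x := (one_mul _).symm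
    _ ≤ ENNReal.ofReal ((1 + |R|) ^ ((n : ℝ) + 1)) * G x * f x := by gcongr
    _ = _ := by rw [mul_assoc]

end EX4_

open EX4_ in
theorem p_EX4 : T_EX4 := by
  intro n σ hok C₁ w hw
  obtain ⟨hn, hσ1, hσ2⟩ := hok
  have hs : 0 ≤ (n : ℝ) + 2 * σ := by positivity
  have hC : 0 ≤ max C₁ 0 := le_max_right _ _
  have hC' : ENNReal.ofReal C₁ ≤ ENNReal.ofReal (max C₁ 0) :=
    ENNReal.ofReal_le_ofReal (le_max_left _ _)
  have hm : ∀ j, Measurable (w j) := fun j => (hw j).1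
  have h2 : ∀ j, ∫⁻ x, sq (w j x) ≤ ENNReal.ofReal (max C₁ 0) := fun j => (hw j).2.1.trans hC'
  have hE : ∀ j, En σ univ (w j) ≤ ENNReal.ofReal (max C₁ 0) := fun j => (hw j).2.2.trans hC'
  obtain ⟨φ₁, a, hφ₁, ha⟩ := exists_subseq hC w h2
  have hcau := cauchy_est hs (by linarith) hC (fun j => w (φ₁ j)) (fun j => hm _)
    (fun j => h2 _) (fun j => hE _) a ha
  have hex : ∀ k : ℕ, ∃ N, ∀ N' ≥ N, ∀ i j, N' ≤ i → N' ≤ j →
      ∫⁻ x, sq (w (φ₁ i) x - w (φ₁ j) x) ∂ν < ((2 : ℝ≥0∞)⁻¹ ^ k) ^ 2 := by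
    intro k
    obtain ⟨N, hN⟩ := hcau (((2 : ℝ≥0∞)⁻¹ ^ k) ^ 2)
      (ENNReal.pow_pos (ENNReal.pow_pos (by simp) k) 2)
    exact ⟨N, fun N' hN' i j hi hj => hN i j (hN'.le.trans hi) (hN'.le.trans hj)⟩
  obtain ⟨φ₂, hφ₂, hP⟩ := extraction_forall_of_eventually' hex
  have hroot : ∀ z : ℝ≥0∞, (z ^ 2) ^ (1 / (2 : ℝ)) = z := by
    intro z
    rw [← ENNReal.rpow_natCast, ← ENNReal.rpow_mul]
    norm_num
  have hroot' : ∀ z : ℝ≥0∞, (z ^ (1 / (2 : ℝ))) ^ 2 = z := by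
    intro z
    rw [← ENNReal.rpow_natCast, ← ENNReal.rpow_mul]
    norm_num
  have hLp : ∀ k, AEStronglyMeasurable (w (φ₁ (φ₂ k))) (ν : Measure (X n)) :=
    fun k => (hm _).aestronglyMeasurable
  have hB : ∑' i : ℕ, (2 : ℝ≥0∞)⁻¹ ^ i ≠ ∞ := by
    rw [ENNReal.tsum_geometric]
    simp
  have h_cau : ∀ N i j : ℕ, N ≤ i → N ≤ j →
      eLpNorm (w (φ₁ (φ₂ i)) - w (φ₁ (φ₂ j))) 2 ν < (2 : ℝ≥0∞)⁻¹ ^ N := by
    intro N i j hi hj
    rw [eLpNorm_eq, ← hroot ((2 : ℝ≥0∞)⁻¹ ^ N)]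
    apply ENNReal.rpow_lt_rpow _ (by norm_num)
    exact hP N (φ₂ i) (φ₂ j) (hφ₂.monotone hi) (hφ₂.monotone hj)
  obtain ⟨u, hu, hlim⟩ := exists_stronglyMeasurable_limit_of_tendsto_ae hLp
    (Lp.ae_tendsto_of_cauchy_eLpNorm hLp (by norm_num) hB h_cau)
  have hlim2 := Lp.cauchy_tendsto_of_tendsto hLp u hB h_cau hlim
  refine ⟨fun k => φ₁ (φ₂ k), u, hφ₁.comp hφ₂, hu.measurable, ae_of_ae_ν hlim, fun R => ?_⟩
  have h3 : Tendsto (fun k => ∫⁻ x, sq (w (φ₁ (φ₂ k)) x - u x) ∂ν) atTop (𝓝 0) := by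
    have h4 := ENNReal.Tendsto.pow (n := 2) hlim2
    rw [zero_pow (by norm_num)] at h4
    refine h4.congr fun k => ?_
    rw [eLpNorm_eq, hroot']
    rfl
  have h5 := ENNReal.Tendsto.const_mul (a := ENNReal.ofReal ((1 + |R|) ^ ((n : ℝ) + 1))) h3
    (Or.inr ENNReal.ofReal_ne_top)
  rw [mul_zero] at h5
  exact tendsto_of_tendsto_of_tendsto_of_le_of_le tendsto_const_nhds h5 (fun k => bot_le)
    (fun k => B_est R (measurable_sq_comp ((hm _).sub hu.measurable)))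

end RFK
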