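import Pool.Agent.RFK.TargetsE

/-!
# MP_35334d_an: lower semicontinuity (job EX5, helper90)
-/

set_option autoImplicit false

open MeasureTheory Filter Topology Metric Set
open scoped ENNReal NNReal

namespace RFK

namespace EX5_

variable {n : ℕ}

/-- superadditivity of the lower limit -/
theorem add_le (a b : ℕ → ℝ≥0∞) :
    liminf a atTop + liminf b atTop ≤ liminf (fun j => a j + b j) atTop := by
  rw [liminf_eq_iSup_iInf_of_nat, liminf_eq_iSup_iInf_of_nat, liminf_eq_iSup_iInf_of_nat]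
  rw [ENNReal.iSup_add_iSup_of_monotone]
  · refine iSup_mono fun k => le_iInf₂ fun j hj => add_le_add ?_ ?_
    · exact iInf₂_le j hj
    · exact iInf₂_le j hj
  · exact fun k l hkl => le_iInf₂ fun j hj => iInf₂_le j (hkl.trans hj)
  · exact fun k l hkl => le_iInf₂ fun j hj => iInf₂_le j (hkl.trans hj)

/-- Fatou's lemma for integrals over varying sets -/
theorem fatou (A : Set (X n)) (Aj : ℕ → Set (X n)) (hA : MeasurableSet A)
    (hAj : ∀ j, MeasurableSet (Aj j)) (g : X n → ℝ≥0∞) (gj : ℕ → X n → ℝ≥0∞)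
    (hm : ∀ j, Measurable (gj j)) (h : ∀ᵐ x, x ∈ A → ∀ᶠ j in atTop, x ∈ Aj j)
    (hg : ∀ᵐ x, x ∈ A → g x ≤ liminf (fun j => gj j x) atTop) :
    ∫⁻ x in A, g x ≤ liminf (fun j => ∫⁻ x in Aj j, gj j x) atTop := by
  rw [← lintegral_indicator hA]
  have e : (fun j => ∫⁻ x in Aj j, gj j x) = fun j => ∫⁻ x, (Aj j).indicator (gj j) x := by
    funext j
    rw [lintegral_indicator (hAj j)]
  rw [e]
  refine le_trans (lintegral_mono_ae ?_) (lintegral_liminf_le fun j => (hm j).indicator (hAj j))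
  filter_upwards [h, hg] with x hx hgx
  by_cases hxA : x ∈ A
  · rw [indicator_of_mem hxA]
    refine (hgx hxA).trans (le_of_eq (liminf_congr ?_))
    filter_upwards [hx hxA] with j hj
    rw [indicator_of_mem hj]
  · rw [indicator_of_notMem hxA]
    exact bot_le

/-- Fatou's lemma for double integrals over varying sets -/
theorem fatou2 (A : Set (X n)) (Aj : ℕ → Set (X n)) (hA : MeasurableSet A)
    (hAj : ∀ j, MeasurableSet (Aj j)) (g : X n → X n → ℝ≥0∞) (gj : ℕ → X n → X n → ℝ≥0∞)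
    (hm : ∀ j, Measurable (fun z : X n × X n => gj j z.1 z.2))
    (h : ∀ᵐ x, x ∈ A → ∀ᶠ j in atTop, x ∈ Aj j)
    (hg : ∀ᵐ x, ∀ᵐ y, g x y ≤ liminf (fun j => gj j x y) atTop) :
    ∫⁻ x in A, ∫⁻ y in A, g x y ≤
      liminf (fun j => ∫⁻ x in Aj j, ∫⁻ y in Aj j, gj j x y) atTop := by
  refine fatou A Aj hA hAj _ _ (fun j => ?_) h ?_
  · exact (hm j).lintegral_prod_right' (ν := volume.restrict (Aj j))
  · filter_upwards [hg] with x hx _
    refine fatou A Aj hA hAj _ _ (fun j => ?_) h ?_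
    · exact (hm j).comp measurable_prodMk_left
    · filter_upwards [hx] with y hy _ using hy

/-- convergence of the integrand -/
theorem conv {σ : ℝ} (w : ℕ → X n → ℝ) (u : X n → ℝ) {x y : X n}
    (hx : Tendsto (fun j => w j x) atTop (𝓝 (u x)))
    (hy : Tendsto (fun j => w j y) atTop (𝓝 (u y))) :
    ENNReal.ofReal ((u x - u y) ^ 2 / ‖x - y‖ ^ ((n : ℝ) + 2 * σ)) ≤
      liminf (fun j => ENNReal.ofReal ((w j x - w j y) ^ 2 / ‖x - y‖ ^ ((n : ℝ) + 2 * σ)))
        atTop := by
  refine le_of_eq (Tendsto.liminf_eq ?_).symm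
  exact (ENNReal.continuous_ofReal.tendsto _).comp (((hx.sub hy).pow 2).div_const _)

theorem meas {σ : ℝ} {w : X n → ℝ} (hw : Measurable w) :
    Measurable (fun z : X n × X n =>
      ENNReal.ofReal ((w z.1 - w z.2) ^ 2 / ‖z.1 - z.2‖ ^ ((n : ℝ) + 2 * σ))) := by
  have h1 : Measurable fun z : X n × X n => w z.1 := hw.comp measurable_fst
  have h2 : Measurable fun z : X n × X n => w z.2 := hw.comp measurable_snd
  fun_prop

end EX5_

open EX5_ in
theorem p_EX5 : T_EX5 := by
  intro n σ w u hw hu hc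
  have hpos : ∀ᵐ x, x ∈ {x : X n | 0 < u x} → ∀ᶠ j in atTop, x ∈ {x : X n | 0 < w j x} := by
    filter_upwards [hc] with x hx hxu
    exact hx.eventually (lt_mem_nhds hxu)
  have hmu : MeasurableSet {x : X n | 0 < u x} := measurableSet_lt measurable_const hu
  have hmw : ∀ j, MeasurableSet {x : X n | 0 < w j x} := fun j =>
    measurableSet_lt measurable_const (hw j).1
  have hcc : ∀ᵐ x : X n, ∀ᵐ y : X n,
      ENNReal.ofReal ((u x - u y) ^ 2 / ‖x - y‖ ^ ((n : ℝ) + 2 * σ)) ≤
      liminf (fun j => ENNReal.ofReal ((w j x - w j y) ^ 2 / ‖x - y‖ ^ ((n : ℝ) + 2 * σ)))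
        atTop := by
    filter_upwards [hc] with x hx
    filter_upwards [hc] with y hy
    exact conv w u hx hy
  have p1 : En σ univ u ≤ liminf (fun j => En σ univ (w j)) atTop :=
    fatou2 univ (fun _ => univ) MeasurableSet.univ (fun _ => MeasurableSet.univ) _ _
      (fun j => meas (hw j).1) (Eventually.of_forall fun x _ => Eventually.of_forall fun j =>
        mem_univ x) hcc
  have p2 : En σ {x | 0 < u x} u ≤ liminf (fun j => En σ {x | 0 < w j x} (w j)) atTop :=
    fatou2 _ (fun j => {x | 0 < w j x}) hmu hmw _ _ (fun j => meas (hw j).1) hpos hcc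
  have p3 : ∀ A : Set (X n), MeasurableSet A →
      volume ({x | 0 < u x} ∩ A) ≤ liminf (fun j => volume ({x | 0 < w j x} ∩ A)) atTop := by
    intro A hA
    have := fatou ({x | 0 < u x} ∩ A) (fun j => {x | 0 < w j x} ∩ A) (hmu.inter hA)
      (fun j => (hmw j).inter hA) (fun _ => 1) (fun _ _ => 1) (fun _ => measurable_const)
      (by
        filter_upwards [hpos] with x hx hxA
        filter_upwards [hx hxA.1] with j hj using ⟨hj, hxA.2⟩)
      (Eventually.of_forall fun x _ => by simp)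
    simpa using this
  refine ⟨p1, p2, p3, ?_⟩
  have p4 := p3 univ MeasurableSet.univ
  simp only [inter_univ] at p4
  exact (add_le_add p2 p4).trans (add_le _ _)

end RFK
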