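import Pool.Agent.RFK.TargetsE

/-!
# MP_35334d_an: EX6, splitting of the energy (helper71)
-/

set_option autoImplicit false

open MeasureTheory Filter Topology Metric Set
open scoped ENNReal NNReal

namespace RFK

namespace EX6_

variable {n : ℕ} {σ : ℝ}

/-- the pointwise inequality -/
theorem pw {ε a b s t : ℝ} (hε : 0 < ε) (hε1 : ε ≤ 1) (hs : 0 ≤ s ∧ s ≤ 1) :
    sq (s * a - t * b) ≤ ENNReal.ofReal (1 + ε) * sq (a - b) +
      ENNReal.ofReal (2 / ε) * (sq b * sq (s - t)) := by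
  unfold sq
  rw [← ENNReal.ofReal_mul (by positivity), ← ENNReal.ofReal_mul (by positivity),
    ← ENNReal.ofReal_mul (by positivity), ← ENNReal.ofReal_add (by positivity) (by positivity)]
  apply ENNReal.ofReal_le_ofReal
  have e1 : s * a - t * b = s * (a - b) + b * (s - t) := by ring
  have e2 : (s * (a - b)) ^ 2 ≤ (a - b) ^ 2 := by
    rw [mul_pow]
    have : s ^ 2 ≤ 1 := by nlinarith [hs.1, hs.2]
    nlinarith [sq_nonneg (a - b)]
  have e3 : 2 * (s * (a - b)) * (b * (s - t)) ≤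
      ε * (s * (a - b)) ^ 2 + (b * (s - t)) ^ 2 / ε := by
    have h := sq_nonneg (ε * (s * (a - b)) - b * (s - t))
    have h2 : ε * (s * (a - b)) ^ 2 + (b * (s - t)) ^ 2 / ε - 2 * (s * (a - b)) * (b * (s - t)) =
        (ε * (s * (a - b)) - b * (s - t)) ^ 2 / ε := by
      field_simp
      ring
    have h3 : 0 ≤ (ε * (s * (a - b)) - b * (s - t)) ^ 2 / ε := by positivity
    linarith
  have e4 : (b * (s - t)) ^ 2 + (b * (s - t)) ^ 2 / ε ≤ 2 / ε * (b * (s - t)) ^ 2 := by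
    have h1 : (1 : ℝ) ≤ 1 / ε := by
      rw [le_div_iff₀ hε]
      linarith
    have h2 : (2 : ℝ) / ε = 1 / ε + 1 / ε := by ring
    rw [h2, div_eq_mul_one_div ((b * (s - t)) ^ 2) ε]
    nlinarith [sq_nonneg (b * (s - t))]
  rw [e1]
  have e5 : (s * (a - b) + b * (s - t)) ^ 2 = (s * (a - b)) ^ 2 +
      2 * (s * (a - b)) * (b * (s - t)) + (b * (s - t)) ^ 2 := by ring
  rw [e5]
  have e6 : b ^ 2 * (s - t) ^ 2 = (b * (s - t)) ^ 2 := by ring
  rw [e6]
  nlinarith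

/-- energy of a product with a cut-off function -/
theorem en_mul_le {u η : X n → ℝ} {R : ℝ≥0∞} {ε : ℝ} (hu : Measurable u)
    (hηm : Measurable η) (h1 : ∀ x, 0 ≤ η x ∧ η x ≤ 1)
    (hC : ∀ x, ∫⁻ y, sq (η x - η y) * K σ (x - y) ≤ R)
    (hn : ∫⁻ x, sq (u x) = 1) (hε : 0 < ε) (hε1 : ε ≤ 1) {E : Set (X n)}
    (hE : MeasurableSet E) :
    En σ E (fun x => η x * u x) ≤ ENNReal.ofReal (1 + ε) * En σ E u +
      ENNReal.ofReal (2 / ε) * R := by
  have hmη : Measurable (Function.uncurry fun x y : X n => sq (u y) * sq (η x - η y)) :=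
    (measurable_sq.comp (hu.comp measurable_snd)).mul (measurable_dsq hηm)
  have hmu : Measurable (Function.uncurry fun x y : X n =>
      ENNReal.ofReal (1 + ε) * sq (u x - u y)) := (measurable_dsq hu).const_mul _
  have h2 : DI σ E E (fun x y : X n => sq (u y) * sq (η x - η y)) ≤ R := by
    rw [DI_swap hmη]
    unfold DI
    have h3 : ∀ x : X n, ∫⁻ y in E, sq (u x) * sq (η y - η x) * K σ (x - y) ≤
        sq (u x) * R := by
      intro x
      have e3 : ∀ y : X n, sq (u x) * sq (η y - η x) * K σ (x - y) =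
          sq (u x) * (sq (η x - η y) * K σ (x - y)) := by
        intro y
        rw [sq_sub_comm, mul_assoc]
      simp_rw [e3]
      rw [lintegral_const_mul' _ _ (sq_ne_top _)]
      gcongr
      exact (setLIntegral_le_lintegral _ _).trans (hC x)
    calc ∫⁻ x in E, ∫⁻ y in E, sq (u x) * sq (η y - η x) * K σ (x - y)
        ≤ ∫⁻ x in E, sq (u x) * R := lintegral_mono h3
      _ ≤ ∫⁻ x, sq (u x) * R := setLIntegral_le_lintegral _ _
      _ = (∫⁻ x, sq (u x)) * R := lintegral_mul_const _ (measurable_sq_comp hu)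
      _ = R := by rw [hn, one_mul]
  calc En σ E (fun x => η x * u x)
      = DI σ E E (fun x y => sq (η x * u x - η y * u y)) := En_eq _ _
    _ ≤ DI σ E E (fun x y => ENNReal.ofReal (1 + ε) * sq (u x - u y) +
        ENNReal.ofReal (2 / ε) * (sq (u y) * sq (η x - η y))) :=
        DI_mono hE hE fun x _ y _ => pw hε hε1 (h1 x)
    _ = ENNReal.ofReal (1 + ε) * En σ E u +
        ENNReal.ofReal (2 / ε) * DI σ E E (fun x y => sq (u y) * sq (η x - η y)) := by
        rw [DI_add hmu, DI_const_mul ENNReal.ofReal_ne_top, DI_const_mul ENNReal.ofReal_ne_top,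
          En_eq]
    _ ≤ _ := by gcongr

/-- the real inequality -/
theorem real_part {m ε a1 a2 b1 s e1 e2 E1 E2 E w1 w2 w R : ℝ} (hm : 0 ≤ m) (hε : 0 < ε)
    (hR : 0 ≤ R) (h1 : (m - w1) * a1 ≤ e1) (h2 : (m - w2) * a2 ≤ e2)
    (h3 : e1 ≤ (1 + ε) * E1 + R) (h4 : e2 ≤ (1 + ε) * E2 + R) (h5 : E1 + E2 ≤ E)
    (h6 : w1 + w2 ≤ w) (h7 : a1 ≤ b1) (h8 : a2 ≤ 1) (h9 : 1 - s ≤ a1 + a2)
    (h10 : 0 ≤ w1) (h11 : 0 ≤ w2) (h12 : 0 ≤ a1) (h13 : 0 ≤ a2) :
    m / (1 + ε) * (1 - s) + w1 * (1 - b1) - 2 * R ≤ E + w := by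
  have hε' : 0 < 1 + ε := by linarith
  set q := (1 + ε)⁻¹ with hq
  have hq0 : 0 < q := by positivity
  have hq1 : q ≤ 1 := by
    rw [hq]
    exact inv_le_one_of_one_le₀ (by linarith)
  have hqq : q * (1 + ε) = 1 := inv_mul_cancel₀ hε'.ne'
  have k1 : q * ((m - w1) * a1 + (m - w2) * a2 - 2 * R) ≤ E1 + E2 := by
    have : (m - w1) * a1 + (m - w2) * a2 - 2 * R ≤ (1 + ε) * (E1 + E2) := by linarith
    calc q * ((m - w1) * a1 + (m - w2) * a2 - 2 * R) ≤ q * ((1 + ε) * (E1 + E2)) := by gcongr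
      _ = E1 + E2 := by rw [← mul_assoc, hqq, one_mul]
  have k2 : q * (m * (1 - s)) ≤ q * (m * (a1 + a2)) := by gcongr
  have k3 : q * (w1 * a1) ≤ w1 * a1 := mul_le_of_le_one_left (by positivity) hq1
  have k4 : q * (w2 * a2) ≤ w2 * a2 := mul_le_of_le_one_left (by positivity) hq1
  have k5 : q * (2 * R) ≤ 2 * R := mul_le_of_le_one_left (by positivity) hq1
  have k6 : w1 * a1 ≤ w1 * b1 := by gcongr
  have k7 : w2 * a2 ≤ w2 * 1 := by gcongr
  have k8 : m / (1 + ε) * (1 - s) = q * (m * (1 - s)) := by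
    rw [hq]
    ring
  rw [k8]
  nlinarith

end EX6_

open EX6_

theorem p_EX6 (hK : T_KCU) : T_EX6 := by
  intro n σ hOK
  obtain ⟨C, hC⟩ := hK n σ hOK
  refine ⟨4 * C + 1, by positivity, ?_⟩
  intro m hLB u hu ρ ε hρ hε hε1
  obtain ⟨hm0, hLB⟩ := hLB
  have hρ0 : 0 < ρ := by linarith
  obtain ⟨η1, hη1⟩ : ∃ η : X n → ℝ, η = cut ρ (2 * ρ) := ⟨_, rfl⟩
  obtain ⟨η2, hη2⟩ : ∃ η : X n → ℝ, η = fun x => 1 - cut (2 * ρ) (4 * ρ) x := ⟨_, rfl⟩
  have h2ρ : ρ < 2 * ρ := by linarith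
  have h4ρ : 2 * ρ < 4 * ρ := by linarith
  have hm1 : Measurable η1 := by
    rw [hη1]
    exact measurable_cut _ _
  have hm2 : Measurable η2 := by
    rw [hη2]
    exact (measurable_cut _ _).const_sub 1
  have hc1 : Cut η1 ρ := by
    refine ⟨hρ0, fun x => ?_, fun x y => ?_⟩
    · rw [hη1]
      exact ⟨cut_nonneg _ _ _, cut_le_one _ _ _⟩
    · rw [hη1]
      have h := cut_lip h2ρ x y
      rwa [show 2 * ρ - ρ = ρ by ring] at h
  have hc2 : Cut η2 ρ := by
    refine ⟨hρ0, fun x => ?_, fun x y => ?_⟩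
    · rw [hη2]
      have h1 := cut_nonneg (2 * ρ) (4 * ρ) x
      have h2 := cut_le_one (2 * ρ) (4 * ρ) x
      constructor
      · show 0 ≤ 1 - cut (2 * ρ) (4 * ρ) x
        linarith
      · show 1 - cut (2 * ρ) (4 * ρ) x ≤ 1
        linarith
    · rw [hη2]
      have h := cut_lip h4ρ y x
      have e : 1 - cut (2 * ρ) (4 * ρ) x - (1 - cut (2 * ρ) (4 * ρ) y) =
          cut (2 * ρ) (4 * ρ) y - cut (2 * ρ) (4 * ρ) x := by ring
      show |1 - cut (2 * ρ) (4 * ρ) x - (1 - cut (2 * ρ) (4 * ρ) y)| ≤ ‖x - y‖ / ρ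
      rw [e]
      refine h.trans ?_
      rw [norm_sub_rev]
      apply div_le_div_of_nonneg_left (norm_nonneg _) hρ0
      linarith
  obtain ⟨v1, hv1⟩ : ∃ v : X n → ℝ, v = fun x => η1 x * u x := ⟨_, rfl⟩
  obtain ⟨v2, hv2⟩ : ∃ v : X n → ℝ, v = fun x => η2 x * u x := ⟨_, rfl⟩
  have hv1m : Measurable v1 := by
    rw [hv1]
    exact hm1.mul hu.meas
  have hv2m : Measurable v2 := by
    rw [hv2]
    exact hm2.mul hu.meas
  have hv1x : ∀ x, v1 x = η1 x * u x := fun x => by rw [hv1]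
  have hv2x : ∀ x, v2 x = η2 x * u x := fun x => by rw [hv2]
  have hv10 : ∀ x, 0 ≤ v1 x := fun x => by
    rw [hv1x]
    exact mul_nonneg (hc1.2.1 x).1 (hu.nonneg x)
  have hv20 : ∀ x, 0 ≤ v2 x := fun x => by
    rw [hv2x]
    exact mul_nonneg (hc2.2.1 x).1 (hu.nonneg x)
  have hv1le : ∀ x, v1 x ≤ u x := fun x => by
    rw [hv1x]
    exact mul_le_of_le_one_left (hu.nonneg x) (hc1.2.1 x).2
  have hv2le : ∀ x, v2 x ≤ u x := fun x => by
    rw [hv2x]
    exact mul_le_of_le_one_left (hu.nonneg x) (hc2.2.1 x).2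
  have hsq1 : ∀ x, sq (v1 x) ≤ sq (u x) := fun x => by
    apply sq_le
    rw [abs_of_nonneg (hv10 x), abs_of_nonneg (hu.nonneg x)]
    exact hv1le x
  have hsq2 : ∀ x, sq (v2 x) ≤ sq (u x) := fun x => by
    apply sq_le
    rw [abs_of_nonneg (hv20 x), abs_of_nonneg (hu.nonneg x)]
    exact hv2le x
  -- the sets
  obtain ⟨Ω, hΩ⟩ : ∃ S : Set (X n), S = {x | 0 < u x} := ⟨_, rfl⟩
  obtain ⟨Ω1, hΩ1⟩ : ∃ S : Set (X n), S = {x | 0 < v1 x} := ⟨_, rfl⟩
  obtain ⟨Ω2, hΩ2⟩ : ∃ S : Set (X n), S = {x | 0 < v2 x} := ⟨_, rfl⟩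
  have hΩm : MeasurableSet Ω := by
    rw [hΩ]
    exact measurableSet_lt measurable_const hu.meas
  have hΩ1m : MeasurableSet Ω1 := by
    rw [hΩ1]
    exact measurableSet_lt measurable_const hv1m
  have hΩ2m : MeasurableSet Ω2 := by
    rw [hΩ2]
    exact measurableSet_lt measurable_const hv2m
  have hΩ1eq : Ω1 = Ω ∩ B (2 * ρ) := by
    rw [hΩ1, hΩ]
    ext x
    simp only [mem_ofPred_eq, mem_inter_iff, mem_ball, dist_zero_right]
    rw [hv1x]
    constructor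
    · intro h
      have h1 : 0 < u x := by
        rcases (hu.nonneg x).lt_or_eq with h2 | h2
        · exact h2
        · rw [← h2, mul_zero] at h
          exact absurd h (lt_irrefl _)
      refine ⟨h1, ?_⟩
      have h2 : 0 < η1 x := pos_of_mul_pos_left h h1.le
      rw [hη1] at h2
      exact (cut_pos_iff h2ρ).mp h2
    · rintro ⟨h1, h2⟩
      have h3 : 0 < η1 x := by
        rw [hη1]
        exact (cut_pos_iff h2ρ).mpr h2
      positivity
  have hΩ2sub : Ω2 ⊆ Ω \ B (2 * ρ) := by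
    rw [hΩ2, hΩ]
    intro x hx
    simp only [mem_ofPred_eq] at hx
    rw [hv2x] at hx
    have h1 : 0 < u x := by
      rcases (hu.nonneg x).lt_or_eq with h2 | h2
      · exact h2
      · rw [← h2, mul_zero] at hx
        exact absurd hx (lt_irrefl _)
    refine ⟨h1, ?_⟩
    intro h2
    simp only [mem_ball, dist_zero_right] at h2
    have h3 : η2 x = 0 := by
      rw [hη2]
      show 1 - cut (2 * ρ) (4 * ρ) x = 0
      rw [cut_eq_one h4ρ h2.le, sub_self]
    rw [h3, zero_mul] at hx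
    exact lt_irrefl _ hx
  have hdisj : Disjoint Ω1 Ω2 := by
    rw [hΩ1eq]
    refine Set.disjoint_left.mpr ?_
    intro x hx1 hx2
    exact (hΩ2sub hx2).2 hx1.2
  have hsub : Ω1 ∪ Ω2 ⊆ Ω := by
    refine union_subset ?_ ?_
    · rw [hΩ1eq]
      exact inter_subset_left
    · exact hΩ2sub.trans sdiff_subset
  have hvolΩ : volume Ω ≠ ∞ := by
    rw [hΩ]
    exact hu.vol
  have hvol1 : volume Ω1 ≠ ∞ := ne_top_of_le_ne_top hvolΩ
    (measure_mono (subset_union_left.trans hsub))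
  have hvol2 : volume Ω2 ≠ ∞ := ne_top_of_le_ne_top hvolΩ
    (measure_mono (subset_union_right.trans hsub))
  -- energies
  obtain ⟨R, hR⟩ : ∃ R : ℝ≥0∞, R = C * ENNReal.ofReal (ρ ^ (-(2 * σ))) := ⟨_, rfl⟩
  have hRt : R ≠ ∞ := by
    rw [hR]
    exact ENNReal.mul_ne_top ENNReal.coe_ne_top ENNReal.ofReal_ne_top
  have hen1 : ∀ E : Set (X n), MeasurableSet E → En σ E v1 ≤
      ENNReal.ofReal (1 + ε) * En σ E u + ENNReal.ofReal (2 / ε) * R := by
    intro E hE
    rw [hv1]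
    apply en_mul_le hu.meas hm1 hc1.2.1 _ hu.norm hε hε1 hE
    intro x
    rw [hR]
    exact hC η1 ρ hc1 x
  have hen2 : ∀ E : Set (X n), MeasurableSet E → En σ E v2 ≤
      ENNReal.ofReal (1 + ε) * En σ E u + ENNReal.ofReal (2 / ε) * R := by
    intro E hE
    rw [hv2]
    apply en_mul_le hu.meas hm2 hc2.2.1 _ hu.norm hε hε1 hE
    intro x
    rw [hR]
    exact hC η2 ρ hc2 x
  have hfin : ∀ E : Set (X n), En σ E u ≠ ∞ := fun E =>
    ne_top_of_le_ne_top hu.fin (En_mono (subset_univ _) u)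
  have hrt : ∀ E : Set (X n), ENNReal.ofReal (1 + ε) * En σ E u + ENNReal.ofReal (2 / ε) * R
      ≠ ∞ := fun E => ENNReal.add_ne_top.mpr
    ⟨ENNReal.mul_ne_top ENNReal.ofReal_ne_top (hfin E),
      ENNReal.mul_ne_top ENNReal.ofReal_ne_top hRt⟩
  have htr : ∀ E : Set (X n), (ENNReal.ofReal (1 + ε) * En σ E u +
      ENNReal.ofReal (2 / ε) * R).toReal = (1 + ε) * (En σ E u).toReal + 2 / ε * R.toReal := by
    intro E
    rw [ENNReal.toReal_add (ENNReal.mul_ne_top ENNReal.ofReal_ne_top (hfin E))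
      (ENNReal.mul_ne_top ENNReal.ofReal_ne_top hRt), ENNReal.toReal_mul, ENNReal.toReal_mul,
      ENNReal.toReal_ofReal (by positivity), ENNReal.toReal_ofReal (by positivity)]
  -- the norms
  have hn1 : ∫⁻ x, sq (v1 x) ≤ 1 := by
    rw [← hu.norm]
    exact lintegral_mono hsq1
  have hn2 : ∫⁻ x, sq (v2 x) ≤ 1 := by
    rw [← hu.norm]
    exact lintegral_mono hsq2
  have hn1t : ∫⁻ x, sq (v1 x) ≠ ∞ := ne_top_of_le_ne_top ENNReal.one_ne_top hn1
  have hn2t : ∫⁻ x, sq (v2 x) ≠ ∞ := ne_top_of_le_ne_top ENNReal.one_ne_top hn2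
  have hsett : ∀ S : Set (X n), ∫⁻ x in S, sq (u x) ≠ ∞ := by
    intro S
    apply ne_top_of_le_ne_top ENNReal.one_ne_top
    rw [← hu.norm]
    exact setLIntegral_le_lintegral _ _
  have hb1 : ∫⁻ x, sq (v1 x) ≤ ∫⁻ x in B (2 * ρ), sq (u x) := by
    rw [← lintegral_indicator measurableSet_ball]
    apply lintegral_mono
    intro x
    by_cases hx : x ∈ B (2 * ρ)
    · rw [indicator_of_mem hx]
      exact hsq1 x
    · rw [indicator_of_notMem hx]
      have h1 : η1 x = 0 := by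
        rw [hη1]
        apply cut_eq_zero h2ρ
        simpa only [mem_ball, dist_zero_right, not_lt] using hx
      show sq (v1 x) ≤ 0
      rw [hv1x, h1, zero_mul, sq_zero]
  have hsplit : (1 : ℝ≥0∞) ≤ (∫⁻ x, sq (v1 x)) + (∫⁻ x, sq (v2 x)) +
      ∫⁻ x in B (4 * ρ) \ B ρ, sq (u x) := by
    have hms : MeasurableSet (B (4 * ρ) \ B ρ : Set (X n)) :=
      measurableSet_ball.diff measurableSet_ball
    rw [← lintegral_indicator hms, ← lintegral_add_left (measurable_sq_comp hv1m),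
      ← lintegral_add_left (f := fun x => sq (v1 x) + sq (v2 x))
        ((measurable_sq_comp hv1m).add (measurable_sq_comp hv2m)),
      ← hu.norm]
    apply lintegral_mono
    intro x
    by_cases h1 : ‖x‖ < ρ
    · have h2 : v1 x = u x := by
        rw [hv1x, hη1, cut_eq_one h2ρ h1.le, one_mul]
      show sq (u x) ≤ sq (v1 x) + sq (v2 x) + _
      rw [h2, add_assoc]
      exact le_self_add
    · by_cases h3 : ‖x‖ < 4 * ρ
      · have h4 : x ∈ (B (4 * ρ) \ B ρ : Set (X n)) := by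
          refine ⟨?_, ?_⟩
          · simpa only [mem_ball, dist_zero_right] using h3
          · simpa only [mem_ball, dist_zero_right] using h1
        show sq (u x) ≤ sq (v1 x) + sq (v2 x) + _
        rw [indicator_of_mem h4]
        exact le_add_self
      · have h2 : v2 x = u x := by
          rw [hv2x, hη2]
          show (1 - cut (2 * ρ) (4 * ρ) x) * u x = u x
          rw [cut_eq_zero h4ρ (not_lt.mp h3), sub_zero, one_mul]
        show sq (u x) ≤ sq (v1 x) + sq (v2 x) + _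
        rw [h2]
        exact le_add_right le_add_self
  -- energy on the union
  have hEu : En σ Ω1 u + En σ Ω2 u ≤ En σ Ω u := by
    refine le_trans ?_ (En_mono hsub u)
    rw [En_union hΩ2m hdisj hu.meas]
    gcongr
    exact le_self_add
  have hwu : volume Ω1 + volume Ω2 ≤ volume Ω := by
    rw [← measure_union hdisj hΩ2m]
    exact measure_mono hsub
  -- the lower bounds
  have hL1 := hLB v1 hv1m hv10 hn1t (ne_top_of_le_ne_top (hrt univ) (hen1 univ MeasurableSet.univ))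
    (by rwa [← hΩ1])
  have hL2 := hLB v2 hv2m hv20 hn2t (ne_top_of_le_ne_top (hrt univ) (hen2 univ MeasurableSet.univ))
    (by rwa [← hΩ2])
  rw [← hΩ1] at hL1
  rw [← hΩ2] at hL2
  have hT1 : (En σ Ω1 v1).toReal ≤ (1 + ε) * (En σ Ω1 u).toReal + 2 / ε * R.toReal := by
    rw [← htr]
    exact ENNReal.toReal_mono (hrt _) (hen1 _ hΩ1m)
  have hT2 : (En σ Ω2 v2).toReal ≤ (1 + ε) * (En σ Ω2 u).toReal + 2 / ε * R.toReal := by
    rw [← htr]
    exact ENNReal.toReal_mono (hrt _) (hen2 _ hΩ2m)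
  have hT3 : (En σ Ω1 u).toReal + (En σ Ω2 u).toReal ≤ (En σ Ω u).toReal := by
    rw [← ENNReal.toReal_add (hfin _) (hfin _)]
    exact ENNReal.toReal_mono (hfin _) hEu
  have hT4 : volume.real Ω1 + volume.real Ω2 ≤ volume.real Ω := by
    unfold Measure.real
    rw [← ENNReal.toReal_add hvol1 hvol2]
    exact ENNReal.toReal_mono hvolΩ hwu
  have hT5 : (∫⁻ x, sq (v1 x)).toReal ≤ (∫⁻ x in B (2 * ρ), sq (u x)).toReal :=
    ENNReal.toReal_mono (hsett _) hb1
  have hT6 : (∫⁻ x, sq (v2 x)).toReal ≤ 1 := by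
    have h := ENNReal.toReal_mono ENNReal.one_ne_top hn2
    rwa [ENNReal.toReal_one] at h
  have hT7 : 1 - (∫⁻ x in B (4 * ρ) \ B ρ, sq (u x)).toReal ≤
      (∫⁻ x, sq (v1 x)).toReal + (∫⁻ x, sq (v2 x)).toReal := by
    have h := ENNReal.toReal_mono (ENNReal.add_ne_top.mpr
      ⟨ENNReal.add_ne_top.mpr ⟨hn1t, hn2t⟩, hsett _⟩) hsplit
    rw [ENNReal.toReal_one, ENNReal.toReal_add (ENNReal.add_ne_top.mpr ⟨hn1t, hn2t⟩) (hsett _),
      ENNReal.toReal_add hn1t hn2t] at h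
    linarith
  have hmain := real_part (R := 2 / ε * R.toReal) hm0 hε (by positivity) hL1 hL2 hT1 hT2 hT3 hT4
    hT5 hT6 hT7 measureReal_nonneg measureReal_nonneg ENNReal.toReal_nonneg
    ENNReal.toReal_nonneg
  have hRr : R.toReal = C * ρ ^ (-(2 * σ)) := by
    rw [hR, ENNReal.toReal_mul, ENNReal.coe_toReal, ENNReal.toReal_ofReal (by positivity)]
  have hFF : (FF σ u).toReal = (En σ Ω u).toReal + volume.real Ω := by
    unfold FF
    rw [← hΩ, ENNReal.toReal_add (hfin _) hvolΩ]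
    rfl
  rw [hFF, ← hΩ, ← hΩ1eq]
  have hlast : 2 * (2 / ε * R.toReal) ≤ (4 * C + 1) / ε * ρ ^ (-(2 * σ)) := by
    rw [hRr]
    have hp : 0 < ρ ^ (-(2 * σ)) := by positivity
    have e : 2 * (2 / ε * (C * ρ ^ (-(2 * σ)))) = (4 * C) / ε * ρ ^ (-(2 * σ)) := by ring
    rw [e]
    gcongr
    linarith
  linarith

end RFK
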