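import Pool.Agent.RFK.TargetsE

/-!
# MP_35334d_an: target EX7, no loss of mass
-/

set_option autoImplicit false

open MeasureTheory Filter Topology Metric Set
open scoped ENNReal NNReal

namespace RFK

namespace EX7_

variable {n : ℕ}

theorem sq_split {η : ℝ} (hη : 0 < η) (a b : ℝ) :
    sq a ≤ ENNReal.ofReal (1 + η) * sq b + ENNReal.ofReal (1 + 1 / η) * sq (a - b) := by
  rw [sq_eq, sq_eq, sq_eq, ← ENNReal.ofReal_mul (by positivity), ← ENNReal.ofReal_mul (by positivity),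
    ← ENNReal.ofReal_add (by positivity) (by positivity)]
  apply ENNReal.ofReal_le_ofReal
  have h1 : (1 + η) * b ^ 2 + (1 + 1 / η) * (a - b) ^ 2 - a ^ 2 =
      (η * b - (a - b)) ^ 2 / η := by
    field_simp
    ring
  have h2 : 0 ≤ (η * b - (a - b)) ^ 2 / η := by positivity
  linarith

theorem int_split {η : ℝ} (hη : 0 < η) {E F : Set (X n)} (hEF : E ⊆ F) (w u : X n → ℝ)
    (hu : Measurable u) (hw : Measurable w) (h1 : ∫⁻ x in E, sq (u x) ≠ ∞)
    (h2 : ∫⁻ x in F, sq (w x - u x) ≠ ∞) :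
    (∫⁻ x in E, sq (w x)).toReal ≤ (1 + η) * (∫⁻ x in E, sq (u x)).toReal +
      (1 + 1 / η) * (∫⁻ x in F, sq (w x - u x)).toReal := by
  have hms : Measurable fun x => sq (w x - u x) := measurable_sq_comp (hw.sub hu)
  have h3 : ∫⁻ x in E, sq (w x) ≤ (ENNReal.ofReal (1 + η) * ∫⁻ x in E, sq (u x)) +
      (ENNReal.ofReal (1 + 1 / η) * ∫⁻ x in F, sq (w x - u x)) := by
    calc ∫⁻ x in E, sq (w x) ≤ ∫⁻ x in E, (ENNReal.ofReal (1 + η) * sq (u x) +
          ENNReal.ofReal (1 + 1 / η) * sq (w x - u x)) :=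
          lintegral_mono fun x => sq_split hη _ _
      _ = (ENNReal.ofReal (1 + η) * ∫⁻ x in E, sq (u x)) +
          (ENNReal.ofReal (1 + 1 / η) * ∫⁻ x in E, sq (w x - u x)) := by
          rw [lintegral_add_left ((measurable_sq_comp hu).const_mul _),
            lintegral_const_mul _ (measurable_sq_comp hu),
            lintegral_const_mul _ hms]
      _ ≤ _ := by
          refine add_le_add le_rfl ?_
          exact mul_le_mul' le_rfl (lintegral_mono_set hEF)
  have h4 : ENNReal.ofReal (1 + η) * ∫⁻ x in E, sq (u x) ≠ ∞ :=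
    ENNReal.mul_ne_top ENNReal.ofReal_ne_top h1
  have h5 : ENNReal.ofReal (1 + 1 / η) * ∫⁻ x in F, sq (w x - u x) ≠ ∞ :=
    ENNReal.mul_ne_top ENNReal.ofReal_ne_top h2
  have h6 := ENNReal.toReal_mono (ENNReal.add_ne_top.2 ⟨h4, h5⟩) h3
  rwa [ENNReal.toReal_add h4 h5, ENNReal.toReal_mul, ENNReal.toReal_mul,
    ENNReal.toReal_ofReal (by positivity), ENNReal.toReal_ofReal (by positivity)] at h6

/-- Fatou -/
theorem norm_le {w : ℕ → X n → ℝ} {u : X n → ℝ} (hw : ∀ j, Measurable (w j))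
    (h1 : ∀ j, ∫⁻ x, sq (w j x) = 1)
    (hl : ∀ᵐ x, Tendsto (fun j => w j x) atTop (𝓝 (u x))) : ∫⁻ x, sq (u x) ≤ 1 := by
  have hc : Continuous sq := by
    unfold sq
    exact ENNReal.continuous_ofReal.comp (continuous_pow 2)
  have h2 : ∫⁻ x, sq (u x) = ∫⁻ x, liminf (fun j => sq (w j x)) atTop := by
    refine lintegral_congr_ae ?_
    filter_upwards [hl] with x hx
    exact ((hc.tendsto _).comp hx).liminf_eq.symm
  rw [h2]
  refine (lintegral_liminf_le fun j => measurable_sq_comp (hw j)).trans ?_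
  simp [h1]

theorem ball_mono {r s : ℝ} (h : r ≤ s) : (B r : Set (X n)) ⊆ B s := ball_subset_ball h

theorem iUnion_B : (⋃ k : ℕ, (B (k : ℝ) : Set (X n))) = univ := by
  rw [eq_univ_iff_forall]
  intro x
  obtain ⟨k, hk⟩ := exists_nat_gt ‖x‖
  exact mem_iUnion.2 ⟨k, by simpa using hk⟩

/-- the mass outside large balls -/
theorem tail_tendsto {u : X n → ℝ} (_ : Measurable u) (h1 : ∫⁻ x, sq (u x) ≠ ∞) :
    Tendsto (fun k : ℕ => (∫⁻ x in (B (k : ℝ) : Set (X n))ᶜ, sq (u x)).toReal) atTop (𝓝 0) := by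
  have h2 : Tendsto (fun k : ℕ => ∫⁻ x in (B (k : ℝ) : Set (X n)), sq (u x)) atTop
      (𝓝 (∫⁻ x, sq (u x))) := by
    have h3 := tendsto_measure_iUnion_atTop (μ := volume.withDensity fun x => sq (u x))
      (s := fun k : ℕ => (B (k : ℝ) : Set (X n)))
      (fun a b hab => ball_mono (by exact_mod_cast hab))
    rw [iUnion_B, withDensity_apply _ MeasurableSet.univ, Measure.restrict_univ] at h3
    refine h3.congr fun k => ?_
    exact withDensity_apply _ measurableSet_ball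
  have h4 : ∀ k : ℕ, (∫⁻ x in (B (k : ℝ) : Set (X n))ᶜ, sq (u x)).toReal =
      (∫⁻ x, sq (u x)).toReal - (∫⁻ x in (B (k : ℝ) : Set (X n)), sq (u x)).toReal := by
    intro k
    have h5 := lintegral_add_compl (μ := volume) (fun x => sq (u x))
      (measurableSet_ball (x := (0 : X n)) (ε := (k : ℝ)))
    have h6 : ∫⁻ x in (B (k : ℝ) : Set (X n)), sq (u x) ≠ ∞ :=
      ne_top_of_le_ne_top h1 (setLIntegral_le_lintegral _ _)
    have h7 : ∫⁻ x in (B (k : ℝ) : Set (X n))ᶜ, sq (u x) ≠ ∞ :=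
      ne_top_of_le_ne_top h1 (setLIntegral_le_lintegral _ _)
    rw [← h5, ENNReal.toReal_add h6 h7]
    ring
  simp only [h4]
  have h8 := (ENNReal.tendsto_toReal h1).comp h2
  have h9 := (tendsto_const_nhds (x := (∫⁻ x, sq (u x)).toReal)).sub h8
  rw [sub_self] at h9
  exact h9

/-- positive mass in a ball -/
theorem exists_pos {u : X n → ℝ} (h0 : ∀ᵐ x, 0 ≤ u x) (h1 : ¬ ∀ᵐ x, u x = 0) :
    ∃ k : ℕ, 0 < volume ({x : X n | 0 < u x} ∩ B (k : ℝ)) := by
  by_contra hc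
  push Not at hc
  apply h1
  have h2 : volume ({x : X n | 0 < u x}) = 0 := by
    have h3 : {x : X n | 0 < u x} ⊆ ⋃ k : ℕ, ({x : X n | 0 < u x} ∩ B (k : ℝ)) := by
      rw [← inter_iUnion, iUnion_B, inter_univ]
    exact measure_mono_null h3 (measure_iUnion_null fun k => le_antisymm (hc k) bot_le)
  have h4 : ∀ᵐ x : X n, ¬ 0 < u x := by
    rw [ae_iff]
    simpa using h2
  filter_upwards [h0, h4] with x hx hx'
  exact le_antisymm (not_lt.1 hx') hx

end EX7_

open EX7_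

theorem p_EX7 (h6 : T_EX6) (h5 : T_EX5) : T_EX7 := by
  intro n σ hσ m hm w u hw hu hF hl hL2 hne
  obtain ⟨C, hC, H⟩ := h6 n σ hσ
  have hm0 : 0 ≤ m := hm.1
  have hle : ∫⁻ x, sq (u x) ≤ 1 := norm_le (fun j => (hw j).meas) (fun j => (hw j).norm) hl
  have hfin : ∫⁻ x, sq (u x) ≠ ∞ := ne_top_of_le_ne_top ENNReal.one_ne_top hle
  refine le_antisymm hle (not_lt.1 fun hlt => ?_)
  -- the real mass
  set s : ℝ := (∫⁻ x, sq (u x)).toReal with hs
  have hs1 : s < 1 := by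
    rw [hs, ← ENNReal.toReal_one]
    exact (ENNReal.toReal_lt_toReal hfin ENNReal.one_ne_top).2 hlt
  have hu0 : ∀ᵐ x, 0 ≤ u x := by
    filter_upwards [hl] with x hx
    exact ge_of_tendsto' hx fun j => (hw j).nonneg x
  obtain ⟨k₀, hk₀⟩ := exists_pos hu0 hne
  have hVfin : ∀ (v : X n → ℝ) (r : ℝ), volume ({x : X n | 0 < v x} ∩ B r) ≠ ∞ := fun v r =>
    ne_top_of_le_ne_top measure_ball_lt_top.ne (measure_mono inter_subset_right)
  set c : ℝ := volume.real ({x : X n | 0 < u x} ∩ B (k₀ : ℝ)) / 2 with hc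
  have hc0 : 0 < c := by
    rw [hc]
    have : 0 < volume.real ({x : X n | 0 < u x} ∩ B (k₀ : ℝ)) :=
      ENNReal.toReal_pos hk₀.ne' (hVfin u _)
    linarith
  have hclt : ENNReal.ofReal c < volume ({x : X n | 0 < u x} ∩ B (k₀ : ℝ)) := by
    have h1 : ENNReal.ofReal (volume.real ({x : X n | 0 < u x} ∩ B (k₀ : ℝ))) =
        volume ({x : X n | 0 < u x} ∩ B (k₀ : ℝ)) := ENNReal.ofReal_toReal (hVfin u _)
    rw [← h1]
    refine (ENNReal.ofReal_lt_ofReal_iff (by linarith)).2 (by linarith)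
  set δ : ℝ := c * (1 - s) with hδ
  have hδ0 : 0 < δ := mul_pos hc0 (by linarith)
  -- the choice of `ε`
  obtain ⟨ε, hε0, hε1, hmε⟩ : ∃ ε : ℝ, 0 < ε ∧ ε ≤ 1 ∧ m * ε ≤ δ / 8 := by
    refine ⟨min 1 (δ / (8 * (m + 1))), lt_min one_pos (by positivity), min_le_left _ _, ?_⟩
    calc m * min 1 (δ / (8 * (m + 1))) ≤ (m + 1) * (δ / (8 * (m + 1))) := by
          apply mul_le_mul (by linarith) (min_le_right _ _) (by positivity) (by linarith)
      _ = δ / 8 := by field_simp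
  -- the choice of `η`
  obtain ⟨η, hη0, hmη⟩ : ∃ η : ℝ, 0 < η ∧ (m + c) * η ≤ δ / 8 := by
    refine ⟨δ / (8 * (m + c)), by positivity, ?_⟩
    have : m + c ≠ 0 := by positivity
    refine le_of_eq ?_
    field_simp
  -- the choice of `ρ`
  have ht1 := tail_tendsto hu hfin
  have ht2 : ∀ᶠ k : ℕ in atTop,
      m * (∫⁻ x in (B (k : ℝ) : Set (X n))ᶜ, sq (u x)).toReal ≤ δ / 8 := by
    have h1 := ht1.const_mul m
    rw [mul_zero] at h1
    exact h1.eventually (ge_mem_nhds (by positivity))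
  have ht3 : ∀ᶠ k : ℕ in atTop, C / ε * ((k : ℝ) ^ (-(2 * σ))) ≤ δ / 8 := by
    have h1 : Tendsto (fun k : ℕ => (k : ℝ) ^ (-(2 * σ))) atTop (𝓝 0) :=
      (tendsto_rpow_neg_atTop (by have := hσ.2.1; linarith)).comp tendsto_natCast_atTop_atTop
    have h2 := h1.const_mul (C / ε)
    rw [mul_zero] at h2
    exact h2.eventually (ge_mem_nhds (by positivity))
  obtain ⟨k, hk1, hk2, hk3, hk4⟩ := (ht2.and (ht3.and
    ((eventually_ge_atTop 1).and (eventually_ge_atTop k₀)))).exists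
  set ρ : ℝ := (k : ℝ) with hρ
  have hρ1 : 1 ≤ ρ := by rw [hρ]; exact_mod_cast hk3
  have hρk : (k₀ : ℝ) ≤ 2 * ρ := by
    have : (k₀ : ℝ) ≤ ρ := by rw [hρ]; exact_mod_cast hk4
    linarith
  -- the volume
  have hV : ∀ᶠ j in atTop, c ≤ volume.real ({x : X n | 0 < w j x} ∩ B (2 * ρ)) := by
    have h1 := (h5 n σ w u (fun j => ⟨(hw j).meas, (hw j).nonneg⟩) hu hl).2.2.1 (B (2 * ρ))
      measurableSet_ball
    have h2 : ENNReal.ofReal c < liminf (fun j => volume ({x : X n | 0 < w j x} ∩ B (2 * ρ)))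
        atTop := by
      refine hclt.trans_le (le_trans (measure_mono ?_) h1)
      exact inter_subset_inter_right _ (ball_mono hρk)
    filter_upwards [eventually_lt_of_lt_liminf h2] with j hj
    rw [Measure.real]
    exact (ENNReal.ofReal_le_iff_le_toReal (hVfin (w j) _)).1 hj.le
  -- the distance
  have hd : Tendsto (fun j => (∫⁻ x in B (4 * ρ), sq (w j x - u x)).toReal) atTop (𝓝 0) := by
    have h1 := (ENNReal.tendsto_toReal ENNReal.zero_ne_top).comp (hL2 (4 * ρ))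
    simpa [Function.comp_def] using h1
  have hdfin : ∀ᶠ j in atTop, ∫⁻ x in B (4 * ρ), sq (w j x - u x) ≠ ∞ := by
    have h1 := (hL2 (4 * ρ)).eventually (gt_mem_nhds (show (0 : ℝ≥0∞) < 1 from one_pos))
    filter_upwards [h1] with j hj
    exact (hj.trans ENNReal.one_lt_top).ne
  have hd2 : ∀ᶠ j in atTop,
      (m + c) * (1 + 1 / η) * (∫⁻ x in B (4 * ρ), sq (w j x - u x)).toReal ≤ δ / 8 := by
    have h1 := hd.const_mul ((m + c) * (1 + 1 / η))
    rw [mul_zero] at h1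
    exact h1.eventually (ge_mem_nhds (by positivity))
  have hF2 : ∀ᶠ j in atTop, (FF σ (w j)).toReal ≤ m + δ / 8 :=
    hF.eventually (ge_mem_nhds (by linarith))
  obtain ⟨j, hj1, hj2, hj3, hj4⟩ := (hV.and (hdfin.and (hd2.and hF2))).exists
  have hH := H m hm (w j) (hw j) ρ ε hρ1 hε0 hε1
  -- abbreviations
  set A : ℝ := (∫⁻ x in B (4 * ρ) \ B ρ, sq (u x)).toReal with hA
  set Aj : ℝ := (∫⁻ x in B (4 * ρ) \ B ρ, sq (w j x)).toReal with hAj
  set a : ℝ := (∫⁻ x in B (2 * ρ), sq (u x)).toReal with ha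
  set aj : ℝ := (∫⁻ x in B (2 * ρ), sq (w j x)).toReal with haj
  set d : ℝ := (∫⁻ x in B (4 * ρ), sq (w j x - u x)).toReal with hdd
  set V : ℝ := volume.real ({x : X n | 0 < w j x} ∩ B (2 * ρ)) with hVV
  have hufin : ∀ E : Set (X n), ∫⁻ x in E, sq (u x) ≠ ∞ := fun E =>
    ne_top_of_le_ne_top hfin (setLIntegral_le_lintegral _ _)
  have e1 : Aj ≤ (1 + η) * A + (1 + 1 / η) * d :=
    int_split hη0 sdiff_subset (w j) u hu (hw j).meas (hufin _) hj2
  have e2 : aj ≤ (1 + η) * a + (1 + 1 / η) * d :=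
    int_split hη0 (ball_mono (by linarith)) (w j) u hu (hw j).meas (hufin _) hj2
  have e3 : A ≤ (∫⁻ x in (B (k : ℝ) : Set (X n))ᶜ, sq (u x)).toReal := by
    refine ENNReal.toReal_mono (hufin _) (lintegral_mono_set ?_)
    intro x hx
    exact hx.2
  have e3' : A ≤ s := ENNReal.toReal_mono hfin (setLIntegral_le_lintegral _ _)
  have e4 : a ≤ s := ENNReal.toReal_mono hfin (setLIntegral_le_lintegral _ _)
  have e5 : aj ≤ 1 := by
    have h1 : ∫⁻ x in B (2 * ρ), sq (w j x) ≤ 1 := by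
      rw [← (hw j).norm]
      exact setLIntegral_le_lintegral _ _
    rw [haj, ← ENNReal.toReal_one]
    exact ENNReal.toReal_mono ENNReal.one_ne_top h1
  have e6 : 0 ≤ Aj := ENNReal.toReal_nonneg
  have e7 : 0 ≤ A := ENNReal.toReal_nonneg
  have e8 : 0 ≤ d := ENNReal.toReal_nonneg
  have e9 : 0 ≤ a := ENNReal.toReal_nonneg
  have e10 : m * A ≤ δ / 8 := (mul_le_mul_of_nonneg_left e3 hm0).trans hk1
  -- lower bounds
  have f1 : m - m * ε - m * Aj ≤ m / (1 + ε) * (1 - Aj) := by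
    have g1 : m / (1 + ε) ≤ m := div_le_self hm0 (by linarith)
    have g2 : m - m * ε ≤ m / (1 + ε) := by
      rw [le_div_iff₀ (by linarith)]
      have g3 : (m - m * ε) * (1 + ε) = m - m * (ε * ε) := by ring
      have g4 := mul_nonneg hm0 (mul_nonneg hε0.le hε0.le)
      linarith
    have g5 : m / (1 + ε) * (1 - Aj) = m / (1 + ε) - m / (1 + ε) * Aj := by ring
    have g6 : m / (1 + ε) * Aj ≤ m * Aj := mul_le_mul_of_nonneg_right g1 e6
    linarith
  have f2 : c * (1 - aj) ≤ V * (1 - aj) := mul_le_mul_of_nonneg_right hj1 (by linarith)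
  have f3 : m * Aj ≤ m * ((1 + η) * A + (1 + 1 / η) * d) := mul_le_mul_of_nonneg_left e1 hm0
  have f4 : c * aj ≤ c * ((1 + η) * a + (1 + 1 / η) * d) := mul_le_mul_of_nonneg_left e2 hc0.le
  have f5 : m * (η * A) + c * (η * a) ≤ (m + c) * η := by
    have g1 : m * (η * A) ≤ m * η := by
      have : η * A ≤ η := mul_le_of_le_one_right hη0.le (e3'.trans hs1.le)
      exact mul_le_mul_of_nonneg_left this hm0
    have g2 : c * (η * a) ≤ c * η := by
      have : η * a ≤ η := mul_le_of_le_one_right hη0.le (e4.trans hs1.le)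
      exact mul_le_mul_of_nonneg_left this hc0.le
    linarith
  have f6 : c * a ≤ c * s := mul_le_mul_of_nonneg_left e4 hc0.le
  have f7 : δ = c - c * s := by rw [hδ]; ring
  have f8 : (m + c) * (1 + 1 / η) * d = m * ((1 + 1 / η) * d) + c * ((1 + 1 / η) * d) := by ring
  have f9 : C / ε * ρ ^ (-(2 * σ)) ≤ δ / 8 := hk2
  have f10 : m * ((1 + η) * A + (1 + 1 / η) * d) =
      m * A + m * (η * A) + m * ((1 + 1 / η) * d) := by ring
  have f11 : c * ((1 + η) * a + (1 + 1 / η) * d) =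
      c * a + c * (η * a) + c * ((1 + 1 / η) * d) := by ring
  have f12 : c * (1 - aj) = c - c * aj := by ring
  linarith

end RFK
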