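import Pool.Agent.RFK.TargetsE

/-!
# MP_35334d_an, target EX9: translations
-/

set_option autoImplicit false

open MeasureTheory Filter Topology Metric Set
open scoped ENNReal NNReal

namespace RFK

namespace EX9_

variable {n : ℕ} {σ : ℝ}

lemma lint (z : X n) (A : Set (X n)) (F : X n → ℝ≥0∞) :
    ∫⁻ x in (fun x => z + x) ⁻¹' A, F (z + x) = ∫⁻ x in A, F x := by
  rw [lintegral_aff one_pos z A F, Real.one_rpow, ENNReal.ofReal_one, one_mul]
  simp only [one_smul]

lemma en (z : X n) (A : Set (X n)) (u : X n → ℝ) :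
    En σ ((fun x => z + x) ⁻¹' A) (fun x => u (z + x)) = En σ A u := by
  rw [En_eq, En_eq, DI_scale one_pos z A A, Real.one_rpow, ENNReal.ofReal_one, one_mul]
  simp only [one_smul]

end EX9_

open EX9_

theorem p_EX9 : T_EX9 := by
  intro n σ u z hu
  have hset : {x : X n | 0 < u (z + x)} = (fun x => z + x) ⁻¹' {x | 0 < u x} := rfl
  have hvol : volume {x : X n | 0 < u (z + x)} = volume {x | 0 < u x} := by
    rw [hset]
    exact measure_preimage_add volume z _
  have hE : En σ univ (fun x => u (z + x)) = En σ univ u := by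
    have := en (σ := σ) z univ u
    rwa [preimage_univ] at this
  have hEp : En σ {x | 0 < u (z + x)} (fun x => u (z + x)) = En σ {x | 0 < u x} u := by
    rw [hset]
    exact en z _ u
  refine ⟨⟨hu.meas.comp (measurable_const_add z), fun x => hu.nonneg _, ?_, ?_, ?_⟩, ?_, hE, ?_⟩
  · have := lint z univ (fun x => sq (u x))
    rw [preimage_univ, setLIntegral_univ, setLIntegral_univ] at this
    exact this.trans hu.norm
  · rw [hE]; exact hu.fin
  · rw [hvol]; exact hu.vol
  · unfold FF
    rw [hEp, hvol]
  · have h1 : (B 1 : Set (X n)) = (fun x => z + x) ⁻¹' ball z 1 := by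
      ext x
      simp [B]
    rw [h1]
    exact lint z _ (fun x => sq (u x))

end RFK
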