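import Pool.Agent.RFK.TargetsE

/-!
# EXB: Poincaré's inequality in a unit ball for functions with small support
-/

set_option autoImplicit false

open MeasureTheory Filter Topology Metric Set
open scoped ENNReal NNReal

namespace RFK

namespace EXB_

variable {n : ℕ} {σ : ℝ}

/-- a small ball inside the intersection -/
theorem ball_sub (z y : X n) (ρ : ℝ) (hρ : 0 < ρ) (hρ1 : ρ ≤ 1) (hy : y ∈ ball z 1) :
    ∀ p ∈ ball (y + (ρ / 2) • (z - y)) (ρ / 2), p ∈ ball z 1 ∧ ‖p - y‖ ≤ ρ := by
  intro p hp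
  rw [mem_ball, dist_eq_norm] at hp hy
  have hzy : ‖z - y‖ < 1 := by rwa [norm_sub_rev]
  constructor
  · rw [mem_ball, dist_eq_norm]
    have h1 : p - z = (p - (y + (ρ / 2) • (z - y))) + (1 - ρ / 2) • (y - z) := by
      rw [sub_smul, one_smul, smul_sub, smul_sub]
      abel
    rw [h1]
    refine (norm_add_le _ _).trans_lt ?_
    rw [norm_smul, Real.norm_eq_abs, abs_of_nonneg (by linarith)]
    have h2 : (1 - ρ / 2) * ‖y - z‖ < (1 - ρ / 2) * 1 :=
      mul_lt_mul_of_pos_left hy (by linarith)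
    linarith
  · have h1 : p - y = (p - (y + (ρ / 2) • (z - y))) + (ρ / 2) • (z - y) := by abel
    rw [h1]
    refine (norm_add_le _ _).trans ?_
    rw [norm_smul, Real.norm_eq_abs, abs_of_pos (by linarith)]
    have h2 : (ρ / 2) * ‖z - y‖ ≤ (ρ / 2) * 1 :=
      mul_le_mul_of_nonneg_left hzy.le (by linarith)
    linarith

/-- the kernel integral off a small set -/
theorem inner_lb (h : 0 ≤ (n : ℝ) + 2 * σ) (z y : X n) (ρ c : ℝ) (hρ : 0 < ρ) (hρ1 : ρ ≤ 1)
    (D : Set (X n)) (hD : MeasurableSet D) (hyD : y ∈ D) (hy : y ∈ ball z 1)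
    (hc : 0 ≤ c) (hvol : ENNReal.ofReal (2 * c) ≤ volume (ball (y + (ρ / 2) • (z - y)) (ρ / 2)))
    (hDc : volume D ≤ ENNReal.ofReal c) :
    ENNReal.ofReal ((ρ ^ ((n : ℝ) + 2 * σ))⁻¹) * ENNReal.ofReal c ≤
      ∫⁻ x in ball z 1 \ D, K σ (y - x) := by
  set S := ball (y + (ρ / 2) • (z - y)) (ρ / 2) with hS
  have hSD : S \ D ⊆ ball z 1 \ D := fun p hp =>
    ⟨(ball_sub z y ρ hρ hρ1 hy p hp.1).1, hp.2⟩
  have hm : MeasurableSet (S \ D) := measurableSet_ball.diff hD
  have h1 : ENNReal.ofReal c ≤ volume (S \ D) := by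
    have h2 : volume S ≤ volume (S \ D) + volume D := by
      calc volume S ≤ volume ((S \ D) ∪ D) := measure_mono (by
            intro p hp
            by_cases hpD : p ∈ D
            · exact Or.inr hpD
            · exact Or.inl ⟨hp, hpD⟩)
        _ ≤ volume (S \ D) + volume D := measure_union_le _ _
    have h3 : ENNReal.ofReal c + ENNReal.ofReal c ≤ volume (S \ D) + ENNReal.ofReal c := by
      rw [← ENNReal.ofReal_add hc hc, ← two_mul]
      exact hvol.trans (h2.trans (by gcongr))
    exact (ENNReal.add_le_add_iff_right ENNReal.ofReal_ne_top).mp h3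
  calc ENNReal.ofReal ((ρ ^ ((n : ℝ) + 2 * σ))⁻¹) * ENNReal.ofReal c
      ≤ ENNReal.ofReal ((ρ ^ ((n : ℝ) + 2 * σ))⁻¹) * volume (S \ D) := by gcongr
    _ = ∫⁻ x in S \ D, ENNReal.ofReal ((ρ ^ ((n : ℝ) + 2 * σ))⁻¹) := by
        rw [setLIntegral_const]
    _ ≤ ∫⁻ x in S \ D, K σ (y - x) := by
        apply setLIntegral_mono' hm
        intro x hx
        apply le_K h
        · intro h0
          have : x = y := by rw [sub_eq_zero] at h0; exact h0.symm
          exact hx.2 (this ▸ hyD)
        · rw [norm_sub_rev]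
          exact (ball_sub z y ρ hρ hρ1 hy x hx.1).2
    _ ≤ ∫⁻ x in ball z 1 \ D, K σ (y - x) := lintegral_mono_set hSD

end EXB_

theorem p_EXB : T_EXB := by
  intro n σ hOK κ hκ
  obtain ⟨hn, hσ, hσ1⟩ := hOK
  have hnpos : 0 < n := by omega
  have : Nonempty (Fin n) := ⟨⟨0, hnpos⟩⟩
  have hh : 0 ≤ (n : ℝ) + 2 * σ := by positivity
  set ω := (volume (ball (0 : X n) 1)).toReal with hω
  have hωfin : volume (ball (0 : X n) 1) ≠ ∞ := measure_ball_lt_top.ne
  have hωpos : 0 < ω := ENNReal.toReal_pos (measure_ball_pos volume _ one_pos).ne' hωfin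
  set a := κ * ω / 2 ^ (n + 1) with ha
  have hapos : 0 < a := by positivity
  set ρ := min 1 (a / 2) with hρdef
  have hρ : 0 < ρ := lt_min one_pos (by linarith)
  have hρ1 : ρ ≤ 1 := min_le_left _ _
  have hρa : ρ ≤ a / 2 := min_le_right _ _
  set c := ω * (ρ / 2) ^ n / 2 with hcdef
  have hc : 0 < c := by positivity
  refine ⟨c, hc, ?_⟩
  intro z v hv hpos hfin hen
  by_contra hcon
  push Not at hcon
  set D := ball z 1 ∩ {x | v x ≠ 0} with hDdef
  have hDm : MeasurableSet D := measurableSet_ball.inter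
    (hv (measurableSet_singleton 0).compl)
  have hvol : ∀ p : X n, ENNReal.ofReal (2 * c) ≤ volume (ball p (ρ / 2)) := by
    intro p
    rw [Measure.addHaar_ball volume p (by positivity), finrank_euclideanSpace, Fintype.card_fin]
    rw [← ENNReal.ofReal_toReal hωfin, ← hω, ← ENNReal.ofReal_mul (by positivity)]
    apply ENNReal.ofReal_le_ofReal
    rw [hcdef]
    apply le_of_eq
    ring
  set I := ∫⁻ x in ball z 1, sq (v x) with hI
  have hID : ∫⁻ x in D, sq (v x) = I := by
    have h1 : ball z 1 = D ∪ (ball z 1 \ D) := by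
      rw [union_sdiff_cancel inter_subset_left]
    rw [hI]
    conv_rhs => rw [h1]
    rw [lintegral_union (measurableSet_ball.diff hDm) disjoint_sdiff_right]
    have h2 : ∫⁻ x in ball z 1 \ D, sq (v x) = 0 := by
      rw [setLIntegral_eq_zero_iff (measurableSet_ball.diff hDm) (measurable_sq_comp hv)]
      refine Filter.Eventually.of_forall fun x hx => ?_
      have : v x = 0 := by
        by_contra h0
        exact hx.2 ⟨hx.1, h0⟩
      rw [this, sq_zero]
    rw [h2, add_zero]
  set A := (ρ ^ ((n : ℝ) + 2 * σ))⁻¹ with hA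
  have hlow : ENNReal.ofReal A * ENNReal.ofReal c * I ≤ En σ (ball z 1) v := by
    rw [En_eq]
    calc ENNReal.ofReal A * ENNReal.ofReal c * I
        = ∫⁻ x in D, ENNReal.ofReal A * ENNReal.ofReal c * sq (v x) := by
          rw [lintegral_const_mul' _ _ (by finiteness), hID]
      _ ≤ DI σ D (ball z 1 \ D) (fun x y => sq (v x - v y)) := by
          unfold DI
          apply setLIntegral_mono' hDm
          intro x hx
          have h1 : ∫⁻ y in ball z 1 \ D, sq (v x - v y) * K σ (x - y) =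
              sq (v x) * ∫⁻ y in ball z 1 \ D, K σ (x - y) := by
            rw [← lintegral_const_mul' _ _ (sq_ne_top _)]
            apply setLIntegral_congr_fun (measurableSet_ball.diff hDm)
            intro y hy
            have : v y = 0 := by
              by_contra h0
              exact hy.2 ⟨hy.1, h0⟩
            simp only [this, sub_zero]
          rw [h1, mul_comm]
          gcongr
          exact EXB_.inner_lb hh z x ρ c hρ hρ1 D hDm hx hx.1 hc.le (hvol _) hcon.le
      _ ≤ DI σ (ball z 1) (ball z 1) (fun x y => sq (v x - v y)) :=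
          DI_mono_set inter_subset_left sdiff_subset _
  have h5 : ENNReal.ofReal (κ * A * c) * I ≤ 1 * I := by
    rw [one_mul, ENNReal.ofReal_mul (by positivity), ENNReal.ofReal_mul hκ.le, mul_assoc, mul_assoc]
    refine le_trans ?_ hen
    gcongr
    rw [← mul_assoc]
    exact hlow
  have h6 : ENNReal.ofReal (κ * A * c) ≤ 1 := (ENNReal.mul_le_mul_iff_left hpos.ne' hfin).mp h5
  have h7 : κ * A * c ≤ 1 := by
    rwa [← ENNReal.ofReal_one, ENNReal.ofReal_le_ofReal_iff zero_le_one] at h6
  have h8 : κ * A * c = a / ρ ^ (2 * σ) := by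
    rw [hA, hcdef, ha, Real.rpow_add hρ, Real.rpow_natCast, div_pow]
    field_simp
    ring
  have h9 : ρ ^ (2 * σ) < a := by
    have h10 : ρ ^ (2 * σ) ≤ ρ ^ (1 : ℝ) :=
      Real.rpow_le_rpow_of_exponent_ge hρ hρ1 (by linarith)
    rw [Real.rpow_one] at h10
    linarith
  rw [h8, div_le_one (by positivity)] at h7
  linarith

end RFK
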