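import Pool.Agent.RFK.Targets

/-!
# MP_35334d_an: targets for the existence of a minimizer (helper27)
-/

set_option autoImplicit false

open MeasureTheory Filter Topology Metric Set
open scoped ENNReal NNReal

namespace RFK

/-- normalised admissible functions -/
structure NA {n : ℕ} (σ : ℝ) (u : X n → ℝ) : Prop where
  meas : Measurable u
  nonneg : ∀ x, 0 ≤ u x
  norm : ∫⁻ x, sq (u x) = 1
  fin : En σ univ u ≠ ∞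
  vol : volume {x | 0 < u x} ≠ ∞

/-- the value of the functional at a normalised function -/
noncomputable def FF {n : ℕ} (σ : ℝ) (u : X n → ℝ) : ℝ≥0∞ :=
  En σ {x | 0 < u x} u + volume {x | 0 < u x}

/-- NAD (from HFI, POI): normalisation of admissible functions -/
def T_NAD : Prop := ∀ (n : ℕ) (σ : ℝ), OK n σ → ∀ v : X n → ℝ, Adm σ v → J σ v ≠ ∞ →
  ∃ w : X n → ℝ, NA σ w ∧ FF σ w = J σ v

/-- the lower bound for all functions -/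
def LB (n : ℕ) (σ m : ℝ) : Prop := 0 ≤ m ∧ ∀ v : X n → ℝ, Measurable v →
  (∀ x, 0 ≤ v x) → ∫⁻ x, sq (v x) ≠ ∞ → En σ univ v ≠ ∞ → volume {x | 0 < v x} ≠ ∞ →
  (m - volume.real {x | 0 < v x}) * (∫⁻ x, sq (v x)).toReal ≤ (En σ {x | 0 < v x} v).toReal

/-- EX1 (from NAD, JFI, DEN): a minimizing sequence -/
def T_EX1 : Prop := ∀ (n : ℕ) (σ : ℝ), OK n σ → ∃ m : ℝ, LB n σ m ∧
  (∀ v : X n → ℝ, Adm σ v → ENNReal.ofReal m ≤ J σ v) ∧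
  ∃ w : ℕ → X n → ℝ, (∀ j, NA σ (w j)) ∧
    Tendsto (fun j => (FF σ (w j)).toReal) atTop (𝓝 m)

/-- EX2 (from HAR): the full energy -/
def T_EX2 : Prop := ∀ (n : ℕ) (σ : ℝ), OK n σ → ∃ C : ℝ≥0, ∀ u : X n → ℝ, NA σ u →
  En σ univ u ≤ C * En σ {x | 0 < u x} u

/-- EXL (from POI): large values carry little mass -/
def T_EXL : Prop := ∀ (n : ℕ) (σ : ℝ), OK n σ → ∀ C₁ : ℝ, 0 < C₁ → ∃ ε c : ℝ, 0 < ε ∧ 0 < c ∧
  ∀ u : X n → ℝ, NA σ u → En σ univ u ≤ ENNReal.ofReal C₁ →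
  volume {x | 0 < u x} ≤ ENNReal.ofReal C₁ → ENNReal.ofReal c ≤ volume {x | ε < u x}

/-- EXB: Poincaré's inequality in a unit ball for functions with small support -/
def T_EXB : Prop := ∀ (n : ℕ) (σ : ℝ), OK n σ → ∀ κ : ℝ, 0 < κ → ∃ c : ℝ, 0 < c ∧
  ∀ (z : X n) (v : X n → ℝ), Measurable v →
  0 < ∫⁻ x in ball z 1, sq (v x) → ∫⁻ x in ball z 1, sq (v x) ≠ ∞ →
  ENNReal.ofReal κ * En σ (ball z 1) v ≤ ∫⁻ x in ball z 1, sq (v x) →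
  ENNReal.ofReal c ≤ volume (ball z 1 ∩ {x | v x ≠ 0})

/-- EX3 (from EXL, EXB): non-vanishing -/
def T_EX3 : Prop := ∀ (n : ℕ) (σ : ℝ), OK n σ → ∀ C₁ : ℝ, 0 < C₁ → ∃ c : ℝ, 0 < c ∧
  ∀ u : X n → ℝ, NA σ u → En σ univ u ≤ ENNReal.ofReal C₁ →
  volume {x | 0 < u x} ≤ ENNReal.ofReal C₁ →
  ∃ z : X n, ENNReal.ofReal c ≤ ∫⁻ x in ball z 1, sq (u x)

/-- EX4: compactness (fractional Rellich theorem) -/
def T_EX4 : Prop := ∀ (n : ℕ) (σ : ℝ), OK n σ → ∀ (C₁ : ℝ) (w : ℕ → X n → ℝ),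
  (∀ j, Measurable (w j) ∧ ∫⁻ x, sq (w j x) ≤ ENNReal.ofReal C₁ ∧
    En σ univ (w j) ≤ ENNReal.ofReal C₁) →
  ∃ (φ : ℕ → ℕ) (u : X n → ℝ), StrictMono φ ∧ Measurable u ∧
    (∀ᵐ x, Tendsto (fun j => w (φ j) x) atTop (𝓝 (u x))) ∧
    ∀ R : ℝ, Tendsto (fun j => ∫⁻ x in B R, sq (w (φ j) x - u x)) atTop (𝓝 0)

/-- EX5: lower semicontinuity -/
def T_EX5 : Prop := ∀ (n : ℕ) (σ : ℝ) (w : ℕ → X n → ℝ) (u : X n → ℝ),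
  (∀ j, Measurable (w j) ∧ ∀ x, 0 ≤ w j x) → Measurable u →
  (∀ᵐ x, Tendsto (fun j => w j x) atTop (𝓝 (u x))) →
  En σ univ u ≤ liminf (fun j => En σ univ (w j)) atTop ∧
  En σ {x | 0 < u x} u ≤ liminf (fun j => En σ {x | 0 < w j x} (w j)) atTop ∧
  (∀ A : Set (X n), MeasurableSet A →
    volume ({x | 0 < u x} ∩ A) ≤ liminf (fun j => volume ({x | 0 < w j x} ∩ A)) atTop) ∧
  FF σ u ≤ liminf (fun j => FF σ (w j)) atTop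

/-- EX6 (from KCU): splitting of the energy -/
def T_EX6 : Prop := ∀ (n : ℕ) (σ : ℝ), OK n σ → ∃ C : ℝ, 0 < C ∧ ∀ m : ℝ,
  LB n σ m → ∀ u : X n → ℝ, NA σ u → ∀ ρ ε : ℝ, 1 ≤ ρ → 0 < ε → ε ≤ 1 →
  m / (1 + ε) * (1 - (∫⁻ x in B (4 * ρ) \ B ρ, sq (u x)).toReal) +
    volume.real ({x | 0 < u x} ∩ B (2 * ρ)) *
      (1 - (∫⁻ x in B (2 * ρ), sq (u x)).toReal) - C / ε * ρ ^ (-(2 * σ)) ≤
  (FF σ u).toReal

/-- EX7 (from EX6, EX5): no loss of mass -/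
def T_EX7 : Prop := ∀ (n : ℕ) (σ : ℝ), OK n σ → ∀ (m : ℝ), LB n σ m →
  ∀ (w : ℕ → X n → ℝ) (u : X n → ℝ), (∀ j, NA σ (w j)) → Measurable u →
  Tendsto (fun j => (FF σ (w j)).toReal) atTop (𝓝 m) →
  (∀ᵐ x, Tendsto (fun j => w j x) atTop (𝓝 (u x))) →
  (∀ R : ℝ, Tendsto (fun j => ∫⁻ x in B R, sq (w j x - u x)) atTop (𝓝 0)) →
  ¬ (∀ᵐ x, u x = 0) → ∫⁻ x, sq (u x) = 1

/-- EX9: translations -/
def T_EX9 : Prop := ∀ (n : ℕ) (σ : ℝ) (u : X n → ℝ) (z : X n), NA σ u →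
  NA σ (fun x => u (z + x)) ∧ FF σ (fun x => u (z + x)) = FF σ u ∧
  En σ univ (fun x => u (z + x)) = En σ univ u ∧
  ∫⁻ x in B 1, sq (u (z + x)) = ∫⁻ x in ball z 1, sq (u x)

/-- EXI (from EX1, EX2, EX3, EX4, EX5, EX7, EX9, DEN): a minimizer exists -/
def T_EXI : Prop := ∀ (n : ℕ) (σ : ℝ), OK n σ → ∃ u : X n → ℝ, IsMin σ u

/-- MCO: minimizers may be changed on null sets -/
def T_MCO : Prop := ∀ (n : ℕ) (σ : ℝ) (u g : X n → ℝ), IsMin σ u → (∀ᵐ x, u x = g x) →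
  IsMin σ g

/-- the result -/
def T_FIN : Prop := ∀ (n : ℕ) (σ : ℝ), 2 ≤ n → 1 / 2 < σ → σ < 1 →
  (∃ u : X n → ℝ, IsMin σ u ∧ Continuous u) ∧
  ∀ u : X n → ℝ, IsMin σ u → ∃ (g : X n → ℝ) (α C : ℝ), 0 < α ∧
    (∀ x y, |g x - g y| ≤ C * ‖x - y‖ ^ α) ∧ ∀ᵐ x, u x = g x

end RFK
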