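import Mathlib
import Pool.Agent.RFK.TargetsE

/-!
EXL: large values carry little mass
-/

set_option autoImplicit false

open MeasureTheory Filter Topology Metric Set
open scoped ENNReal NNReal

namespace RFK

namespace EXL_

variable {n : ℕ} {σ : ℝ}

/-- a level with small excess -/
theorem level (p C C₁ : ℝ) (hp : 0 < p) :
    ∃ K : ℝ, 1 ≤ K ∧ C * ((K⁻¹) ^ 2) ^ p * C₁ ≤ 1 / 16 := by
  have hc : Continuous fun x : ℝ => C * (x ^ 2) ^ p * C₁ := by
    refine (continuous_const.mul ?_).mul continuous_const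
    exact (continuous_pow 2).rpow_const fun x => Or.inr hp.le
  have h1 := (hc.tendsto 0).comp tendsto_inv_atTop_zero
  have h2 : C * ((0 : ℝ) ^ 2) ^ p * C₁ = 0 := by
    rw [zero_pow two_ne_zero, Real.zero_rpow hp.ne']
    ring
  rw [h2] at h1
  have h3 := (h1.eventually (Iio_mem_nhds (by norm_num : (0 : ℝ) < 1 / 16))).and
    (eventually_ge_atTop (1 : ℝ))
  obtain ⟨K, hK1, hK2⟩ := h3.exists
  exact ⟨K, hK2, le_of_lt hK1⟩

/-- the energy of a truncation -/
theorem En_pos_le (u : X n → ℝ) (K₀ : ℝ) :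
    En σ univ (fun x => pos (u x - K₀)) ≤ En σ univ u := by
  rw [En_eq, En_eq]
  refine DI_mono MeasurableSet.univ MeasurableSet.univ fun x _ y _ => sq_le ?_
  refine (abs_pos_sub_pos_le _ _).trans (le_of_eq ?_)
  congr 1
  ring

/-- pointwise decomposition -/
theorem pointwise (u : X n → ℝ) (hu : ∀ x, 0 ≤ u x) {ε K₀ : ℝ} (hK : 0 < K₀)
    (x : X n) : sq (u x) ≤ {x | 0 < u x}.indicator (fun _ => ENNReal.ofReal (ε ^ 2)) x +
      {x | ε < u x}.indicator (fun _ => ENNReal.ofReal (4 * K₀ ^ 2)) x +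
      4 * sq (pos (u x - K₀)) := by
  rcases (hu x).eq_or_lt with h0 | h0
  · rw [← h0, sq_zero]
    exact zero_le
  by_cases h1 : u x ≤ ε
  · have h2 : sq (u x) ≤ {x | 0 < u x}.indicator (fun _ => ENNReal.ofReal (ε ^ 2)) x := by
      rw [indicator_of_mem (show x ∈ {x | 0 < u x} from h0)]
      exact ENNReal.ofReal_le_ofReal (pow_le_pow_left₀ h0.le h1 2)
    exact h2.trans (le_self_add.trans le_self_add)
  rw [not_le] at h1
  by_cases h2 : u x ≤ 2 * K₀
  · have h3 : sq (u x) ≤ {x | ε < u x}.indicator (fun _ => ENNReal.ofReal (4 * K₀ ^ 2)) x := by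
      rw [indicator_of_mem (show x ∈ {x | ε < u x} from h1)]
      refine ENNReal.ofReal_le_ofReal ?_
      nlinarith
    exact h3.trans (le_add_self.trans le_self_add)
  · rw [not_le] at h2
    have h3 : sq (u x) ≤ 4 * sq (pos (u x - K₀)) := by
      have h4 : (4 : ℝ≥0∞) = sq 2 := by
        rw [sq]
        norm_num
      rw [h4, ← sq_mul]
      apply sq_le
      rw [abs_of_pos h0, pos_of_nonneg (by linarith), abs_of_nonneg (by linarith)]
      linarith
    exact h3.trans le_add_self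

end EXL_

open EXL_ in
theorem p_EXL (hPOI : T_POI) : T_EXL := by
  intro n σ hOK C₁ hC₁
  obtain ⟨C, hC⟩ := hPOI n σ hOK
  have hn : (0 : ℝ) < n := by
    have := hOK.1
    exact_mod_cast (by omega : 0 < n)
  have hp : 0 < 2 * σ / n := by
    have := hOK.2.1
    exact div_pos (by linarith) hn
  obtain ⟨K₀, hK1, hK2⟩ := level (2 * σ / n) C C₁ hp
  have hK0 : 0 < K₀ := by linarith
  refine ⟨√(1 / (4 * C₁)), 1 / (8 * K₀ ^ 2), Real.sqrt_pos.mpr (by positivity), by positivity,
    fun u hu hE hV => ?_⟩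
  have hε2 : (√(1 / (4 * C₁))) ^ 2 = 1 / (4 * C₁) := Real.sq_sqrt (by positivity)
  set ε : ℝ := √(1 / (4 * C₁)) with hε
  have hε0 : 0 < ε := Real.sqrt_pos.mpr (by positivity)
  -- Chebyshev
  set D : Set (X n) := {x | K₀ < u x} with hD
  have hDm : MeasurableSet D := measurableSet_lt measurable_const hu.meas
  have hcheb : volume D ≤ ENNReal.ofReal ((K₀⁻¹) ^ 2) := by
    have hne : ENNReal.ofReal (K₀ ^ 2) ≠ 0 := (ENNReal.ofReal_pos.mpr (by positivity)).ne'
    have h1 := meas_ge_le_lintegral_div (μ := (volume : Measure (X n)))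
      (measurable_sq_comp hu.meas).aemeasurable hne ENNReal.ofReal_ne_top
    rw [hu.norm] at h1
    refine (measure_mono ?_).trans (h1.trans (le_of_eq ?_))
    · intro x hx
      exact ENNReal.ofReal_le_ofReal (pow_le_pow_left₀ hK0.le (le_of_lt hx) 2)
    · rw [one_div, ← ENNReal.ofReal_inv_of_pos (by positivity), inv_pow]
  -- the excess
  set w : X n → ℝ := fun x => pos (u x - K₀) with hw
  have hwm : Measurable w := measurable_pos.comp (hu.meas.sub_const K₀)
  have hexc : ∫⁻ x, sq (w x) ≤ ENNReal.ofReal (1 / 16) := by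
    have h1 := hC D w hDm (ne_top_of_le_ne_top ENNReal.ofReal_ne_top hcheb) hwm (by
      intro x hx
      have hx' : u x ≤ K₀ := not_lt.mp hx
      exact pos_of_nonpos (by linarith))
    have h2 : volume D ^ (2 * σ / n) ≤ ENNReal.ofReal (((K₀⁻¹) ^ 2) ^ (2 * σ / n)) := by
      rw [← ENNReal.ofReal_rpow_of_pos (by positivity)]
      exact ENNReal.rpow_le_rpow hcheb hp.le
    calc ∫⁻ x, sq (w x) ≤ C * volume D ^ (2 * σ / n) * En σ univ w := h1
      _ ≤ C * ENNReal.ofReal (((K₀⁻¹) ^ 2) ^ (2 * σ / n)) * ENNReal.ofReal C₁ := by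
          gcongr
          exact (En_pos_le u K₀).trans hE
      _ = ENNReal.ofReal (C * ((K₀⁻¹) ^ 2) ^ (2 * σ / n) * C₁) := by
          rw [ENNReal.ofReal_mul (by positivity), ENNReal.ofReal_mul (NNReal.coe_nonneg C),
            ENNReal.ofReal_coe_nnreal]
      _ ≤ ENNReal.ofReal (1 / 16) := ENNReal.ofReal_le_ofReal hK2
  have hΩm : MeasurableSet {x | 0 < u x} := measurableSet_lt measurable_const hu.meas
  have hSm : MeasurableSet {x | ε < u x} := measurableSet_lt measurable_const hu.meas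
  have hSfin : volume {x | ε < u x} ≠ ∞ :=
    ne_top_of_le_ne_top hu.vol (measure_mono fun x hx => hε0.trans hx)
  set V : ℝ := (volume {x | ε < u x}).toReal with hVdef
  have hVeq : volume {x | ε < u x} = ENNReal.ofReal V := (ENNReal.ofReal_toReal hSfin).symm
  have hV0 : 0 ≤ V := ENNReal.toReal_nonneg
  have h1 : (1 : ℝ≥0∞) ≤ ENNReal.ofReal (1 / 4 + 4 * K₀ ^ 2 * V + 4 * (1 / 16)) := by
    calc (1 : ℝ≥0∞) = ∫⁻ x, sq (u x) := hu.norm.symm
      _ ≤ ∫⁻ x, ({x | 0 < u x}.indicator (fun _ => ENNReal.ofReal (ε ^ 2)) x +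
          {x | ε < u x}.indicator (fun _ => ENNReal.ofReal (4 * K₀ ^ 2)) x +
          4 * sq (w x)) := lintegral_mono fun x => pointwise u hu.nonneg hK0 x
      _ = ENNReal.ofReal (ε ^ 2) * volume {x | 0 < u x} +
          ENNReal.ofReal (4 * K₀ ^ 2) * volume {x | ε < u x} + 4 * ∫⁻ x, sq (w x) := by
          rw [lintegral_add_right _ ((measurable_sq_comp hwm).const_mul 4), lintegral_add_right _
            (measurable_const.indicator hSm), lintegral_indicator_const hΩm,
            lintegral_indicator_const hSm, lintegral_const_mul' _ _ (by norm_num)]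
      _ ≤ ENNReal.ofReal (ε ^ 2) * ENNReal.ofReal C₁ +
          ENNReal.ofReal (4 * K₀ ^ 2) * ENNReal.ofReal V + 4 * ENNReal.ofReal (1 / 16) := by
          rw [hVeq]
          gcongr
      _ = ENNReal.ofReal (1 / 4 + 4 * K₀ ^ 2 * V + 4 * (1 / 16)) := by
          rw [ENNReal.ofReal_add (by positivity) (by norm_num),
            ENNReal.ofReal_add (by norm_num) (by positivity),
            ENNReal.ofReal_mul (by positivity : (0 : ℝ) ≤ 4 * K₀ ^ 2),
            ENNReal.ofReal_mul (by norm_num : (0 : ℝ) ≤ 4), ← ENNReal.ofReal_mul (by positivity),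
            hε2]
          congr 2
          · congr 1
            field_simp
          · simp
  rw [ENNReal.one_le_ofReal] at h1
  rw [hVeq]
  apply ENNReal.ofReal_le_ofReal
  rw [div_le_iff₀ (by positivity)]
  nlinarith

end RFK
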