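import Pool.Agent.RFK.TargetsE

/-!
# MP_35334d_an: the result from the regularity theorem and the existence of a minimizer
-/

set_option autoImplicit false

open MeasureTheory Filter Topology Metric Set
open scoped ENNReal NNReal

namespace RFK

namespace FIN_

/-- Hölder continuous functions are continuous -/
theorem continuous_of_holder {n : ℕ} (g : X n → ℝ) (α C : ℝ) (hα : 0 < α)
    (h : ∀ x y, |g x - g y| ≤ C * ‖x - y‖ ^ α) : Continuous g := by
  rw [continuous_iff_continuousAt]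
  intro x
  rw [ContinuousAt, tendsto_iff_norm_sub_tendsto_zero]
  have h1 : Tendsto (fun y : X n => C * ‖y - x‖ ^ α) (𝓝 x) (𝓝 0) := by
    have h2 : Tendsto (fun y : X n => ‖y - x‖) (𝓝 x) (𝓝 0) := by
      have : Tendsto (fun y : X n => ‖y - x‖) (𝓝 x) (𝓝 ‖x - x‖) :=
        ((continuous_id.sub continuous_const).norm).tendsto x
      simpa using this
    have h3 : Tendsto (fun y : X n => ‖y - x‖ ^ α) (𝓝 x) (𝓝 (0 ^ α)) :=
      h2.rpow_const (Or.inr hα.le)
    rw [Real.zero_rpow hα.ne'] at h3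
    simpa using h3.const_mul C
  refine squeeze_zero (fun y => norm_nonneg _) (fun y => ?_) h1
  rw [Real.norm_eq_abs]
  exact h y x

end FIN_

/-- FIN -/
theorem p_FIN (h1 : T_REG) (h2 : T_EXI) (h3 : T_MCO) : T_FIN := by
  intro n σ hn hσ hσ'
  have hOK : OK n σ := ⟨hn, hσ, hσ'⟩
  refine ⟨?_, fun u hu => h1 n σ hOK u hu⟩
  obtain ⟨u, hu⟩ := h2 n σ hOK
  obtain ⟨g, α, C, hα, hg, hug⟩ := h1 n σ hOK u hu
  exact ⟨g, h3 n σ u g hu hug, FIN_.continuous_of_holder g α C hα hg⟩

end RFK
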