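import Pool.Agent.RFK.Targets

/-!
# MP_35334d_an: FNC (helper64)
-/

set_option autoImplicit false

open MeasureTheory Filter Topology Metric Set
open scoped ENNReal NNReal

namespace RFK

namespace FNC_

variable {n : ℕ} {σ : ℝ}

theorem volB_lt_top (r : ℝ) : volume (B r : Set (X n)) ≠ ∞ := measure_ball_lt_top.ne

/-- the part of the double integral with one variable outside `B 4` -/
theorem tail {C : ℝ≥0}
    (hC : ∀ ρ : ℝ, 0 < ρ → ∀ x : X n,
      ∫⁻ y in (ball x ρ)ᶜ, K σ (x - y) ≤ C * ENNReal.ofReal (ρ ^ (-(2 * σ))))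
    {g : X n → ℝ≥0∞} (h0 : ∀ x, x ∉ B 3 → g x = 0)
    (h1 : ∀ᵐ x, x ∈ B 4 → g x ≤ 1) :
    DI σ univ (B 4)ᶜ (fun x _ => g x) ≤ C * volume (B 3 : Set (X n)) := by
  unfold DI
  rw [Measure.restrict_univ]
  calc ∫⁻ x, ∫⁻ y in (B 4)ᶜ, g x * K σ (x - y)
      ≤ ∫⁻ x, (B 3 : Set (X n)).indicator (fun _ => (C : ℝ≥0∞)) x := by
        apply lintegral_mono_ae
        filter_upwards [h1] with x hx
        by_cases hx3 : x ∈ (B 3 : Set (X n))
        · rw [indicator_of_mem hx3]
          have hx3' : ‖x‖ < 3 := by simpa [B] using hx3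
          have hx4 : x ∈ (B 4 : Set (X n)) := by
            simp only [B, mem_ball_zero_iff]
            linarith
          have hgx := hx hx4
          have hsub : (B 4 : Set (X n))ᶜ ⊆ (ball x 1)ᶜ := by
            intro y hy
            have hy4 : (4 : ℝ) ≤ ‖y‖ := by simpa [B] using hy
            rw [mem_compl_iff, mem_ball, not_lt, dist_eq_norm]
            have := norm_sub_norm_le y x
            linarith
          calc ∫⁻ y in (B 4)ᶜ, g x * K σ (x - y) ≤ ∫⁻ y in (B 4)ᶜ, K σ (x - y) := by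
                apply lintegral_mono
                intro y
                calc g x * K σ (x - y) ≤ 1 * K σ (x - y) := by gcongr
                  _ = K σ (x - y) := one_mul _
            _ ≤ ∫⁻ y in (ball x 1)ᶜ, K σ (x - y) := lintegral_mono_set hsub
            _ ≤ C * ENNReal.ofReal ((1 : ℝ) ^ (-(2 * σ))) := hC 1 one_pos x
            _ = C := by rw [Real.one_rpow, ENNReal.ofReal_one, mul_one]
        · rw [indicator_of_notMem hx3, h0 x hx3]
          simp
    _ = C * volume (B 3 : Set (X n)) := by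
        rw [lintegral_indicator_const measurableSet_ball]

theorem cut_Cut {r' r : ℝ} (h : r' < r) : Cut (cut r' r : X n → ℝ) (r - r') :=
  ⟨by linarith, fun x => ⟨cut_nonneg _ _ x, cut_le_one _ _ x⟩, fun x y => cut_lip h x y⟩

theorem sq_prod_le {p q a b s t : ℝ} (ha : 0 ≤ a) (ha1 : a ≤ 1) (hq : 0 ≤ q) (hq1 : q ≤ 1)
    (hpq : |p - q| ≤ |s - t|) :
    sq (p * a - q * b) ≤ 2 * sq (s - t) + 2 * sq (a - b) := by
  have e : p * a - q * b = (p - q) * a + q * (a - b) := by ring
  rw [e]
  refine (sq_add_le _ _).trans ?_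
  gcongr
  · apply sq_le
    rw [abs_mul, abs_of_nonneg ha]
    calc |p - q| * a ≤ |p - q| * 1 := by gcongr
      _ = |p - q| := mul_one _
      _ ≤ |s - t| := hpq
  · apply sq_le
    rw [abs_mul, abs_of_nonneg hq]
    calc q * |a - b| ≤ 1 * |a - b| := by gcongr
      _ = |a - b| := one_mul _

/-- the energy of a cut off function is finite -/
theorem En_fin {C C' : ℝ≥0}
    (hC : ∀ ρ : ℝ, 0 < ρ → ∀ x : X n,
      ∫⁻ y in (ball x ρ)ᶜ, K σ (x - y) ≤ C * ENNReal.ofReal (ρ ^ (-(2 * σ))))
    (hC' : ∀ (η : X n → ℝ) (d : ℝ), Cut η d →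
      ∀ x, ∫⁻ y, sq (η x - η y) * K σ (x - y) ≤ C' * ENNReal.ofReal (d ^ (-(2 * σ))))
    {f P : X n → ℝ} (hf : Measurable f) (hP : Measurable P) (hfin : En σ univ f ≠ ∞)
    (hP0 : ∀ x, 0 ≤ P x) (hP1 : ∀ᵐ x, x ∈ B 4 → P x ≤ 1)
    (hPf : ∀ x y, |P x - P y| ≤ |f x - f y|) {r' r : ℝ} (h : r' < r) (hr : r ≤ 3) :
    En σ univ (fun x => P x * cut r' r x) ≠ ∞ := by
  have hc := measurable_cut (n := n) r' r
  have hg : Measurable fun x : X n => P x * cut r' r x := hP.mul hc
  have hg0 : ∀ x : X n, x ∉ B 3 → P x * cut r' r x = 0 := by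
    intro x hx
    have hx3 : (3 : ℝ) ≤ ‖x‖ := by simpa [B] using hx
    rw [cut_eq_zero h (by linarith), mul_zero]
  have h34 : ∀ x : X n, x ∉ B 4 → x ∉ B 3 := by
    intro x hx hx'
    apply hx
    simp only [B, mem_ball_zero_iff] at hx' ⊢
    linarith
  have hun : (univ : Set (X n)) = B 4 ∪ (B 4)ᶜ := (union_compl_self _).symm
  rw [hun, En_union measurableSet_ball.compl disjoint_compl_right hg]
  have e3 : En σ (B 4)ᶜ (fun x : X n => P x * cut r' r x) = 0 := by
    rw [En_eq, DI_congr measurableSet_ball.compl measurableSet_ball.compl (H := fun _ _ => 0)]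
    · simp [DI]
    · intro x hx y hy
      rw [hg0 x (h34 x hx), hg0 y (h34 y hy), sub_zero, sq_zero]
  have e2 : DI σ (B 4) (B 4)ᶜ (fun x y : X n => sq (P x * cut r' r x - P y * cut r' r y)) ≤
      C * volume (B 3 : Set (X n)) := by
    refine le_trans ?_ (tail (σ := σ) hC (g := fun x : X n => sq (P x * cut r' r x)) ?_ ?_)
    · refine le_trans (DI_mono measurableSet_ball measurableSet_ball.compl
        (H := fun x _ => sq (P x * cut r' r x)) ?_) (DI_mono_set (subset_univ _) Subset.rfl _)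
      intro x _ y hy
      rw [hg0 y (h34 y hy), sub_zero]
    · intro x hx
      rw [hg0 x hx, sq_zero]
    · filter_upwards [hP1] with x hx hx4
      have h1 := hx hx4
      rw [sq, ENNReal.ofReal_le_one]
      have h2 : P x * cut r' r x ≤ 1 := by
        calc P x * cut r' r x ≤ 1 * 1 :=
              mul_le_mul h1 (cut_le_one _ _ x) (cut_nonneg _ _ x) zero_le_one
          _ = 1 := one_mul 1
      have h3 : 0 ≤ P x * cut r' r x := mul_nonneg (hP0 x) (cut_nonneg _ _ x)
      exact pow_le_one₀ h3 h2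
  have e1 : En σ (B 4) (fun x : X n => P x * cut r' r x) ≤
      2 * En σ univ f + 2 * (C' * ENNReal.ofReal ((r - r') ^ (-(2 * σ))) *
        volume (B 4 : Set (X n))) := by
    rw [En_eq]
    refine (DI_mono_ae measurableSet_ball measurableSet_ball
      (H := fun x y => 2 * sq (f x - f y) + 2 * sq (cut r' r x - cut r' r y)) ?_).trans ?_
    · refine Eventually.of_forall fun x _ => ?_
      filter_upwards [hP1] with y hy hy4
      exact sq_prod_le (cut_nonneg _ _ x) (cut_le_one _ _ x) (hP0 y) (hy hy4) (hPf x y)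
    · rw [DI_add ((measurable_dsq hf).const_mul 2), DI_const_mul (by norm_num),
        DI_const_mul (by norm_num)]
      gcongr
      · exact DI_le_En f
      · calc DI σ (B 4) (B 4) (fun x y : X n => sq (cut r' r x - cut r' r y))
            ≤ ∫⁻ x in (B 4 : Set (X n)), C' * ENNReal.ofReal ((r - r') ^ (-(2 * σ))) := by
              unfold DI
              apply lintegral_mono
              intro x
              exact (setLIntegral_le_lintegral _ _).trans (hC' _ _ (cut_Cut h) x)
          _ = C' * ENNReal.ofReal ((r - r') ^ (-(2 * σ))) * volume (B 4 : Set (X n)) := by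
              rw [setLIntegral_const]
  rw [e3, add_zero]
  have f1 : 2 * En σ univ f + 2 * (C' * ENNReal.ofReal ((r - r') ^ (-(2 * σ))) *
        volume (B 4 : Set (X n))) ≠ ∞ := by
    apply ENNReal.add_ne_top.mpr
    exact ⟨ENNReal.mul_ne_top (by norm_num) hfin, ENNReal.mul_ne_top (by norm_num)
      (ENNReal.mul_ne_top (ENNReal.mul_ne_top ENNReal.coe_ne_top ENNReal.ofReal_ne_top)
        (volB_lt_top 4))⟩
  have f2 : 2 * (C * volume (B 3 : Set (X n))) ≠ ∞ :=
    ENNReal.mul_ne_top (by norm_num) (ENNReal.mul_ne_top ENNReal.coe_ne_top (volB_lt_top 3))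
  have f3 := ENNReal.add_ne_top.mpr ⟨f1, f2⟩
  refine ne_top_of_le_ne_top f3 ?_
  gcongr

end FNC_

theorem p_FNC (hK : T_KTL) (hU : T_KCU) : T_FNC := by
  intro n σ hOK θ δ C₀ a Ω f hc
  obtain ⟨C, hC⟩ := hK n σ hOK
  obtain ⟨C', hC'⟩ := hU n σ hOK
  have hf := hc.meas
  have hΩ : MeasurableSet Ω := by
    rw [hc.om]
    exact measurableSet_lt measurable_const (hf.add_const a)
  have hup : ∀ᵐ x, x ∈ (B 4 : Set (X n)) → f x ≤ 1 := by
    have h := hc.up 0
    simpa using h
  have hlo : ∀ᵐ x, x ∈ (B 4 : Set (X n)) → 0 ≤ f x := by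
    have h := hc.lo 0
    simpa using h
  constructor
  · intro k r' r hk hr' h hr
    have hP1 : ∀ᵐ x, x ∈ (B 4 : Set (X n)) → pos (f x - k) ≤ 1 := by
      filter_upwards [hup] with x hx hx4
      exact max_le (by linarith [hx hx4]) zero_le_one
    have hE := FNC_.En_fin (σ := σ) hC hC' (f := f) (P := fun x => pos (f x - k)) hf
      (measurable_pos.comp (hf.sub_const k)) hc.fin (fun x => pos_nonneg _) hP1
      (fun x y => by
        refine (abs_pos_sub_pos_le _ _).trans (le_of_eq ?_)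
        congr 1
        ring) h hr
    refine ne_top_of_le_ne_top hE ?_
    refine le_trans ?_ (DI_le_En (σ := σ) (A := Ωᶜ) (A' := Ω) _)
    apply DI_mono hΩ.compl hΩ
    intro x hx y _
    have hx0 : f x + a = 0 := by
      rw [hc.om, mem_compl_iff, mem_ofPred_eq, not_lt] at hx
      exact le_antisymm hx (hc.nonneg x)
    have hgx : pos (f x - k) = 0 := pos_of_nonpos (by linarith [hc.a0])
    rw [hgx, zero_mul, zero_sub, sq_neg]
  · intro hvol k r' r hk hr' h hr
    have hP1 : ∀ᵐ x, x ∈ (B 4 : Set (X n)) →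
        sq (pos (1 - f x - k) * cut r' r x) ≤ 1 := by
      filter_upwards [hlo] with x hx hx4
      have h1 : pos (1 - f x - k) ≤ 1 := max_le (by linarith [hx hx4]) zero_le_one
      rw [sq, ENNReal.ofReal_le_one]
      have h2 : pos (1 - f x - k) * cut r' r x ≤ 1 := by
        calc pos (1 - f x - k) * cut r' r x ≤ 1 * 1 :=
              mul_le_mul h1 (cut_le_one _ _ x) (cut_nonneg _ _ x) zero_le_one
          _ = 1 := one_mul 1
      have h3 : 0 ≤ pos (1 - f x - k) * cut r' r x :=
        mul_nonneg (pos_nonneg _) (cut_nonneg _ _ x)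
      exact pow_le_one₀ h3 h2
    have hT := FNC_.tail (σ := σ) hC (g := fun x : X n => sq (pos (1 - f x - k) * cut r' r x))
      (fun x hx => by
        have hx3 : (3 : ℝ) ≤ ‖x‖ := by simpa [B] using hx
        rw [cut_eq_zero h (by linarith), mul_zero, sq_zero]) hP1
    have hfin : (C : ℝ≥0∞) * volume (B 3 : Set (X n)) ≠ ∞ :=
      ENNReal.mul_ne_top ENNReal.coe_ne_top (FNC_.volB_lt_top 3)
    refine ne_top_of_le_ne_top hfin (le_trans ?_ hT)
    have hm : Measurable (Function.uncurry fun (x y : X n) =>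
        sq (pos (1 - f x - k) * cut r' r x)) := by
      have : Measurable fun x : X n => sq (pos (1 - f x - k) * cut r' r x) :=
        measurable_sq.comp ((measurable_pos.comp ((measurable_const.sub hf).sub_const k)).mul
          (measurable_cut r' r))
      exact this.comp measurable_fst
    rw [DI_swap hm]
    have hae : Ωᶜ ≤ᵐ[volume] (B 4 : Set (X n))ᶜ := by
      have h1 : ∀ᵐ x, x ∉ (B 4 : Set (X n)) \ Ω := measure_eq_zero_iff_ae_notMem.mp hvol
      filter_upwards [h1] with x hx hxΩ hx4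
      exact hx ⟨hx4, hxΩ⟩
    unfold DI
    calc ∫⁻ x in Ωᶜ, ∫⁻ y in Ω, sq (pos (1 - f y - k) * cut r' r y) * K σ (x - y)
        ≤ ∫⁻ x in (B 4 : Set (X n))ᶜ,
            ∫⁻ y in Ω, sq (pos (1 - f y - k) * cut r' r y) * K σ (x - y) :=
          lintegral_mono' (Measure.restrict_mono' hae le_rfl) le_rfl
      _ ≤ ∫⁻ x in (B 4 : Set (X n))ᶜ,
            ∫⁻ y in univ, sq (pos (1 - f y - k) * cut r' r y) * K σ (x - y) :=
          lintegral_mono fun x => lintegral_mono_set (subset_univ _)

end RFK
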