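import Pool.Agent.RFK.Targets

/-!
# MP_35334d_an: the iteration lemma of Giaquinta (helper91)
-/

set_option autoImplicit false

open MeasureTheory Filter Topology Metric Set
open scoped ENNReal NNReal

namespace RFK

namespace GIA_

theorem step {θ s τ C₁ C₂ : ℝ} (hθ : 0 ≤ θ) (hτ : 0 < τ) (hτ1 : τ < 1) (hC₁ : 0 ≤ C₁)
    (hC₂ : 0 ≤ C₂) (e₁ : θ * τ ^ (-s) * C₁ + (1 - τ) ^ (-s) = C₁) (e₂ : θ * C₂ + 1 = C₂)
    {f : ℝ → ℝ} {a b A D M : ℝ} (hA : 0 ≤ A) (hD : 0 ≤ D)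
    (hf : ∀ t ∈ Icc a b, 0 ≤ f t ∧ f t ≤ M)
    (h : ∀ ρ r : ℝ, a ≤ ρ → ρ < r → r ≤ b → f ρ ≤ θ * f r + A * (r - ρ) ^ (-s) + D) (k : ℕ) :
    ∀ ρ, a ≤ ρ → ρ < b → f ρ ≤ θ ^ k * M + C₁ * A * (b - ρ) ^ (-s) + C₂ * D := by
  induction k with
  | zero =>
    intro ρ h1 h2
    have h3 := (hf ρ ⟨h1, h2.le⟩).2
    have h4 : 0 ≤ C₁ * A * (b - ρ) ^ (-s) :=
      mul_nonneg (mul_nonneg hC₁ hA) (Real.rpow_nonneg (sub_nonneg.2 h2.le) _)
    have h5 : 0 ≤ C₂ * D := mul_nonneg hC₂ hD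
    rw [pow_zero, one_mul]
    linarith
  | succ k ih =>
    intro ρ h1 h2
    have hb : 0 < b - ρ := sub_pos.2 h2
    have h3 : ρ < ρ + (1 - τ) * (b - ρ) := by nlinarith
    have h4 : ρ + (1 - τ) * (b - ρ) < b := by nlinarith
    have h5 := h ρ _ h1 h3 h4.le
    have h6 := ih _ (h1.trans h3.le) h4
    have e3 : b - (ρ + (1 - τ) * (b - ρ)) = τ * (b - ρ) := by ring
    have e4 : ρ + (1 - τ) * (b - ρ) - ρ = (1 - τ) * (b - ρ) := by ring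
    rw [e3, Real.mul_rpow hτ.le hb.le] at h6
    rw [e4, Real.mul_rpow (by linarith) hb.le] at h5
    have h7 := mul_le_mul_of_nonneg_left h6 hθ
    have e5 : θ * (θ ^ k * M + C₁ * A * (τ ^ (-s) * (b - ρ) ^ (-s)) + C₂ * D) +
        A * ((1 - τ) ^ (-s) * (b - ρ) ^ (-s)) + D =
        θ ^ (k + 1) * M + (θ * τ ^ (-s) * C₁ + (1 - τ) ^ (-s)) * A * (b - ρ) ^ (-s) +
          (θ * C₂ + 1) * D := by ring
    rw [e₁, e₂] at e5
    linarith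

end GIA_

/-- GIA: the iteration lemma of Giaquinta -/
theorem p_GIA : T_GIA := by
  intro θ s hθ hθ1 hs
  have hm0 : (0 : ℝ) < (1 + θ) / 2 := by linarith
  have hm1 : (1 + θ) / 2 < 1 := by linarith
  set τ : ℝ := ((1 + θ) / 2) ^ (1 / s) with hτdef
  have hτ : 0 < τ := Real.rpow_pos_of_pos hm0 _
  have hτ1 : τ < 1 := Real.rpow_lt_one hm0.le hm1 (by positivity)
  have hτs : τ ^ (-s) = ((1 + θ) / 2)⁻¹ := by
    rw [hτdef, ← Real.rpow_mul hm0.le, ← Real.rpow_neg_one]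
    congr 1
    field_simp
  have hq : θ * τ ^ (-s) < 1 := by
    rw [hτs, ← div_eq_mul_inv, div_lt_one hm0]
    linarith
  have h1τ : 0 < (1 - τ) ^ (-s) := Real.rpow_pos_of_pos (by linarith) _
  have hq' : 0 < 1 - θ * τ ^ (-s) := by linarith
  have hθ' : 0 < 1 - θ := by linarith
  set C₁ : ℝ := (1 - τ) ^ (-s) / (1 - θ * τ ^ (-s)) with hC₁
  set C₂ : ℝ := 1 / (1 - θ) with hC₂
  have hC₁0 : 0 < C₁ := div_pos h1τ hq'
  have hC₂0 : 0 < C₂ := by positivity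
  have e₁ : θ * τ ^ (-s) * C₁ + (1 - τ) ^ (-s) = C₁ := by
    rw [hC₁]
    field_simp
    ring
  have e₂ : θ * C₂ + 1 = C₂ := by
    rw [hC₂]
    field_simp
    ring
  refine ⟨C₁ + C₂, by positivity, ?_⟩
  intro f a b A D M hab hA hD hf h
  have key := fun k => GIA_.step hθ hτ hτ1 hC₁0.le hC₂0.le e₁ e₂ hA hD hf h k a le_rfl hab
  have hlim : Tendsto (fun k : ℕ => θ ^ k * M + C₁ * A * (b - a) ^ (-s) + C₂ * D) atTop
      (𝓝 (0 * M + C₁ * A * (b - a) ^ (-s) + C₂ * D)) :=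
    (((tendsto_pow_atTop_nhds_zero_of_lt_one hθ hθ1).mul_const M).add_const _).add_const _
  have h1 := ge_of_tendsto' hlim key
  have h2 : 0 ≤ (b - a) ^ (-s) := Real.rpow_nonneg (sub_nonneg.2 hab.le) _
  have h3 : 0 ≤ C₂ * (A * (b - a) ^ (-s)) := mul_nonneg hC₂0.le (mul_nonneg hA h2)
  have h4 : 0 ≤ C₁ * D := mul_nonneg hC₁0.le hD
  have h5 : (C₁ + C₂) * (A * (b - a) ^ (-s) + D) =
      (0 * M + C₁ * A * (b - a) ^ (-s) + C₂ * D) + C₂ * (A * (b - a) ^ (-s)) + C₁ * D := by ring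
  rw [h5]
  linarith

end RFK
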