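import Pool.Agent.RFK.Targets

/-!
# MP_35334d_an, HAR: Hardy's inequality (midpoint argument) (helper29, for helper27)
-/

set_option autoImplicit false

open MeasureTheory Filter Topology Metric Set
open scoped ENNReal NNReal

namespace RFK

namespace HAR_

variable {n : ℕ} {σ : ℝ}

open scoped Classical in
theorem mid_le (A B' : Set (X n)) {C : Set (X n)} (hC : MeasurableSet C)
    (G : X n → X n → ℝ≥0∞) :
    DI σ A B' (fun x y => if (2 : ℝ)⁻¹ • (x + y) ∈ C then G x ((2 : ℝ)⁻¹ • (x + y)) else 0) ≤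
      ENNReal.ofReal (2 ^ (-(2 * σ))) * DI σ A C G := by
  rw [← DI_mid]
  unfold DI
  apply lintegral_mono
  intro x
  have hmeas : MeasurableSet ((fun y : X n => (2 : ℝ)⁻¹ • (x + y)) ⁻¹' C) :=
    hC.preimage (by fun_prop)
  dsimp only
  rw [← lintegral_indicator hmeas]
  refine le_trans (setLIntegral_le_lintegral _ _) (lintegral_mono ?_)
  intro y
  by_cases h : (2 : ℝ)⁻¹ • (x + y) ∈ C
  · simp only [if_pos h]
    rw [indicator_of_mem (by exact h)]
  · simp only [if_neg h, zero_mul]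
    exact zero_le

theorem pt {e : ℝ} (he : 0 < e) (s t : ℝ) :
    sq s ≤ ENNReal.ofReal (1 + e) * sq t + ENNReal.ofReal (1 + 1 / e) * sq (s - t) := by
  unfold sq
  rw [← ENNReal.ofReal_mul (by positivity), ← ENNReal.ofReal_mul (by positivity),
    ← ENNReal.ofReal_add (by positivity) (by positivity)]
  apply ENNReal.ofReal_le_ofReal
  have h1 : (1 + e) * t ^ 2 + (1 + 1 / e) * (s - t) ^ 2 - s ^ 2 = (e * t - (s - t)) ^ 2 / e := by
    field_simp
    ring
  have h2 : 0 ≤ (e * t - (s - t)) ^ 2 / e := by positivity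
  linarith

theorem arith {a e : ℝ} (he : 0 < e) (ha : 0 < a) (hae : (2 + e) * a < 1) {L E : ℝ≥0∞}
    (hL : L ≠ ∞)
    (h : L ≤ ENNReal.ofReal a * (ENNReal.ofReal (1 + e) * L) +
      ENNReal.ofReal a * (ENNReal.ofReal (1 + 1 / e) * E) + ENNReal.ofReal a * L) :
    L ≤ ENNReal.ofReal (1 + a * (1 + 1 / e) / (1 - (2 + e) * a)) * E := by
  have hp : 0 < 1 - (2 + e) * a := by linarith
  have hC : 0 < a * (1 + 1 / e) / (1 - (2 + e) * a) := by positivity
  by_cases hE : E = ∞
  · rw [hE, ENNReal.mul_top]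
    · exact le_top
    · rw [Ne, ENNReal.ofReal_eq_zero, not_le]
      linarith
  · lift L to ℝ≥0 using hL
    lift E to ℝ≥0 using hE
    rw [← ENNReal.ofReal_coe_nnreal (p := L), ← ENNReal.ofReal_coe_nnreal (p := E)] at h ⊢
    rw [← ENNReal.ofReal_mul (by positivity), ← ENNReal.ofReal_mul (by positivity),
      ← ENNReal.ofReal_mul (by positivity), ← ENNReal.ofReal_mul (by positivity),
      ← ENNReal.ofReal_mul (by positivity), ← ENNReal.ofReal_add (by positivity) (by positivity),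
      ← ENNReal.ofReal_add (by positivity) (by positivity),
      ENNReal.ofReal_le_ofReal_iff (by positivity)] at h
    rw [← ENNReal.ofReal_mul (by positivity)]
    apply ENNReal.ofReal_le_ofReal
    have h1 : (1 - (2 + e) * a) * (L : ℝ) ≤ a * (1 + 1 / e) * E := by nlinarith
    have h2 : (L : ℝ) ≤ a * (1 + 1 / e) / (1 - (2 + e) * a) * E := by
      rw [div_mul_eq_mul_div, le_div_iff₀ hp]
      linarith
    have h3 : (0 : ℝ) ≤ E := E.2
    nlinarith

end HAR_

open HAR_ in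
open scoped Classical in
theorem p_HAR : T_HAR := by
  intro n σ hOK
  obtain ⟨-, hσ, -⟩ := hOK
  have ha : (0 : ℝ) < 2 ^ (-(2 * σ)) := by positivity
  have ha2 : (2 : ℝ) ^ (-(2 * σ)) < 1 / 2 := by
    have : (2 : ℝ) ^ (-(2 * σ)) < 2 ^ (-1 : ℝ) :=
      Real.rpow_lt_rpow_of_exponent_lt (by norm_num) (by linarith)
    rw [Real.rpow_neg_one] at this
    linarith
  obtain ⟨a, haa⟩ : ∃ a : ℝ, a = (2 : ℝ) ^ (-(2 * σ)) := ⟨_, rfl⟩
  rw [← haa] at ha ha2
  obtain ⟨e, he, hae⟩ : ∃ e : ℝ, 0 < e ∧ (2 + e) * a < 1 := by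
    refine ⟨(1 - 2 * a) / (2 * a), by apply div_pos <;> linarith, ?_⟩
    have : (2 + (1 - 2 * a) / (2 * a)) * a = (1 + 2 * a) / 2 := by
      field_simp
      ring
    rw [this]
    linarith
  refine ⟨Real.toNNReal (1 + a * (1 + 1 / e) / (1 - (2 + e) * a)), ?_⟩
  intro B' Ω g hconv hB' hΩ hg hfin
  have hA : MeasurableSet (B' \ Ω) := hB'.diff hΩ
  have hD : MeasurableSet (B' ∩ Ω) := hB'.inter hΩ
  change _ ≤ ENNReal.ofReal _ * _
  obtain ⟨A, hAA⟩ : ∃ A, A = B' \ Ω := ⟨_, rfl⟩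
  obtain ⟨D, hDD⟩ : ∃ D, D = B' ∩ Ω := ⟨_, rfl⟩
  rw [← hAA] at hA
  rw [← hDD] at hD
  rw [← hAA, ← hDD] at hfin ⊢
  refine arith he ha hae hfin ?_
  rw [haa]
  have hmid : Measurable fun p : X n × X n => (2 : ℝ)⁻¹ • (p.1 + p.2) := by fun_prop
  -- the three terms
  have hm1 : Measurable (Function.uncurry fun x y : X n =>
      if (2 : ℝ)⁻¹ • (x + y) ∈ D then
        ENNReal.ofReal (1 + e) * sq (g ((2 : ℝ)⁻¹ • (x + y))) else 0) := by
    refine Measurable.ite (hD.preimage hmid) ?_ measurable_const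
    exact (measurable_sq.comp (hg.comp hmid)).const_mul _
  have hm2 : Measurable (Function.uncurry fun x y : X n =>
      if (2 : ℝ)⁻¹ • (x + y) ∈ D then
        ENNReal.ofReal (1 + 1 / e) * sq (g y - g ((2 : ℝ)⁻¹ • (x + y))) else 0) := by
    refine Measurable.ite (hD.preimage hmid) ?_ measurable_const
    exact (measurable_sq.comp ((hg.comp measurable_snd).sub (hg.comp hmid))).const_mul _
  have hm3 : Measurable (Function.uncurry fun x y : X n =>
      if (2 : ℝ)⁻¹ • (x + y) ∈ A then sq (g y) else 0) := by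
    refine Measurable.ite (hA.preimage hmid) ?_ measurable_const
    exact measurable_sq.comp (hg.comp measurable_snd)
  have hmg : Measurable (Function.uncurry fun _ y : X n => sq (g y)) :=
    measurable_sq.comp (hg.comp measurable_snd)
  have step : DI σ A D (fun _ y => sq (g y)) ≤
      DI σ A D (fun x y =>
        (if (2 : ℝ)⁻¹ • (x + y) ∈ D then
          ENNReal.ofReal (1 + e) * sq (g ((2 : ℝ)⁻¹ • (x + y))) else 0) +
        ((if (2 : ℝ)⁻¹ • (x + y) ∈ D then
          ENNReal.ofReal (1 + 1 / e) * sq (g y - g ((2 : ℝ)⁻¹ • (x + y))) else 0) +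
        (if (2 : ℝ)⁻¹ • (x + y) ∈ A then sq (g y) else 0))) := by
    apply DI_mono hA hD
    intro x hx y hy
    rw [hAA] at hx
    rw [hDD] at hy
    have hz : (2 : ℝ)⁻¹ • (x + y) ∈ B' := by
      rw [smul_add]
      exact hconv hx.1 hy.1 (by norm_num) (by norm_num) (by norm_num)
    by_cases h : (2 : ℝ)⁻¹ • (x + y) ∈ Ω
    · have h1 : (2 : ℝ)⁻¹ • (x + y) ∈ D := by
        rw [hDD]
        exact ⟨hz, h⟩
      have h2 : (2 : ℝ)⁻¹ • (x + y) ∉ A := by
        rw [hAA]
        exact fun hc => hc.2 h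
      rw [if_pos h1, if_pos h1, if_neg h2, add_zero]
      exact pt he _ _
    · have h1 : (2 : ℝ)⁻¹ • (x + y) ∉ D := by
        rw [hDD]
        exact fun hc => h hc.2
      have h2 : (2 : ℝ)⁻¹ • (x + y) ∈ A := by
        rw [hAA]
        exact ⟨hz, h⟩
      rw [if_neg h1, if_neg h1, if_pos h2, zero_add, zero_add]
  rw [DI_add hm1, DI_add hm2] at step
  refine step.trans ?_
  rw [add_assoc]
  refine add_le_add ?_ (add_le_add ?_ ?_)
  · refine (mid_le _ _ hD (fun _ z => ENNReal.ofReal (1 + e) * sq (g z))).trans ?_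
    rw [DI_const_mul ENNReal.ofReal_ne_top]
  · rw [DI_swap hm2]
    have h1 : (fun x y : X n => if (2 : ℝ)⁻¹ • (y + x) ∈ D then
        ENNReal.ofReal (1 + 1 / e) * sq (g x - g ((2 : ℝ)⁻¹ • (y + x))) else 0) =
        fun x y : X n => if (2 : ℝ)⁻¹ • (x + y) ∈ D then
        ENNReal.ofReal (1 + 1 / e) * sq (g x - g ((2 : ℝ)⁻¹ • (x + y))) else 0 := by
      funext x y
      rw [add_comm y x]
    rw [h1]
    refine (mid_le _ _ hD (fun y z => ENNReal.ofReal (1 + 1 / e) * sq (g y - g z))).trans ?_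
    rw [DI_const_mul ENNReal.ofReal_ne_top, En_eq]
  · rw [DI_swap hm3]
    have h1 : (fun x y : X n => if (2 : ℝ)⁻¹ • (y + x) ∈ A then sq (g x) else 0) =
        fun x y : X n => if (2 : ℝ)⁻¹ • (x + y) ∈ A then sq (g x) else 0 := by
      funext x y
      rw [add_comm y x]
    rw [h1]
    refine (mid_le _ _ hA (fun y _ => sq (g y))).trans ?_
    rw [DI_swap hmg]

end RFK
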