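import Pool.Agent.RFK.Targets

/-!
# MP_35334d_an: functions in `H` (HFI)
-/

set_option autoImplicit false

open MeasureTheory Filter Topology Metric Set
open scoped ENNReal NNReal

namespace RFK

namespace HFI_

variable {n : ℕ} {σ : ℝ}

/-- the inner integral for a bounded Lipschitz function -/
lemma inner_fin (hK : T_KCU) (h : OK n σ) {φ : X n → ℝ} {M L : ℝ} (hM : 0 < M) (hL : 0 < L)
    (hb : ∀ x, |φ x| ≤ M) (hl : ∀ x y, |φ x - φ y| ≤ L * ‖x - y‖) :
    ∃ C : ℝ≥0∞, C ≠ ∞ ∧ ∀ x, ∫⁻ y, sq (φ x - φ y) * K σ (x - y) ≤ C := by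
  obtain ⟨C, hC⟩ := hK n σ h
  set η : X n → ℝ := fun x => (φ x / M + 1) / 2 with hη
  have hd : 0 < 2 * M / L := by positivity
  have hdiff : ∀ x y, φ x - φ y = 2 * M * (η x - η y) := by
    intro x y
    simp only [hη]
    field_simp
    ring
  have hcut : Cut η (2 * M / L) := by
    refine ⟨hd, fun x => ?_, fun x y => ?_⟩
    · obtain ⟨h1, h2⟩ := abs_le.1 (hb x)
      have h3 : -1 ≤ φ x / M := by
        rw [le_div_iff₀ hM]
        linarith
      have h4 : φ x / M ≤ 1 := by
        rw [div_le_iff₀ hM]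
        linarith
      simp only [hη]
      constructor <;> linarith
    · have h1 := hl x y
      rw [hdiff x y, abs_mul, abs_of_pos (by positivity : (0 : ℝ) < 2 * M)] at h1
      rw [le_div_iff₀ hd]
      have h2 : |η x - η y| * (2 * M / L) = (2 * M * |η x - η y|) / L := by ring
      rw [h2, div_le_iff₀ hL]
      linarith
  refine ⟨sq (2 * M) * (C * ENNReal.ofReal ((2 * M / L) ^ (-(2 * σ)))), ?_, fun x => ?_⟩
  · exact ENNReal.mul_ne_top (sq_ne_top _) (ENNReal.mul_ne_top ENNReal.coe_ne_top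
      ENNReal.ofReal_ne_top)
  · have h1 : ∀ y, sq (φ x - φ y) * K σ (x - y) =
        sq (2 * M) * (sq (η x - η y) * K σ (x - y)) := by
      intro y
      rw [hdiff x y, sq_mul, mul_assoc]
    simp_rw [h1]
    rw [lintegral_const_mul' _ _ (sq_ne_top _)]
    gcongr
    exact hC η _ hcut x

/-- the energy of a function with compact support -/
lemma en_fin (hK : T_KCU) (h : OK n σ) {φ : X n → ℝ} (h1 : ContDiff ℝ 1 φ)
    (h2 : HasCompactSupport φ) : En σ univ φ ≠ ∞ := by
  have hmeas : Measurable φ := h1.continuous.measurable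
  obtain ⟨L, hL⟩ := ContDiff.lipschitzWith_of_hasCompactSupport h2 h1 one_ne_zero
  obtain ⟨M, hM⟩ := h2.exists_bound_of_continuous h1.continuous
  have hb : ∀ x, |φ x| ≤ max M 1 := fun x => by
    have := hM x
    rw [Real.norm_eq_abs] at this
    exact this.trans (le_max_left _ _)
  have hl : ∀ x y, |φ x - φ y| ≤ ((L : ℝ) + 1) * ‖x - y‖ := by
    intro x y
    have h3 := hL.dist_le_mul x y
    rw [Real.dist_eq, dist_eq_norm] at h3
    have h4 : 0 ≤ ‖x - y‖ := norm_nonneg _
    nlinarith
  obtain ⟨C, hC0, hC⟩ := inner_fin hK h (lt_of_lt_of_le one_pos (le_max_right M 1))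
    (by positivity : (0 : ℝ) < (L : ℝ) + 1) hb hl
  set S : Set (X n) := tsupport φ with hS
  have hSc : IsCompact S := h2
  have hSm : MeasurableSet S := hSc.measurableSet
  set G : X n → X n → ℝ≥0∞ := fun x y => sq (φ x - φ y) with hG
  have hGm : Measurable (Function.uncurry G) := measurable_dsq hmeas
  have hz : ∀ x, x ∉ S → φ x = 0 := fun x hx => image_eq_zero_of_notMem_tsupport hx
  have h5 : DI σ S univ G ≤ C * volume S := by
    unfold DI
    calc ∫⁻ x in S, ∫⁻ y in univ, G x y * K σ (x - y) ≤ ∫⁻ _ in S, C := by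
          apply lintegral_mono
          intro x
          simp only [Measure.restrict_univ]
          exact hC x
      _ = C * volume S := by rw [setLIntegral_const]
  have h6 : DI σ S univ G ≠ ∞ :=
    ne_top_of_le_ne_top (ENNReal.mul_ne_top hC0 hSc.measure_lt_top.ne) h5
  have h7 : DI σ Sᶜ S G ≤ DI σ S univ G := by
    rw [DI_swap hGm]
    have h8 : DI σ S Sᶜ (fun x y => G y x) = DI σ S Sᶜ G := by
      congr 1
      funext x y
      exact sq_sub_comm _ _
    rw [h8]
    exact DI_mono_set Subset.rfl (subset_univ _) _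
  have h9 : DI σ Sᶜ Sᶜ G = 0 := by
    have h10 : DI σ Sᶜ Sᶜ G = DI σ Sᶜ Sᶜ (fun _ _ => 0) := by
      apply DI_congr hSm.compl hSm.compl
      intro x hx y hy
      simp only [hG]
      rw [hz x hx, hz y hy, sub_zero, sq_zero]
    rw [h10]
    unfold DI
    simp
  have h11 : En σ univ φ = DI σ S univ G + (DI σ Sᶜ S G + DI σ Sᶜ Sᶜ G) := by
    rw [En_eq, ← DI_union_right hSm.compl disjoint_compl_right hGm, union_compl_self,
      ← DI_union_left hSm.compl disjoint_compl_right, union_compl_self]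
  rw [h11, h9, add_zero]
  exact ENNReal.add_ne_top.2 ⟨h6, ne_top_of_le_ne_top h6 h7⟩

end HFI_

open HFI_

theorem p_HFI (hK : T_KCU) : T_HFI := by
  rintro n σ h u ⟨φ, h1, h2, h3⟩
  refine ⟨?_, ?_⟩
  · exact aemeasurable_of_tendsto_metrizable_ae atTop
      (fun k => (h1 k).1.continuous.measurable.aemeasurable) h3
  · have h4 : ∀ᶠ k in atTop, En σ univ (fun x => φ k x - u x) < 1 :=
      h2.eventually (gt_mem_nhds one_pos)
    obtain ⟨k, hk⟩ := h4.exists
    have h5 : En σ univ (φ k) ≠ ∞ := en_fin hK h (h1 k).1 (h1 k).2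
    have hm : Measurable (Function.uncurry fun x y : X n => 2 * sq (φ k x - φ k y)) :=
      (measurable_dsq (h1 k).1.continuous.measurable).const_mul 2
    have h6 : En σ univ u ≤ 2 * En σ univ (φ k) + 2 * En σ univ (fun x => φ k x - u x) := by
      rw [En_eq, En_eq, En_eq, ← DI_const_mul (by norm_num), ← DI_const_mul (by norm_num),
        ← DI_add hm]
      apply DI_mono MeasurableSet.univ MeasurableSet.univ
      intro x _ y _
      have h7 : u x - u y = (φ k x - φ k y) + -((φ k x - u x) - (φ k y - u y)) := by ring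
      rw [h7]
      refine (sq_add_le _ _).trans ?_
      rw [sq_neg]
    refine ne_top_of_le_ne_top ?_ h6
    refine ENNReal.add_ne_top.2 ⟨ENNReal.mul_ne_top (by norm_num) h5,
      ENNReal.mul_ne_top (by norm_num) (hk.trans ENNReal.one_lt_top).ne⟩

end RFK
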