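import Pool.Agent.RFK.Targets

/-!
# MP_35334d_an, target ITR: decay of the oscillation (helper27)
-/

set_option autoImplicit false

open MeasureTheory Filter Topology Metric Set
open scoped ENNReal NNReal

namespace RFK

namespace ITR_

variable {n : ℕ} {σ : ℝ}

theorem ae_aff {P : X n → Prop} (h : ∀ᵐ y, P y) (x₀ : X n) {R : ℝ} (hR : 0 < R) :
    ∀ᵐ x, P (x₀ + R • x) := by
  rw [ae_iff] at h ⊢
  have h1 := lintegral_aff hR x₀ {y | ¬ P y} (fun _ => 1)
  rw [setLIntegral_one, setLIntegral_one, h] at h1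
  have h2 : ENNReal.ofReal (R ^ (n : ℝ)) ≠ 0 := by
    rw [Ne, ENNReal.ofReal_eq_zero, not_le]
    positivity
  have h3 := h1.symm
  rw [mul_eq_zero] at h3
  rcases h3 with h3 | h3
  · exact absurd h3 h2
  · exact h3

theorem SubC_mono {Ω : Set (X n)} {f : X n → ℝ} {Λ Λ' : ℝ} (h : SubC σ Ω f Λ) (hΛ : Λ ≤ Λ') :
    SubC σ Ω f Λ' := by
  intro k r' r hk hr' hrr hr
  refine (h k r' r hk hr' hrr hr).trans ?_
  gcongr

/-- the state of the induction -/
def Good (u : X n → ℝ) (x₀ : X n) (R M θ : ℝ) (j : ℕ) (a : ℕ → ℝ) : Prop :=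
  a 0 = 0 ∧ (∀ i, i < j → a i ≤ a (i + 1) ∧
    a (i + 1) + M * (1 - θ) ^ (i + 1) ≤ a i + M * (1 - θ) ^ i) ∧
  ∀ i, i ≤ j → ∀ᵐ x, x ∈ ball x₀ (4 * (R / 4 ^ i)) → a i ≤ u x ∧ u x ≤ a i + M * (1 - θ) ^ i

theorem Good.nest {u : X n → ℝ} {x₀ : X n} {R M θ : ℝ} {j : ℕ} {a : ℕ → ℝ}
    (h : Good u x₀ R M θ j a) : ∀ (l i : ℕ), i + l ≤ j → a i ≤ a (i + l) ∧
    a (i + l) + M * (1 - θ) ^ (i + l) ≤ a i + M * (1 - θ) ^ i := by
  intro l
  induction l with
  | zero =>
    intro i _
    exact ⟨le_rfl, le_rfl⟩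
  | succ l ih =>
    intro i hi
    have h1 := ih i (by omega)
    have h2 := h.2.1 (i + l) (by omega)
    rw [← add_assoc]
    exact ⟨h1.1.trans h2.1, h2.2.trans h1.2⟩

end ITR_

open ITR_ in
theorem p_ITR (hSTB : T_STB) (hSTI : T_STI) (h1 : T_SC1) (h2 : T_SC2) (h3 : T_SC3) (h4 : T_SC4)
    (hB : T_BDD) : T_ITR := by
  intro n σ ok u L hu
  obtain ⟨C₀, hC₀, H3⟩ := h3 n σ ok
  obtain ⟨θB, δB, hθB, hθB4, hδB, hδB1, HB⟩ := hSTB n σ ok C₀ hC₀.le
  obtain ⟨θI, δI, hθI, hθI4, hδI, hδI1, HI⟩ := hSTI n σ ok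
  obtain ⟨Mg, hMg, hbd⟩ := hB n σ ok u L hu
  have hσ : 1 / 2 < σ := ok.2.1
  set θ : ℝ := min θB θI with hθdef
  set δ : ℝ := min δB δI with hδdef
  have hθ : 0 < θ := lt_min hθB hθI
  have hθB' : θ ≤ θB := min_le_left _ _
  have hθI' : θ ≤ θI := min_le_right _ _
  have hθ4 : θ ≤ 1 / 4 := hθB'.trans hθB4
  have hδ : 0 < δ := lt_min hδB hδI
  have hδB' : δ ≤ δB := min_le_left _ _
  have hδI' : δ ≤ δI := min_le_right _ _
  set M : ℝ := max Mg 1 with hMdef
  have hM1 : 1 ≤ M := le_max_right _ _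
  have hM0 : 0 < M := by linarith
  have hbd' : ∀ᵐ x, u x ≤ M := by
    filter_upwards [hbd] with x hx using hx.trans (le_max_left _ _)
  have hL0 := hu.L0
  -- the first radius
  obtain ⟨R, hR0, hR1, hRL⟩ : ∃ R : ℝ, 0 < R ∧ R ≤ 1 ∧ L * R ^ (2 * σ) ≤ δ := by
    refine ⟨min 1 ((δ / (L + 1)) ^ (1 / (2 * σ))), lt_min one_pos (by positivity),
      min_le_left _ _, ?_⟩
    have e1 : (min 1 ((δ / (L + 1)) ^ (1 / (2 * σ)))) ^ (2 * σ) ≤ δ / (L + 1) := by
      calc (min 1 ((δ / (L + 1)) ^ (1 / (2 * σ)))) ^ (2 * σ)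
          ≤ ((δ / (L + 1)) ^ (1 / (2 * σ))) ^ (2 * σ) :=
            Real.rpow_le_rpow (by positivity) (min_le_right _ _) (by linarith)
        _ = δ / (L + 1) := by
            rw [← Real.rpow_mul (by positivity), one_div_mul_cancel (by linarith), Real.rpow_one]
    calc L * (min 1 ((δ / (L + 1)) ^ (1 / (2 * σ)))) ^ (2 * σ) ≤ L * (δ / (L + 1)) := by gcongr
      _ = δ * (L / (L + 1)) := by ring
      _ ≤ δ * 1 := by
          gcongr
          rw [div_le_one (by linarith)]
          linarith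
      _ = δ := mul_one δ
  have h1θ : 0 < 1 - θ := by linarith
  have h1θ1 : 1 - θ ≤ 1 := by linarith
  refine ⟨θ, 4 * R, M, hθ, hθ4, by positivity, hM0, hbd', ?_⟩
  intro x₀
  have hMj : ∀ j : ℕ, 0 < M * (1 - θ) ^ j := fun j => by positivity
  -- the step
  have step : ∀ (j : ℕ) (a : ℕ → ℝ), Good u x₀ R M θ j a → ∃ b : ℝ, a j ≤ b ∧
      b + M * (1 - θ) ^ (j + 1) ≤ a j + M * (1 - θ) ^ j ∧
      ∀ᵐ x, x ∈ ball x₀ (4 * (R / 4 ^ (j + 1))) → b ≤ u x ∧ u x ≤ b + M * (1 - θ) ^ (j + 1) := by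
    intro j a hG
    set Rj : ℝ := R / 4 ^ j with hRj
    set Mj : ℝ := M * (1 - θ) ^ j with hMjdef
    have hRj0 : 0 < Rj := by positivity
    have hMj0 : 0 < Mj := hMj j
    have haj : 0 ≤ a j := by
      have := (hG.nest j 0 (by omega)).1
      rw [hG.1, zero_add] at this
      exact this
    have hRj1 : Rj ≤ 1 := by
      rw [hRj]
      apply (div_le_self hR0.le _).trans hR1
      exact one_le_pow₀ (by norm_num)
    -- powers
    have h4σ : (4 : ℝ) ^ (-(2 * σ)) ≤ 1 / 4 := by
      calc (4 : ℝ) ^ (-(2 * σ)) ≤ 4 ^ (-1 : ℝ) := by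
            apply Real.rpow_le_rpow_of_exponent_le (by norm_num)
            linarith
        _ = 1 / 4 := by
            rw [Real.rpow_neg_one]
            norm_num
    have hRjσ : Rj ^ (2 * σ) = R ^ (2 * σ) * ((4 : ℝ) ^ (-(2 * σ))) ^ j := by
      rw [hRj, Real.div_rpow hR0.le (by positivity), div_eq_mul_inv,
        ← Real.rpow_natCast, ← Real.rpow_natCast, ← Real.rpow_mul (by norm_num),
        ← Real.rpow_mul (by norm_num), ← Real.rpow_neg (by norm_num)]
      congr 2
      ring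
    have hΛ : L * Rj ^ (2 * σ) * M / Mj ≤ δ := by
      rw [hRjσ, hMjdef]
      have e1 : L * (R ^ (2 * σ) * ((4 : ℝ) ^ (-(2 * σ))) ^ j) * M / (M * (1 - θ) ^ j) =
          (L * R ^ (2 * σ)) * (((4 : ℝ) ^ (-(2 * σ))) / (1 - θ)) ^ j := by
        rw [div_pow]
        field_simp
      rw [e1]
      have e2 : (((4 : ℝ) ^ (-(2 * σ))) / (1 - θ)) ^ j ≤ 1 := by
        apply pow_le_one₀ (by positivity)
        rw [div_le_one h1θ]
        linarith
      calc (L * R ^ (2 * σ)) * (((4 : ℝ) ^ (-(2 * σ))) / (1 - θ)) ^ j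
          ≤ (L * R ^ (2 * σ)) * 1 := by gcongr
        _ ≤ δ := by rw [mul_one]; exact hRL
    have hRM : Rj ^ (2 * σ) ≤ Mj ^ 2 := by
      rw [hRjσ, hMjdef, mul_pow, ← pow_mul, mul_comm j 2, pow_mul]
      have e1 : R ^ (2 * σ) ≤ 1 := Real.rpow_le_one hR0.le hR1 (by linarith)
      have e2 : (1 : ℝ) ≤ M ^ 2 := one_le_pow₀ hM1
      have e3 : (4 : ℝ) ^ (-(2 * σ)) ≤ (1 - θ) ^ 2 := by nlinarith
      have e4 : ((4 : ℝ) ^ (-(2 * σ))) ^ j ≤ ((1 - θ) ^ 2) ^ j :=
        pow_le_pow_left₀ (by positivity) e3 j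
      calc R ^ (2 * σ) * ((4 : ℝ) ^ (-(2 * σ))) ^ j ≤ 1 * ((1 - θ) ^ 2) ^ j := by gcongr
        _ ≤ M ^ 2 * ((1 - θ) ^ 2) ^ j := by gcongr
    -- the scaled function
    set f : X n → ℝ := fun x => (u (x₀ + Rj • x) - a j) / Mj with hf
    set Ω : Set (X n) := {x | 0 < u (x₀ + Rj • x)} with hΩ
    have hfa : ∀ x, f x + a j / Mj = u (x₀ + Rj • x) / Mj := by
      intro x
      rw [hf]
      ring
    have hmem : ∀ (l : ℕ), l ≤ j → ∀ x : X n, x ∈ (B (4 ^ (l + 1)) : Set (X n)) →
        x₀ + Rj • x ∈ ball x₀ (4 * (R / 4 ^ (j - l))) := by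
      intro l hl x hx
      rw [mem_ball_zero_iff] at hx
      rw [mem_ball, dist_eq_norm, add_sub_cancel_left, norm_smul, Real.norm_eq_abs,
        abs_of_pos hRj0]
      have e1 : 4 * (R / 4 ^ (j - l)) = Rj * 4 ^ (l + 1) := by
        rw [hRj]
        have e2 : (4 : ℝ) ^ j = 4 ^ (j - l) * 4 ^ l := by rw [← pow_add, Nat.sub_add_cancel hl]
        rw [e2, pow_succ]
        field_simp
      rw [e1]
      exact mul_lt_mul_of_pos_left hx hRj0
    have hpow : ∀ l : ℕ, l ≤ j → M * (1 - θ) ^ (j - l) = Mj * ((1 - θ) ^ l)⁻¹ := by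
      intro l hl
      rw [hMjdef]
      have e2 : (1 - θ) ^ j = (1 - θ) ^ (j - l) * (1 - θ) ^ l := by
        rw [← pow_add, Nat.sub_add_cancel hl]
      rw [e2]
      field_simp
    have hpow2 : ∀ l : ℕ, j ≤ l → M ≤ Mj * ((1 - θ) ^ l)⁻¹ := by
      intro l hl
      rw [hMjdef, ← div_eq_mul_inv, le_div_iff₀ (by positivity)]
      have := pow_le_pow_of_le_one h1θ.le h1θ1 hl
      gcongr
    have hcfg : Cfg σ θ δ C₀ Ω f (a j / Mj) := by
      refine ⟨?_, by positivity, ?_, ?_, ?_, ?_, ?_, ?_, ?_, ?_⟩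
      · exact ((hu.meas.comp (by fun_prop)).sub_const _).div_const _
      · intro x
        rw [hfa]
        exact div_nonneg (hu.nonneg _) hMj0.le
      · ext x
        simp only [hΩ, Set.mem_ofPred_eq, hfa]
        constructor
        · intro hx
          exact div_pos hx hMj0
        · intro hx
          by_contra hc
          have h0 : u (x₀ + Rj • x) = 0 := le_antisymm (not_lt.mp hc) (hu.nonneg _)
          rw [h0, zero_div] at hx
          exact lt_irrefl _ hx
      · exact h4 n σ ok u hu.meas hu.fin x₀ Rj Mj (a j) hRj0 hMj0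
      · intro l
        rcases le_or_gt l j with hl | hl
        · have hae := ae_aff (hG.2.2 (j - l) (by omega)) x₀ hRj0
          filter_upwards [hae] with x hx hxB
          have e1 := (hx (hmem l hl x hxB)).2
          have e2 := (hG.nest l (j - l) (by omega)).1
          rw [Nat.sub_add_cancel hl] at e2
          rw [hpow l hl] at e1
          rw [hf]
          show (u (x₀ + Rj • x) - a j) / Mj ≤ _
          rw [div_le_iff₀ hMj0]
          linarith
        · have hae := ae_aff hbd' x₀ hRj0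
          filter_upwards [hae] with x hx hxB
          have e1 := hpow2 l hl.le
          show (u (x₀ + Rj • x) - a j) / Mj ≤ _
          rw [div_le_iff₀ hMj0]
          linarith
      · intro l
        rcases le_or_gt l j with hl | hl
        · have hae := ae_aff (hG.2.2 (j - l) (by omega)) x₀ hRj0
          filter_upwards [hae] with x hx hxB
          have e1 := (hx (hmem l hl x hxB)).1
          have e2 := (hG.nest l (j - l) (by omega)).2
          rw [Nat.sub_add_cancel hl, hpow l hl] at e2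
          show 1 - (u (x₀ + Rj • x) - a j) / Mj ≤ _
          have e3 : 1 - (u (x₀ + Rj • x) - a j) / Mj = (Mj - (u (x₀ + Rj • x) - a j)) / Mj := by
            field_simp
          rw [e3, div_le_iff₀ hMj0]
          linarith
        · have h0 := (hG.nest j 0 (by omega)).2
          rw [hG.1, zero_add, zero_add, pow_zero, mul_one] at h0
          filter_upwards with x
          intro _
          have e1 := hpow2 l hl.le
          have e2 := hu.nonneg (x₀ + Rj • x)
          show 1 - (u (x₀ + Rj • x) - a j) / Mj ≤ _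
          have e3 : 1 - (u (x₀ + Rj • x) - a j) / Mj = (Mj - (u (x₀ + Rj • x) - a j)) / Mj := by
            field_simp
          rw [e3, div_le_iff₀ hMj0]
          linarith
      · exact SubC_mono (h1 n σ ok u L M hu hM0 hbd' x₀ Rj Mj (a j) hRj0 hMj0 haj) hΛ
      · intro hvol
        exact SubC_mono (h2 n σ ok u L hu x₀ Rj Mj (a j) hRj0 hMj0 haj hvol) hδ.le
      · intro ha0
        have ha0' : a j = 0 := by
          rw [div_eq_zero_iff] at ha0
          rcases ha0 with h | h
          · exact h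
          · exact absurd h hMj0.ne'
        have := H3 u L hu x₀ Rj Mj hRj0 hRj1 hMj0 hRM
        rw [hf, ha0']
        simpa using this
    have hdich : (∀ᵐ x, x ∈ (B 1 : Set (X n)) → f x ≤ 1 - θ) ∨
        ∀ᵐ x, x ∈ (B 1 : Set (X n)) → θ ≤ f x := by
      rcases haj.eq_or_lt with ha | ha
      · apply HB θ δ hθ hθB' hδ.le hδB' Ω f
        have : a j / Mj = 0 := by rw [← ha, zero_div]
        rwa [this] at hcfg
      · exact HI θ δ C₀ (a j / Mj) hθ hθI' hδ.le hδI' (by positivity) Ω f hcfg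
    -- back to the original scale
    have hback : ∀ P : X n → Prop, (∀ᵐ x, x ∈ (B 1 : Set (X n)) → P (x₀ + Rj • x)) →
        ∀ᵐ y, y ∈ ball x₀ (4 * (R / 4 ^ (j + 1))) → P y := by
      intro P hP
      have hae := ae_aff hP (-(Rj⁻¹ • x₀)) (inv_pos.mpr hRj0)
      filter_upwards [hae] with y hy hyB
      have e1 : x₀ + Rj • (-(Rj⁻¹ • x₀) + Rj⁻¹ • y) = y := by
        rw [smul_add, smul_neg, smul_smul, smul_smul, mul_inv_cancel₀ hRj0.ne', one_smul, one_smul]
        abel
      rw [e1] at hy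
      apply hy
      rw [mem_ball_zero_iff]
      have e2 : -(Rj⁻¹ • x₀) + Rj⁻¹ • y = Rj⁻¹ • (y - x₀) := by
        rw [smul_sub]
        abel
      rw [e2, norm_smul, norm_inv, Real.norm_eq_abs, abs_of_pos hRj0]
      rw [mem_ball, dist_eq_norm] at hyB
      have e3 : 4 * (R / 4 ^ (j + 1)) = Rj := by
        rw [hRj, pow_succ]
        field_simp
      rw [e3] at hyB
      rw [inv_mul_lt_iff₀ hRj0, mul_one]
      exact hyB
    have hball : ∀ᵐ x, x ∈ ball x₀ (4 * (R / 4 ^ (j + 1))) → a j ≤ u x ∧ u x ≤ a j + Mj := by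
      have h0 := hG.2.2 j le_rfl
      filter_upwards [h0] with x hx hxB
      apply hx
      apply ball_subset_ball _ hxB
      have : R / 4 ^ (j + 1) ≤ R / 4 ^ j := by
        apply div_le_div_of_nonneg_left hR0.le (by positivity)
        exact pow_le_pow_right₀ (by norm_num) (by omega)
      linarith
    have hsucc : M * (1 - θ) ^ (j + 1) = Mj * (1 - θ) := by
      rw [hMjdef, pow_succ]
      ring
    rcases hdich with hd | hd
    · refine ⟨a j, le_rfl, ?_, ?_⟩
      · rw [hsucc]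
        nlinarith
      · have := hback (fun y => (u y - a j) / Mj ≤ 1 - θ) hd
        filter_upwards [this, hball] with y hy hy2 hyB
        refine ⟨(hy2 hyB).1, ?_⟩
        have e1 := hy hyB
        rw [div_le_iff₀ hMj0] at e1
        rw [hsucc]
        linarith
    · refine ⟨a j + θ * Mj, ?_, ?_, ?_⟩
      · have : 0 < θ * Mj := by positivity
        linarith
      · rw [hsucc]
        linarith
      · have := hback (fun y => θ ≤ (u y - a j) / Mj) hd
        filter_upwards [this, hball] with y hy hy2 hyB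
        have e1 := hy hyB
        rw [le_div_iff₀ hMj0] at e1
        rw [hsucc]
        constructor
        · linarith
        · have := (hy2 hyB).2
          linarith
  -- the induction
  have main : ∀ j : ℕ, ∃ a : ℕ → ℝ, Good u x₀ R M θ j a := by
    intro j
    induction j with
    | zero =>
      refine ⟨fun _ => 0, rfl, fun i hi => absurd hi (Nat.not_lt_zero i), ?_⟩
      intro i hi
      have : i = 0 := by omega
      subst this
      filter_upwards [hbd'] with x hx _
      refine ⟨hu.nonneg x, ?_⟩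
      rw [pow_zero, mul_one, zero_add]
      exact hx
    | succ j ih =>
      obtain ⟨a, hG⟩ := ih
      obtain ⟨b, hb1, hb2, hb3⟩ := step j a hG
      refine ⟨fun i => if i ≤ j then a i else b, ?_, ?_, ?_⟩
      · simp [hG.1]
      · intro i hi
        rcases Nat.lt_succ_iff_lt_or_eq.mp hi with hi' | hi'
        · have e1 : i ≤ j := by omega
          have e2 : i + 1 ≤ j := by omega
          simp only [e1, e2, if_true]
          exact hG.2.1 i hi'
        · subst hi'
          have e2 : ¬ (i + 1 ≤ i) := by omega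
          simp only [le_refl, e2, if_true, if_false]
          exact ⟨hb1, hb2⟩
      · intro i hi
        rcases Nat.lt_succ_iff_lt_or_eq.mp (Nat.lt_succ_of_le hi) with hi' | hi'
        · have e1 : i ≤ j := by omega
          simp only [e1, if_true]
          exact hG.2.2 i e1
        · subst hi'
          have e2 : ¬ (j + 1 ≤ j) := by omega
          simp only [e2, if_false]
          exact hb3
  intro j
  obtain ⟨a, hG⟩ := main j
  refine ⟨a j, ?_⟩
  have := hG.2.2 j le_rfl
  have e1 : 4 * R / 4 ^ j = 4 * (R / 4 ^ j) := by ring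
  rw [e1]
  exact this

end RFK
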