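import Pool.Agent.RFK.Targets

/-!
# MP_35334d_an: target JFI, an admissible function with finite `J`
-/

set_option autoImplicit false

open MeasureTheory Filter Topology Metric Set
open scoped ENNReal NNReal

namespace RFK

namespace JFI_

variable {n : ℕ}

/-- the bump function -/
noncomputable def bmp (n : ℕ) : ContDiffBump (0 : X n) := ⟨1, 2, one_pos, one_lt_two⟩

theorem En_zero (σ : ℝ) : En σ univ (fun _ : X n => (0 : ℝ)) = 0 := by
  simp [En]

theorem inH (σ : ℝ) : InH σ (bmp n : X n → ℝ) := by
  refine ⟨fun _ => (bmp n : X n → ℝ), fun _ => ⟨(bmp n).contDiff, (bmp n).hasCompactSupport⟩, ?_,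
    Filter.Eventually.of_forall fun x => tendsto_const_nhds⟩
  have h1 : (fun _ : ℕ => En σ univ (fun x : X n => (bmp n) x - (bmp n) x)) = fun _ => 0 := by
    funext k
    have h2 : (fun x : X n => (bmp n) x - (bmp n) x) = fun _ => (0 : ℝ) := by
      funext x
      exact sub_self _
    rw [h2, En_zero]
  rw [h1]
  exact tendsto_const_nhds

theorem one_on {x : X n} (hx : x ∈ ball (0 : X n) 1) : (bmp n) x = 1 :=
  (bmp n).one_of_mem_closedBall (ball_subset_closedBall hx)

theorem vol_ball : 0 < volume (ball (0 : X n) 1) := measure_ball_pos volume 0 one_pos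

end JFI_

open JFI_

theorem p_JFI (h : T_HFI) : T_JFI := by
  intro n σ hσ
  obtain ⟨-, hE⟩ := h n σ hσ (bmp n) (inH σ)
  refine ⟨bmp n, ⟨inH σ, Filter.Eventually.of_forall fun x => (bmp n).nonneg, ?_⟩, ?_⟩
  · intro h0
    have h1 : volume (ball (0 : X n) 1) ≤ volume {x : X n | ¬ (bmp n) x = 0} := by
      refine measure_mono fun x hx => ?_
      change ¬ (bmp n) x = 0
      rw [one_on hx]
      exact one_ne_zero
    rw [ae_iff] at h0
    exact (vol_ball.trans_le h1).ne' h0
  · unfold J
    refine ENNReal.add_ne_top.2 ⟨ENNReal.div_ne_top ?_ ?_, ?_⟩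
    · exact ne_top_of_le_ne_top hE (En_mono (subset_univ _) _)
    · have h1 : volume (ball (0 : X n) 1) ≤ ∫⁻ x : X n, ENNReal.ofReal ((bmp n) x ^ 2) := by
        calc volume (ball (0 : X n) 1) = ∫⁻ _ in ball (0 : X n) 1, 1 := by simp
          _ = ∫⁻ x in ball (0 : X n) 1, ENNReal.ofReal ((bmp n) x ^ 2) := by
              refine setLIntegral_congr_fun measurableSet_ball fun x hx => ?_
              rw [one_on hx]
              simp
          _ ≤ _ := setLIntegral_le_lintegral _ _
      exact (vol_ball.trans_le h1).ne'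
    · have h1 : {x : X n | 0 < (bmp n) x} ⊆ ball (0 : X n) 2 := by
        intro x hx
        have h2 : x ∈ Function.support (bmp n) := (ne_of_gt hx)
        rw [(bmp n).support_eq] at h2
        exact h2
      exact ne_top_of_le_ne_top measure_ball_lt_top.ne (measure_mono h1)

end RFK
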