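import Pool.Agent.RFK.Targets

/-!
# MP_35334d_an, KCU: energy density of a cut-off function (helper81, for helper27)
-/

set_option autoImplicit false

open MeasureTheory Filter Topology Metric Set
open scoped ENNReal NNReal

namespace RFK

namespace KCU_

variable {n : ℕ} {σ : ℝ}

/-- `∫_{|z| < 1} |z|² K(z) dz < ∞` -/
theorem fin (h : OK n σ) : ∫⁻ z in ball (0 : X n) 1, sq ‖z‖ * K σ z ≠ ∞ := by
  obtain ⟨hn, hσ, hσ1⟩ := h
  have hnt : Nontrivial (X n) := by
    have : 0 < Module.finrank ℝ (X n) := by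
      rw [finrank_euclideanSpace_fin]
      omega
    exact Module.nontrivial_of_finrank_pos this
  have hi : IntegrableOn (fun z : X n => (fun t : ℝ => t ^ 2 * (t ^ ((n : ℝ) + 2 * σ))⁻¹) ‖z‖)
      (ball (0 : X n) 1) volume := by
    refine (integrableOn_fun_norm_addHaar (volume : Measure (X n))
      (f := fun t : ℝ => t ^ 2 * (t ^ ((n : ℝ) + 2 * σ))⁻¹) (r := 1)).mpr ?_
    rw [finrank_euclideanSpace_fin]
    have h1 : IntegrableOn (fun t : ℝ => t ^ (1 - 2 * σ)) (Ioo 0 1) volume := by
      rw [intervalIntegral.integrableOn_Ioo_rpow_iff one_pos]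
      linarith
    refine h1.congr_fun (fun t ht => ?_) measurableSet_Ioo
    have ht0 : 0 < t := ht.1
    simp only [smul_eq_mul]
    rw [← Real.rpow_natCast t (n - 1), ← Real.rpow_natCast t 2, ← Real.rpow_neg ht0.le,
      ← Real.rpow_add ht0, ← Real.rpow_add ht0]
    congr 1
    rw [Nat.cast_sub (by omega)]
    push_cast
    ring
  have h2 := hi.lintegral_lt_top
  refine ne_top_of_le_ne_top h2.ne (le_of_eq ?_)
  refine lintegral_congr (fun z => ?_)
  unfold sq K
  rw [← ENNReal.ofReal_mul (by positivity)]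

end KCU_

theorem p_KCU (hT : T_KTL) : T_KCU := by
  intro n σ hOK
  obtain ⟨C, hC⟩ := hT n σ hOK
  have hfin := KCU_.fin hOK
  obtain ⟨hn, hσ, hσ1⟩ := hOK
  refine ⟨(∫⁻ z in ball (0 : X n) 1, sq ‖z‖ * K σ z).toNNReal + C, ?_⟩
  rintro η d ⟨hd, h01, hlip⟩ x
  rw [← lintegral_add_compl _ (measurableSet_ball (x := x) (ε := d))]
  rw [ENNReal.coe_add, add_mul, ENNReal.coe_toNNReal hfin]
  refine add_le_add ?_ ?_
  · have h1 : ∫⁻ y in ball x d, sq (η x - η y) * K σ (x - y) ≤
        ∫⁻ y in ball x d, sq (‖x - y‖ / d) * K σ (x - y) := by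
      refine lintegral_mono (fun y => ?_)
      refine mul_le_mul_left ?_ _
      exact sq_le ((hlip x y).trans (le_abs_self _))
    refine h1.trans (le_of_eq ?_)
    rw [lintegral_aff hd x]
    have hpre : (fun y : X n => x + d • y) ⁻¹' ball x d = ball (0 : X n) 1 := by
      ext y
      simp only [mem_preimage, mem_ball, dist_eq_norm, add_sub_cancel_left, sub_zero, norm_smul,
        Real.norm_eq_abs, abs_of_pos hd]
      constructor
      · intro h
        by_contra hc
        push Not at hc
        nlinarith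
      · intro h
        nlinarith
    rw [hpre]
    have hK : ∀ y : X n, sq (‖x - (x + d • y)‖ / d) * K σ (x - (x + d • y)) =
        ENNReal.ofReal (d ^ (-((n : ℝ) + 2 * σ))) * (sq ‖y‖ * K σ y) := by
      intro y
      rw [show x - (x + d • y) = -(d • y) by abel, K_neg, K_smul hd, norm_neg, norm_smul,
        Real.norm_eq_abs, abs_of_pos hd, mul_div_cancel_left₀ _ hd.ne']
      ring
    simp_rw [hK]
    rw [lintegral_const_mul' _ _ ENNReal.ofReal_ne_top, ← mul_assoc,
      ← ENNReal.ofReal_mul (by positivity), ← Real.rpow_add hd, mul_comm]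
    congr 3
    ring
  · refine le_trans ?_ (hC d hd x)
    refine lintegral_mono (fun y => ?_)
    have h1 : sq (η x - η y) ≤ 1 := by
      unfold sq
      rw [ENNReal.ofReal_le_one]
      have hx := h01 x
      have hy := h01 y
      nlinarith [hx.1, hx.2, hy.1, hy.2]
    calc sq (η x - η y) * K σ (x - y) ≤ 1 * K σ (x - y) := mul_le_mul_left h1 _
      _ = K σ (x - y) := one_mul _

end RFK
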