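import Pool.Agent.RFK.Targets

set_option autoImplicit false

open MeasureTheory Filter Topology Metric Set
open scoped ENNReal NNReal

namespace RFK

namespace LOW_

variable {n : ℕ}

/-- the levels -/
noncomputable def kk (ϑ : ℝ) (j : ℕ) : ℝ := 1 - ϑ + ϑ * (1 / 2) ^ (j + 1)

/-- the radii -/
noncomputable def rr (j : ℕ) : ℝ := 1 + (1 / 2) ^ j

/-- the sets -/
def DD (ϑ : ℝ) (f : X n → ℝ) (j : ℕ) : Set (X n) := B (rr j) ∩ {x | f x < kk ϑ j}

theorem vol_DD_ne_top (ϑ : ℝ) (f : X n → ℝ) (j : ℕ) : volume (DD ϑ f j) ≠ ∞ :=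
  ne_top_of_le_ne_top (measure_ball_lt_top (x := (0 : X n)) (r := rr j)).ne
    (measure_mono inter_subset_left)

theorem step (σ : ℝ) (h : OK n σ) (h3 : T_LW3) (hP : T_POI) : ∃ ϑ C : ℝ, 0 < ϑ ∧ ϑ ≤ 1 / 2 ∧
    0 < C ∧ ∀ (f : X n → ℝ) (C₀ CT : ℝ), LowC σ f C₀ CT → ∀ j : ℕ,
    (volume (DD ϑ f (j + 1))).toReal ≤
      (C * (4 + CT + C₀) * 16 / ϑ ^ 2 + 1) * 16 ^ j *
        (volume (DD ϑ f j)).toReal ^ (1 + 2 * σ / n) := by
  obtain ⟨ϑ, C, h0, h1, hC, H⟩ := h3 n σ h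
  obtain ⟨C', H'⟩ := hP n σ h
  refine ⟨ϑ, C' * C + 1, h0, h1, by positivity, ?_⟩
  intro f C₀ CT hf j
  obtain ⟨hn, hs, hs'⟩ := h
  have hn0 : (0 : ℝ) < n := by positivity
  have hp : (0 : ℝ) < (1 / 2) ^ j := by positivity
  have hp1 : ((1 : ℝ) / 2) ^ j ≤ 1 := pow_le_one₀ (by norm_num) (by norm_num)
  have e1 : ((1 : ℝ) / 2) ^ (j + 1) = (1 / 2) ^ j / 2 := by rw [pow_succ]; ring
  have e2 : ((1 : ℝ) / 2) ^ (j + 1 + 1) = (1 / 2) ^ j / 4 := by rw [pow_succ, pow_succ]; ring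
  have hk0 : 1 - ϑ ≤ kk ϑ j := by unfold kk; have := mul_pos h0 hp; rw [e1]; nlinarith
  have hk1 : kk ϑ j ≤ 1 := by unfold kk; rw [e1]; nlinarith
  have hkk : kk ϑ j - kk ϑ (j + 1) = ϑ * ((1 / 2) ^ j / 4) := by
    unfold kk; rw [e2, e1]; ring
  have hr1 : (1 : ℝ) ≤ rr (j + 1) := by unfold rr; rw [e1]; linarith
  have hr2 : rr (j + 1) < rr j := by unfold rr; rw [e1]; linarith
  have hr3 : rr j ≤ 2 := by unfold rr; linarith
  obtain ⟨r', r, ha, hb, hc, hE⟩ := H f C₀ CT hf (kk ϑ j) (rr (j + 1)) (rr j) hk0 hk1 hr1 hr2 hr3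
  set w : X n → ℝ := fun x => pos (kk ϑ j * cut r' r x - f x) with hw
  have hmw : Measurable w := measurable_pos.comp
    (((measurable_cut r' r).const_mul _).sub hf.meas)
  have hmD : ∀ i, MeasurableSet (DD ϑ f i) := fun i =>
    measurableSet_ball.inter (measurableSet_lt hf.meas measurable_const)
  have hz : ∀ x, x ∉ DD ϑ f j → w x = 0 := by
    intro x hx
    apply pos_of_nonpos
    have hc0 := cut_nonneg r' r x
    have hc1 := cut_le_one r' r x
    have hfx := hf.nonneg x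
    by_cases hxr : ‖x‖ < rr j
    · have : ¬ f x < kk ϑ j := fun h => hx ⟨mem_ball_zero_iff.2 hxr, h⟩
      have hk : 0 ≤ kk ϑ j := by linarith
      nlinarith
    · rw [cut_eq_zero hb (hc.trans (not_lt.1 hxr))]
      linarith
  have hPoi := H' (DD ϑ f j) w (hmD j) (vol_DD_ne_top ϑ f j) hmw hz
  -- lower bound
  have hlow : ENNReal.ofReal ((ϑ * ((1 / 2) ^ j / 4)) ^ 2) * volume (DD ϑ f (j + 1)) ≤
      ∫⁻ x, sq (w x) := by
    calc ENNReal.ofReal ((ϑ * ((1 / 2) ^ j / 4)) ^ 2) * volume (DD ϑ f (j + 1))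
        = ∫⁻ _ in DD ϑ f (j + 1), ENNReal.ofReal ((ϑ * ((1 / 2) ^ j / 4)) ^ 2) := by
          rw [setLIntegral_const]
      _ ≤ ∫⁻ x in DD ϑ f (j + 1), sq (w x) := by
          refine setLIntegral_mono' (hmD _) fun x hx => ?_
          refine ENNReal.ofReal_le_ofReal ?_
          have hx1 : ‖x‖ < rr (j + 1) := mem_ball_zero_iff.1 hx.1
          have hx2 : f x < kk ϑ (j + 1) := hx.2
          have : cut r' r x = 1 := cut_eq_one hb (by linarith)
          have h2 : kk ϑ j - f x ≤ w x := by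
            simp only [hw]
            rw [this, mul_one]
            exact le_pos _
          have h4 : 0 ≤ ϑ * ((1 / 2) ^ j / 4) := by positivity
          exact pow_le_pow_left₀ h4 (by linarith) 2
      _ ≤ ∫⁻ x, sq (w x) := setLIntegral_le_lintegral _ _
  -- combine
  set Y : ℝ := (volume (DD ϑ f j)).toReal with hY
  set Z : ℝ := (volume (DD ϑ f (j + 1))).toReal with hZ
  have hY0 : 0 ≤ Y := ENNReal.toReal_nonneg
  have hZ0 : 0 ≤ Z := ENNReal.toReal_nonneg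
  have eY : volume (DD ϑ f j) = ENNReal.ofReal Y := (ENNReal.ofReal_toReal (vol_DD_ne_top _ _ _)).symm
  have eZ : volume (DD ϑ f (j + 1)) = ENNReal.ofReal Z :=
    (ENNReal.ofReal_toReal (vol_DD_ne_top _ _ _)).symm
  have ha0 : 0 < 2 * σ / n := by positivity
  set Cj : ℝ := C * ((rr j - rr (j + 1)) ^ (-(2 * σ)) + CT + C₀) with hCj
  have hd : rr j - rr (j + 1) = (1 / 2) ^ (j + 1) := by unfold rr; rw [e1]; ring
  have hd0 : (0 : ℝ) < rr j - rr (j + 1) := by linarith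
  have hCj0 : 0 ≤ Cj := by
    have := Real.rpow_pos_of_pos hd0 (-(2 * σ))
    have := hf.C0
    have := hf.CT0
    positivity
  have hCj1 : Cj ≤ C * ((4 + CT + C₀) * 4 ^ j) := by
    have g1 : (rr j - rr (j + 1)) ^ (-(2 * σ)) ≤ 4 ^ (j + 1) := by
      rw [hd]
      have : ((1 : ℝ) / 2) ^ (j + 1) = (2 ^ (j + 1))⁻¹ := by rw [one_div, inv_pow]
      rw [this, Real.inv_rpow (by positivity), Real.rpow_neg (by positivity), inv_inv]
      calc ((2 : ℝ) ^ (j + 1)) ^ (2 * σ) ≤ ((2 : ℝ) ^ (j + 1)) ^ (2 : ℝ) :=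
            Real.rpow_le_rpow_of_exponent_le (one_le_pow₀ (by norm_num)) (by linarith)
        _ = 4 ^ (j + 1) := by
            rw [Real.rpow_two, ← pow_mul, mul_comm, pow_mul]; norm_num
    have g2 : (1 : ℝ) ≤ 4 ^ j := one_le_pow₀ (by norm_num)
    have g3 := hf.C0
    have g4 := hf.CT0
    have g5 : (4 : ℝ) ^ (j + 1) = 4 * 4 ^ j := by rw [pow_succ]; ring
    rw [hCj]
    apply mul_le_mul_of_nonneg_left _ hC.le
    nlinarith
  have key : ENNReal.ofReal ((ϑ * ((1 / 2) ^ j / 4)) ^ 2 * Z) ≤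
      ENNReal.ofReal (C' * Y ^ (2 * σ / n) * (Cj * Y)) := by
    have g := hlow.trans (hPoi.trans (mul_le_mul_right hE _))
    rw [ENNReal.ofReal_mul (by positivity), ENNReal.ofReal_mul (by positivity),
      ENNReal.ofReal_mul (by positivity), ENNReal.ofReal_mul hCj0, ENNReal.ofReal_coe_nnreal,
      ← ENNReal.ofReal_rpow_of_nonneg hY0 ha0.le, ← eY, ← eZ]
    exact g
  have key2 := (ENNReal.ofReal_le_ofReal_iff (by positivity)).1 key
  have hpow : Y ^ (1 + 2 * σ / n) = Y * Y ^ (2 * σ / n) := by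
    rcases hY0.eq_or_lt with h | h
    · rw [← h, Real.zero_rpow (by positivity), zero_mul]
    · rw [Real.rpow_add h, Real.rpow_one]
  have hYa : 0 ≤ Y ^ (2 * σ / n) := Real.rpow_nonneg hY0 _
  rw [hpow]
  have k3 : (ϑ * ((1 / 2) ^ j / 4)) ^ 2 = ϑ ^ 2 / (16 * 4 ^ j) := by
    rw [mul_pow, div_pow, ← pow_mul, mul_comm j 2, pow_mul, one_div]
    norm_num
    field_simp
    rw [← mul_pow]
    norm_num
  rw [k3] at key2
  have h4j : (0 : ℝ) < 4 ^ j := by positivity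
  have h16 : (16 : ℝ) ^ j = 4 ^ j * 4 ^ j := by rw [← mul_pow]; norm_num
  have key3 : Z ≤ C' * Y ^ (2 * σ / n) * (Cj * Y) * (16 * 4 ^ j / ϑ ^ 2) := by
    have hϑ2 : 0 < ϑ ^ 2 := by positivity
    have : Z = ϑ ^ 2 / (16 * 4 ^ j) * Z * (16 * 4 ^ j / ϑ ^ 2) := by
      field_simp
    rw [this]
    exact mul_le_mul_of_nonneg_right key2 (by positivity)
  refine key3.trans ?_
  have hC'0 : (0 : ℝ) ≤ C' := C'.2
  have hYY : 0 ≤ Y * Y ^ (2 * σ / n) := mul_nonneg hY0 hYa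
  have g3 := hf.C0
  have g4 := hf.CT0
  calc C' * Y ^ (2 * σ / n) * (Cj * Y) * (16 * 4 ^ j / ϑ ^ 2)
      = (C' * (16 * 4 ^ j / ϑ ^ 2) * (Y * Y ^ (2 * σ / n))) * Cj := by ring
    _ ≤ (C' * (16 * 4 ^ j / ϑ ^ 2) * (Y * Y ^ (2 * σ / n))) * (C * ((4 + CT + C₀) * 4 ^ j)) :=
        mul_le_mul_of_nonneg_left hCj1 (by positivity)
    _ = (C' * C * (4 + CT + C₀) * 16 / ϑ ^ 2) * 16 ^ j * (Y * Y ^ (2 * σ / n)) := by
        rw [h16]; ring
    _ ≤ ((C' * C + 1) * (4 + CT + C₀) * 16 / ϑ ^ 2 + 1) * 16 ^ j * (Y * Y ^ (2 * σ / n)) := by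
        apply mul_le_mul_of_nonneg_right _ hYY
        apply mul_le_mul_of_nonneg_right _ (by positivity)
        have : C' * C * (4 + CT + C₀) * 16 / ϑ ^ 2 ≤ (C' * C + 1) * (4 + CT + C₀) * 16 / ϑ ^ 2 := by
          apply div_le_div_of_nonneg_right _ (by positivity)
          nlinarith
        linarith

end LOW_

open LOW_ in
theorem p_LOW (h3 : T_LW3) (hP : T_POI) (hD : T_DGI) : T_LOW := by
  intro n σ h
  obtain ⟨ϑ, C, h0, h1, hC, H⟩ := step σ h h3 hP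
  refine ⟨ϑ, h0, h1, fun C₀ CT hC₀ hCT => ?_⟩
  obtain ⟨hn, hs, hs'⟩ := h
  have hn0 : (0 : ℝ) < n := by positivity
  obtain ⟨ε, hε, hY⟩ := hD (C * (4 + CT + C₀) * 16 / ϑ ^ 2 + 1) 16 (2 * σ / n) (by positivity)
    (by norm_num) (by positivity)
  refine ⟨ε, hε, fun f hf hv => ?_⟩
  have hlim := hY (fun j => (volume (DD ϑ f j)).toReal) (fun j => ENNReal.toReal_nonneg) (by
    have e0 : DD ϑ f 0 = B 2 ∩ {x | f x < 1 - ϑ / 2} := by
      have a1 : rr 0 = 2 := by unfold rr; norm_num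
      have a2 : kk ϑ 0 = 1 - ϑ / 2 := by unfold kk; ring
      unfold DD
      rw [a1, a2]
    show (volume (DD ϑ f 0)).toReal ≤ ε
    rw [e0]
    exact ENNReal.toReal_le_of_le_ofReal hε.le hv) (fun j => H f C₀ CT hf j)
  have hzero : volume (B 1 ∩ {x | f x < 1 - ϑ}) = 0 := by
    have hle : ∀ j, (volume (B 1 ∩ {x | f x < 1 - ϑ})).toReal ≤ (volume (DD ϑ f j)).toReal := by
      intro j
      refine ENNReal.toReal_mono (vol_DD_ne_top ϑ f j) (measure_mono ?_)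
      refine inter_subset_inter (ball_subset_ball ?_) ?_
      · unfold rr
        have : (0 : ℝ) ≤ (1 / 2) ^ j := by positivity
        linarith
      · intro x hx
        have hx' : f x < 1 - ϑ := hx
        show f x < kk ϑ j
        unfold kk
        have : 0 ≤ ϑ * (1 / 2) ^ (j + 1) := by positivity
        linarith
    have h2 := ge_of_tendsto' hlim hle
    have h4 : volume (B 1 ∩ {x | f x < 1 - ϑ}) ≠ ∞ :=
      ne_top_of_le_ne_top (measure_ball_lt_top (x := (0 : X n)) (r := 1)).ne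
        (measure_mono inter_subset_left)
    have h5 : (volume (B 1 ∩ {x | f x < 1 - ϑ})).toReal = 0 :=
      le_antisymm h2 ENNReal.toReal_nonneg
    exact ((ENNReal.toReal_eq_zero_iff _).1 h5).resolve_right h4
  rw [ae_iff]
  refine measure_mono_null ?_ hzero
  intro x hx
  have hx' : ¬ (x ∈ B 1 → 1 - ϑ ≤ f x) := hx
  rw [Classical.not_imp, not_le] at hx'
  exact hx'

end RFK
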