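import Pool.Agent.RFK.Targets

/-!
# MP_35334d_an: LW1, the energy of `(k η - f)⁺` (helper6)
-/

set_option autoImplicit false

open MeasureTheory Filter Topology Metric Set
open scoped ENNReal NNReal

namespace RFK

namespace LW1_

variable {n : ℕ} {σ : ℝ}

/-- the real inequality on `Ω × Ω` -/
theorem real_ineq (k e₁ e₂ f₁ f₂ : ℝ) :
    2 * (max f₁ (k * e₁) - max f₂ (k * e₂)) ^ 2 +
      (pos (k * e₁ - f₁) - pos (k * e₂ - f₂)) ^ 2 ≤
    2 * (f₁ - f₂) ^ 2 + 4 * (k * (e₁ - e₂)) ^ 2 := by
  unfold pos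
  have h1 : max f₁ (k * e₁) = f₁ + max (k * e₁ - f₁) 0 := by
    rcases le_total f₁ (k * e₁) with h | h
    · rw [max_eq_right h, max_eq_left (by linarith)]
      ring
    · rw [max_eq_left h, max_eq_right (by linarith)]
      ring
  have h2 : max f₂ (k * e₂) = f₂ + max (k * e₂ - f₂) 0 := by
    rcases le_total f₂ (k * e₂) with h | h
    · rw [max_eq_right h, max_eq_left (by linarith)]
      ring
    · rw [max_eq_left h, max_eq_right (by linarith)]
      ring
  rw [h1, h2]
  obtain ⟨w₁, p₁, hw₁, hp₁, hwp₁, hf₁, hmw₁⟩ : ∃ w p : ℝ, 0 ≤ w ∧ 0 ≤ p ∧ w * p = 0 ∧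
      f₁ = k * e₁ + p - w ∧ max (k * e₁ - f₁) 0 = w := by
    rcases le_total f₁ (k * e₁) with h | h
    · exact ⟨k * e₁ - f₁, 0, by linarith, le_rfl, by ring, by ring, max_eq_left (by linarith)⟩
    · exact ⟨0, f₁ - k * e₁, le_rfl, by linarith, by ring, by ring, max_eq_right (by linarith)⟩
  obtain ⟨w₂, p₂, hw₂, hp₂, hwp₂, hf₂, hmw₂⟩ : ∃ w p : ℝ, 0 ≤ w ∧ 0 ≤ p ∧ w * p = 0 ∧
      f₂ = k * e₂ + p - w ∧ max (k * e₂ - f₂) 0 = w := by
    rcases le_total f₂ (k * e₂) with h | h
    · exact ⟨k * e₂ - f₂, 0, by linarith, le_rfl, by ring, by ring, max_eq_left (by linarith)⟩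
    · exact ⟨0, f₂ - k * e₂, le_rfl, by linarith, by ring, by ring, max_eq_right (by linarith)⟩
  rw [hmw₁, hmw₂, hf₁, hf₂]
  nlinarith [mul_nonneg hw₁ hp₂, mul_nonneg hw₂ hp₁,
    sq_nonneg ((w₁ - w₂) - 2 * (k * (e₁ - e₂)))]

theorem real_ineq_zero (k e₁ e₂ f₁ f₂ : ℝ) (h₁ : k * e₁ ≤ f₁) (h₂ : k * e₂ ≤ f₂) :
    2 * (max f₁ (k * e₁) - max f₂ (k * e₂)) ^ 2 +
      (pos (k * e₁ - f₁) - pos (k * e₂ - f₂)) ^ 2 ≤ 2 * (f₁ - f₂) ^ 2 := by
  rw [max_eq_left h₁, max_eq_left h₂, pos_of_nonpos (by linarith), pos_of_nonpos (by linarith)]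
  simp

/-- the energy density of the cut-off function over a set -/
noncomputable def Z (σ : ℝ) (M : Set (X n)) (η : X n → ℝ) : ℝ≥0∞ :=
  ∫⁻ x in M, ∫⁻ y, sq (η x - η y) * K σ (x - y)

theorem DI_left_le {A B' M : Set (X n)} (hA : A ⊆ M) (η : X n → ℝ) :
    DI σ A B' (fun x y => sq (η x - η y)) ≤ Z σ M η := by
  unfold DI Z
  refine (lintegral_mono fun x => ?_).trans (lintegral_mono_set hA)
  exact setLIntegral_le_lintegral _ _

theorem DI_right_le {A B' M : Set (X n)} (hB : B' ⊆ M) {η : X n → ℝ} (hη : Measurable η) :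
    DI σ A B' (fun x y => sq (η x - η y)) ≤ Z σ M η := by
  rw [DI_swap (measurable_dsq hη)]
  have h : (fun x y : X n => sq (η y - η x)) = fun x y : X n => sq (η x - η y) := by
    funext x y
    exact sq_sub_comm _ _
  rw [h]
  exact DI_left_le hB η

open Classical in
theorem DI_ind_left {M : Set (X n)} (hM : MeasurableSet M) {A B' : Set (X n)}
    {η : X n → ℝ} :
    DI σ A B' (fun x y => if x ∈ M then sq (η x - η y) else 0) ≤ Z σ M η := by
  refine (DI_mono_set (subset_univ _) (subset_univ _) _).trans ?_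
  unfold DI Z
  rw [← lintegral_indicator hM, Measure.restrict_univ]
  apply lintegral_mono
  intro x
  by_cases hx : x ∈ M
  · simp [hx]
  · simp [hx]

open Classical in
theorem DI_ind_right {M : Set (X n)} (hM : MeasurableSet M) {A B' : Set (X n)}
    {η : X n → ℝ} (hη : Measurable η) :
    DI σ A B' (fun x y => if y ∈ M then sq (η x - η y) else 0) ≤ Z σ M η := by
  have hm : Measurable (Function.uncurry fun x y : X n => if y ∈ M then sq (η x - η y) else 0) := by
    have h1 : MeasurableSet {p : X n × X n | p.2 ∈ M} := measurable_snd hM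
    exact Measurable.ite h1 (measurable_dsq hη) measurable_const
  rw [DI_swap hm]
  have h : (fun x y : X n => if x ∈ M then sq (η y - η x) else 0) =
      fun x y : X n => if x ∈ M then sq (η x - η y) else 0 := by
    funext x y
    rw [sq_sub_comm]
  rw [h]
  exact DI_ind_left hM

open Classical in
/-- the main computation -/
theorem main_ineq (f : X n → ℝ) (C₀ : ℝ) (hf : Measurable f) (hf0 : ∀ x, 0 ≤ f x)
    (hfin : En σ univ f ≠ ∞) (hcmp : CmpC σ f C₀) (k r' r : ℝ) (hk : 0 < k)
    (hk1 : k ≤ 1) (hr' : 1 ≤ r') (hrr : r' < r) (hr3 : r ≤ 3)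
    (hZ : Z σ (B r ∩ {x | f x < k}) (cut r' r) ≠ ∞) :
    En σ {x | 0 < f x} (fun x => pos (k * cut r' r x - f x)) ≤
      8 * DI σ (B r \ {x | 0 < f x}) {x | 0 < f x} (fun _ y => sq (pos (f y - k * cut r' r y))) +
      18 * Z σ (B r ∩ {x | f x < k}) (cut r' r) +
      2 * (ENNReal.ofReal C₀ * volume (B r ∩ {x | f x < k})) := by
  set Ω : Set (X n) := {x | 0 < f x} with hΩ
  set η : X n → ℝ := cut r' r with hηd
  set M : Set (X n) := B r ∩ {x | f x < k} with hMd
  have hη : Measurable η := measurable_cut r' r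
  have hΩm : MeasurableSet Ω := measurableSet_lt measurable_const hf
  have hBm : MeasurableSet (B r : Set (X n)) := measurableSet_ball
  have hMm : MeasurableSet M := hBm.inter (measurableSet_lt hf measurable_const)
  set A : Set (X n) := B r \ Ω with hAd
  have hAm : MeasurableSet A := hBm.diff hΩm
  have hη0 : ∀ x, 0 ≤ η x := cut_nonneg r' r
  have hη1 : ∀ x, η x ≤ 1 := cut_le_one r' r
  have hfA : ∀ x ∈ A, f x = 0 := fun x hx => le_antisymm (not_lt.mp hx.2) (hf0 x)
  have hAM : A ⊆ M := fun x hx => ⟨hx.1, by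
    show f x < k
    rw [hfA x hx]
    exact hk⟩
  -- points outside `M` satisfy `k η ≤ f`
  have hout : ∀ x, x ∉ M → k * η x ≤ f x := by
    intro x hx
    by_contra hc
    rw [not_le] at hc
    apply hx
    have h1 : 0 < k * η x := lt_of_le_of_lt (hf0 x) hc
    have h2 : 0 < η x := by
      rcases (hη0 x).lt_or_eq with h | h
      · exact h
      · rw [← h, mul_zero] at h1
        exact absurd h1 (lt_irrefl _)
    refine ⟨?_, ?_⟩
    · rw [mem_ball_zero_iff]
      exact (cut_pos_iff hrr).mp h2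
    · show f x < k
      calc f x < k * η x := hc
        _ ≤ k * 1 := by gcongr; exact hη1 x
        _ = k := mul_one k
  set v : X n → ℝ := fun x => max (f x) (k * η x) with hvd
  set w : X n → ℝ := fun x => pos (k * η x - f x) with hwd
  have hv : Measurable v := hf.max (hη.const_mul k)
  have hw : Measurable w := measurable_pos.comp ((hη.const_mul k).sub hf)
  -- step 1
  have hk2 : ∀ x y, (k * (η x - η y)) ^ 2 ≤ (η x - η y) ^ 2 := by
    intro x y
    rw [mul_pow]
    have : k ^ 2 ≤ 1 := by nlinarith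
    nlinarith [sq_nonneg (η x - η y)]
  have step1 : 2 * En σ Ω v + En σ Ω w ≤ 2 * En σ Ω f + 8 * Z σ M η := by
    have hp : ∀ x ∈ Ω, ∀ y ∈ Ω, 2 * sq (v x - v y) + sq (w x - w y) ≤
        2 * sq (f x - f y) + 4 * ((if x ∈ M then sq (η x - η y) else 0) +
          (if y ∈ M then sq (η x - η y) else 0)) := by
      intro x _ y _
      by_cases hxy : x ∈ M ∨ y ∈ M
      · have h1 : sq (η x - η y) ≤ (if x ∈ M then sq (η x - η y) else 0) +
            (if y ∈ M then sq (η x - η y) else 0) := by
          rcases hxy with h | h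
          · rw [if_pos h]
            exact le_self_add
          · rw [if_pos h]
            exact le_add_self
        refine le_trans ?_ (add_le_add_right (mul_le_mul_right h1 4) _)
        unfold sq
        rw [show (2 : ℝ≥0∞) = ENNReal.ofReal 2 by simp, show (4 : ℝ≥0∞) = ENNReal.ofReal 4 by simp,
          ← ENNReal.ofReal_mul (by norm_num), ← ENNReal.ofReal_mul (by norm_num),
          ← ENNReal.ofReal_mul (by norm_num), ← ENNReal.ofReal_add (by positivity) (by positivity),
          ← ENNReal.ofReal_add (by positivity) (by positivity)]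
        apply ENNReal.ofReal_le_ofReal
        have := real_ineq k (η x) (η y) (f x) (f y)
        have h3 := hk2 x y
        simp only [hvd, hwd]
        linarith
      · rw [not_or] at hxy
        rw [if_neg hxy.1, if_neg hxy.2, add_zero, mul_zero, add_zero]
        unfold sq
        rw [show (2 : ℝ≥0∞) = ENNReal.ofReal 2 by simp,
          ← ENNReal.ofReal_mul (by norm_num), ← ENNReal.ofReal_mul (by norm_num),
          ← ENNReal.ofReal_add (by positivity) (by positivity)]
        apply ENNReal.ofReal_le_ofReal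
        simp only [hvd, hwd]
        exact real_ineq_zero k (η x) (η y) (f x) (f y) (hout x hxy.1) (hout y hxy.2)
    have hmv := measurable_dsq hv
    have hmf := measurable_dsq hf
    have hmη := measurable_dsq hη
    have hi1 : Measurable (Function.uncurry fun x y : X n =>
        if x ∈ M then sq (η x - η y) else 0) := by
      have h1 : MeasurableSet {p : X n × X n | p.1 ∈ M} := measurable_fst hMm
      exact Measurable.ite h1 hmη measurable_const
    have hI : DI σ Ω Ω (fun x y => 2 * sq (v x - v y) + sq (w x - w y)) ≤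
        DI σ Ω Ω (fun x y => 2 * sq (f x - f y) + 4 * ((if x ∈ M then sq (η x - η y) else 0) +
          (if y ∈ M then sq (η x - η y) else 0))) := DI_mono hΩm hΩm hp
    rw [DI_add (hmv.const_mul 2), DI_add (hmf.const_mul 2), DI_const_mul (by simp),
      DI_const_mul (by simp), DI_const_mul (by simp), DI_add hi1, ← En_eq, ← En_eq, ← En_eq] at hI
    refine hI.trans ?_
    have hA1 := DI_ind_left (σ := σ) hMm (A := Ω) (B' := Ω) (η := η)
    have hA2 := DI_ind_right (σ := σ) hMm (A := Ω) (B' := Ω) hη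
    calc 2 * En σ Ω f + 4 * (DI σ Ω Ω (fun x y => if x ∈ M then sq (η x - η y) else 0) +
          DI σ Ω Ω (fun x y => if y ∈ M then sq (η x - η y) else 0))
        ≤ 2 * En σ Ω f + 4 * (Z σ M η + Z σ M η) := by
          refine add_le_add le_rfl (mul_le_mul_right (add_le_add ?_ ?_) 4)
          · refine le_trans (le_of_eq ?_) hA1
            congr 1
            funext x y
            by_cases hx : x ∈ M
            · rw [if_pos hx, if_pos hx]
            · rw [if_neg hx, if_neg hx]
          · refine le_trans (le_of_eq ?_) hA2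
            congr 1
            funext x y
            by_cases hy : y ∈ M
            · rw [if_pos hy, if_pos hy]
            · rw [if_neg hy, if_neg hy]
      _ = 2 * En σ Ω f + 8 * Z σ M η := by ring
  -- step 2
  have hun : Ω ∪ B r = Ω ∪ A := by
    rw [hAd, union_sdiff_self]
  have hdis : Disjoint Ω A := disjoint_sdiff_right
  have hvA : ∀ x ∈ A, v x = k * η x := by
    intro x hx
    simp only [hvd]
    rw [hfA x hx, max_eq_right (mul_nonneg hk.le (hη0 x))]
  have step2 : En σ Ω f ≤ En σ Ω v + 2 * DI σ Ω A (fun x y => sq (v x - v y)) + En σ A v +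
      ENNReal.ofReal C₀ * volume A := by
    have h := hcmp k r' r hk hk1 hr' hrr hr3
    rw [hun, En_union hAm hdis hv] at h
    exact h
  have step3 : DI σ Ω A (fun x y => sq (v x - v y)) ≤
      2 * Z σ M η + 2 * DI σ A Ω (fun _ y => sq (pos (f y - k * η y))) := by
    have hp : ∀ x ∈ Ω, ∀ y ∈ A, sq (v x - v y) ≤
        2 * sq (η x - η y) + 2 * sq (pos (f x - k * η x)) := by
      intro x _ y hy
      have h1 : v x - v y = k * (η x - η y) + pos (f x - k * η x) := by
        rw [hvA y hy]
        simp only [hvd, pos]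
        rcases le_total (f x) (k * η x) with h | h
        · rw [max_eq_right h, max_eq_right (by linarith)]
          ring
        · rw [max_eq_left h, max_eq_left (by linarith)]
          ring
      rw [h1]
      refine (sq_add_le _ _).trans ?_
      gcongr
      unfold sq
      exact ENNReal.ofReal_le_ofReal (hk2 x y)
    have hmη := measurable_dsq hη
    have hI := DI_mono (σ := σ) hΩm hAm hp
    have hP : Measurable (fun x => sq (pos (f x - k * η x))) :=
      measurable_sq.comp (measurable_pos.comp (hf.sub (hη.const_mul k)))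
    rw [DI_add (hmη.const_mul 2), DI_const_mul (by simp), DI_const_mul (by simp)] at hI
    refine hI.trans ?_
    have h2 : DI σ Ω A (fun x _ => sq (pos (f x - k * η x))) =
        DI σ A Ω (fun _ y => sq (pos (f y - k * η y))) :=
      DI_swap (G := fun x _ => sq (pos (f x - k * η x))) (hP.comp measurable_fst)
    rw [h2]
    gcongr
    exact DI_right_le hAM hη
  have step4 : En σ A v ≤ Z σ M η := by
    rw [En_eq]
    refine le_trans (DI_mono hAm hAm ?_) (DI_left_le hAM η)
    intro x hx y hy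
    rw [hvA x hx, hvA y hy, ← mul_sub]
    unfold sq
    exact ENNReal.ofReal_le_ofReal (hk2 x y)
  -- conclusion
  have hEf : En σ Ω f ≠ ∞ := ne_top_of_le_ne_top hfin (En_mono (subset_univ _) f)
  have hEv : 2 * En σ Ω v ≠ ∞ := by
    refine ne_top_of_le_ne_top ?_ (le_self_add.trans step1)
    exact ENNReal.add_ne_top.mpr ⟨ENNReal.mul_ne_top (by simp) hEf, ENNReal.mul_ne_top (by simp) hZ⟩
  have hfinal : 2 * En σ Ω v + En σ Ω w ≤ 2 * En σ Ω v +
      (8 * DI σ A Ω (fun _ y => sq (pos (f y - k * η y))) + 18 * Z σ M η +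
        2 * (ENNReal.ofReal C₀ * volume M)) := by
    calc 2 * En σ Ω v + En σ Ω w ≤ 2 * En σ Ω f + 8 * Z σ M η := step1
      _ ≤ 2 * (En σ Ω v + 2 * (2 * Z σ M η + 2 * DI σ A Ω (fun _ y => sq (pos (f y - k * η y)))) +
            Z σ M η + ENNReal.ofReal C₀ * volume M) + 8 * Z σ M η := by
          gcongr
          refine step2.trans ?_
          gcongr
      _ = 2 * En σ Ω v + (8 * DI σ A Ω (fun _ y => sq (pos (f y - k * η y))) + 18 * Z σ M η +
        2 * (ENNReal.ofReal C₀ * volume M)) := by ring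
  exact (ENNReal.add_le_add_iff_left hEv).mp hfinal

end LW1_

open LW1_ in
theorem p_LW1 (hK : T_KCU) : T_LW1 := by
  intro n σ hok
  obtain ⟨CK, hCK⟩ := hK n σ hok
  refine ⟨18 * (CK : ℝ) + 2, by positivity, ?_⟩
  intro f C₀ hf hf0 hfin hC₀ hcmp k r' r hk hk1 hr' hrr hr3
  have hd : 0 < r - r' := by linarith
  have hcut : Cut (cut r' r : X n → ℝ) (r - r') :=
    ⟨hd, fun x => ⟨cut_nonneg r' r x, cut_le_one r' r x⟩, fun x y => cut_lip hrr x y⟩
  have hZ : Z σ (B r ∩ {x | f x < k}) (cut r' r : X n → ℝ) ≤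
      CK * ENNReal.ofReal ((r - r') ^ (-(2 * σ))) * volume (B r ∩ {x : X n | f x < k}) := by
    unfold Z
    calc ∫⁻ x in (B r ∩ {x : X n | f x < k}), ∫⁻ y, sq (cut r' r x - cut r' r y) * K σ (x - y)
        ≤ ∫⁻ _ in (B r ∩ {x : X n | f x < k}), CK * ENNReal.ofReal ((r - r') ^ (-(2 * σ))) :=
          lintegral_mono fun x => hCK _ _ hcut x
      _ = _ := by rw [setLIntegral_const]
  have hvol : volume (B r ∩ {x : X n | f x < k}) ≠ ∞ :=
    ne_top_of_le_ne_top measure_ball_lt_top.ne (measure_mono inter_subset_left)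
  have hZf : Z σ (B r ∩ {x | f x < k}) (cut r' r : X n → ℝ) ≠ ∞ :=
    ne_top_of_le_ne_top (ENNReal.mul_ne_top (ENNReal.mul_ne_top ENNReal.coe_ne_top
      ENNReal.ofReal_ne_top) hvol) hZ
  refine (main_ineq f C₀ hf hf0 hfin hcmp k r' r hk hk1 hr' hrr hr3 hZf).trans ?_
  rw [add_assoc]
  gcongr
  set V := volume (B r ∩ {x : X n | f x < k})
  set D : ℝ := (r - r') ^ (-(2 * σ)) with hDd
  have hD : 0 < D := Real.rpow_pos_of_pos hd _
  calc 18 * Z σ (B r ∩ {x | f x < k}) (cut r' r : X n → ℝ) + 2 * (ENNReal.ofReal C₀ * V)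
      ≤ 18 * (CK * ENNReal.ofReal D * V) + 2 * (ENNReal.ofReal C₀ * V) := by gcongr
    _ = (18 * (CK * ENNReal.ofReal D) + 2 * ENNReal.ofReal C₀) * V := by ring
    _ ≤ ENNReal.ofReal ((18 * (CK : ℝ) + 2) * (D + C₀)) * V := by
        gcongr
        rw [show (18 : ℝ≥0∞) = ENNReal.ofReal 18 by simp, show (2 : ℝ≥0∞) = ENNReal.ofReal 2 by simp,
          show (CK : ℝ≥0∞) = ENNReal.ofReal (CK : ℝ) by simp,
          ← ENNReal.ofReal_mul (by positivity), ← ENNReal.ofReal_mul (by positivity),
          ← ENNReal.ofReal_mul (by positivity), ← ENNReal.ofReal_add (by positivity) (by positivity)]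
        apply ENNReal.ofReal_le_ofReal
        have h1 : 0 ≤ (CK : ℝ) * C₀ := by positivity
        have h2 : 0 ≤ (CK : ℝ) * D := by positivity
        nlinarith

end RFK
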