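import Pool.Agent.RFK.Targets

/-!
# LW2: hole filling (helper94, for helper27)
-/

set_option autoImplicit false

open MeasureTheory Filter Topology Metric Set
open scoped ENNReal NNReal

namespace RFK

namespace LW2_

variable {n : ℕ} {σ : ℝ}

theorem K_half (h0 : 0 ≤ (n : ℝ) + 2 * σ) {x y : X n} (hx : ‖x‖ ≤ 2) (hy : 4 ≤ ‖y‖) :
    K σ (x - y) ≤ ENNReal.ofReal (2 ^ ((n : ℝ) + 2 * σ)) * K σ y := by
  have hy0 : y ≠ 0 := by
    rintro rfl
    rw [norm_zero] at hy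
    linarith
  have h1 : K σ (x - y) ≤ K σ ((2 : ℝ)⁻¹ • y) := by
    apply K_anti h0
    · exact smul_ne_zero (by norm_num) hy0
    · rw [norm_smul, Real.norm_eq_abs, abs_of_pos (by norm_num : (0 : ℝ) < 2⁻¹), norm_sub_rev]
      have := norm_sub_norm_le y x
      linarith
  rw [K_smul (by norm_num)] at h1
  have h2 : (2 : ℝ)⁻¹ ^ (-((n : ℝ) + 2 * σ)) = 2 ^ ((n : ℝ) + 2 * σ) := by
    rw [Real.inv_rpow (by norm_num), ← Real.rpow_neg (by norm_num), neg_neg]
  rwa [h2] at h1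

theorem beta (h0 : 0 ≤ (n : ℝ) + 2 * σ) {CK : ℝ≥0} (hK : ∀ ρ : ℝ, 0 < ρ → ∀ x : X n,
    ∫⁻ y in (ball x ρ)ᶜ, K σ (x - y) ≤ CK * ENNReal.ofReal (ρ ^ (-(2 * σ))))
    {f : X n → ℝ} {C₀ CT : ℝ} (hf : LowC σ f C₀ CT) {ρ r' : ℝ} (hρ : 0 < r' - ρ) (hρ2 : ρ ≤ 2)
    {A Ω : Set (X n)} (hA : A ⊆ B ρ) (hAm : MeasurableSet A) :
    DI σ A (Ω \ B r') (fun _ y => sq (f y)) ≤
      (CK * ENNReal.ofReal ((r' - ρ) ^ (-(2 * σ))) +
        ENNReal.ofReal (2 ^ ((n : ℝ) + 2 * σ)) * ENNReal.ofReal CT) * volume A := by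
  unfold DI
  rw [← setLIntegral_const]
  refine setLIntegral_mono' hAm fun x hx => ?_
  have hxρ : ‖x‖ < ρ := by simpa using hA hx
  have hsub : Ω \ B r' ⊆ (B 4 \ B r') ∪ (B 4)ᶜ := by
    rintro y ⟨-, hy⟩
    by_cases h4 : y ∈ (B 4 : Set (X n))
    · exact Or.inl ⟨h4, hy⟩
    · exact Or.inr h4
  refine (lintegral_mono_set hsub).trans ((lintegral_union_le _ _ _).trans ?_)
  refine add_le_add ?_ ?_
  · have h1 : ∫⁻ y in B 4 \ B r', sq (f y) * K σ (x - y) ≤ ∫⁻ y in B 4 \ B r', K σ (x - y) := by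
      refine setLIntegral_mono_ae' (measurableSet_ball.diff measurableSet_ball) ?_
      filter_upwards [hf.up] with y hy hy4
      have h2 : sq (f y) ≤ 1 := by
        have h3 := hy hy4.1
        have h4 := hf.nonneg y
        calc sq (f y) ≤ sq 1 := sq_le (by rw [abs_of_nonneg h4, abs_one]; exact h3)
          _ = 1 := by simp [sq]
      calc sq (f y) * K σ (x - y) ≤ 1 * K σ (x - y) := by gcongr
        _ = K σ (x - y) := one_mul _
    refine h1.trans ((lintegral_mono_set ?_).trans (hK (r' - ρ) hρ x))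
    rintro y ⟨-, hy⟩
    rw [mem_compl_iff, mem_ball, dist_eq_norm]
    have h5 : r' ≤ ‖y‖ := by simpa using hy
    have h6 := norm_sub_norm_le y x
    linarith
  · calc ∫⁻ y in (B 4)ᶜ, sq (f y) * K σ (x - y) ≤
        ∫⁻ y in (B 4)ᶜ, ENNReal.ofReal (2 ^ ((n : ℝ) + 2 * σ)) * (sq (f y) * K σ y) := by
          refine setLIntegral_mono' measurableSet_ball.compl fun y hy => ?_
          have h4 : 4 ≤ ‖y‖ := by simpa using hy
          have h5 := K_half h0 (show ‖x‖ ≤ 2 by linarith) h4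
          calc sq (f y) * K σ (x - y) ≤
              sq (f y) * (ENNReal.ofReal (2 ^ ((n : ℝ) + 2 * σ)) * K σ y) := by gcongr
            _ = ENNReal.ofReal (2 ^ ((n : ℝ) + 2 * σ)) * (sq (f y) * K σ y) := by ring
      _ = ENNReal.ofReal (2 ^ ((n : ℝ) + 2 * σ)) * ∫⁻ y in (B 4)ᶜ, sq (f y) * K σ y :=
          lintegral_const_mul' _ _ ENNReal.ofReal_ne_top
      _ ≤ ENNReal.ofReal (2 ^ ((n : ℝ) + 2 * σ)) * ENNReal.ofReal CT := by
          gcongr
          exact hf.tail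

theorem absorb {a b : ℝ≥0∞} (ha : a ≠ ∞) (h : a ≤ a / 2 + b) : a ≤ 2 * b := by
  have h1 : a / 2 + a / 2 ≤ a / 2 + b := by rwa [ENNReal.add_halves]
  have h2 : a / 2 ≤ b := ENNReal.le_of_add_le_add_left (ENNReal.div_ne_top ha (by norm_num)) h1
  calc a = a / 2 + a / 2 := (ENNReal.add_halves a).symm
    _ ≤ b + b := add_le_add h2 h2
    _ = 2 * b := (two_mul b).symm

theorem pos_sub (k t : ℝ) : pos (k - t) = k - min t k := by
  unfold pos
  rcases le_total t k with h | h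
  · rw [min_eq_left h, max_eq_left (by linarith)]
  · rw [min_eq_right h, max_eq_right (by linarith), sub_self]

theorem half_rpow {a : ℝ} (ha : 0 < a) (h2 : σ < 1) :
    (a / 2) ^ (-(2 * σ)) ≤ 4 * a ^ (-(2 * σ)) := by
  rw [Real.div_rpow ha.le (by norm_num), Real.rpow_neg (by norm_num : (0 : ℝ) ≤ 2), div_inv_eq_mul,
    mul_comm]
  have h3 : (2 : ℝ) ^ (2 * σ) ≤ 4 := by
    calc (2 : ℝ) ^ (2 * σ) ≤ (2 : ℝ) ^ (2 : ℝ) :=
          Real.rpow_le_rpow_of_exponent_le (by norm_num) (by linarith)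
      _ = 4 := by norm_num
  exact mul_le_mul_of_nonneg_right h3 (Real.rpow_nonneg ha.le _)

theorem comb1 {e Γ N : ℝ≥0∞} {b c : ℝ} (hb : 0 ≤ b) (hc : 0 ≤ c) (he : e ≠ ∞)
    (h : e ≤ e / 2 + (8 * (ENNReal.ofReal b * N) + 8 * Γ + ENNReal.ofReal c * N)) :
    e ≤ 16 * Γ + ENNReal.ofReal (16 * b + 2 * c) * N := by
  refine (absorb he h).trans (le_of_eq ?_)
  rw [ENNReal.ofReal_add (by positivity) (by positivity), ENNReal.ofReal_mul (by norm_num),
    ENNReal.ofReal_mul (by norm_num)]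
  rw [show ENNReal.ofReal 16 = 16 by simp, show ENNReal.ofReal 2 = 2 by simp]
  ring

theorem cb {h a c : ℝ} (hh : 0 ≤ h) (ha : 0 ≤ a) (hc : 0 ≤ c) :
    16 ≤ (1 + 4 * h) * (16 + 17 * a + 8 * c) ∧
    16 * a + 8 * c ≤ (1 + 4 * h) * (16 + 17 * a + 8 * c) ∧
    4 * h * 16 ≤ (1 + 4 * h) * (16 + 17 * a + 8 * c) ∧
    4 * h * (16 * a + 8 * c) + a ≤ (1 + 4 * h) * (16 + 17 * a + 8 * c) := by
  have h1 : (1 + 4 * h) * (16 + 17 * a + 8 * c) =
      16 + 17 * a + 8 * c + 4 * h * 16 + 4 * h * (16 * a + 8 * c) + 4 * (h * a) := by ring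
  have h2 : 0 ≤ 4 * h * 16 := by positivity
  have h3 : 0 ≤ 4 * h * (16 * a + 8 * c) := by positivity
  have h4 : 0 ≤ 4 * (h * a) := by positivity
  rw [h1]
  refine ⟨?_, ?_, ?_, ?_⟩ <;> linarith

end LW2_

open LW2_ in
theorem p_LW2 (hLW1 : T_LW1) (hHAR : T_HAR) (hKTL : T_KTL) : T_LW2 := by
  intro n σ hOK
  obtain ⟨C1, hC1, H1⟩ := hLW1 n σ hOK
  obtain ⟨CH, HH⟩ := hHAR n σ hOK
  obtain ⟨CK, HK⟩ := hKTL n σ hOK
  obtain ⟨hn, hσ1, hσ2⟩ := hOK
  have hσ0 : 0 < σ := by linarith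
  have hn0 : 0 ≤ (n : ℝ) + 2 * σ := by positivity
  have hCH : (0 : ℝ) ≤ CH := CH.coe_nonneg
  have hCK : (0 : ℝ) ≤ CK := CK.coe_nonneg
  obtain ⟨E, hE⟩ : ∃ E : ℝ, E = 2 ^ ((n : ℝ) + 2 * σ) := ⟨_, rfl⟩
  have hE0 : 0 < E := by rw [hE]; positivity
  obtain ⟨ϑ, hϑ⟩ : ∃ ϑ : ℝ, ϑ = 1 / (8 * (1 + CH)) := ⟨_, rfl⟩
  have hϑ0 : 0 < ϑ := by rw [hϑ]; positivity
  have hϑm : ϑ * (8 * (1 + CH)) = 1 := by
    rw [hϑ]
    field_simp
  have hϑ8 : ϑ ≤ 1 / 8 := by nlinarith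
  have hϑC : 8 * ((2 * ϑ) ^ 2 * CH) ≤ 1 / 2 := by
    have h1 : ϑ * CH ≤ 1 / 8 := by nlinarith
    nlinarith
  refine ⟨ϑ, (1 + 4 * CH) * (16 + 17 * (4 * CK + E) + 8 * C1), hϑ0, by linarith, by positivity, ?_⟩
  intro f C₀ CT hf k ρ r hk1 hk2 hρ1 hρr hr2
  obtain ⟨C, hC⟩ : ∃ C : ℝ, C = (1 + 4 * CH) * (16 + 17 * (4 * CK + E) + 8 * C1) := ⟨_, rfl⟩
  rw [← hC]
  obtain ⟨Ω, hΩ⟩ : ∃ Ω : Set (X n), Ω = {x | 0 < f x} := ⟨_, rfl⟩
  have hΩm : MeasurableSet Ω := by
    rw [hΩ]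
    exact measurableSet_lt measurable_const hf.meas
  have hΩc : ∀ x, x ∉ Ω → f x = 0 := by
    intro x hx
    rw [hΩ] at hx
    exact le_antisymm (not_lt.mp hx) (hf.nonneg x)
  obtain ⟨r', hr'⟩ : ∃ r' : ℝ, r' = (ρ + r) / 2 := ⟨_, rfl⟩
  have hk0 : 0 < k := by linarith
  have hLW := H1 f C₀ hf.meas hf.nonneg hf.fin hf.C0 hf.cmp k r' r hk0 hk2 (by linarith)
    (by linarith) (by linarith)
  rw [← hΩ] at hLW ⊢
  rw [← hr']
  obtain ⟨s, hs⟩ : ∃ s : ℝ, s = (r - ρ) ^ (-(2 * σ)) := ⟨_, rfl⟩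
  have hs0 : 0 ≤ s := by
    rw [hs]
    exact Real.rpow_nonneg (by linarith) _
  rw [← hs]
  have hd1 : (r - r') ^ (-(2 * σ)) ≤ 4 * s := by
    rw [hs, show r - r' = (r - ρ) / 2 by rw [hr']; ring]
    exact half_rpow (by linarith) hσ2
  have hd2 : (r' - ρ) ^ (-(2 * σ)) ≤ 4 * s := by
    rw [hs, show r' - ρ = (r - ρ) / 2 by rw [hr']; ring]
    exact half_rpow (by linarith) hσ2
  obtain ⟨N, hN⟩ : ∃ N : ℝ≥0∞, N = volume (B r ∩ {x : X n | f x < k}) := ⟨_, rfl⟩
  rw [← hN] at hLW ⊢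
  obtain ⟨Γ, hΓ⟩ : ∃ Γ : ℝ≥0∞, Γ = DI σ ((B r \ B ρ) \ Ω) Ω (fun _ y => sq (f y)) := ⟨_, rfl⟩
  rw [← hΓ]
  obtain ⟨e, he⟩ : ∃ e : ℝ≥0∞, e = En σ Ω (fun x => pos (k * cut r' r x - f x)) := ⟨_, rfl⟩
  rw [← he] at hLW ⊢
  have hNtop : N ≠ ∞ := by
    rw [hN]
    exact ((measure_mono inter_subset_left).trans_lt measure_ball_lt_top).ne
  have hAN : volume (B ρ \ Ω) ≤ N := by
    rw [hN]
    apply measure_mono
    rintro x ⟨hx1, hx2⟩
    refine ⟨ball_subset_ball hρr.le hx1, ?_⟩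
    show f x < k
    rw [hΩc x hx2]
    exact hk0
  -- the measurable integrands
  have hfm : Measurable (Function.uncurry fun (_ y : X n) => sq (f y)) :=
    measurable_sq_comp (hf.meas.comp measurable_snd)
  have hPm : Measurable (Function.uncurry fun (_ y : X n) => sq (pos (f y - k * cut r' r y))) :=
    measurable_sq_comp (measurable_pos.comp ((hf.meas.comp measurable_snd).sub
      (measurable_const.mul ((measurable_cut r' r).comp measurable_snd))))
  have hPle : ∀ y : X n, sq (pos (f y - k * cut r' r y)) ≤ sq (f y) := by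
    intro y
    apply sq_le
    rw [abs_of_nonneg (pos_nonneg _), abs_of_nonneg (hf.nonneg y)]
    exact max_le (by nlinarith [cut_nonneg r' r y]) (hf.nonneg y)
  have hA1m : MeasurableSet (B ρ \ Ω) := measurableSet_ball.diff hΩm
  have hA2m : MeasurableSet ((B r \ B ρ) \ Ω) :=
    (measurableSet_ball.diff measurableSet_ball).diff hΩm
  have hΩ1m : MeasurableSet (B r' ∩ Ω) := measurableSet_ball.inter hΩm
  have hΩ2m : MeasurableSet (Ω \ B r') := hΩm.diff measurableSet_ball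
  have hsplitA : (B r \ Ω : Set (X n)) = (B ρ \ Ω) ∪ ((B r \ B ρ) \ Ω) := by
    ext x
    constructor
    · rintro ⟨h1, h2⟩
      by_cases h3 : x ∈ (B ρ : Set (X n))
      · exact Or.inl ⟨h3, h2⟩
      · exact Or.inr ⟨⟨h1, h3⟩, h2⟩
    · rintro (⟨h1, h2⟩ | ⟨⟨h1, -⟩, h2⟩)
      · exact ⟨ball_subset_ball hρr.le h1, h2⟩
      · exact ⟨h1, h2⟩
  have hdisjA : Disjoint (B ρ \ Ω) ((B r \ B ρ) \ Ω) := by
    rw [Set.disjoint_left]
    rintro x ⟨h1, -⟩ ⟨⟨-, h2⟩, -⟩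
    exact h2 h1
  have hsplitΩ : Ω = (B r' ∩ Ω) ∪ (Ω \ B r') := by
    ext x
    constructor
    · intro h1
      by_cases h3 : x ∈ (B r' : Set (X n))
      · exact Or.inl ⟨h3, h1⟩
      · exact Or.inr ⟨h1, h3⟩
    · rintro (⟨-, h1⟩ | ⟨h1, -⟩)
      · exact h1
      · exact h1
  have hdisjΩ : Disjoint (B r' ∩ Ω) (Ω \ B r') := by
    rw [Set.disjoint_left]
    rintro x ⟨h1, -⟩ ⟨-, h2⟩
    exact h2 h1
  have hsplitR : ∀ G : X n → X n → ℝ≥0∞, Measurable (Function.uncurry G) →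
      DI σ (B ρ \ Ω) Ω G = DI σ (B ρ \ Ω) (B r' ∩ Ω) G + DI σ (B ρ \ Ω) (Ω \ B r') G := by
    intro G hG
    rw [← DI_union_right hΩ2m hdisjΩ hG, ← hsplitΩ]
  -- (β)
  have hβ : DI σ (B ρ \ Ω) (Ω \ B r') (fun _ y => sq (f y)) ≤
      ENNReal.ofReal ((4 * CK + E) * (s + CT)) * N := by
    refine (beta hn0 HK hf (show 0 < r' - ρ by linarith) (show ρ ≤ 2 by linarith) sdiff_subset
      hA1m).trans ?_
    refine mul_le_mul' ?_ hAN
    rw [← hE, ← ENNReal.ofReal_coe_nnreal (p := CK), ← ENNReal.ofReal_mul hCK,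
      ← ENNReal.ofReal_mul hE0.le, ← ENNReal.ofReal_add
        (mul_nonneg hCK (Real.rpow_nonneg (by linarith) _)) (mul_nonneg hE0.le hf.CT0)]
    apply ENNReal.ofReal_le_ofReal
    have h1 : (CK : ℝ) * (r' - ρ) ^ (-(2 * σ)) ≤ CK * (4 * s) :=
      mul_le_mul_of_nonneg_left hd2 hCK
    have h2 : 0 ≤ CK * CT := mul_nonneg hCK hf.CT0
    have h3 : 0 ≤ E * s := mul_nonneg hE0.le hs0
    have h4 : (4 * CK + E) * (s + CT) = CK * (4 * s) + E * CT + (4 * (CK * CT) + E * s) := by ring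
    linarith
  -- the truncated function
  have hgfin : DI σ (B r' \ Ω) (B r' ∩ Ω) (fun _ y => sq (min (f y) k)) ≠ ∞ := by
    refine ((DI_mono (measurableSet_ball.diff hΩm) hΩ1m (H := fun x y => sq (f x - f y))
      fun x hx y _ => ?_).trans (DI_le_En f)).trans_lt hf.fin.lt_top |>.ne
    rw [hΩc x hx.2, zero_sub, sq_neg]
    apply sq_le
    rw [abs_of_nonneg (le_min (hf.nonneg y) hk0.le), abs_of_nonneg (hf.nonneg y)]
    exact min_le_left _ _
  have hgE : En σ (B r' ∩ Ω) (fun x => min (f x) k) ≤ e := by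
    rw [he]
    refine le_trans (le_of_eq ?_) (En_mono (A := B r' ∩ Ω) inter_subset_right _)
    rw [En_eq, En_eq]
    refine DI_congr hΩ1m hΩ1m fun x hx y hy => ?_
    have hx1 : ‖x‖ ≤ r' := by
      have : ‖x‖ < r' := by simpa using hx.1
      exact this.le
    have hy1 : ‖y‖ ≤ r' := by
      have : ‖y‖ < r' := by simpa using hy.1
      exact this.le
    rw [cut_eq_one (by linarith) hx1, cut_eq_one (by linarith) hy1, mul_one, pos_sub, pos_sub,
      sq_sub_comm]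
    congr 1
    ring
  have hHar : DI σ (B r' \ Ω) (B r' ∩ Ω) (fun _ y => sq (min (f y) k)) ≤ CH * e :=
    (HH (B r') Ω (fun x => min (f x) k) (convex_ball 0 r') measurableSet_ball hΩm
      (hf.meas.min measurable_const) hgfin).trans (by gcongr)
  have hsubρ : (B ρ \ Ω : Set (X n)) ⊆ B r' \ Ω :=
    sdiff_subset_sdiff_left (ball_subset_ball (by linarith))
  have hup4 : ∀ᵐ y : X n, y ∈ B r' ∩ Ω → f y ≤ 1 := by
    filter_upwards [hf.up] with y hy hy1
    exact hy (ball_subset_ball (by linarith) hy1.1)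
  -- (α)
  have hα : DI σ (B ρ \ Ω) (B r' ∩ Ω) (fun _ y => sq (pos (f y - k * cut r' r y))) ≤
      sq (2 * ϑ) * (CH * e) := by
    calc DI σ (B ρ \ Ω) (B r' ∩ Ω) (fun _ y => sq (pos (f y - k * cut r' r y))) ≤
        DI σ (B ρ \ Ω) (B r' ∩ Ω) (fun _ y => sq (2 * ϑ) * sq (min (f y) k)) := by
          refine DI_mono_ae hA1m hΩ1m (Eventually.of_forall fun x _ => ?_)
          filter_upwards [hup4] with y hy hyB
          have hy1 : ‖y‖ ≤ r' := by
            have : ‖y‖ < r' := by simpa using hyB.1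
            exact this.le
          have hy2 := hy hyB
          rw [cut_eq_one (by linarith) hy1, mul_one, ← sq_mul]
          apply sq_le
          have hm : 0 ≤ min (f y) k := le_min (hf.nonneg y) hk0.le
          rw [abs_of_nonneg (pos_nonneg _), abs_of_nonneg (by positivity)]
          rcases le_total (f y) k with h | h
          · rw [pos_of_nonpos (by linarith)]
            positivity
          · rw [pos_of_nonneg (by linarith), min_eq_right h]
            nlinarith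
      _ = sq (2 * ϑ) * DI σ (B ρ \ Ω) (B r' ∩ Ω) (fun _ y => sq (min (f y) k)) :=
          DI_const_mul (sq_ne_top _) _
      _ ≤ sq (2 * ϑ) * DI σ (B r' \ Ω) (B r' ∩ Ω) (fun _ y => sq (min (f y) k)) := by
          gcongr
          exact DI_mono_set hsubρ le_rfl _
      _ ≤ sq (2 * ϑ) * (CH * e) := by gcongr
  -- finiteness of `e`
  have hefin : e ≠ ∞ := by
    refine (hLW.trans_lt ?_).ne
    refine ENNReal.add_lt_top.mpr ⟨?_, ENNReal.mul_lt_top ENNReal.ofReal_lt_top hNtop.lt_top⟩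
    refine ENNReal.mul_lt_top (by simp) ?_
    refine ((DI_mono (measurableSet_ball.diff hΩm) hΩm (H := fun x y => sq (f x - f y))
      fun x hx y _ => ?_).trans (DI_le_En f)).trans_lt hf.fin.lt_top
    rw [hΩc x hx.2, zero_sub, sq_neg]
    exact hPle y
  -- main inequality
  have hmain : e ≤ 16 * Γ + ENNReal.ofReal (16 * ((4 * CK + E) * (s + CT)) +
      2 * (C1 * (4 * s + C₀))) * N := by
    refine comb1 (by have := hf.CT0; positivity) (by have := hf.C0; positivity) hefin ?_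
    have h1 : DI σ (B r \ Ω) Ω (fun _ y => sq (pos (f y - k * cut r' r y))) ≤
        sq (2 * ϑ) * (CH * e) + ENNReal.ofReal ((4 * CK + E) * (s + CT)) * N + Γ := by
      rw [hsplitA, DI_union_left hA2m hdisjA, hsplitR _ hPm]
      refine add_le_add (add_le_add hα ?_) ?_
      · exact (DI_mono hA1m hΩ2m fun x _ y _ => hPle y).trans hβ
      · rw [hΓ]
        exact DI_mono hA2m hΩm fun x _ y _ => hPle y
    have h2 : 8 * (sq (2 * ϑ) * (CH * e)) ≤ e / 2 := by
      have h3 : 8 * (sq (2 * ϑ) * ((CH : ℝ≥0∞) * e)) =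
          ENNReal.ofReal (8 * ((2 * ϑ) ^ 2 * CH)) * e := by
        rw [ENNReal.ofReal_mul (by norm_num), ENNReal.ofReal_mul (by positivity),
          ENNReal.ofReal_coe_nnreal, show ENNReal.ofReal 8 = 8 by simp]
        unfold sq
        ring
      rw [h3]
      calc ENNReal.ofReal (8 * ((2 * ϑ) ^ 2 * CH)) * e ≤ ENNReal.ofReal (1 / 2) * e := by
            gcongr
        _ = e / 2 := by
            rw [one_div, ENNReal.ofReal_inv_of_pos (by norm_num),
              show ENNReal.ofReal 2 = 2 by simp, mul_comm, div_eq_mul_inv]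
    have h4 : ENNReal.ofReal (C1 * ((r - r') ^ (-(2 * σ)) + C₀)) * N ≤
        ENNReal.ofReal (C1 * (4 * s + C₀)) * N := by
      gcongr
    calc e ≤ 8 * DI σ (B r \ Ω) Ω (fun _ y => sq (pos (f y - k * cut r' r y))) +
          ENNReal.ofReal (C1 * ((r - r') ^ (-(2 * σ)) + C₀)) * N := hLW
      _ ≤ 8 * (sq (2 * ϑ) * (CH * e) + ENNReal.ofReal ((4 * CK + E) * (s + CT)) * N + Γ) +
          ENNReal.ofReal (C1 * (4 * s + C₀)) * N := by gcongr
      _ = 8 * (sq (2 * ϑ) * (CH * e)) + (8 * (ENNReal.ofReal ((4 * CK + E) * (s + CT)) * N) +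
          8 * Γ + ENNReal.ofReal (C1 * (4 * s + C₀)) * N) := by ring
      _ ≤ e / 2 + (8 * (ENNReal.ofReal ((4 * CK + E) * (s + CT)) * N) +
          8 * Γ + ENNReal.ofReal (C1 * (4 * s + C₀)) * N) := by gcongr
  have hCT0 := hf.CT0
  have hC00 := hf.C0
  have hXe : 0 ≤ (4 * CK + E) * (s + CT) := by positivity
  have hYe : 0 ≤ C1 * (4 * s + C₀) := by positivity
  have hb1 : (4 * CK + E) * (s + CT) ≤ (4 * CK + E) * (s + CT + C₀) :=
    mul_le_mul_of_nonneg_left (by linarith) (by positivity)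
  have hb2 : 2 * (C1 * (4 * s + C₀)) ≤ 8 * C1 * (s + CT + C₀) := by 
    have h6 := mul_nonneg hC1.le hCT0
    have h7 := mul_nonneg hC1.le hC00
    linarith
  have hb3 : 0 ≤ s + CT + C₀ := by positivity
  obtain ⟨hc1, hc2, hc3, hc4⟩ := cb hCH (show 0 ≤ 4 * (CK : ℝ) + E by positivity) hC1.le
  rw [← hC] at hc1 hc2 hc3 hc4
  have hX1 : 16 * ((4 * CK + E) * (s + CT)) + 2 * (C1 * (4 * s + C₀)) ≤
      (16 * (4 * CK + E) + 8 * C1) * (s + CT + C₀) := by linarith
  refine ⟨?_, ?_⟩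
  · refine hmain.trans (add_le_add ?_ ?_)
    · gcongr
      rw [show (16 : ℝ≥0∞) = ENNReal.ofReal 16 by simp]
      exact ENNReal.ofReal_le_ofReal hc1
    · gcongr
      refine hX1.trans ?_
      exact mul_le_mul_of_nonneg_right hc2 hb3
  · have h1 : DI σ (B ρ \ Ω) (B r' ∩ Ω) (fun _ y => sq (f y)) ≤ sq 2 * (CH * e) := by
      calc DI σ (B ρ \ Ω) (B r' ∩ Ω) (fun _ y => sq (f y)) ≤
          DI σ (B ρ \ Ω) (B r' ∩ Ω) (fun _ y => sq 2 * sq (min (f y) k)) := by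
            refine DI_mono_ae hA1m hΩ1m (Eventually.of_forall fun x _ => ?_)
            filter_upwards [hup4] with y hy hyB
            have hy2 := hy hyB
            rw [← sq_mul]
            apply sq_le
            have hm : 0 ≤ min (f y) k := le_min (hf.nonneg y) hk0.le
            rw [abs_of_nonneg (hf.nonneg y), abs_of_nonneg (by positivity)]
            have hfy := hf.nonneg y
            rcases le_total (f y) k with h | h
            · rw [min_eq_left h]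
              linarith
            · rw [min_eq_right h]
              linarith
        _ = sq 2 * DI σ (B ρ \ Ω) (B r' ∩ Ω) (fun _ y => sq (min (f y) k)) :=
            DI_const_mul (sq_ne_top _) _
        _ ≤ sq 2 * DI σ (B r' \ Ω) (B r' ∩ Ω) (fun _ y => sq (min (f y) k)) := by
            gcongr
            exact DI_mono_set hsubρ le_rfl _
        _ ≤ sq 2 * (CH * e) := by gcongr
    have h2 : sq 2 * ((CH : ℝ≥0∞) * e) = ENNReal.ofReal (4 * CH) * e := by
      rw [ENNReal.ofReal_mul (by norm_num), ENNReal.ofReal_coe_nnreal, ← mul_assoc]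
      congr 2
      unfold sq
      norm_num
    rw [hsplitR _ hfm]
    calc DI σ (B ρ \ Ω) (B r' ∩ Ω) (fun _ y => sq (f y)) +
          DI σ (B ρ \ Ω) (Ω \ B r') (fun _ y => sq (f y)) ≤
        ENNReal.ofReal (4 * CH) * e + ENNReal.ofReal ((4 * CK + E) * (s + CT)) * N :=
          add_le_add (h1.trans h2.le) hβ
      _ ≤ ENNReal.ofReal (4 * CH) * (16 * Γ + ENNReal.ofReal (16 * ((4 * CK + E) * (s + CT)) +
          2 * (C1 * (4 * s + C₀))) * N) + ENNReal.ofReal ((4 * CK + E) * (s + CT)) * N := by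
          gcongr
      _ = ENNReal.ofReal (4 * CH * 16) * Γ + ENNReal.ofReal (4 * CH *
          (16 * ((4 * CK + E) * (s + CT)) + 2 * (C1 * (4 * s + C₀))) +
            (4 * CK + E) * (s + CT)) * N := by
          rw [ENNReal.ofReal_add (by positivity) hXe, ENNReal.ofReal_mul (by positivity :
            (0 : ℝ) ≤ 4 * CH), ENNReal.ofReal_mul (by positivity : (0 : ℝ) ≤ 4 * CH),
            show ENNReal.ofReal 16 = 16 by simp]
          ring
      _ ≤ ENNReal.ofReal C * Γ + ENNReal.ofReal (C * (s + CT + C₀)) * N := by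
          refine add_le_add ?_ ?_
          · gcongr
          · gcongr
            have h5 : 4 * CH * (16 * ((4 * CK + E) * (s + CT)) + 2 * (C1 * (4 * s + C₀))) ≤
                4 * CH * ((16 * (4 * CK + E) + 8 * C1) * (s + CT + C₀)) :=
              mul_le_mul_of_nonneg_left hX1 (by positivity)
            calc 4 * CH * (16 * ((4 * CK + E) * (s + CT)) + 2 * (C1 * (4 * s + C₀))) +
                (4 * CK + E) * (s + CT) ≤
                4 * CH * ((16 * (4 * CK + E) + 8 * C1) * (s + CT + C₀)) +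
                (4 * CK + E) * (s + CT + C₀) := add_le_add h5 hb1
              _ = (4 * CH * (16 * (4 * CK + E) + 8 * C1) + (4 * CK + E)) * (s + CT + C₀) := by ring
              _ ≤ C * (s + CT + C₀) := by
                  exact mul_le_mul_of_nonneg_right hc4 hb3

end RFK
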