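import Pool.Agent.RFK.LW1

/-!
# MP_35334d_an: LW3, bounds for the energies (helper4)
-/

set_option autoImplicit false

open MeasureTheory Filter Topology Metric Set
open scoped ENNReal NNReal

namespace RFK

namespace LW3_

variable {n : ℕ} {σ : ℝ}

open LW1_

/-- the real inequality for the cross term -/
theorem cross_real (k e₁ e₂ f₁ : ℝ) (hk : 0 < k) (hk1 : k ≤ 1) (he₁ : 0 ≤ e₁) (hf₁ : 0 ≤ f₁) :
    |pos (k * e₁ - f₁) - k * e₂| ≤ |e₁ - e₂| + f₁ := by
  have h1 : k * |e₁ - e₂| ≤ |e₁ - e₂| := by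
    have := abs_nonneg (e₁ - e₂)
    nlinarith
  have h2 : k * (e₁ - e₂) ≤ k * |e₁ - e₂| := mul_le_mul_of_nonneg_left (le_abs_self _) hk.le
  have h3 : -(k * |e₁ - e₂|) ≤ k * (e₁ - e₂) := by
    have := mul_le_mul_of_nonneg_left (neg_abs_le (e₁ - e₂)) hk.le
    linarith
  unfold pos
  rcases le_total (k * e₁) f₁ with h | h
  · rw [max_eq_right (by linarith), abs_le]
    have h4 : 0 ≤ k * e₁ := mul_nonneg hk.le he₁
    constructor
    · nlinarith
    · nlinarith
  · rw [max_eq_left (by linarith), abs_le]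
    constructor
    · nlinarith
    · nlinarith

open Classical in
/-- the energy in the whole space -/
theorem ext_ineq (f : X n → ℝ) (hf : Measurable f) (hf0 : ∀ x, 0 ≤ f x) (k r' r : ℝ) (hk : 0 < k)
    (hk1 : k ≤ 1) (hrr : r' < r) :
    En σ univ (fun x => pos (k * cut r' r x - f x)) ≤
      En σ {x | 0 < f x} (fun x => pos (k * cut r' r x - f x)) +
      8 * Z σ (B r ∩ {x | f x < k}) (cut r' r) +
      4 * DI σ (B r \ {x | 0 < f x}) {x | 0 < f x} (fun _ y => sq (f y)) := by
  set Ω : Set (X n) := {x | 0 < f x} with hΩ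
  set η : X n → ℝ := cut r' r with hηd
  set M : Set (X n) := B r ∩ {x | f x < k} with hMd
  have hη : Measurable η := measurable_cut r' r
  have hΩm : MeasurableSet Ω := measurableSet_lt measurable_const hf
  have hBm : MeasurableSet (B r : Set (X n)) := measurableSet_ball
  have hMm : MeasurableSet M := hBm.inter (measurableSet_lt hf measurable_const)
  have hη0 : ∀ x, 0 ≤ η x := cut_nonneg r' r
  have hη1 : ∀ x, η x ≤ 1 := cut_le_one r' r
  have hfc : ∀ x ∈ Ωᶜ, f x = 0 := fun x hx => le_antisymm (not_lt.mp hx) (hf0 x)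
  have hout : ∀ x, x ∉ M → k * η x ≤ f x := by
    intro x hx
    by_contra hc
    rw [not_le] at hc
    apply hx
    have h1 : 0 < k * η x := lt_of_le_of_lt (hf0 x) hc
    have h2 : 0 < η x := by
      rcases (hη0 x).lt_or_eq with h | h
      · exact h
      · rw [← h, mul_zero] at h1
        exact absurd h1 (lt_irrefl _)
    refine ⟨?_, ?_⟩
    · rw [mem_ball_zero_iff]
      exact (cut_pos_iff hrr).mp h2
    · show f x < k
      calc f x < k * η x := hc
        _ ≤ k * 1 := by gcongr; exact hη1 x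
        _ = k := mul_one k
  set w : X n → ℝ := fun x => pos (k * η x - f x) with hwd
  have hw : Measurable w := measurable_pos.comp ((hη.const_mul k).sub hf)
  have hwM : ∀ x, x ∉ M → w x = 0 := fun x hx => pos_of_nonpos (by linarith [hout x hx])
  have hwc : ∀ x ∈ Ωᶜ, w x = k * η x := by
    intro x hx
    simp only [hwd]
    rw [hfc x hx, sub_zero, pos_of_nonneg (mul_nonneg hk.le (hη0 x))]
  have hηc : ∀ x ∈ Ωᶜ, x ∉ M → η x = 0 := by
    intro x hx hxM
    have h1 := hout x hxM
    rw [hfc x hx] at h1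
    have h2 := hη0 x
    by_contra hne
    have h3 : 0 < η x := lt_of_le_of_ne h2 (Ne.symm hne)
    have h4 : 0 < k * η x := mul_pos hk h3
    linarith
  have hmη := measurable_dsq hη
  have hi1 : Measurable (Function.uncurry fun x y : X n =>
      if x ∈ M then sq (η x - η y) else 0) := by
    have h1 : MeasurableSet {p : X n × X n | p.1 ∈ M} := measurable_fst hMm
    exact Measurable.ite h1 hmη measurable_const
  have hi2 : Measurable (Function.uncurry fun x y : X n =>
      if y ∈ M then sq (η x - η y) else 0) := by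
    have h1 : MeasurableSet {p : X n × X n | p.2 ∈ M} := measurable_snd hMm
    exact Measurable.ite h1 hmη measurable_const
  have hk2 : ∀ x y, sq (k * (η x - η y)) ≤ sq (η x - η y) := by
    intro x y
    apply sq_le
    rw [abs_mul, abs_of_pos hk]
    have := abs_nonneg (η x - η y)
    nlinarith
  have hcI : ∀ (P : Prop) (i₁ i₂ : Decidable P) (a b : ℝ≥0∞), @ite _ P i₁ a b = @ite _ P i₂ a b := by
    intro P i₁ i₂ a b
    congr
  -- the complement of `Ω`
  have step1 : En σ Ωᶜ w ≤ 2 * Z σ M η := by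
    rw [En_eq]
    have hp : ∀ x ∈ Ωᶜ, ∀ y ∈ Ωᶜ, sq (w x - w y) ≤
        (if x ∈ M then sq (η x - η y) else 0) + (if y ∈ M then sq (η x - η y) else 0) := by
      intro x hx y hy
      rw [hwc x hx, hwc y hy, ← mul_sub]
      by_cases hxM : x ∈ M
      · rw [if_pos hxM]
        exact (hk2 x y).trans le_self_add
      · by_cases hyM : y ∈ M
        · rw [if_pos hyM]
          exact (hk2 x y).trans le_add_self
        · rw [hηc x hx hxM, hηc y hy hyM, sub_zero, mul_zero, sq_zero]
          exact zero_le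
    have hI := DI_mono (σ := σ) hΩm.compl hΩm.compl hp
    rw [DI_add hi1] at hI
    refine hI.trans ?_
    rw [two_mul]
    have hA1 := DI_ind_left (σ := σ) hMm (A := Ωᶜ) (B' := Ωᶜ) (η := η)
    have hA2 := DI_ind_right (σ := σ) hMm (A := Ωᶜ) (B' := Ωᶜ) hη
    refine add_le_add ?_ ?_
    · refine le_trans (le_of_eq ?_) hA1
      congr 1
      funext x y
      exact hcI _ _ _ _ _
    · refine le_trans (le_of_eq ?_) hA2
      congr 1
      funext x y
      exact hcI _ _ _ _ _
  -- the cross term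
  have hf2 : Measurable fun x => sq (f x) := measurable_sq_comp hf
  have hi3 : Measurable (Function.uncurry fun x y : X n => if y ∈ M then sq (f x) else 0) := by
    have h1 : MeasurableSet {p : X n × X n | p.2 ∈ M} := measurable_snd hMm
    exact Measurable.ite h1 (hf2.comp measurable_fst) measurable_const
  have step2 : DI σ Ω Ωᶜ (fun x y => sq (w x - w y)) ≤
      3 * Z σ M η + 2 * DI σ (B r \ Ω) Ω (fun _ y => sq (f y)) := by
    have hp : ∀ x ∈ Ω, ∀ y ∈ Ωᶜ, sq (w x - w y) ≤
        (2 * (if y ∈ M then sq (η x - η y) else 0) + (if x ∈ M then sq (η x - η y) else 0)) +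
          2 * (if y ∈ M then sq (f x) else 0) := by
      intro x hx y hy
      by_cases hyM : y ∈ M
      · rw [if_pos hyM, if_pos hyM, hwc y hy]
        have h1 := cross_real k (η x) (η y) (f x) hk hk1 (hη0 x) (hf0 x)
        have h2 : sq (w x - k * η y) ≤ sq (|η x - η y| + f x) := by
          apply sq_le
          rw [abs_of_nonneg (add_nonneg (abs_nonneg (η x - η y)) (hf0 x))]
          exact h1
        have h3 : sq |η x - η y| = sq (η x - η y) := by
          unfold sq
          rw [sq_abs]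
        calc sq (w x - k * η y) ≤ sq (|η x - η y| + f x) := h2
          _ ≤ 2 * sq |η x - η y| + 2 * sq (f x) := sq_add_le _ _
          _ = 2 * sq (η x - η y) + 2 * sq (f x) := by rw [h3]
          _ ≤ (2 * sq (η x - η y) + (if x ∈ M then sq (η x - η y) else 0)) + 2 * sq (f x) := by
              gcongr
              exact le_self_add
      · rw [if_neg hyM, if_neg hyM, mul_zero, zero_add, add_zero, hwM y hyM, sub_zero]
        by_cases hxM : x ∈ M
        · rw [if_pos hxM, hηc y hy hyM, sub_zero]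
          apply sq_le
          rw [abs_of_nonneg (pos_nonneg _), abs_of_nonneg (hη0 x)]
          have h5 : k * η x ≤ η x := by
            have := hη0 x
            nlinarith
          have h6 : pos (k * η x - f x) ≤ pos (η x) := pos_mono (by linarith [hf0 x])
          rwa [pos_of_nonneg (hη0 x)] at h6
        · rw [hwM x hxM, sq_zero]
          exact zero_le
    have hI := DI_mono (σ := σ) hΩm hΩm.compl hp
    rw [DI_add ((hi2.const_mul 2).add hi1), DI_add (hi2.const_mul 2), DI_const_mul (by simp),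
      DI_const_mul (by simp)] at hI
    refine hI.trans ?_
    have hA1 : DI σ Ω Ωᶜ (fun x y => if x ∈ M then sq (η x - η y) else 0) ≤ Z σ M η := by
      refine le_trans (le_of_eq ?_) (DI_ind_left (σ := σ) hMm (A := Ω) (B' := Ωᶜ) (η := η))
      congr 1
      funext x y
      exact hcI _ _ _ _ _
    have hA2 : DI σ Ω Ωᶜ (fun x y => if y ∈ M then sq (η x - η y) else 0) ≤ Z σ M η := by
      refine le_trans (le_of_eq ?_) (DI_ind_right (σ := σ) hMm (A := Ω) (B' := Ωᶜ) hη)
      congr 1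
      funext x y
      exact hcI _ _ _ _ _
    have hA3 : DI σ Ω Ωᶜ (fun x y => if y ∈ M then sq (f x) else 0) ≤
        DI σ (B r \ Ω) Ω (fun _ y => sq (f y)) := by
      rw [DI_swap hi3]
      unfold DI
      rw [← lintegral_indicator hΩm.compl, ← lintegral_indicator (hBm.diff hΩm)]
      apply lintegral_mono
      intro x
      by_cases hx : x ∈ Ωᶜ
      · rw [indicator_of_mem hx]
        by_cases hxM : x ∈ M
        · rw [indicator_of_mem (show x ∈ B r \ Ω from ⟨hxM.1, hx⟩)]
          simp only [if_pos hxM]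
          exact le_rfl
        · simp only [if_neg hxM, zero_mul, lintegral_zero]
          exact zero_le
      · rw [indicator_of_notMem hx]
        exact zero_le
    calc 2 * DI σ Ω Ωᶜ (fun x y => if y ∈ M then sq (η x - η y) else 0) +
          DI σ Ω Ωᶜ (fun x y => if x ∈ M then sq (η x - η y) else 0) +
          2 * DI σ Ω Ωᶜ (fun x y => if y ∈ M then sq (f x) else 0)
        ≤ 2 * Z σ M η + Z σ M η + 2 * DI σ (B r \ Ω) Ω (fun _ y => sq (f y)) := by
          gcongr
      _ = 3 * Z σ M η + 2 * DI σ (B r \ Ω) Ω (fun _ y => sq (f y)) := by ring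
  have hun : (univ : Set (X n)) = Ω ∪ Ωᶜ := (union_compl_self Ω).symm
  rw [hun, En_union hΩm.compl disjoint_compl_right hw]
  calc En σ Ω w + 2 * DI σ Ω Ωᶜ (fun x y => sq (w x - w y)) + En σ Ωᶜ w
      ≤ En σ Ω w + 2 * (3 * Z σ M η + 2 * DI σ (B r \ Ω) Ω (fun _ y => sq (f y))) +
        2 * Z σ M η := by gcongr
    _ = En σ Ω w + 8 * Z σ M η + 4 * DI σ (B r \ Ω) Ω (fun _ y => sq (f y)) := by ring

/-- splitting of the energy outside -/
theorem sig_split (f : X n → ℝ) (hf : Measurable f) {ρ r : ℝ} (h : ρ ≤ r) :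
    DI σ (B r \ {x | 0 < f x}) {x | 0 < f x} (fun _ y => sq (f y)) =
      DI σ (B ρ \ {x | 0 < f x}) {x | 0 < f x} (fun _ y => sq (f y)) +
      DI σ ((B r \ B ρ) \ {x | 0 < f x}) {x | 0 < f x} (fun _ y => sq (f y)) := by
  have hΩm : MeasurableSet {x : X n | 0 < f x} := measurableSet_lt measurable_const hf
  have h1 : (B r \ {x : X n | 0 < f x}) =
      (B ρ \ {x : X n | 0 < f x}) ∪ ((B r \ B ρ) \ {x : X n | 0 < f x}) := by
    ext x
    have h2 : x ∈ (B ρ : Set (X n)) → x ∈ (B r : Set (X n)) := fun hx => ball_subset_ball h hx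
    simp only [Set.mem_sdiff, mem_union]
    tauto
  have hd : Disjoint (B ρ \ {x : X n | 0 < f x}) ((B r \ B ρ) \ {x : X n | 0 < f x}) := by
    rw [Set.disjoint_left]
    intro x hx hy
    exact hy.1.2 hx.1
  rw [h1]
  exact DI_union_left ((measurableSet_ball.diff measurableSet_ball).diff hΩm) hd _

/-- finiteness -/
theorem sig_le (f : X n → ℝ) (hf : Measurable f) (hf0 : ∀ x, 0 ≤ f x) (A : Set (X n))
    (hA : MeasurableSet A) :
    DI σ (A \ {x | 0 < f x}) {x | 0 < f x} (fun _ y => sq (f y)) ≤ En σ univ f := by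
  have hΩm : MeasurableSet {x : X n | 0 < f x} := measurableSet_lt measurable_const hf
  refine le_trans (DI_mono (hA.diff hΩm) hΩm ?_) (DI_le_En f)
  intro x hx y _
  have h1 : f x = 0 := le_antisymm (not_lt.mp hx.2) (hf0 x)
  rw [h1, zero_sub, sq_neg]

end LW3_

open LW1_ LW3_ in
theorem p_LW3 (hL : T_LW2) (hG : T_GIA) (hK : T_KCU) : T_LW3 := by
  intro n σ hok
  obtain ⟨ϑ, C2, hϑ, hϑ2, hC2, H⟩ := hL n σ hok
  obtain ⟨CK, hCK⟩ := hK n σ hok
  have hσ0 : 0 < σ := by linarith [hok.2.1]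
  obtain ⟨Cg, hCg, HG⟩ := hG (C2 / (1 + C2)) (2 * σ) (by positivity)
    (by rw [div_lt_one (by positivity)]; linarith) (by linarith)
  refine ⟨ϑ, (C2 + 4) * (4 * Cg) + 4 * C2 + 128 * (CK : ℝ), hϑ, hϑ2, by positivity, ?_⟩
  intro f C₀ CT hf k r₁ r₂ hk hk1 hr1 hr12 hr2
  have hk0 : 0 < k := by linarith
  have hfm := hf.meas
  have hf0 := hf.nonneg
  have hC0 := hf.C0
  have hCT := hf.CT0
  set rm : ℝ := (r₁ + r₂) / 2 with hrm
  have h1m : r₁ < rm := by rw [hrm]; linarith
  have hm2 : rm < r₂ := by rw [hrm]; linarith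
  refine ⟨(r₁ + rm) / 2, rm, by linarith, by linarith, hm2.le, ?_⟩
  set V : ℝ≥0∞ := volume (B r₂ ∩ {x : X n | f x < k}) with hV
  have hVf : V ≠ ∞ := ne_top_of_le_ne_top measure_ball_lt_top.ne (measure_mono inter_subset_left)
  set N : ℝ := V.toReal with hN
  have hN0 : 0 ≤ N := ENNReal.toReal_nonneg
  have hVN : V = ENNReal.ofReal N := (ENNReal.ofReal_toReal hVf).symm
  set P : ℝ := (r₂ - r₁) ^ (-(2 * σ)) with hP
  have hP0 : 0 < P := Real.rpow_pos_of_pos (by linarith) _
  -- the function Σ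
  set S : ℝ → ℝ≥0∞ := fun t => DI σ (B t \ {x : X n | 0 < f x}) {x | 0 < f x} (fun _ y => sq (f y))
    with hS
  have hSf : ∀ t, S t ≠ ∞ := fun t =>
    ne_top_of_le_ne_top hf.fin (sig_le f hfm hf0 _ measurableSet_ball)
  have hTf : ∀ ρ r : ℝ,
      DI σ ((B r \ B ρ) \ {x : X n | 0 < f x}) {x | 0 < f x} (fun _ y => sq (f y)) ≠ ∞ :=
    fun ρ r => ne_top_of_le_ne_top hf.fin
      (sig_le f hfm hf0 _ (measurableSet_ball.diff measurableSet_ball))
  have hsp : ∀ ρ r : ℝ, ρ ≤ r → (S r).toReal = (S ρ).toReal +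
      (DI σ ((B r \ B ρ) \ {x : X n | 0 < f x}) {x | 0 < f x} (fun _ y => sq (f y))).toReal := by
    intro ρ r h
    rw [← ENNReal.toReal_add (hSf ρ) (hTf ρ r)]
    congr 1
    exact sig_split f hfm h
  have hVr : ∀ r : ℝ, r ≤ r₂ → volume (B r ∩ {x : X n | f x < k}) ≤ V := fun r h =>
    measure_mono (inter_subset_inter_left _ (ball_subset_ball h))
  have hq : ∀ d c : ℝ, 0 < d → 0 < c → (d / c) ^ (-(2 * σ)) = c ^ (2 * σ) * d ^ (-(2 * σ)) := by
    intro d c hd hc
    rw [Real.div_rpow hd.le hc.le, Real.rpow_neg hc.le, div_inv_eq_mul, mul_comm]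
  have h2s : (2 : ℝ) ^ (2 * σ) ≤ 4 := by
    calc (2 : ℝ) ^ (2 * σ) ≤ 2 ^ (2 : ℝ) :=
          Real.rpow_le_rpow_of_exponent_le (by norm_num) (by linarith [hok.2.2])
      _ = 4 := by norm_num
  have h4s : (4 : ℝ) ^ (2 * σ) ≤ 16 := by
    calc (4 : ℝ) ^ (2 * σ) ≤ 4 ^ (2 : ℝ) :=
          Real.rpow_le_rpow_of_exponent_le (by norm_num) (by linarith [hok.2.2])
      _ = 16 := by norm_num
  -- Giaquinta
  have hG1 : (S rm).toReal ≤ 4 * Cg * ((P + CT + C₀) * N) := by
    have h := HG (fun t => (S t).toReal) rm r₂ N ((CT + C₀) * N) (S r₂).toReal hm2 hN0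
      (by positivity) (by
        intro t ht
        refine ⟨ENNReal.toReal_nonneg, ?_⟩
        rw [hsp t r₂ ht.2]
        linarith [ENNReal.toReal_nonneg (a := DI σ ((B r₂ \ B t) \ {x : X n | 0 < f x})
          {x | 0 < f x} (fun _ y => sq (f y)))]) (by
        intro ρ r hρ hρr hr
        have h2 := (H f C₀ CT hf k ρ r hk hk1 (by linarith) hρr (by linarith)).2
        set Tr : ℝ≥0∞ := DI σ ((B r \ B ρ) \ {x : X n | 0 < f x}) {x | 0 < f x}
          (fun _ y => sq (f y)) with hTr
        have hTr' : Tr ≠ ∞ := hTf ρ r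
        set p : ℝ := (r - ρ) ^ (-(2 * σ)) with hp
        have hp0 : 0 < p := Real.rpow_pos_of_pos (by linarith) _
        have h3 : S ρ ≤ ENNReal.ofReal (C2 * Tr.toReal + C2 * (p + CT + C₀) * N) := by
          rw [ENNReal.ofReal_add (by positivity) (by positivity), ENNReal.ofReal_mul hC2.le,
            ENNReal.ofReal_mul (by positivity), ENNReal.ofReal_toReal hTr', ← hVN]
          refine h2.trans ?_
          gcongr
          exact hVr r hr
        have h4 : (S ρ).toReal ≤ C2 * Tr.toReal + C2 * (p + CT + C₀) * N := by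
          have h5 := ENNReal.toReal_mono ENNReal.ofReal_ne_top h3
          rwa [ENNReal.toReal_ofReal (by positivity)] at h5
        have h6 := hsp ρ r hρr.le
        rw [← hTr] at h6
        have h7 : (1 + C2) * (S ρ).toReal ≤ C2 * (S r).toReal + C2 * (p + CT + C₀) * N := by
          have : C2 * (S r).toReal = C2 * (S ρ).toReal + C2 * Tr.toReal := by rw [h6]; ring
          linarith
        have h8 : (S ρ).toReal ≤ (C2 * (S r).toReal + C2 * (p + CT + C₀) * N) / (1 + C2) := by
          rw [le_div_iff₀ (by positivity)]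
          linarith
        have h9 : C2 / (1 + C2) ≤ 1 := by
          rw [div_le_one (by positivity)]
          linarith
        have h10 : C2 / (1 + C2) * ((p + CT + C₀) * N) ≤ 1 * ((p + CT + C₀) * N) :=
          mul_le_mul_of_nonneg_right h9 (by positivity)
        calc (S ρ).toReal ≤ (C2 * (S r).toReal + C2 * (p + CT + C₀) * N) / (1 + C2) := h8
          _ = C2 / (1 + C2) * (S r).toReal + C2 / (1 + C2) * ((p + CT + C₀) * N) := by ring
          _ ≤ C2 / (1 + C2) * (S r).toReal + 1 * ((p + CT + C₀) * N) := by linarith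
          _ = C2 / (1 + C2) * (S r).toReal + N * p + (CT + C₀) * N := by ring)
    refine h.trans ?_
    have h11 : r₂ - rm = (r₂ - r₁) / 2 := by rw [hrm]; ring
    rw [h11, hq (r₂ - r₁) 2 (by linarith) (by norm_num), ← hP]
    have h12 : (2 : ℝ) ^ (2 * σ) * P ≤ 4 * P := mul_le_mul_of_nonneg_right h2s hP0.le
    have h13 : N * ((2 : ℝ) ^ (2 * σ) * P) ≤ N * (4 * P) := mul_le_mul_of_nonneg_left h12 hN0
    have h14 : 0 ≤ (CT + C₀) * N := by positivity
    calc Cg * (N * ((2 : ℝ) ^ (2 * σ) * P) + (CT + C₀) * N)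
        ≤ Cg * (N * (4 * P) + 4 * ((CT + C₀) * N)) := by
          apply mul_le_mul_of_nonneg_left _ hCg.le
          linarith
      _ = 4 * Cg * ((P + CT + C₀) * N) := by ring
  have hSrm : S rm ≤ ENNReal.ofReal (4 * Cg * ((P + CT + C₀) * N)) := by
    rw [← ENNReal.ofReal_toReal (hSf rm)]
    exact ENNReal.ofReal_le_ofReal hG1
  -- (i)
  have hi := (H f C₀ CT hf k r₁ rm hk hk1 hr1 h1m (by linarith)).1
  have hdm : rm - r₁ = (r₂ - r₁) / 2 := by rw [hrm]; ring
  have hp1 : (rm - r₁) ^ (-(2 * σ)) ≤ 4 * P := by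
    rw [hdm, hq (r₂ - r₁) 2 (by linarith) (by norm_num), ← hP]
    exact mul_le_mul_of_nonneg_right h2s hP0.le
  have hi' : En σ {x | 0 < f x} (fun x : X n => pos (k * cut ((r₁ + rm) / 2) rm x - f x)) ≤
      ENNReal.ofReal (C2 * (4 * Cg * ((P + CT + C₀) * N)) + 4 * C2 * ((P + CT + C₀) * N)) := by
    refine hi.trans ?_
    rw [ENNReal.ofReal_add (by positivity) (by positivity)]
    refine add_le_add ?_ ?_
    · rw [ENNReal.ofReal_mul hC2.le]
      gcongr
      refine le_trans ?_ hSrm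
      exact DI_mono_set (show (B rm \ B r₁) \ {x : X n | 0 < f x} ⊆ B rm \ {x : X n | 0 < f x} from
        fun x hx => ⟨hx.1.1, hx.2⟩) (subset_refl _) _
    · refine (mul_le_mul_right (hVr rm hm2.le) _).trans ?_
      rw [hVN, ← ENNReal.ofReal_mul (by positivity)]
      apply ENNReal.ofReal_le_ofReal
      have h15 : (rm - r₁) ^ (-(2 * σ)) + CT + C₀ ≤ 4 * (P + CT + C₀) := by linarith
      calc C2 * ((rm - r₁) ^ (-(2 * σ)) + CT + C₀) * N ≤ C2 * (4 * (P + CT + C₀)) * N := by
            gcongr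
        _ = 4 * C2 * ((P + CT + C₀) * N) := by ring
  -- the cut-off function
  have hd : 0 < rm - (r₁ + rm) / 2 := by linarith
  have hcut : Cut (cut ((r₁ + rm) / 2) rm : X n → ℝ) (rm - (r₁ + rm) / 2) :=
    ⟨hd, fun x => ⟨cut_nonneg _ rm x, cut_le_one _ rm x⟩, fun x y => cut_lip (by linarith) x y⟩
  have hdd : rm - (r₁ + rm) / 2 = (r₂ - r₁) / 4 := by rw [hrm]; ring
  have hZ : Z σ (B rm ∩ {x | f x < k}) (cut ((r₁ + rm) / 2) rm : X n → ℝ) ≤
      ENNReal.ofReal ((CK : ℝ) * (16 * P) * N) := by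
    unfold Z
    calc ∫⁻ x in (B rm ∩ {x : X n | f x < k}), ∫⁻ y,
          sq (cut ((r₁ + rm) / 2) rm x - cut ((r₁ + rm) / 2) rm y) * K σ (x - y)
        ≤ ∫⁻ _ in (B rm ∩ {x : X n | f x < k}),
            CK * ENNReal.ofReal ((rm - (r₁ + rm) / 2) ^ (-(2 * σ))) :=
          lintegral_mono fun x => hCK _ _ hcut x
      _ = CK * ENNReal.ofReal ((rm - (r₁ + rm) / 2) ^ (-(2 * σ))) *
            volume (B rm ∩ {x : X n | f x < k}) := by rw [setLIntegral_const]
      _ ≤ CK * ENNReal.ofReal (16 * P) * V := by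
          gcongr
          · rw [hdd, hq (r₂ - r₁) 4 (by linarith) (by norm_num), ← hP]
            exact mul_le_mul_of_nonneg_right h4s hP0.le
          · exact hVr rm hm2.le
      _ = ENNReal.ofReal ((CK : ℝ) * (16 * P) * N) := by
          rw [hVN, ENNReal.ofReal_mul (p := (CK : ℝ) * (16 * P)) (by positivity),
            ENNReal.ofReal_mul (p := (CK : ℝ)) (by positivity), ENNReal.ofReal_coe_nnreal]
  have hE := ext_ineq (σ := σ) f hfm hf0 k ((r₁ + rm) / 2) rm hk0 hk1 (by linarith)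
  refine hE.trans ?_
  calc En σ {x | 0 < f x} (fun x : X n => pos (k * cut ((r₁ + rm) / 2) rm x - f x)) +
        8 * Z σ (B rm ∩ {x | f x < k}) (cut ((r₁ + rm) / 2) rm) + 4 * S rm
      ≤ ENNReal.ofReal (C2 * (4 * Cg * ((P + CT + C₀) * N)) + 4 * C2 * ((P + CT + C₀) * N)) +
        8 * ENNReal.ofReal ((CK : ℝ) * (16 * P) * N) +
        4 * ENNReal.ofReal (4 * Cg * ((P + CT + C₀) * N)) := by gcongr
    _ = ENNReal.ofReal (C2 * (4 * Cg * ((P + CT + C₀) * N)) + 4 * C2 * ((P + CT + C₀) * N) +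
        8 * ((CK : ℝ) * (16 * P) * N) + 4 * (4 * Cg * ((P + CT + C₀) * N))) := by
        rw [show (8 : ℝ≥0∞) = ENNReal.ofReal 8 by simp, show (4 : ℝ≥0∞) = ENNReal.ofReal 4 by simp,
          ← ENNReal.ofReal_mul (by positivity), ← ENNReal.ofReal_mul (by positivity),
          ← ENNReal.ofReal_add (by positivity) (by positivity),
          ← ENNReal.ofReal_add (by positivity) (by positivity)]
    _ ≤ ENNReal.ofReal (((C2 + 4) * (4 * Cg) + 4 * C2 + 128 * (CK : ℝ)) * (P + CT + C₀)) * V := by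
        rw [hVN, ← ENNReal.ofReal_mul (by positivity)]
        apply ENNReal.ofReal_le_ofReal
        have h16 : 0 ≤ (CK : ℝ) * (CT + C₀) * N := by positivity
        nlinarith

end RFK
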