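import Pool.Agent.RFK.TargetsE

/-!
# MP_35334d_an: minimizers may be changed on null sets (helper34)
-/

set_option autoImplicit false

open MeasureTheory Filter Topology Metric Set
open scoped ENNReal NNReal

namespace RFK

namespace MCO_

variable {n : ℕ} {σ : ℝ}

theorem En_congr {E E' : Set (X n)} {u g : X n → ℝ} (hE : E =ᵐ[volume] E')
    (h : ∀ᵐ x, u x = g x) : En σ E u = En σ E' g := by
  unfold En
  rw [Measure.restrict_congr_set hE]
  have h' : ∀ᵐ x ∂(volume.restrict E'), u x = g x := ae_restrict_of_ae h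
  apply lintegral_congr_ae
  filter_upwards [h'] with x hx
  apply lintegral_congr_ae
  filter_upwards [h'] with y hy
  rw [hx, hy]

theorem pos_congr {u g : X n → ℝ} (h : ∀ᵐ x, u x = g x) :
    ({x | 0 < u x} : Set (X n)) =ᵐ[volume] {x | 0 < g x} := by
  filter_upwards [h] with x hx
  apply propext
  change 0 < u x ↔ 0 < g x
  rw [hx]

theorem J_congr {u g : X n → ℝ} (h : ∀ᵐ x, u x = g x) : J σ u = J σ g := by
  unfold J
  rw [En_congr (pos_congr h) h, measure_congr (pos_congr h)]
  have h1 : ∫⁻ x, ENNReal.ofReal (u x ^ 2) = ∫⁻ x, ENNReal.ofReal (g x ^ 2) := by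
    apply lintegral_congr_ae
    filter_upwards [h] with x hx
    rw [hx]
  rw [h1]

theorem InH_congr {u g : X n → ℝ} (h : ∀ᵐ x, u x = g x) (hu : InH σ u) : InH σ g := by
  obtain ⟨φ, h1, h2, h3⟩ := hu
  refine ⟨φ, h1, ?_, ?_⟩
  · have h4 : (fun k => En σ univ (fun x => φ k x - g x)) =
        fun k => En σ univ (fun x => φ k x - u x) := by
      funext k
      apply En_congr (ae_eq_refl _)
      filter_upwards [h] with x hx
      rw [hx]
    rw [h4]
    exact h2
  · filter_upwards [h, h3] with x hx hx3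
    rw [← hx]
    exact hx3

theorem Adm_congr {u g : X n → ℝ} (h : ∀ᵐ x, u x = g x) (hu : Adm σ u) : Adm σ g := by
  obtain ⟨h1, h2, h3⟩ := hu
  refine ⟨InH_congr h h1, ?_, ?_⟩
  · filter_upwards [h, h2] with x hx hx2
    rw [← hx]
    exact hx2
  · intro hg
    apply h3
    filter_upwards [h, hg] with x hx hx2
    rw [hx, hx2]

end MCO_

theorem p_MCO : T_MCO := by
  intro n σ u g hu h
  refine ⟨MCO_.Adm_congr h hu.1, ?_⟩
  intro v hv
  rw [← MCO_.J_congr h]
  exact hu.2 v hv

end RFK
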