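import Pool.Agent.RFK.TargetsE

/-!
# MP_35334d_an: NAD, normalisation of admissible functions (helper9)
-/

set_option autoImplicit false

open MeasureTheory Filter Topology Metric Set
open scoped ENNReal NNReal

namespace RFK

namespace NAD_

variable {n : ℕ} {σ : ℝ}

/-- the energy does not see null sets -/
theorem En_congr {A A' : Set (X n)} {u u' : X n → ℝ} (hA : A =ᵐ[volume] A')
    (hu : ∀ᵐ x, u x = u' x) : En σ A u = En σ A' u' := by
  unfold En
  rw [setLIntegral_congr hA]
  apply lintegral_congr_ae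
  filter_upwards [ae_restrict_of_ae hu] with x hx
  rw [setLIntegral_congr hA]
  apply lintegral_congr_ae
  filter_upwards [ae_restrict_of_ae hu] with y hy
  rw [hx, hy]

/-- the positivity sets of functions which agree almost everywhere -/
theorem posSet_congr {u u' : X n → ℝ} (hu : ∀ᵐ x, u x = u' x) :
    {x | 0 < u x} =ᵐ[volume] {x | 0 < u' x} := by
  filter_upwards [hu] with x hx
  show (0 < u x) = (0 < u' x)
  rw [hx]

/-- `J` does not see null sets -/
theorem J_congr {u u' : X n → ℝ} (hu : ∀ᵐ x, u x = u' x) : J σ u = J σ u' := by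
  unfold J
  rw [En_congr (posSet_congr hu) hu, measure_congr (posSet_congr hu)]
  congr 2
  apply lintegral_congr_ae
  filter_upwards [hu] with x hx
  rw [hx]

/-- scaling of the energy -/
theorem En_mul_const (E : Set (X n)) (v : X n → ℝ) (a : ℝ) :
    En σ E (fun x => v x * a) = sq a * En σ E v := by
  rw [En_eq, En_eq, ← DI_const_mul (sq_ne_top _)]
  congr 1
  funext x y
  rw [← sub_mul, sq_mul, mul_comm]

end NAD_

open NAD_

theorem p_NAD (hH : T_HFI) (hP : T_POI) : T_NAD := by
  intro n σ hOK v hv hJ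
  obtain ⟨hvH, hv0, hvne⟩ := hv
  obtain ⟨hm, hfin⟩ := hH n σ hOK v hvH
  -- a measurable nonnegative version
  set v' : X n → ℝ := fun x => max (hm.mk v x) 0 with hv'
  have hv'm : Measurable v' := hm.measurable_mk.max measurable_const
  have hv'0 : ∀ x, 0 ≤ v' x := fun x => le_max_right _ _
  have hvv' : ∀ᵐ x, v x = v' x := by
    filter_upwards [hm.ae_eq_mk, hv0] with x hx hx0
    rw [hv']
    simp only
    rw [← hx, max_eq_left hx0]
  have hJ' : J σ v = J σ v' := J_congr hvv'
  have hEn' : En σ univ v' ≠ ∞ := by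
    have hE : En σ univ v = En σ univ v' := En_congr (ae_eq_refl _) hvv'
    rw [← hE]
    exact hfin
  rw [hJ'] at hJ ⊢
  have hvol : volume {x | 0 < v' x} ≠ ∞ := by
    intro h
    apply hJ
    unfold J
    rw [h, add_top]
  -- finiteness of the norm
  set I : ℝ≥0∞ := ∫⁻ x, sq (v' x) with hI
  have hI1 : I ≠ ∞ := by
    obtain ⟨C, hC⟩ := hP n σ hOK
    have h1 := hC {x | 0 < v' x} v' (measurableSet_lt measurable_const hv'm) hvol hv'm (by
      intro x hx
      exact le_antisymm (not_lt.mp hx) (hv'0 x))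
    refine ne_top_of_le_ne_top ?_ h1
    apply ENNReal.mul_ne_top _ hEn'
    apply ENNReal.mul_ne_top ENNReal.coe_ne_top
    apply ENNReal.rpow_ne_top_of_nonneg _ hvol
    have h2 : 1 / 2 < σ := hOK.2.1
    positivity
  have hI0 : I ≠ 0 := by
    intro h
    rw [hI, lintegral_eq_zero_iff (measurable_sq_comp hv'm)] at h
    apply hvne
    filter_upwards [h, hvv'] with x hx hx'
    rw [hx']
    have h3 : sq (v' x) = 0 := hx
    unfold sq at h3
    rw [ENNReal.ofReal_eq_zero] at h3
    have h4 : v' x ^ 2 = 0 := le_antisymm h3 (sq_nonneg _)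
    exact pow_eq_zero_iff (two_ne_zero) |>.mp h4
  have hIr : 0 < I.toReal := ENNReal.toReal_pos hI0 hI1
  set a : ℝ := (Real.sqrt I.toReal)⁻¹ with ha
  have ha0 : 0 < a := by positivity
  have hsqa : sq a = I⁻¹ := by
    unfold sq
    rw [ha, inv_pow, Real.sq_sqrt hIr.le, ENNReal.ofReal_inv_of_pos hIr,
      ENNReal.ofReal_toReal hI1]
  have hset : {x | 0 < v' x * a} = {x | 0 < v' x} := by
    ext x
    exact mul_pos_iff_of_pos_right ha0
  refine ⟨fun x => v' x * a, ⟨hv'm.mul_const a, fun x => mul_nonneg (hv'0 x) ha0.le, ?_, ?_, ?_⟩,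
    ?_⟩
  · simp_rw [sq_mul]
    rw [lintegral_mul_const' _ _ (sq_ne_top _), hsqa]
    exact ENNReal.mul_inv_cancel hI0 hI1
  · rw [En_mul_const]
    exact ENNReal.mul_ne_top (sq_ne_top _) hEn'
  · rw [hset]
    exact hvol
  · unfold FF J
    rw [hset, En_mul_const, hsqa, ENNReal.div_eq_inv_mul]
    rfl

end RFK
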