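import Pool.Agent.RFK.Targets

/-!
# MP_35334d_an: NRM, normalisation of a minimizer (helper15)
-/

set_option autoImplicit false

open MeasureTheory Filter Topology Metric Set
open scoped ENNReal NNReal

namespace RFK

namespace NRM_

variable {n : ℕ} {σ : ℝ}

theorem En_congr_ae {E F : Set (X n)} (hEF : E =ᵐ[volume] F) {u v : X n → ℝ}
    (h : u =ᵐ[volume] v) : En σ E u = En σ F v := by
  unfold En
  rw [setLIntegral_congr hEF]
  apply lintegral_congr_ae
  filter_upwards [ae_restrict_of_ae h] with x hx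
  rw [setLIntegral_congr hEF]
  apply lintegral_congr_ae
  filter_upwards [ae_restrict_of_ae h] with y hy
  rw [hx, hy]

theorem pset_congr {u v : X n → ℝ} (h : u =ᵐ[volume] v) :
    ({x | 0 < u x} : Set (X n)) =ᵐ[volume] {x | 0 < v x} := by
  filter_upwards [h] with x hx
  have : (0 < u x) = (0 < v x) := by rw [hx]
  exact this

theorem J_congr {u v : X n → ℝ} (h : u =ᵐ[volume] v) : J σ u = J σ v := by
  unfold J
  rw [En_congr_ae (pset_congr h) h, measure_congr (pset_congr h)]
  congr 2
  apply lintegral_congr_ae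
  filter_upwards [h] with x hx
  rw [hx]

theorem En_smul (a : ℝ) (E : Set (X n)) (u : X n → ℝ) :
    En σ E (fun x => a * u x) = sq a * En σ E u := by
  rw [En_eq, En_eq, ← DI_const_mul (sq_ne_top a)]
  congr 1
  funext x y
  rw [← sq_mul, mul_sub]

end NRM_

open NRM_ in
/-- NRM: every minimizer is a positive multiple of a normalised minimizer -/
theorem p_NRM (hHFI : T_HFI) (hDEN : T_DEN) (hJFI : T_JFI) (hPOI : T_POI) : T_NRM := by
  intro n σ hOK u hu
  obtain ⟨⟨hH, hnn, hne⟩, hmin⟩ := hu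
  obtain ⟨haem, hfin⟩ := hHFI n σ hOK u hH
  obtain ⟨hn2, hs1, hs2⟩ := hOK
  have hn0 : (0 : ℝ) < n := by
    have : 0 < n := by omega
    exact_mod_cast this
  -- the measurable nonnegative version
  set u' : X n → ℝ := fun x => max (haem.mk u x) 0 with hu'def
  have hu'm : Measurable u' := haem.measurable_mk.max measurable_const
  have hu'0 : ∀ x, 0 ≤ u' x := fun x => le_max_right _ _
  have huu' : u =ᵐ[volume] u' := by
    filter_upwards [haem.ae_eq_mk, hnn] with x hx hx0
    simp only [hu'def]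
    rw [← hx, max_eq_left hx0]
  have hne' : ¬ (∀ᵐ x, u' x = 0) := by
    intro h
    apply hne
    filter_upwards [h, huu'] with x hx hx'
    rw [hx', hx]
  have hfin' : En σ univ u' ≠ ∞ := by
    have h1 : En σ univ u = En σ univ u' :=
      En_congr_ae (E := univ) (F := univ) (Filter.EventuallyEq.refl _ _) huu'
    rw [← h1]
    exact hfin
  -- `J` is finite
  have hJ : J σ u' ≠ ∞ := by
    obtain ⟨v, hv, hvJ⟩ := hJFI n σ ⟨hn2, hs1, hs2⟩
    rw [← J_congr huu']
    exact ne_top_of_le_ne_top hvJ (hmin v hv)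
  have hvol : volume {x | 0 < u' x} ≠ ∞ := by
    unfold J at hJ
    exact (ENNReal.add_ne_top.mp hJ).2
  have hDm : MeasurableSet {x | 0 < u' x} := measurableSet_lt measurable_const hu'm
  -- the norm
  set N : ℝ≥0∞ := ∫⁻ x, sq (u' x) with hN
  have hNtop : N ≠ ∞ := by
    obtain ⟨C, hC⟩ := hPOI n σ ⟨hn2, hs1, hs2⟩
    have h1 := hC {x | 0 < u' x} u' hDm hvol hu'm (by
      intro x hx
      exact le_antisymm (not_lt.mp hx) (hu'0 x))
    refine ne_top_of_le_ne_top ?_ h1
    refine ENNReal.mul_ne_top (ENNReal.mul_ne_top ENNReal.coe_ne_top ?_) hfin'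
    exact ENNReal.rpow_ne_top_of_nonneg (by positivity) hvol
  have hN0 : N ≠ 0 := by
    intro h
    apply hne'
    rw [hN, lintegral_eq_zero_iff (measurable_sq_comp hu'm)] at h
    filter_upwards [h] with x hx
    have h2 : u' x ^ 2 ≤ 0 := by
      have : ENNReal.ofReal (u' x ^ 2) = 0 := hx
      exact ENNReal.ofReal_eq_zero.mp this
    have h3 : u' x ^ 2 = 0 := le_antisymm h2 (sq_nonneg _)
    exact pow_eq_zero_iff (two_ne_zero) |>.mp h3
  have hNr : 0 < N.toReal := ENNReal.toReal_pos hN0 hNtop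
  set c : ℝ := Real.sqrt N.toReal with hc
  have hc0 : 0 < c := Real.sqrt_pos.mpr hNr
  have hcN : sq c⁻¹ = N⁻¹ := by
    unfold sq
    rw [inv_pow, hc, Real.sq_sqrt hNr.le, ENNReal.ofReal_inv_of_pos hNr, ENNReal.ofReal_toReal hNtop]
  set w : X n → ℝ := fun x => c⁻¹ * u' x with hw
  have hwset : {x | 0 < w x} = {x | 0 < u' x} := by
    ext x
    change 0 < c⁻¹ * u' x ↔ 0 < u' x
    exact mul_pos_iff_of_pos_left (inv_pos.mpr hc0)
  have hwm : Measurable w := hu'm.const_mul _
  have hEnw : ∀ E : Set (X n), En σ E w = N⁻¹ * En σ E u' := by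
    intro E
    rw [hw, En_smul, hcN]
  have hEnwtop : En σ univ w ≠ ∞ := by
    rw [hEnw]
    exact ENNReal.mul_ne_top (ENNReal.inv_ne_top.mpr hN0) hfin'
  have hEnwtop' : En σ {x | 0 < w x} w ≠ ∞ :=
    ne_top_of_le_ne_top hEnwtop (En_mono (subset_univ _) _)
  have hJw : J σ u' = En σ {x | 0 < w x} w + volume {x | 0 < w x} := by
    unfold J
    rw [hwset, hEnw, ENNReal.div_eq_inv_mul]
    rfl
  refine ⟨w, (En σ {x | 0 < w x} w).toReal, c, ?_, hc0, ?_⟩
  · refine ⟨hwm, fun x => mul_nonneg (inv_pos.mpr hc0).le (hu'0 x), ?_, hEnwtop, ?_,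
      ENNReal.toReal_nonneg, (ENNReal.ofReal_toReal hEnwtop').symm, ?_⟩
    · simp only [hw, sq_mul]
      rw [lintegral_const_mul' _ _ (sq_ne_top _), hcN]
      exact ENNReal.inv_mul_cancel hN0 hNtop
    · rw [hwset]
      exact hvol
    · intro v hvm hv0 hvL2 hvE hvvol
      rcases eq_or_ne (∫⁻ x, sq (v x)) 0 with h0 | h0
      · rw [h0, ENNReal.toReal_zero, mul_zero]
        exact ENNReal.toReal_nonneg
      · have hvAdm : Adm σ v := by
          refine ⟨hDEN n σ ⟨hn2, hs1, hs2⟩ v hvm hvL2 hvE, Filter.Eventually.of_forall hv0, ?_⟩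
          intro h
          apply h0
          rw [lintegral_eq_zero_iff (measurable_sq_comp hvm)]
          filter_upwards [h] with x hx
          simp [hx, sq_zero]
        have hJJ : J σ u' ≤ J σ v := by
          rw [← J_congr huu']
          exact hmin v hvAdm
        have hEv : En σ {x | 0 < v x} v ≠ ∞ :=
          ne_top_of_le_ne_top hvE (En_mono (subset_univ _) _)
        have hvr : 0 < (∫⁻ x, sq (v x)).toReal := ENNReal.toReal_pos h0 hvL2
        have hwvol : volume {x | 0 < w x} ≠ ∞ := by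
          rw [hwset]
          exact hvol
        rw [hJw] at hJJ
        have hJv : J σ v = En σ {x | 0 < v x} v / (∫⁻ x, sq (v x)) + volume {x | 0 < v x} := rfl
        rw [hJv] at hJJ
        have hdiv : En σ {x | 0 < v x} v / (∫⁻ x, sq (v x)) ≠ ∞ := ENNReal.div_ne_top hEv h0
        have h1 := ENNReal.toReal_mono (ENNReal.add_ne_top.mpr ⟨hdiv, hvvol⟩) hJJ
        rw [ENNReal.toReal_add hEnwtop' hwvol, ENNReal.toReal_add hdiv hvvol,
          ENNReal.toReal_div] at h1
        have h2 : (En σ {x | 0 < w x} w).toReal + volume.real {x | 0 < w x} -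
            volume.real {x | 0 < v x} ≤
            (En σ {x | 0 < v x} v).toReal / (∫⁻ x, sq (v x)).toReal := by
          unfold Measure.real
          linarith
        calc _ ≤ (En σ {x | 0 < v x} v).toReal / (∫⁻ x, sq (v x)).toReal *
              (∫⁻ x, sq (v x)).toReal := mul_le_mul_of_nonneg_right h2 hvr.le
          _ = _ := div_mul_cancel₀ _ hvr.ne'
  · filter_upwards [huu'] with x hx
    simp only [hw]
    rw [hx, mul_inv_cancel_left₀ hc0.ne']

end RFK
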