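import Pool.Agent.RFK.Targets

/-!
# MP_35334d_an: POI, the Poincare inequality for functions vanishing outside a set of finite volume
(helper84)
-/

set_option autoImplicit false

open MeasureTheory Filter Topology Metric Set
open scoped ENNReal NNReal

namespace RFK

namespace POI_

variable {n : ℕ} {σ : ℝ}

/-- lower bound of the kernel integral over the complement of `D` -/
theorem inner_bound (h : 0 ≤ (n : ℝ) + 2 * σ) {D : Set (X n)} (hD : MeasurableSet D)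
    {ρ : ℝ} {y : X n} (hy : y ∈ D)
    (hvol : volume D ≤ volume (ball y ρ \ D)) :
    volume D * ENNReal.ofReal ((ρ ^ ((n : ℝ) + 2 * σ))⁻¹) ≤ ∫⁻ x in Dᶜ, K σ (y - x) := by
  have hsub : ball y ρ \ D ⊆ Dᶜ := fun x hx => hx.2
  calc volume D * ENNReal.ofReal ((ρ ^ ((n : ℝ) + 2 * σ))⁻¹)
      ≤ volume (ball y ρ \ D) * ENNReal.ofReal ((ρ ^ ((n : ℝ) + 2 * σ))⁻¹) := by gcongr
    _ = ∫⁻ _ in ball y ρ \ D, ENNReal.ofReal ((ρ ^ ((n : ℝ) + 2 * σ))⁻¹) := by
        rw [lintegral_const, Measure.restrict_apply_univ, mul_comm]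
    _ ≤ ∫⁻ x in ball y ρ \ D, K σ (y - x) := by
        apply setLIntegral_mono' (measurableSet_ball.diff hD)
        intro x hx
        apply le_K h
        · intro hxy
          rw [sub_eq_zero] at hxy
          exact hx.2 (hxy ▸ hy)
        · have := hx.1
          rw [mem_ball, dist_comm, dist_eq_norm] at this
          exact this.le
    _ ≤ ∫⁻ x in Dᶜ, K σ (y - x) := lintegral_mono_set hsub

end POI_

open POI_ in
theorem p_POI : T_POI := by
  intro n σ hOK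
  obtain ⟨hn, hσ, hσ1⟩ := hOK
  have hn0 : (0 : ℝ) < n := by
    have : (2 : ℝ) ≤ n := by exact_mod_cast hn
    linarith
  have hnn : n ≠ 0 := by omega
  have hexp : 0 ≤ (n : ℝ) + 2 * σ := by linarith
  have hω0 : volume (ball (0 : X n) 1) ≠ 0 := (measure_ball_pos _ _ one_pos).ne'
  have hωt : volume (ball (0 : X n) 1) ≠ ∞ := measure_ball_lt_top.ne
  obtain ⟨ω, hω, hωe⟩ : ∃ ω : ℝ, 0 < ω ∧ volume (ball (0 : X n) 1) = ENNReal.ofReal ω :=
    ⟨(volume (ball (0 : X n) 1)).toReal, ENNReal.toReal_pos hω0 hωt,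
      (ENNReal.ofReal_toReal hωt).symm⟩
  refine ⟨Real.toNNReal ((2 / ω) ^ (1 + 2 * σ / n)), ?_⟩
  intro D w hD hV hw h0
  have hset : ∫⁻ x, sq (w x) = ∫⁻ x in D, sq (w x) := by
    symm
    apply setLIntegral_eq_of_support_subset
    intro x hx
    by_contra hxD
    apply hx
    simp [h0 x hxD, sq_zero]
  by_cases hz : volume D = 0
  · rw [hset, setLIntegral_measure_zero _ _ hz]
    exact zero_le
  obtain ⟨V, hVp, hVe⟩ : ∃ V : ℝ, 0 < V ∧ volume D = ENNReal.ofReal V :=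
    ⟨(volume D).toReal, ENNReal.toReal_pos hz hV, (ENNReal.ofReal_toReal hV).symm⟩
  set ρ : ℝ := (2 / ω * V) ^ (1 / (n : ℝ)) with hρ
  have hbase : 0 < 2 / ω * V := by positivity
  have hρ0 : 0 < ρ := Real.rpow_pos_of_pos hbase _
  have hρn : ρ ^ n = 2 / ω * V := by
    rw [hρ, ← Real.rpow_natCast, ← Real.rpow_mul hbase.le, one_div, inv_mul_cancel₀ hn0.ne',
      Real.rpow_one]
  have hball : ∀ y : X n, volume (ball y ρ) = 2 * volume D := by
    intro y
    rw [Measure.addHaar_ball_of_pos _ _ hρ0, finrank_euclideanSpace, Fintype.card_fin, hρn, hωe,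
      ← ENNReal.ofReal_mul hbase.le, hVe, show (2 : ℝ≥0∞) = ENNReal.ofReal 2 by simp,
      ← ENNReal.ofReal_mul (by norm_num)]
    congr 1
    field_simp
  have hdiff : ∀ y : X n, volume D ≤ volume (ball y ρ \ D) := by
    intro y
    refine le_trans ?_ le_measure_sdiff
    rw [hball, two_mul, ENNReal.add_sub_cancel_right hV]
  have hmain : (volume D * ENNReal.ofReal ((ρ ^ ((n : ℝ) + 2 * σ))⁻¹)) * ∫⁻ y in D, sq (w y) ≤
      En σ univ w := by
    calc (volume D * ENNReal.ofReal ((ρ ^ ((n : ℝ) + 2 * σ))⁻¹)) * ∫⁻ y in D, sq (w y)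
        = ∫⁻ y in D, (volume D * ENNReal.ofReal ((ρ ^ ((n : ℝ) + 2 * σ))⁻¹)) * sq (w y) := by
          rw [lintegral_const_mul _ (measurable_sq_comp hw)]
      _ ≤ ∫⁻ y in D, ∫⁻ x in Dᶜ, sq (w y - w x) * K σ (y - x) := by
          apply setLIntegral_mono' hD
          intro y hy
          have h1 : ∫⁻ x in Dᶜ, sq (w y - w x) * K σ (y - x) =
              ∫⁻ x in Dᶜ, sq (w y) * K σ (y - x) := by
            apply setLIntegral_congr_fun hD.compl
            intro x hx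
            simp only [h0 x hx, sub_zero]
          rw [h1, lintegral_const_mul' _ _ (sq_ne_top _), mul_comm]
          gcongr
          exact inner_bound hexp hD hy (hdiff y)
      _ ≤ En σ univ w := DI_le_En (A := D) (A' := Dᶜ) w
  have hρpow : 0 < ρ ^ ((n : ℝ) + 2 * σ) := Real.rpow_pos_of_pos hρ0 _
  have hc0 : volume D * ENNReal.ofReal ((ρ ^ ((n : ℝ) + 2 * σ))⁻¹) ≠ 0 := by
    rw [mul_ne_zero_iff]
    exact ⟨hz, by simpa using hρpow⟩
  have hct : volume D * ENNReal.ofReal ((ρ ^ ((n : ℝ) + 2 * σ))⁻¹) ≠ ∞ :=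
    ENNReal.mul_ne_top hV ENNReal.ofReal_ne_top
  have hinv : (Real.toNNReal ((2 / ω) ^ (1 + 2 * σ / n)) : ℝ≥0∞) * volume D ^ (2 * σ / (n : ℝ)) *
      (volume D * ENNReal.ofReal ((ρ ^ ((n : ℝ) + 2 * σ))⁻¹)) = 1 := by
    have e0 : (Real.toNNReal ((2 / ω) ^ (1 + 2 * σ / n)) : ℝ≥0∞) =
        ENNReal.ofReal ((2 / ω) ^ (1 + 2 * σ / n)) := rfl
    rw [e0, hVe, ENNReal.ofReal_rpow_of_pos hVp, ← ENNReal.ofReal_mul (by positivity),
      ← ENNReal.ofReal_mul (by positivity), ← ENNReal.ofReal_mul (by positivity),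
      ← ENNReal.ofReal_one]
    congr 1
    have e1 : ρ ^ ((n : ℝ) + 2 * σ) = (2 / ω * V) ^ (1 + 2 * σ / n) := by
      rw [hρ, ← Real.rpow_mul hbase.le]
      congr 1
      field_simp
    rw [e1, Real.mul_rpow (by positivity) hVp.le, Real.rpow_add hVp, Real.rpow_one]
    have e2 : 0 < (2 / ω) ^ (1 + 2 * σ / n) := by positivity
    have e3 : 0 < V ^ (2 * σ / (n : ℝ)) := by positivity
    field_simp
  rw [hset]
  calc ∫⁻ x in D, sq (w x)
      = ((Real.toNNReal ((2 / ω) ^ (1 + 2 * σ / n)) : ℝ≥0∞) * volume D ^ (2 * σ / (n : ℝ)) *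
        (volume D * ENNReal.ofReal ((ρ ^ ((n : ℝ) + 2 * σ))⁻¹))) * ∫⁻ x in D, sq (w x) := by
        rw [hinv, one_mul]
    _ = (Real.toNNReal ((2 / ω) ^ (1 + 2 * σ / n)) : ℝ≥0∞) * volume D ^ (2 * σ / (n : ℝ)) *
        ((volume D * ENNReal.ofReal ((ρ ^ ((n : ℝ) + 2 * σ))⁻¹)) * ∫⁻ x in D, sq (w x)) := by
        rw [mul_assoc]
    _ ≤ _ := by gcongr

end RFK
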