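import Pool.Agent.RFK.Targets

/-!
# MP_35334d_an: PRO, the energy of a product (helper9)
-/

set_option autoImplicit false

open MeasureTheory Filter Topology Metric Set
open scoped ENNReal NNReal

namespace RFK

namespace PRO_

variable {n : ℕ} {σ : ℝ}

/-- a cut-off function is measurable -/
theorem measurable_of_cut {η : X n → ℝ} {d : ℝ} (h : Cut η d) : Measurable η := by
  obtain ⟨hd, -, hl⟩ := h
  have hL : LipschitzWith (Real.toNNReal d⁻¹) η := by
    apply LipschitzWith.of_dist_le_mul
    intro x y
    rw [Real.dist_eq, dist_eq_norm, Real.coe_toNNReal _ (by positivity)]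
    calc |η x - η y| ≤ ‖x - y‖ / d := hl x y
      _ = d⁻¹ * ‖x - y‖ := by rw [div_eq_mul_inv, mul_comm]
  exact hL.continuous.measurable

end PRO_

open PRO_

theorem p_PRO (hK : T_KCU) : T_PRO := by
  intro n σ hOK
  obtain ⟨C, hC⟩ := hK n σ hOK
  refine ⟨2 * C, ?_⟩
  intro η w d hη hw
  have hηm : Measurable η := measurable_of_cut hη
  have hmη : Measurable (Function.uncurry fun x y : X n => sq (w y) * sq (η x - η y)) :=
    (measurable_sq.comp (hw.comp measurable_snd)).mul (measurable_dsq hηm)
  have hmw : Measurable (Function.uncurry fun x y : X n => 2 * sq (w x - w y)) :=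
    (measurable_dsq hw).const_mul 2
  have h1 : En σ univ (fun x => w x * η x) ≤
      DI σ univ univ (fun x y => 2 * sq (w x - w y) + 2 * (sq (w y) * sq (η x - η y))) := by
    rw [En_eq]
    apply DI_mono MeasurableSet.univ MeasurableSet.univ
    intro x _ y _
    have e1 : w x * η x - w y * η y = η x * (w x - w y) + w y * (η x - η y) := by ring
    have e2 : sq (η x * (w x - w y)) ≤ sq (w x - w y) := by
      apply sq_le
      rw [abs_mul, abs_of_nonneg (hη.2.1 x).1]
      exact mul_le_of_le_one_left (abs_nonneg _) (hη.2.1 x).2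
    calc sq (w x * η x - w y * η y) = sq (η x * (w x - w y) + w y * (η x - η y)) := by rw [e1]
      _ ≤ 2 * sq (η x * (w x - w y)) + 2 * sq (w y * (η x - η y)) := sq_add_le _ _
      _ ≤ 2 * sq (w x - w y) + 2 * (sq (w y) * sq (η x - η y)) := by
          rw [sq_mul (w y)]
          gcongr
  have h2 : DI σ univ univ (fun x y : X n => sq (w y) * sq (η x - η y)) ≤
      C * ENNReal.ofReal (d ^ (-(2 * σ))) * ∫⁻ x, sq (w x) := by
    rw [DI_swap hmη]
    unfold DI
    rw [Measure.restrict_univ, ← lintegral_const_mul' _ _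
      (ENNReal.mul_ne_top ENNReal.coe_ne_top ENNReal.ofReal_ne_top)]
    apply lintegral_mono
    intro x
    have e3 : ∀ y : X n, sq (w x) * sq (η y - η x) * K σ (x - y) =
        sq (w x) * (sq (η x - η y) * K σ (x - y)) := by
      intro y
      rw [sq_sub_comm, mul_assoc]
    simp_rw [e3]
    rw [lintegral_const_mul' _ _ (sq_ne_top _), mul_comm]
    gcongr
    exact hC η d hη x
  calc En σ univ (fun x => w x * η x)
      ≤ DI σ univ univ (fun x y => 2 * sq (w x - w y) + 2 * (sq (w y) * sq (η x - η y))) := h1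
    _ = 2 * En σ univ w + 2 * DI σ univ univ (fun x y => sq (w y) * sq (η x - η y)) := by
        rw [DI_add hmw, DI_const_mul (by norm_num), DI_const_mul (by norm_num), En_eq]
    _ ≤ 2 * En σ univ w + 2 * (C * ENNReal.ofReal (d ^ (-(2 * σ))) * ∫⁻ x, sq (w x)) := by
        gcongr
    _ = 2 * En σ univ w +
        ((2 * C : ℝ≥0) : ℝ≥0∞) * ENNReal.ofReal (d ^ (-(2 * σ))) * ∫⁻ x, sq (w x) := by
        push_cast
        ring

end RFK
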