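import Pool.Agent.RFK.Targets

/-!
# REG: the regularity theorem
-/

set_option autoImplicit false

open MeasureTheory Filter Topology Metric Set
open scoped ENNReal NNReal

namespace RFK

theorem p_REG (hNRM : T_NRM) (hITR : T_ITR) (hCNT : T_CNT) : T_REG := by
  intro n σ hOK u hu
  obtain ⟨w, L, c, hw, hc, huw⟩ := hNRM n σ hOK u hu
  obtain ⟨θ, R₀, M₀, hθ, hθ', hR, hM, hwM, hdec⟩ := hITR n σ hOK w L hw
  obtain ⟨g, α, C, hα, hg, hwg⟩ := hCNT n w θ R₀ M₀ hθ hθ' hR hM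
    (hwM.mono fun x hx => ⟨hw.nonneg x, hx⟩) hdec
  refine ⟨fun x => c * g x, α, c * C, hα, ?_, ?_⟩
  · intro x y
    have h1 : c * g x - c * g y = c * (g x - g y) := by ring
    rw [h1, abs_mul, abs_of_pos hc, mul_assoc]
    exact mul_le_mul_of_nonneg_left (hg x y) hc.le
  · filter_upwards [huw, hwg] with x h1 h2
    rw [h1, h2]

end RFK
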