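import Mathlib
import Pool.Agent.RFK.Targets

/-!
SC1: the Caccioppoli inequality, rescaled
-/

set_option autoImplicit false

open MeasureTheory Filter Topology Metric Set
open scoped ENNReal NNReal

namespace RFK

namespace SC1_

variable {n : ℕ} {σ : ℝ}

/-- the rescaled cut-off function -/
noncomputable def eta (r' r : ℝ) (x₀ : X n) (R : ℝ) (y : X n) : ℝ := cut r' r (R⁻¹ • (y - x₀))

theorem eta_cut {r' r R : ℝ} (h : r' < r) (hR : 0 < R) (x₀ : X n) :
    Cut (eta r' r x₀ R) (R * (r - r')) := by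
  refine ⟨mul_pos hR (by linarith), fun x => ⟨cut_nonneg _ _ _, cut_le_one _ _ _⟩, fun x y => ?_⟩
  unfold eta
  refine (cut_lip h _ _).trans (le_of_eq ?_)
  rw [← smul_sub, sub_sub_sub_cancel_right, norm_smul, norm_inv, Real.norm_eq_abs, abs_of_pos hR]
  have : 0 < r - r' := by linarith
  field_simp

theorem eta_aff {r' r R : ℝ} (hR : 0 < R) (x₀ x : X n) :
    eta r' r x₀ R (x₀ + R • x) = cut r' r x := by
  unfold eta
  rw [add_sub_cancel_left, smul_smul, inv_mul_cancel₀ hR.ne', one_smul]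

theorem pos_scale {M : ℝ} (hM : 0 < M) (t a k : ℝ) :
    pos (t - (a + M * k)) = M * pos ((t - a) / M - k) := by
  unfold pos
  rw [mul_max_of_nonneg _ _ hM.le, mul_zero]
  congr 1
  field_simp
  ring

theorem pos_scale' {M : ℝ} (hM : 0 < M) (t a k : ℝ) :
    pos (a + M * k - t) = M * pos (k - (t - a) / M) := by
  unfold pos
  rw [mul_max_of_nonneg _ _ hM.le, mul_zero]
  congr 1
  field_simp
  ring

end SC1_

open SC1_ in
theorem p_SC1 (hCAC : T_CAC) : T_SC1 := by
  intro n σ hOK u L Mg hu hMg hub x₀ R M a hR hM ha k r' r hk hr' hrr hr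
  have hM2 : (0 : ℝ) < M ^ 2 := by positivity
  set Ω : Set (X n) := {x | 0 < u x} with hΩ
  have hΩm : MeasurableSet Ω := measurableSet_lt measurable_const hu.meas
  set Ω' : Set (X n) := {x | 0 < u (x₀ + R • x)} with hΩ'
  have hpre : (fun x : X n => x₀ + R • x) ⁻¹' Ω = Ω' := rfl
  set η := eta r' r x₀ R with hη
  have hk0 : 0 ≤ a + M * k := by positivity
  have H := hCAC n σ hOK u L hu (a + M * k) (R * (r - r')) η hk0 (eta_cut hrr hR x₀)
  -- the three double integrals
  set cR : ℝ≥0∞ := ENNReal.ofReal (R ^ ((n : ℝ) - 2 * σ)) with hcR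
  set cM : ℝ≥0∞ := ENNReal.ofReal (M ^ 2) with hcM
  have hcMtop : cM ≠ ∞ := ENNReal.ofReal_ne_top
  have E1 : En σ Ω (fun x => pos (u x - (a + M * k)) * η x) = cR * (cM *
      En σ Ω' (fun x => pos ((u (x₀ + R • x) - a) / M - k) * cut r' r x)) := by
    rw [En_eq, DI_scale hR x₀, hpre, En_eq, ← DI_const_mul hcMtop]
    congr 1
    congr 1
    funext x y
    rw [hη, eta_aff hR, eta_aff hR, pos_scale hM, pos_scale hM, hcM]
    unfold sq
    rw [← ENNReal.ofReal_mul hM2.le]
    congr 1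
    ring
  have E2 : DI σ Ω Ω (fun x y => ENNReal.ofReal (pos (u x - (a + M * k)) * η x ^ 2 *
      pos (a + M * k - u y))) = cR * (cM * DI σ Ω' Ω' (fun x y => ENNReal.ofReal
        (pos ((u (x₀ + R • x) - a) / M - k) * cut r' r x ^ 2 *
          pos (k - (u (x₀ + R • y) - a) / M)))) := by
    rw [DI_scale hR x₀, hpre, ← DI_const_mul hcMtop]
    congr 1
    congr 1
    funext x y
    rw [hη, eta_aff hR, pos_scale hM, pos_scale' hM, hcM, ← ENNReal.ofReal_mul hM2.le]
    congr 1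
    ring
  have E3 : DI σ Ω Ω (fun x y => ENNReal.ofReal (pos (u x - (a + M * k)) *
      pos (u y - (a + M * k)) * (η x - η y) ^ 2)) = cR * (cM * DI σ Ω' Ω' (fun x y =>
        ENNReal.ofReal (pos ((u (x₀ + R • x) - a) / M - k) *
          pos ((u (x₀ + R • y) - a) / M - k) * (cut r' r x - cut r' r y) ^ 2))) := by
    rw [DI_scale hR x₀, hpre, ← DI_const_mul hcMtop]
    congr 1
    congr 1
    funext x y
    rw [hη, eta_aff hR, eta_aff hR, pos_scale hM, pos_scale hM, hcM, ← ENNReal.ofReal_mul hM2.le]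
    congr 1
    ring
  have E4 : ∫⁻ x in Ω, ENNReal.ofReal (u x * (pos (u x - (a + M * k)) * η x ^ 2)) ≤
      ENNReal.ofReal (R ^ (n : ℝ)) * (ENNReal.ofReal (Mg * M) *
        ∫⁻ x in Ω', ENNReal.ofReal (pos ((u (x₀ + R • x) - a) / M - k) * cut r' r x ^ 2)) := by
    have h1 : ∫⁻ x in Ω, ENNReal.ofReal (u x * (pos (u x - (a + M * k)) * η x ^ 2)) ≤
        ∫⁻ x in Ω, ENNReal.ofReal (Mg * (pos (u x - (a + M * k)) * η x ^ 2)) := by
      apply lintegral_mono_ae
      filter_upwards [ae_restrict_of_ae hub] with x hx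
      apply ENNReal.ofReal_le_ofReal
      exact mul_le_mul_of_nonneg_right hx (mul_nonneg (pos_nonneg _) (sq_nonneg _))
    refine h1.trans (le_of_eq ?_)
    rw [lintegral_aff hR x₀, hpre]
    congr 1
    rw [← lintegral_const_mul' _ _ ENNReal.ofReal_ne_top]
    apply lintegral_congr
    intro x
    rw [hη, eta_aff hR, pos_scale hM, ← ENNReal.ofReal_mul (by positivity)]
    congr 1
    ring
  rw [E1, E2, E3] at H
  have hc0 : cR * cM ≠ 0 := by
    rw [hcR, hcM, ← ENNReal.ofReal_mul (by positivity)]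
    exact (ENNReal.ofReal_pos.mpr (by positivity)).ne'
  have hct : cR * cM ≠ ∞ := ENNReal.mul_ne_top ENNReal.ofReal_ne_top ENNReal.ofReal_ne_top
  have hΛ : ENNReal.ofReal L * (ENNReal.ofReal (R ^ (n : ℝ)) * ENNReal.ofReal (Mg * M)) =
      cR * cM * ENNReal.ofReal (L * R ^ (2 * σ) * Mg / M) := by
    rw [hcR, hcM, ← ENNReal.ofReal_mul (by positivity), ← ENNReal.ofReal_mul hu.L0,
      ← ENNReal.ofReal_mul (by positivity), ← ENNReal.ofReal_mul (by positivity)]
    congr 1
    have : R ^ (n : ℝ) = R ^ ((n : ℝ) - 2 * σ) * R ^ (2 * σ) := by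
      rw [← Real.rpow_add hR]
      congr 1
      ring
    rw [this]
    field_simp
  have key : cR * cM * (En σ Ω' (fun x => pos ((u (x₀ + R • x) - a) / M - k) * cut r' r x) +
      2 * DI σ Ω' Ω' (fun x y => ENNReal.ofReal
        (pos ((u (x₀ + R • x) - a) / M - k) * cut r' r x ^ 2 *
          pos (k - (u (x₀ + R • y) - a) / M)))) ≤
      cR * cM * (DI σ Ω' Ω' (fun x y =>
        ENNReal.ofReal (pos ((u (x₀ + R • x) - a) / M - k) *
          pos ((u (x₀ + R • y) - a) / M - k) * (cut r' r x - cut r' r y) ^ 2)) +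
        ENNReal.ofReal (L * R ^ (2 * σ) * Mg / M) *
          ∫⁻ x in Ω', ENNReal.ofReal (pos ((u (x₀ + R • x) - a) / M - k) * cut r' r x ^ 2)) := by
    refine le_trans (le_of_eq (by ring)) (H.trans ((add_le_add le_rfl
      (mul_le_mul_right E4 _)).trans (le_of_eq ?_)))
    rw [mul_add, ← mul_assoc (cR * cM), ← hΛ]
    ring
  exact (ENNReal.mul_le_mul_iff_right hc0 hct).mp key

end RFK
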