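import Pool.Agent.RFK.Targets

/-!
# MP_35334d_an: scaling of the competitor inequality (helper91)
-/

set_option autoImplicit false

open MeasureTheory Filter Topology Metric Set
open scoped ENNReal NNReal

namespace RFK

namespace SC3_

variable {n : ℕ} {σ : ℝ}

theorem En_scale {R : ℝ} (hR : 0 < R) (x₀ : X n) (A : Set (X n)) (g : X n → ℝ) :
    En σ A g = ENNReal.ofReal (R ^ ((n : ℝ) - 2 * σ)) *
      En σ ((fun x => x₀ + R • x) ⁻¹' A) (fun x => g (x₀ + R • x)) := by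
  rw [En_eq, DI_scale hR x₀, ← En_eq]

theorem En_const_mul (M : ℝ) (A : Set (X n)) (g : X n → ℝ) :
    En σ A (fun x => M * g x) = ENNReal.ofReal (M ^ 2) * En σ A g := by
  rw [En_eq, En_eq, ← DI_const_mul ENNReal.ofReal_ne_top]
  congr 1
  funext x y
  rw [← mul_sub, sq_mul]
  rfl

theorem vol_scale {R : ℝ} (hR : 0 < R) (x₀ : X n) (A : Set (X n)) :
    volume A = ENNReal.ofReal (R ^ (n : ℝ)) * volume ((fun x => x₀ + R • x) ⁻¹' A) := by
  have h := lintegral_aff hR x₀ A (fun _ => 1)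
  simpa using h

/-- the scaled cut-off function -/
noncomputable def eta (x₀ : X n) (R r' r : ℝ) (x : X n) : ℝ := cut r' r (R⁻¹ • (x - x₀))

theorem eta_aff {x₀ : X n} {R r' r : ℝ} (hR : 0 < R) (x : X n) :
    eta x₀ R r' r (x₀ + R • x) = cut r' r x := by
  unfold eta
  rw [add_sub_cancel_left, smul_smul, inv_mul_cancel₀ hR.ne', one_smul]

theorem cut_eta {x₀ : X n} {R r' r : ℝ} (hR : 0 < R) (h : r' < r) :
    Cut (eta x₀ R r' r) (R * (r - r')) := by
  refine ⟨mul_pos hR (sub_pos.2 h), fun x => ⟨cut_nonneg _ _ _, cut_le_one _ _ _⟩, ?_⟩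
  intro x y
  unfold eta
  refine (cut_lip h _ _).trans (le_of_eq ?_)
  rw [← smul_sub, sub_sub_sub_cancel_right, norm_smul, Real.norm_eq_abs,
    abs_of_pos (inv_pos.2 hR)]
  have : r - r' ≠ 0 := (sub_pos.2 h).ne'
  field_simp

theorem pre_eta {x₀ : X n} {R r' r : ℝ} (hR : 0 < R) (h : r' < r) :
    (fun x : X n => x₀ + R • x) ⁻¹' {x | 0 < eta x₀ R r' r x} = B r := by
  ext x
  simp only [mem_preimage, mem_ofPred_eq, mem_ball_zero_iff]
  rw [eta_aff hR, cut_pos_iff h]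

end SC3_

open SC3_ in
/-- SC3: scaling of the competitor inequality -/
theorem p_SC3 (h : T_CMP) : T_SC3 := by
  intro n σ hok
  have hV : 0 ≤ volume.real (B 3 : Set (X n)) := measureReal_nonneg
  refine ⟨1 + volume.real (B 3 : Set (X n)), by positivity, ?_⟩
  intro u L hu x₀ R M hR hR1 hM hRM k r' r hk hk1 hr' hrr hr3
  have hkM : 0 < k * M := mul_pos hk hM
  have hvB : volume (B r : Set (X n)) ≠ ∞ := measure_ball_lt_top.ne
  have hvη : volume {x | 0 < eta x₀ R r' r x} ≠ ∞ := by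
    rw [vol_scale hR x₀, pre_eta hR hrr]
    exact ENNReal.mul_ne_top ENNReal.ofReal_ne_top hvB
  have key := h n σ hok u L hu (k * M) _ _ hkM (cut_eta (x₀ := x₀) hR hrr) hvη
  have hpu : (fun x : X n => x₀ + R • x) ⁻¹' {x | 0 < u x} = {x | 0 < u (x₀ + R • x) / M} := by
    ext x
    simp only [mem_preimage, mem_ofPred_eq]
    rw [div_pos_iff_of_pos_right hM]
  have e1 : En σ {x | 0 < u x} u = ENNReal.ofReal (R ^ ((n : ℝ) - 2 * σ)) *
      (ENNReal.ofReal (M ^ 2) * En σ {x | 0 < u (x₀ + R • x) / M}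
        (fun x => u (x₀ + R • x) / M)) := by
    rw [En_scale hR x₀, hpu, ← En_const_mul]
    congr 2
    funext x
    field_simp
  have e2 : En σ ({x | 0 < u x} ∪ {x | 0 < eta x₀ R r' r x})
      (fun x => max (u x) (k * M * eta x₀ R r' r x)) = ENNReal.ofReal (R ^ ((n : ℝ) - 2 * σ)) *
      (ENNReal.ofReal (M ^ 2) * En σ ({x | 0 < u (x₀ + R • x) / M} ∪ B r)
        (fun x => max (u (x₀ + R • x) / M) (k * cut r' r x))) := by
    rw [En_scale hR x₀, preimage_union, hpu, pre_eta hR hrr, ← En_const_mul]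
    congr 2
    funext x
    rw [eta_aff hR, mul_max_of_nonneg _ _ hM.le]
    congr 1
    · field_simp
    · ring
  have e3 : volume ({x | 0 < eta x₀ R r' r x} \ {x | 0 < u x}) = ENNReal.ofReal (R ^ (n : ℝ)) *
      volume (B r \ {x | 0 < u (x₀ + R • x) / M}) := by
    rw [vol_scale hR x₀, preimage_sdiff, hpu, pre_eta hR hrr]
  have e4 : volume.real {x | 0 < eta x₀ R r' r x} = R ^ (n : ℝ) * volume.real (B r : Set (X n)) := by
    rw [measureReal_def, vol_scale hR x₀, pre_eta hR hrr, ENNReal.toReal_mul,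
      ENNReal.toReal_ofReal (by positivity)]
    rfl
  rw [e1, e2, e3, e4] at key
  set a : ℝ≥0∞ := En σ {x | 0 < u (x₀ + R • x) / M} (fun x => u (x₀ + R • x) / M)
  set b : ℝ≥0∞ := En σ ({x | 0 < u (x₀ + R • x) / M} ∪ B r)
        (fun x => max (u (x₀ + R • x) / M) (k * cut r' r x))
  set v : ℝ≥0∞ := volume (B r \ {x | 0 < u (x₀ + R • x) / M})
  change a ≤ b + ENNReal.ofReal (1 + volume.real (B 3 : Set (X n))) * v
  have hc0 : ENNReal.ofReal (R ^ ((n : ℝ) - 2 * σ) * M ^ 2) ≠ 0 := by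
    rw [Ne, ENNReal.ofReal_eq_zero, not_le]
    positivity
  have hc1 : ENNReal.ofReal (R ^ ((n : ℝ) - 2 * σ) * M ^ 2) ≠ ∞ := ENNReal.ofReal_ne_top
  rw [← ENNReal.mul_le_mul_iff_right hc0 hc1, mul_add]
  rw [← mul_assoc, ← mul_assoc, ← ENNReal.ofReal_mul (by positivity)] at key
  refine key.trans (add_le_add_right ?_ _)
  have e5 : ∀ p q : ℝ, 0 ≤ p → ENNReal.ofReal p * (ENNReal.ofReal q * v) =
      ENNReal.ofReal (p * q) * v := fun p q hp => by
    rw [← mul_assoc, ← ENNReal.ofReal_mul hp]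
  rw [e5 _ _ (by positivity), e5 _ _ (by positivity)]
  gcongr ENNReal.ofReal ?_ * v
  have hVr : volume.real (B r : Set (X n)) ≤ volume.real (B 3 : Set (X n)) :=
    measureReal_mono (ball_subset_ball hr3) measure_ball_lt_top.ne
  have hVr0 : 0 ≤ volume.real (B r : Set (X n)) := measureReal_nonneg
  have h1 : R ^ (n : ℝ) = R ^ ((n : ℝ) - 2 * σ) * R ^ (2 * σ) := by
    rw [← Real.rpow_add hR]
    congr 1
    ring
  have hR0 : 0 < R ^ ((n : ℝ) - 2 * σ) := Real.rpow_pos_of_pos hR _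
  have hR2 : 0 < R ^ (2 * σ) := Real.rpow_pos_of_pos hR _
  have hRn1 : R ^ (n : ℝ) ≤ 1 := Real.rpow_le_one hR.le hR1 (by positivity)
  have hR21 : R ^ (2 * σ) ≤ 1 := Real.rpow_le_one hR.le hR1 (by linarith [hok.2.1])
  have hk2 : k ^ 2 ≤ 1 := by nlinarith
  have h2 : (k * M) ^ 2 * (R ^ (n : ℝ) * volume.real (B r : Set (X n))) * R ^ (2 * σ) ≤
      M ^ 2 * volume.real (B 3 : Set (X n)) := by
    calc (k * M) ^ 2 * (R ^ (n : ℝ) * volume.real (B r : Set (X n))) * R ^ (2 * σ)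
        = M ^ 2 * (k ^ 2 * (R ^ (n : ℝ) * volume.real (B r : Set (X n))) * R ^ (2 * σ)) := by ring
      _ ≤ M ^ 2 * (1 * (1 * volume.real (B 3 : Set (X n))) * 1) := by gcongr
      _ = M ^ 2 * volume.real (B 3 : Set (X n)) := by ring
  calc (1 + (k * M) ^ 2 * (R ^ (n : ℝ) * volume.real (B r : Set (X n)))) * R ^ (n : ℝ)
      = R ^ ((n : ℝ) - 2 * σ) * (R ^ (2 * σ) +
        (k * M) ^ 2 * (R ^ (n : ℝ) * volume.real (B r : Set (X n))) * R ^ (2 * σ)) := by
        rw [h1]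
        ring
    _ ≤ R ^ ((n : ℝ) - 2 * σ) * (M ^ 2 + M ^ 2 * volume.real (B 3 : Set (X n))) := by
        gcongr
    _ = R ^ ((n : ℝ) - 2 * σ) * M ^ 2 * (1 + volume.real (B 3 : Set (X n))) := by ring

end RFK
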