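import Pool.Agent.RFK.Targets
import Pool.Agent.RFK.Basic

/-!
# MP_35334d_an, entry SC4: finiteness of the energy of the rescaled function
-/

set_option autoImplicit false

open MeasureTheory Filter Topology Metric Set
open scoped ENNReal NNReal

namespace RFK

theorem p_SC4 : T_SC4 := by
  intro n σ hOK u hu hE x₀ R M a hR hM
  have h1 : DI σ univ univ (fun x y : X n => sq (u (x₀ + R • x) - u (x₀ + R • y))) ≠ ∞ := by
    intro hc
    apply hE
    rw [En_eq, DI_scale hR x₀ univ univ (fun x y => sq (u x - u y)), preimage_univ, hc]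
    apply ENNReal.mul_top
    rw [ENNReal.ofReal_ne_zero_iff]
    positivity
  have h2 : En σ univ (fun x => (u (x₀ + R • x) - a) / M) =
      sq (M⁻¹) * DI σ univ univ (fun x y : X n => sq (u (x₀ + R • x) - u (x₀ + R • y))) := by
    rw [En_eq, ← DI_const_mul (sq_ne_top _)]
    congr 1
    funext x y
    rw [← sq_mul]
    congr 1
    field_simp
    ring
  rw [h2]
  exact ENNReal.mul_ne_top (sq_ne_top _) h1

end RFK
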