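import Pool.Agent.RFK.Targets

/-!
# MP_35334d_an: STB, the step at the boundary (helper72)
-/

set_option autoImplicit false

open MeasureTheory Filter Topology Metric Set
open scoped ENNReal NNReal

namespace RFK

namespace STB_

theorem subC_mono {n : ℕ} {σ : ℝ} {Ω : Set (X n)} {f : X n → ℝ} {Λ Λ' : ℝ} (h : Λ ≤ Λ')
    (hs : SubC σ Ω f Λ) : SubC σ Ω f Λ' := by
  intro k r' r hk hr' hr hr3
  refine (hs k r' r hk hr' hr hr3).trans ?_
  gcongr

end STB_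

/-- STB: the step at the boundary. -/
theorem p_STB (hUPA : T_UPA) (hUPD : T_UPD) (hLOW : T_LOW) (hENB : T_ENB) (hTRA : T_TRA)
    (hTL1 : T_TL1) (hTL2 : T_TL2) (hFNC : T_FNC) : T_STB := by
  intro n σ hσ C₀ hC₀
  obtain ⟨ϑ, hϑ0, hϑ2, hLOW'⟩ := hLOW n σ hσ
  obtain ⟨CT2, hCT2, hTL2'⟩ := hTL2 n σ hσ
  obtain ⟨ε₀, hε₀, hLOW''⟩ := hLOW' C₀ CT2 hC₀ hCT2.le
  obtain ⟨CT1, hCT1, hTL1'⟩ := hTL1 n σ hσ
  obtain ⟨ε₂, hε₂, hUPD'⟩ := hUPD n σ hσ CT1 hCT1
  obtain ⟨E₀, hE₀, hENB'⟩ := hENB n σ hσ CT2 hCT2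
  obtain ⟨c, hc, hTRA'⟩ := hTRA n σ hσ (min (ε₀ / 2) ε₂) E₀ (lt_min (by linarith) hε₂) hE₀
  obtain ⟨δ, hδ0, hδ2, hUPA'⟩ := hUPA n σ hσ (ϑ / 2) (min (ε₀ / 2) c) ε₂ CT1 (by linarith)
    (by linarith) (lt_min (by linarith) hc) hε₂ hCT1
  obtain ⟨θ₁, hθ₁0, hθ₁4, hTL1''⟩ := hTL1' δ hδ0 hδ2
  refine ⟨min θ₁ (δ / 4), δ, lt_min hθ₁0 (by linarith), (min_le_left _ _).trans hθ₁4, hδ0,
    by linarith, ?_⟩
  intro θ δ' hθ0 hθ hδ'0 hδ' Ω f hcfg
  have hθ1 : θ ≤ θ₁ := hθ.trans (min_le_left _ _)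
  have hθδ : θ ≤ δ / 4 := hθ.trans (min_le_right _ _)
  have hf : Measurable f := hcfg.meas
  have hf0 : ∀ x, 0 ≤ f x := fun x => by simpa using hcfg.nonneg x
  have hΩ : Ω = {x | 0 < f x} := by simpa using hcfg.om
  have hΩm : MeasurableSet Ω := by
    rw [hΩ]; exact measurableSet_lt measurable_const hf
  have hsub : SubC σ Ω f δ := STB_.subC_mono hδ' hcfg.sub
  have hsub1 : SubC σ {x | 0 < f x} f 1 := by
    rw [← hΩ]; exact STB_.subC_mono (by linarith) hcfg.sub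
  have hup : ∀ᵐ x, x ∈ B 4 → f x ≤ 1 := by
    have := hcfg.up 0
    simpa using this
  obtain ⟨ht1, ht2⟩ := hTL2' θ hθ0 (by linarith) f hf hf0 hcfg.up
  have htail : TailC σ Ω f δ CT1 := by
    refine (lintegral_mono_set ?_).trans (hTL1'' θ hθ0 hθ1 f hf hcfg.up)
    intro y hy
    exact hy.2
  have hfin : FinC σ Ω f := (hFNC n σ hσ θ δ' C₀ 0 Ω f hcfg).1
  have hlow : LowC σ f C₀ CT2 := ⟨hf, hf0, hcfg.fin, hC₀, hCT2.le, hcfg.cmp rfl, hup, ht2⟩
  have hupΩ : ∀ᵐ x, x ∈ Ω → x ∈ B 4 → f x ≤ 1 := by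
    filter_upwards [hup] with x hx _ hx4
    exact hx hx4
  -- the conclusion from `UPD`
  have key1 : volume (Ω ∩ B 2 ∩ {x | 1 - δ / 2 < f x}) ≤ ENNReal.ofReal ε₂ →
      (∀ᵐ x, x ∈ B 1 → f x ≤ 1 - θ) ∨ ∀ᵐ x, x ∈ B 1 → θ ≤ f x := by
    intro hv
    left
    filter_upwards [hUPD' δ hδ0 hδ2 Ω f hΩm hf hsub hfin hupΩ htail hv] with x hx hx1
    by_cases hxΩ : x ∈ Ω
    · have := hx hxΩ hx1
      linarith
    · have hx0 : ¬ (0 < f x) := by
        rw [hΩ] at hxΩ; exact hxΩ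
      push Not at hx0
      linarith
  have key2 : ENNReal.ofReal (min (ε₀ / 2) c) ≤ volume (Ω ∩ B 2 ∩ {x | f x < 1 - ϑ / 2}) →
      (∀ᵐ x, x ∈ B 1 → f x ≤ 1 - θ) ∨ ∀ᵐ x, x ∈ B 1 → θ ≤ f x := fun hv =>
    key1 (hUPA' δ hδ0 le_rfl Ω f hΩm hf hsub hupΩ htail hv)
  by_cases h1 : volume (B 2 ∩ {x | f x < 1 - ϑ / 2}) ≤ ENNReal.ofReal ε₀
  · right
    filter_upwards [hLOW'' f hlow h1] with x hx hx1
    have := hx hx1
    linarith
  · push Not at h1
    by_cases h2 : ENNReal.ofReal (ε₀ / 2) ≤ volume (Ω ∩ B 2 ∩ {x | f x < 1 - ϑ / 2})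
    · exact key2 ((ENNReal.ofReal_le_ofReal (min_le_left _ _)).trans h2)
    · push Not at h2
      have h3 : ENNReal.ofReal (ε₀ / 2) ≤ volume (B 2 \ Ω) := by
        by_contra hcon
        push Not at hcon
        have h4 : B 2 ∩ {x | f x < 1 - ϑ / 2} ⊆
            (Ω ∩ B 2 ∩ {x | f x < 1 - ϑ / 2}) ∪ (B 2 \ Ω) := by
          intro x hx
          by_cases hxΩ : x ∈ Ω
          · exact Or.inl ⟨⟨hxΩ, hx.1⟩, hx.2⟩
          · exact Or.inr ⟨hx.1, hxΩ⟩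
        have h5 := (measure_mono (μ := volume) h4).trans (measure_union_le _ _)
        have h6 : ENNReal.ofReal ε₀ = ENNReal.ofReal (ε₀ / 2) + ENNReal.ofReal (ε₀ / 2) := by
          rw [← ENNReal.ofReal_add (by linarith) (by linarith)]
          congr 1
          ring
        have h7 := h5.trans (add_le_add h2.le hcon.le)
        rw [← h6] at h7
        exact absurd h1 (not_lt.2 h7)
      by_cases h4 : volume (B 2 ∩ {x | 1 / 2 ≤ f x}) ≤ ENNReal.ofReal ε₂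
      · refine key1 (le_trans (measure_mono ?_) h4)
        intro x hx
        refine ⟨hx.1.2, ?_⟩
        have : 1 - δ / 2 < f x := hx.2
        change 1 / 2 ≤ f x
        linarith
      · push Not at h4
        have h5 : ENNReal.ofReal (min (ε₀ / 2) ε₂) ≤ volume (B 2 ∩ {x | f x ≤ 1 / 4}) := by
          refine (ENNReal.ofReal_le_ofReal (min_le_left _ _)).trans (h3.trans (measure_mono ?_))
          intro x hx
          refine ⟨hx.1, ?_⟩
          have hx0 : ¬ (0 < f x) := by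
            have := hx.2
            rw [hΩ] at this; exact this
          push Not at hx0
          change f x ≤ 1 / 4
          linarith
        have h6 : ENNReal.ofReal (min (ε₀ / 2) ε₂) ≤ volume (B 2 ∩ {x | 1 / 2 ≤ f x}) :=
          (ENNReal.ofReal_le_ofReal (min_le_right _ _)).trans h4.le
        have h7 := hTRA' f hf (hENB' f hf hf0 hcfg.fin hsub1 hup ht1) h5 h6
        refine key2 ((ENNReal.ofReal_le_ofReal (min_le_right _ _)).trans
          (h7.trans (measure_mono ?_)))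
        intro x hx
        have hx1 : 1 / 4 < f x := hx.2.1
        have hx2 : f x < 1 / 2 := hx.2.2
        refine ⟨⟨?_, hx.1⟩, ?_⟩
        · rw [hΩ]; change 0 < f x; linarith
        · change f x < 1 - ϑ / 2; linarith

end RFK
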