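import Pool.Agent.RFK.Targets

/-!
# MP_35334d_an, STI: the step in the interior (helper76, for helper27)
-/

set_option autoImplicit false

open MeasureTheory Filter Topology Metric Set
open scoped ENNReal NNReal

namespace RFK

namespace STI_

variable {n : ℕ} {σ : ℝ}

/-- the Caccioppoli inequality is monotone in `Λ` -/
theorem subC_mono {Ω : Set (X n)} {f : X n → ℝ} {Λ Λ' : ℝ} (h : Λ ≤ Λ') (hs : SubC σ Ω f Λ) :
    SubC σ Ω f Λ' := by
  intro k r' r hk hr' hr hr3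
  refine (hs k r' r hk hr' hr hr3).trans ?_
  gcongr

/-- `TailC` from the bound of the full tail -/
theorem tailC_of {Ω : Set (X n)} {f : X n → ℝ} {δ CT : ℝ}
    (h : ∫⁻ y in (B 4)ᶜ, ENNReal.ofReal (pos (f y - (1 - δ))) * K σ y ≤ ENNReal.ofReal (CT * δ)) :
    TailC σ Ω f δ CT := by
  refine le_trans (lintegral_mono_set ?_) h
  intro y hy
  exact hy.2

/-- the step for a function which is `< 3/4` on half of the ball -/
theorem step (hUPA : T_UPA) (hUPD : T_UPD) (hOK : OK n σ) {CT : ℝ} (hCT : 0 < CT) :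
    ∃ δ₀ : ℝ, 0 < δ₀ ∧ δ₀ ≤ 1 / 2 ∧ ∀ (Ω : Set (X n)) (g : X n → ℝ), MeasurableSet Ω →
      Measurable g → SubC σ Ω g δ₀ → FinC σ Ω g → (∀ᵐ x, x ∈ B 4 → g x ≤ 1) →
      volume (B 4 \ Ω) = 0 → TailC σ Ω g δ₀ CT →
      ENNReal.ofReal (volume.real (B 2 : Set (X n)) / 2) ≤
        volume (B 2 ∩ {x | g x < 3 / 4}) →
      ∀ᵐ x, x ∈ B 1 → g x ≤ 1 - δ₀ / 4 := by
  obtain ⟨ε₂, hε₂, hD⟩ := hUPD n σ hOK CT hCT
  have hvpos : 0 < volume.real (B 2 : Set (X n)) :=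
    ENNReal.toReal_pos (measure_ball_pos _ _ (by norm_num)).ne' measure_ball_lt_top.ne
  obtain ⟨δ₀, hδ₀, hδ₁, hA⟩ := hUPA n σ hOK (1 / 4) (volume.real (B 2 : Set (X n)) / 2) ε₂ CT
    (by norm_num) (by norm_num) (by linarith) hε₂ hCT
  refine ⟨δ₀, hδ₀, hδ₁, ?_⟩
  intro Ω g hΩ hg hs hf hup hvol htail hhalf
  have hup' : ∀ᵐ x, x ∈ Ω → x ∈ B 4 → g x ≤ 1 := by
    filter_upwards [hup] with x hx _ hx4
    exact hx hx4
  have hsub : volume (B 2 ∩ {x | g x < 3 / 4}) ≤ volume (Ω ∩ B 2 ∩ {x | g x < 1 - 1 / 4}) := by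
    calc volume (B 2 ∩ {x | g x < 3 / 4}) ≤
        volume ((Ω ∩ B 2 ∩ {x | g x < 1 - 1 / 4}) ∪ (B 4 \ Ω)) := by
          refine measure_mono ?_
          rintro x ⟨hx2, hx⟩
          by_cases hxΩ : x ∈ Ω
          · left
            refine ⟨⟨hxΩ, hx2⟩, ?_⟩
            have h3 : g x < 3 / 4 := hx
            show g x < 1 - 1 / 4
            linarith
          · right
            exact ⟨ball_subset_ball (by norm_num) hx2, hxΩ⟩
      _ ≤ volume (Ω ∩ B 2 ∩ {x | g x < 1 - 1 / 4}) + volume (B 4 \ Ω) := measure_union_le _ _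
      _ = volume (Ω ∩ B 2 ∩ {x | g x < 1 - 1 / 4}) := by rw [hvol, add_zero]
  have h1 := hA δ₀ hδ₀ le_rfl Ω g hΩ hg hs hup' htail (hhalf.trans hsub)
  have h2 := hD δ₀ hδ₀ hδ₁ Ω g hΩ hg hs hf hup' htail h1
  have h3 : ∀ᵐ x, x ∉ B 4 \ Ω := measure_eq_zero_iff_ae_notMem.mp hvol
  filter_upwards [h2, h3] with x hx hx3 hx1
  refine hx ?_ hx1
  by_contra hc
  exact hx3 ⟨ball_subset_ball (by norm_num) hx1, hc⟩

end STI_

theorem p_STI (hUPA : T_UPA) (hUPD : T_UPD) (hTL1 : T_TL1) (hFNC : T_FNC) : T_STI := by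
  intro n σ hOK
  obtain ⟨CT, hCT, hT⟩ := hTL1 n σ hOK
  obtain ⟨δ, hδ, hδ1, hstep⟩ := STI_.step hUPA hUPD hOK hCT
  obtain ⟨θ₁, hθ₁, hθ₁', hT'⟩ := hT δ hδ hδ1
  refine ⟨min θ₁ (δ / 4), δ, lt_min hθ₁ (by linarith), (min_le_left _ _).trans hθ₁', hδ,
    by linarith, ?_⟩
  intro θ δ' C₀ a hθ hθ' hδ' hδ'' ha Ω f hC
  have hθa : θ ≤ θ₁ := hθ'.trans (min_le_left _ _)
  have hθb : θ ≤ δ / 4 := hθ'.trans (min_le_right _ _)
  have hΩ : MeasurableSet Ω := by
    rw [hC.om]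
    exact measurableSet_lt measurable_const (hC.meas.add_const a)
  have hup : ∀ᵐ x, x ∈ B 4 → f x ≤ 1 := by
    have h := hC.up 0
    simpa using h
  have hlo : ∀ᵐ x, x ∈ B 4 → (fun x => 1 - f x) x ≤ 1 := by
    have h := hC.lo 0
    simpa using h
  have hvol : volume (B 4 \ Ω) = 0 := by
    rw [measure_eq_zero_iff_ae_notMem]
    filter_upwards [hlo] with x hx
    rintro ⟨hx4, hxΩ⟩
    apply hxΩ
    rw [hC.om]
    have h1 : 1 - f x ≤ 1 := hx hx4
    show 0 < f x + a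
    linarith
  obtain ⟨hF1, hF2⟩ := hFNC n σ hOK θ δ' C₀ a Ω f hC
  have ht1 : TailC σ Ω f δ CT := STI_.tailC_of (hT' θ hθ hθa f hC.meas hC.up)
  have ht2 : TailC σ Ω (fun x => 1 - f x) δ CT :=
    STI_.tailC_of (hT' θ hθ hθa (fun x => 1 - f x) (measurable_const.sub hC.meas) hC.lo)
  have hcase : ENNReal.ofReal (volume.real (B 2 : Set (X n)) / 2) ≤
      volume (B 2 ∩ {x | f x < 3 / 4}) ∨
      ENNReal.ofReal (volume.real (B 2 : Set (X n)) / 2) ≤
      volume (B 2 ∩ {x | (fun x => 1 - f x) x < 3 / 4}) := by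
    by_contra hcon
    push Not at hcon
    obtain ⟨h1, h2⟩ := hcon
    have h3 : volume (B 2 : Set (X n)) ≤ volume (B 2 ∩ {x | f x < 3 / 4}) +
        volume (B 2 ∩ {x | (fun x => 1 - f x) x < 3 / 4}) := by
      refine (measure_mono ?_).trans (measure_union_le _ _)
      intro x hx
      rcases lt_or_ge (f x) (3 / 4) with h | h
      · left
        exact ⟨hx, h⟩
      · right
        refine ⟨hx, ?_⟩
        show 1 - f x < 3 / 4
        linarith
    have h4 : volume (B 2 : Set (X n)) < ENNReal.ofReal (volume.real (B 2 : Set (X n)) / 2) +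
        ENNReal.ofReal (volume.real (B 2 : Set (X n)) / 2) :=
      h3.trans_lt (ENNReal.add_lt_add h1 h2)
    rw [← ENNReal.ofReal_add (by positivity) (by positivity), add_halves,
      ofReal_measureReal measure_ball_lt_top.ne] at h4
    exact lt_irrefl _ h4
  rcases hcase with hc | hc
  · left
    have h := hstep Ω f hΩ hC.meas (STI_.subC_mono hδ'' hC.sub) hF1 hup hvol ht1 hc
    filter_upwards [h] with x hx hx1
    exact (hx hx1).trans (by linarith)
  · right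
    have h := hstep Ω (fun x => 1 - f x) hΩ (measurable_const.sub hC.meas)
      (STI_.subC_mono hδ'' (hC.sub' hvol)) (hF2 hvol) hlo hvol ht2 hc
    filter_upwards [h] with x hx hx1
    have h1 : 1 - f x ≤ 1 - δ / 4 := hx hx1
    linarith

end RFK
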