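import Pool.Agent.RFK.Targets

/-!
# MP_35334d_an: TL1 (helper64)
-/

set_option autoImplicit false

open MeasureTheory Filter Topology Metric Set
open scoped ENNReal NNReal

namespace RFK

namespace TL1_

/-- the shells `4^(l+1) ≤ |x| < 4^(l+2)` cover the complement of `B 4` -/
theorem cover {n : ℕ} : (B 4 : Set (X n))ᶜ ⊆ ⋃ l : ℕ, (B (4 ^ (l + 2)) \ B (4 ^ (l + 1))) := by
  intro x hx
  have hx4 : (4 : ℝ) ≤ ‖x‖ := by
    simpa [B] using hx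
  obtain ⟨m, hm1, hm2⟩ := exists_nat_pow_near (x := ‖x‖) (y := (4 : ℝ)) (by linarith) (by norm_num)
  cases m with
  | zero =>
    exfalso
    rw [zero_add, pow_one] at hm2
    linarith
  | succ l =>
    rw [mem_iUnion]
    refine ⟨l, ?_, ?_⟩
    · rw [mem_ball_zero_iff]
      exact hm2
    · rw [mem_ball_zero_iff, not_lt]
      exact hm1

theorem pow_le {σ : ℝ} (hσ : 1 / 2 < σ) (l : ℕ) :
    ((4 : ℝ) ^ (l + 1)) ^ (-(2 * σ)) ≤ (4⁻¹ : ℝ) ^ (l + 1) := by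
  have h4 : (1 : ℝ) ≤ (4 : ℝ) ^ (l + 1) := one_le_pow₀ (by norm_num)
  calc ((4 : ℝ) ^ (l + 1)) ^ (-(2 * σ)) ≤ ((4 : ℝ) ^ (l + 1)) ^ (-1 : ℝ) :=
        Real.rpow_le_rpow_of_exponent_le h4 (by linarith)
    _ = (4⁻¹ : ℝ) ^ (l + 1) := by
        rw [Real.rpow_neg_one, inv_pow]

theorem shell {n : ℕ} {σ : ℝ} (hσ : 1 / 2 < σ) {C : ℝ≥0}
    (hC : ∀ ρ : ℝ, 0 < ρ → ∀ x : X n,
      ∫⁻ y in (ball x ρ)ᶜ, K σ (x - y) ≤ C * ENNReal.ofReal (ρ ^ (-(2 * σ))))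
    {g : X n → ℝ≥0∞} {c : ℕ → ℝ≥0∞} (hg : ∀ l : ℕ, ∀ᵐ x, x ∈ B (4 ^ (l + 2)) → g x ≤ c l)
    {a : ℝ} (ha : 0 ≤ a)
    (hc : ∀ l : ℕ, c l * ENNReal.ofReal ((4⁻¹ : ℝ) ^ (l + 1)) ≤
      ENNReal.ofReal (a * (2 / 3) ^ (l + 1))) :
    ∫⁻ y in (B 4)ᶜ, g y * K σ y ≤ C * ENNReal.ofReal (2 * a) := by
  have h1 : ∀ l : ℕ, ∫⁻ y in (B (4 ^ (l + 2)) \ B (4 ^ (l + 1)) : Set (X n)), g y * K σ y ≤
      C * ENNReal.ofReal (a * (2 / 3) ^ (l + 1)) := by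
    intro l
    have hms : MeasurableSet (B (4 ^ (l + 2)) \ B (4 ^ (l + 1)) : Set (X n)) :=
      measurableSet_ball.diff measurableSet_ball
    have e1 : ∫⁻ y in (B (4 ^ (l + 2)) \ B (4 ^ (l + 1)) : Set (X n)), g y * K σ y ≤
        ∫⁻ y in (B (4 ^ (l + 2)) \ B (4 ^ (l + 1)) : Set (X n)), c l * K σ y := by
      apply lintegral_mono_ae
      rw [ae_restrict_iff' hms]
      filter_upwards [hg l] with y hy hyS
      gcongr
      exact hy hyS.1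
    have e2 : ∫⁻ y in (B (4 ^ (l + 2)) \ B (4 ^ (l + 1)) : Set (X n)), c l * K σ y ≤
        c l * ∫⁻ y in (B (4 ^ (l + 1)) : Set (X n))ᶜ, K σ y := by
      rw [lintegral_const_mul _ measurable_K]
      gcongr
      exact fun y hy => hy.2
    have e3 : ∫⁻ y in (B (4 ^ (l + 1)) : Set (X n))ᶜ, K σ y ≤
        C * ENNReal.ofReal ((4⁻¹ : ℝ) ^ (l + 1)) := by
      have h := hC (4 ^ (l + 1)) (by positivity) 0
      have h' : ∀ y : X n, K σ (0 - y) = K σ y := fun y => by rw [zero_sub, K_neg]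
      simp_rw [h'] at h
      refine h.trans ?_
      gcongr
      exact pow_le hσ l
    calc _ ≤ c l * ∫⁻ y in (B (4 ^ (l + 1)) : Set (X n))ᶜ, K σ y := e1.trans e2
      _ ≤ c l * (C * ENNReal.ofReal ((4⁻¹ : ℝ) ^ (l + 1))) := by gcongr
      _ = C * (c l * ENNReal.ofReal ((4⁻¹ : ℝ) ^ (l + 1))) := by ring
      _ ≤ C * ENNReal.ofReal (a * (2 / 3) ^ (l + 1)) := by gcongr; exact hc l
  have hs : HasSum (fun l : ℕ => a * (2 / 3 : ℝ) ^ (l + 1)) (2 * a) := by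
    have h := (hasSum_geometric_of_lt_one (r := (2 / 3 : ℝ)) (by norm_num) (by norm_num)).mul_left
      (a * (2 / 3))
    have e : (fun l : ℕ => a * (2 / 3 : ℝ) ^ (l + 1)) = fun l : ℕ => a * (2 / 3) * (2 / 3) ^ l := by
      funext l
      rw [pow_succ]
      ring
    have e2 : a * (2 / 3) * (1 - 2 / 3 : ℝ)⁻¹ = 2 * a := by
      rw [show (1 - 2 / 3 : ℝ)⁻¹ = 3 by norm_num]
      ring
    rw [e2] at h
    rw [e]
    exact h
  calc ∫⁻ y in (B 4)ᶜ, g y * K σ y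
      ≤ ∫⁻ y in ⋃ l : ℕ, (B (4 ^ (l + 2)) \ B (4 ^ (l + 1)) : Set (X n)), g y * K σ y :=
        lintegral_mono_set cover
    _ ≤ ∑' l : ℕ, ∫⁻ y in (B (4 ^ (l + 2)) \ B (4 ^ (l + 1)) : Set (X n)), g y * K σ y :=
        lintegral_iUnion_le _ _
    _ ≤ ∑' l : ℕ, C * ENNReal.ofReal (a * (2 / 3) ^ (l + 1)) := ENNReal.tsum_le_tsum h1
    _ = C * ∑' l : ℕ, ENNReal.ofReal (a * (2 / 3) ^ (l + 1)) := ENNReal.tsum_mul_left
    _ = C * ENNReal.ofReal (2 * a) := by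
        rw [← ENNReal.ofReal_tsum_of_nonneg (fun l => by positivity) hs.summable, hs.tsum_eq]

theorem num {θ : ℝ} (h0 : 0 < θ) (h1 : θ ≤ 1 / 4) (l : ℕ) :
    ((1 - θ) ^ l)⁻¹ ≤ (4 / 3 : ℝ) ^ l := by
  rw [← inv_pow]
  apply pow_le_pow_left₀ (inv_nonneg.mpr (by linarith))
  rw [inv_le_comm₀ (by linarith) (by norm_num)]
  norm_num
  linarith

/-- `(1-θ)^(-l) - 1 ≤ θ (8/3)^l` -/
theorem num2 {θ : ℝ} (h0 : 0 < θ) (h1 : θ ≤ 1 / 4) (l : ℕ) :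
    ((1 - θ) ^ l)⁻¹ - 1 ≤ θ * (8 / 3 : ℝ) ^ l := by
  have h2 : (l : ℝ) ≤ 2 ^ l := by exact_mod_cast (Nat.lt_two_pow_self (n := l)).le
  have h3 : 1 - l * θ ≤ (1 - θ) ^ l := by
    have := one_add_mul_le_pow (a := -θ) (by linarith) l
    calc 1 - l * θ = 1 + l * -θ := by ring
      _ ≤ (1 + -θ) ^ l := this
      _ = (1 - θ) ^ l := by ring_nf
  have h4 : 0 < (1 - θ) ^ l := pow_pos (by linarith) l
  have h5 : ((1 - θ) ^ l)⁻¹ - 1 = (1 - (1 - θ) ^ l) * ((1 - θ) ^ l)⁻¹ := by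
    field_simp
  rw [h5]
  calc (1 - (1 - θ) ^ l) * ((1 - θ) ^ l)⁻¹ ≤ (2 ^ l * θ) * (4 / 3 : ℝ) ^ l := by
        apply mul_le_mul _ (num h0 h1 l) (by positivity) (by positivity)
        nlinarith
    _ = θ * (8 / 3 : ℝ) ^ l := by
        rw [show (8 / 3 : ℝ) = 2 * (4 / 3) by norm_num, mul_pow]
        ring

end TL1_

theorem p_TL1 (hK : T_KTL) : T_TL1 := by
  intro n σ hOK
  obtain ⟨C, hC⟩ := hK n σ hOK
  refine ⟨4 * C + 1, by positivity, ?_⟩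
  intro δ hδ0 hδ1
  refine ⟨min δ (1 / 4), lt_min hδ0 (by norm_num), min_le_right _ _, ?_⟩
  intro θ hθ0 hθ1 f hf hG
  have hθδ : θ ≤ δ := hθ1.trans (min_le_left _ _)
  have hθ4 : θ ≤ 1 / 4 := hθ1.trans (min_le_right _ _)
  have key := TL1_.shell (n := n) (σ := σ) hOK.2.1 hC
    (g := fun y => ENNReal.ofReal (pos (f y - (1 - δ))))
    (c := fun l => ENNReal.ofReal (((1 - θ) ^ (l + 1))⁻¹ - 1 + δ)) (a := 2 * δ) ?_ (by positivity) ?_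
  · refine key.trans ?_
    rw [← ENNReal.ofReal_coe_nnreal, ← ENNReal.ofReal_mul (by positivity)]
    apply ENNReal.ofReal_le_ofReal
    have : (0 : ℝ) ≤ C := C.2
    nlinarith
  · intro l
    filter_upwards [hG (l + 1)] with x hx hxB
    apply ENNReal.ofReal_le_ofReal
    have h1 := hx hxB
    have h2 : 1 ≤ ((1 - θ) ^ (l + 1))⁻¹ := by
      rw [one_le_inv₀ (pow_pos (by linarith) _)]
      exact pow_le_one₀ (by linarith) (by linarith)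
    apply max_le
    · linarith
    · linarith
  · intro l
    rw [← ENNReal.ofReal_mul]
    · apply ENNReal.ofReal_le_ofReal
      have h1 := TL1_.num2 hθ0 hθ4 (l + 1)
      have h2 : (0 : ℝ) < (8 / 3 : ℝ) ^ (l + 1) := by positivity
      have h3 : (1 : ℝ) ≤ (8 / 3 : ℝ) ^ (l + 1) := one_le_pow₀ (by norm_num)
      calc (((1 - θ) ^ (l + 1))⁻¹ - 1 + δ) * (4⁻¹ : ℝ) ^ (l + 1)
          ≤ (2 * δ * (8 / 3) ^ (l + 1)) * (4⁻¹ : ℝ) ^ (l + 1) := by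
            gcongr
            nlinarith
        _ = 2 * δ * (2 / 3) ^ (l + 1) := by
            rw [mul_assoc (2 * δ), ← mul_pow]
            norm_num
    · have h2 : 1 ≤ ((1 - θ) ^ (l + 1))⁻¹ := by
        rw [one_le_inv₀ (pow_pos (by linarith) _)]
        exact pow_le_one₀ (by linarith) (by linarith)
      linarith

end RFK
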