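import Pool.Agent.RFK.TL1

/-!
# MP_35334d_an: TL2 (helper64)
-/

set_option autoImplicit false

open MeasureTheory Filter Topology Metric Set
open scoped ENNReal NNReal

namespace RFK

theorem p_TL2 (hK : T_KTL) : T_TL2 := by
  intro n σ hOK
  obtain ⟨C, hC⟩ := hK n σ hOK
  refine ⟨2 * C + 1, by positivity, ?_⟩
  intro θ hθ0 hθ1 f hf hf0 hG
  have hfin : (C : ℝ≥0∞) * ENNReal.ofReal (2 * 1) ≤ ENNReal.ofReal (2 * C + 1) := by
    rw [← ENNReal.ofReal_coe_nnreal, ← ENNReal.ofReal_mul (by positivity)]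
    apply ENNReal.ofReal_le_ofReal
    have : (0 : ℝ) ≤ C := C.2
    linarith
  constructor
  · refine (TL1_.shell (n := n) (σ := σ) hOK.2.1 hC
      (g := fun y => ENNReal.ofReal (f y))
      (c := fun l => ENNReal.ofReal ((4 / 3) ^ (l + 1))) (a := 1) ?_ zero_le_one ?_).trans hfin
    · intro l
      filter_upwards [hG (l + 1)] with x hx hxB
      apply ENNReal.ofReal_le_ofReal
      exact (hx hxB).trans (TL1_.num hθ0 hθ1 (l + 1))
    · intro l
      rw [← ENNReal.ofReal_mul (by positivity), ← mul_pow, one_mul]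
      apply ENNReal.ofReal_le_ofReal
      exact pow_le_pow_left₀ (by norm_num) (by norm_num) _
  · refine (TL1_.shell (n := n) (σ := σ) hOK.2.1 hC
      (g := fun y => sq (f y))
      (c := fun l => ENNReal.ofReal ((16 / 9) ^ (l + 1))) (a := 1) ?_ zero_le_one ?_).trans hfin
    · intro l
      filter_upwards [hG (l + 1)] with x hx hxB
      apply ENNReal.ofReal_le_ofReal
      have h1 := (hx hxB).trans (TL1_.num hθ0 hθ1 (l + 1))
      calc f x ^ 2 ≤ ((4 / 3 : ℝ) ^ (l + 1)) ^ 2 := pow_le_pow_left₀ (hf0 x) h1 2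
        _ = (16 / 9) ^ (l + 1) := by
            rw [← pow_mul, mul_comm, pow_mul]
            norm_num
    · intro l
      rw [← ENNReal.ofReal_mul (by positivity), ← mul_pow, one_mul]
      apply ENNReal.ofReal_le_ofReal
      exact pow_le_pow_left₀ (by norm_num) (by norm_num) _

end RFK
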