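import Pool.Agent.RFK.Targets

/-!
# TRA: the transition lemma (midpoint argument)
-/

set_option autoImplicit false

open MeasureTheory Filter Topology Metric Set
open scoped ENNReal NNReal

namespace RFK

namespace TRA_

variable {n : ℕ} {σ : ℝ}

/-- the volume of `{x ∈ F, x + h ∈ G}` -/
noncomputable def p (F G : Set (X n)) (h : X n) : ℝ≥0∞ :=
  ∫⁻ x, F.indicator (1 : X n → ℝ≥0∞) x * G.indicator (1 : X n → ℝ≥0∞) (x + h)

theorem measurable_ind {F : Set (X n)} (hF : MeasurableSet F) :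
    Measurable (F.indicator (1 : X n → ℝ≥0∞)) := measurable_one.indicator hF

theorem measurable_fg {F G : Set (X n)} (hF : MeasurableSet F) (hG : MeasurableSet G) :
    Measurable (Function.uncurry fun (h x : X n) =>
      F.indicator (1 : X n → ℝ≥0∞) x * G.indicator (1 : X n → ℝ≥0∞) (x + h)) :=
  ((measurable_ind hF).comp measurable_snd).mul
    ((measurable_ind hG).comp (measurable_snd.add measurable_fst))

theorem measurable_fg' {F G : Set (X n)} (hF : MeasurableSet F) (hG : MeasurableSet G)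
    (h : X n) : Measurable fun x : X n =>
      F.indicator (1 : X n → ℝ≥0∞) x * G.indicator (1 : X n → ℝ≥0∞) (x + h) :=
  (measurable_ind hF).mul ((measurable_ind hG).comp (measurable_id.add measurable_const))

theorem measurable_p {F G : Set (X n)} (hF : MeasurableSet F) (hG : MeasurableSet G) :
    Measurable (p F G) := (measurable_fg hF hG).lintegral_prod_right'

theorem p_half {F G D : Set (X n)} (hF : MeasurableSet F) (hG : MeasurableSet G)
    (hD : MeasurableSet D) (h : X n)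
    (hc : ∀ x, x ∈ F → x + h ∈ G → x + (2 : ℝ)⁻¹ • h ∈ F ∪ G ∪ D) :
    p F G h ≤ 2 * p F G ((2 : ℝ)⁻¹ • h) + volume D := by
  set k : X n := (2 : ℝ)⁻¹ • h with hk
  have hkk : ∀ x : X n, x + k + k = x + h := by
    intro x
    rw [add_assoc, hk, ← add_smul]
    norm_num
  have h1 : ∀ x, F.indicator (1 : X n → ℝ≥0∞) x * G.indicator (1 : X n → ℝ≥0∞) (x + h) ≤
      F.indicator (1 : X n → ℝ≥0∞) x * G.indicator (1 : X n → ℝ≥0∞) (x + k) +
      (F.indicator (1 : X n → ℝ≥0∞) (x + k) * G.indicator (1 : X n → ℝ≥0∞) (x + k + k) +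
        D.indicator (1 : X n → ℝ≥0∞) (x + k)) := by
    intro x
    by_cases hx : x ∈ F
    · by_cases hy : x + h ∈ G
      · have hl : F.indicator (1 : X n → ℝ≥0∞) x * G.indicator (1 : X n → ℝ≥0∞) (x + h) = 1 := by
          rw [indicator_of_mem hx, indicator_of_mem hy, Pi.one_apply, Pi.one_apply, one_mul]
        rw [hl]
        rcases hc x hx hy with (h3 | h3) | h3
        · refine le_add_left (le_add_right ?_)
          rw [indicator_of_mem h3, hkk, indicator_of_mem hy, Pi.one_apply, Pi.one_apply, one_mul]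
        · refine le_add_right ?_
          rw [indicator_of_mem hx, indicator_of_mem h3, Pi.one_apply, Pi.one_apply, one_mul]
        · refine le_add_left (le_add_left ?_)
          rw [indicator_of_mem h3, Pi.one_apply]
      · rw [indicator_of_notMem hy, mul_zero]
        exact zero_le
    · rw [indicator_of_notMem hx, zero_mul]
      exact zero_le
  have h2 : ∫⁻ x, (F.indicator (1 : X n → ℝ≥0∞) (x + k) *
      G.indicator (1 : X n → ℝ≥0∞) (x + k + k)) = p F G k :=
    lintegral_add_right_eq_self (fun x => F.indicator (1 : X n → ℝ≥0∞) x *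
      G.indicator (1 : X n → ℝ≥0∞) (x + k)) k
  have h3 : ∫⁻ x, D.indicator (1 : X n → ℝ≥0∞) (x + k) = volume D := by
    rw [lintegral_add_right_eq_self (fun x => D.indicator (1 : X n → ℝ≥0∞) x) k,
      lintegral_indicator_one hD]
  calc p F G h ≤ ∫⁻ x, (F.indicator (1 : X n → ℝ≥0∞) x * G.indicator (1 : X n → ℝ≥0∞) (x + k) +
      (F.indicator (1 : X n → ℝ≥0∞) (x + k) * G.indicator (1 : X n → ℝ≥0∞) (x + k + k) +
        D.indicator (1 : X n → ℝ≥0∞) (x + k))) := lintegral_mono h1
    _ = p F G k + (p F G k + volume D) := by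
        have hmD : Measurable fun x : X n => D.indicator (1 : X n → ℝ≥0∞) (x + k) :=
          (measurable_ind hD).comp (measurable_id.add measurable_const)
        rw [lintegral_add_left (measurable_fg' hF hG k), lintegral_add_right _ hmD, h2, h3]
        rfl
    _ = 2 * p F G k + volume D := by rw [two_mul, add_assoc]

/-- the averages -/
noncomputable def Phi (F G : Set (X n)) (j : ℕ) : ℝ≥0∞ :=
  ∫⁻ h in B 4, p F G (((2 : ℝ)⁻¹) ^ j • h)

theorem Phi_step {F G D : Set (X n)} (hF : MeasurableSet F) (hG : MeasurableSet G)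
    (hD : MeasurableSet D)
    (hc : ∀ x h, x ∈ F → x + h ∈ G → x + (2 : ℝ)⁻¹ • h ∈ F ∪ G ∪ D) (j : ℕ) :
    Phi F G j ≤ 2 * Phi F G (j + 1) + volume (B 4 : Set (X n)) * volume D := by
  unfold Phi
  calc ∫⁻ h in B 4, p F G (((2 : ℝ)⁻¹) ^ j • h)
      ≤ ∫⁻ h in B 4, (2 * p F G (((2 : ℝ)⁻¹) ^ (j + 1) • h) + volume D) := by
        apply lintegral_mono
        intro h
        have := p_half hF hG hD (((2 : ℝ)⁻¹) ^ j • h) (fun x => hc x _)
        rwa [smul_smul, ← pow_succ'] at this
    _ = 2 * (∫⁻ h in B 4, p F G (((2 : ℝ)⁻¹) ^ (j + 1) • h)) +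
          volume (B 4 : Set (X n)) * volume D := by
        rw [lintegral_add_right _ measurable_const, lintegral_const_mul' _ _ (by norm_num),
          lintegral_const, Measure.restrict_apply_univ, mul_comm (volume D)]

theorem Phi_iter {F G D : Set (X n)} (hF : MeasurableSet F) (hG : MeasurableSet G)
    (hD : MeasurableSet D)
    (hc : ∀ x h, x ∈ F → x + h ∈ G → x + (2 : ℝ)⁻¹ • h ∈ F ∪ G ∪ D) (j : ℕ) :
    Phi F G 0 ≤ 2 ^ j * Phi F G j + 2 ^ j * (volume (B 4 : Set (X n)) * volume D) := by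
  induction j with
  | zero => simp
  | succ j ih =>
    have hs := Phi_step hF hG hD hc j
    calc Phi F G 0 ≤ 2 ^ j * Phi F G j + 2 ^ j * (volume (B 4 : Set (X n)) * volume D) := ih
      _ ≤ 2 ^ j * (2 * Phi F G (j + 1) + volume (B 4 : Set (X n)) * volume D) +
          2 ^ j * (volume (B 4 : Set (X n)) * volume D) := by gcongr
      _ = 2 ^ (j + 1) * Phi F G (j + 1) +
          2 ^ (j + 1) * (volume (B 4 : Set (X n)) * volume D) := by ring

theorem p_eq_zero {F G : Set (X n)} (hF : F ⊆ B 2) (hG : G ⊆ B 2) {h : X n} (hh : h ∉ (B 4 : Set (X n))) :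
    p F G h = 0 := by
  unfold p
  have : ∀ x, F.indicator (1 : X n → ℝ≥0∞) x * G.indicator (1 : X n → ℝ≥0∞) (x + h) = 0 := by
    intro x
    by_cases hx : x ∈ F
    · by_cases hy : x + h ∈ G
      · exfalso
        apply hh
        have h1 := hF hx
        have h2 := hG hy
        rw [mem_ball_zero_iff] at h1 h2 ⊢
        calc ‖h‖ = ‖(x + h) - x‖ := by rw [add_sub_cancel_left]
          _ ≤ ‖x + h‖ + ‖x‖ := norm_sub_le _ _
          _ < 4 := by linarith
      · rw [indicator_of_notMem hy, mul_zero]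
    · rw [indicator_of_notMem hx, zero_mul]
  simp_rw [this]
  exact lintegral_zero

theorem Phi_zero {F G : Set (X n)} (hF : MeasurableSet F) (hG : MeasurableSet G)
    (hF2 : F ⊆ B 2) (hG2 : G ⊆ B 2) : volume F * volume G ≤ Phi F G 0 := by
  have h1 : Phi F G 0 = ∫⁻ h, p F G h := by
    unfold Phi
    simp_rw [pow_zero, one_smul]
    rw [← lintegral_indicator isOpen_ball.measurableSet]
    apply lintegral_congr
    intro h
    by_cases hh : h ∈ (B 4 : Set (X n))
    · rw [indicator_of_mem hh]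
    · rw [indicator_of_notMem hh, p_eq_zero hF2 hG2 hh]
  rw [h1]
  unfold p
  rw [lintegral_lintegral_swap (measurable_fg hF hG).aemeasurable]
  have h2 : ∀ x : X n, ∫⁻ h, F.indicator (1 : X n → ℝ≥0∞) x *
      G.indicator (1 : X n → ℝ≥0∞) (x + h) = F.indicator (1 : X n → ℝ≥0∞) x * volume G := by
    intro x
    have hne : F.indicator (1 : X n → ℝ≥0∞) x ≠ ∞ := by
      by_cases hx : x ∈ F
      · rw [indicator_of_mem hx]; exact ENNReal.one_ne_top
      · rw [indicator_of_notMem hx]; exact ENNReal.zero_ne_top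
    rw [lintegral_const_mul' _ _ hne,
      lintegral_add_left_eq_self (fun y => G.indicator (1 : X n → ℝ≥0∞) y) x,
      lintegral_indicator_one hG]
  simp_rw [h2]
  rw [lintegral_mul_const _ (measurable_ind hF), lintegral_indicator_one hF]

theorem ind_mul (F : Set (X n)) (φ : X n → ℝ≥0∞) (x : X n) :
    F.indicator φ x = F.indicator (1 : X n → ℝ≥0∞) x * φ x := by
  by_cases hx : x ∈ F
  · rw [indicator_of_mem hx, indicator_of_mem hx, Pi.one_apply, one_mul]
  · rw [indicator_of_notMem hx, indicator_of_notMem hx, zero_mul]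

theorem energy_eq {F G : Set (X n)} (hF : MeasurableSet F) (hG : MeasurableSet G) :
    ∫⁻ x in F, ∫⁻ y in G, K σ (x - y) = ∫⁻ h, p F G h * K σ h := by
  have h1 : ∀ x : X n, ∫⁻ y in G, K σ (x - y) =
      ∫⁻ h, G.indicator (1 : X n → ℝ≥0∞) (x + h) * K σ h := by
    intro x
    rw [← lintegral_indicator hG, lintegral_congr (ind_mul G (fun y => K σ (x - y))),
      ← lintegral_add_left_eq_self (fun y => G.indicator (1 : X n → ℝ≥0∞) y * K σ (x - y)) x]
    apply lintegral_congr
    intro h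
    rw [sub_add_cancel_left, K_neg]
  rw [← lintegral_indicator hF, lintegral_congr (ind_mul F (fun x => ∫⁻ y in G, K σ (x - y)))]
  simp_rw [h1]
  have hne : ∀ x, F.indicator (1 : X n → ℝ≥0∞) x ≠ ∞ := by
    intro x
    by_cases hx : x ∈ F
    · rw [indicator_of_mem hx]; exact ENNReal.one_ne_top
    · rw [indicator_of_notMem hx]; exact ENNReal.zero_ne_top
  have h2 : ∀ x : X n, F.indicator (1 : X n → ℝ≥0∞) x *
      ∫⁻ h, G.indicator (1 : X n → ℝ≥0∞) (x + h) * K σ h =
      ∫⁻ h, (F.indicator (1 : X n → ℝ≥0∞) x * G.indicator (1 : X n → ℝ≥0∞) (x + h)) * K σ h := by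
    intro x
    rw [← lintegral_const_mul' _ _ (hne x)]
    apply lintegral_congr
    intro h
    rw [mul_assoc]
  simp_rw [h2]
  have hm : Measurable (Function.uncurry fun (x h : X n) =>
      (F.indicator (1 : X n → ℝ≥0∞) x * G.indicator (1 : X n → ℝ≥0∞) (x + h)) * K σ h) :=
    (((measurable_ind hF).comp measurable_fst).mul
      ((measurable_ind hG).comp (measurable_fst.add measurable_snd))).mul
      (measurable_K.comp measurable_snd)
  rw [lintegral_lintegral_swap hm.aemeasurable]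
  apply lintegral_congr
  intro h
  rw [lintegral_mul_const _ (measurable_fg' hF hG h)]
  rfl

theorem Phi_le {F G : Set (X n)} (hn : 2 ≤ n) (hσ : 0 < σ) (j : ℕ) :
    ENNReal.ofReal (2 ^ (2 * σ * j) * (4 ^ ((n : ℝ) + 2 * σ))⁻¹) * Phi F G j ≤
      ∫⁻ h, p F G h * K σ h := by
  set R : ℝ := ((2 : ℝ)⁻¹) ^ j with hR
  have hRpos : 0 < R := by positivity
  have : Nonempty (Fin n) := ⟨⟨0, by omega⟩⟩
  have haff := lintegral_aff hRpos (0 : X n) univ (fun h => p F G h * K σ h)
  rw [preimage_univ, setLIntegral_univ, setLIntegral_univ] at haff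
  rw [haff]
  simp_rw [zero_add]
  have hval : ENNReal.ofReal (2 ^ (2 * σ * j) * (4 ^ ((n : ℝ) + 2 * σ))⁻¹) =
      ENNReal.ofReal (R ^ (n : ℝ)) * (ENNReal.ofReal (R ^ (-((n : ℝ) + 2 * σ))) *
        ENNReal.ofReal ((4 ^ ((n : ℝ) + 2 * σ))⁻¹)) := by
    rw [← ENNReal.ofReal_mul (by positivity), ← ENNReal.ofReal_mul (by positivity)]
    congr 1
    rw [← mul_assoc, ← Real.rpow_add hRpos]
    congr 1
    rw [show (n : ℝ) + -((n : ℝ) + 2 * σ) = -(2 * σ) by ring, hR, ← Real.rpow_natCast,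
      ← Real.rpow_mul (by norm_num), Real.inv_rpow (by norm_num), ← Real.rpow_neg (by norm_num)]
    congr 1
    ring
  rw [hval, mul_assoc]
  gcongr
  unfold Phi
  rw [← lintegral_const_mul' _ _ (ENNReal.mul_ne_top ENNReal.ofReal_ne_top ENNReal.ofReal_ne_top)]
  refine le_trans ?_ (setLIntegral_le_lintegral (B 4) _)
  apply lintegral_mono_ae
  rw [ae_restrict_iff' isOpen_ball.measurableSet]
  have hne : ∀ᵐ h : X n, h ≠ 0 := by
    rw [ae_iff]
    simp
  filter_upwards [hne] with h hh hh4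
  rw [K_smul hRpos, mul_comm (p F G (R • h))]
  gcongr
  rw [mem_ball_zero_iff] at hh4
  exact le_K (by positivity) hh hh4.le

end TRA_

open TRA_

/-- TRA -/
theorem p_TRA : T_TRA := by
  intro n σ hOK ε E₀ hε hE
  obtain ⟨hn, hσ, hσ1⟩ := hOK
  have hσ0 : 0 < σ := by linarith
  -- choice of `j`
  set C : ℝ := 16 * 4 ^ ((n : ℝ) + 2 * σ) * E₀ with hC
  have hCpos : 0 < C := by positivity
  set q : ℝ := 2 ^ (-(2 * σ - 1)) with hq
  have hq0 : 0 < q := by positivity
  have hq1 : q < 1 := Real.rpow_lt_one_of_one_lt_of_neg (by norm_num) (by linarith)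
  obtain ⟨j, hj⟩ := exists_pow_lt_of_lt_one (show 0 < ε ^ 2 / 2 / C by positivity) hq1
  set V : ℝ≥0∞ := volume (B 4 : Set (X n)) with hV
  have hVtop : V ≠ ∞ := measure_ball_lt_top.ne
  have hV0 : V ≠ 0 := (measure_ball_pos _ _ (by norm_num)).ne'
  have hVr : 0 < V.toReal := ENNReal.toReal_pos hV0 hVtop
  refine ⟨ε ^ 2 / 2 / (2 ^ j * V.toReal), by positivity, ?_⟩
  intro u hu hen hF hG
  set F : Set (X n) := B 2 ∩ {x | u x ≤ 1 / 4} with hFdef
  set G : Set (X n) := B 2 ∩ {x | 1 / 2 ≤ u x} with hGdef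
  set D : Set (X n) := B 2 ∩ {x | 1 / 4 < u x ∧ u x < 1 / 2} with hDdef
  have mB : MeasurableSet (B 2 : Set (X n)) := isOpen_ball.measurableSet
  have mF : MeasurableSet F := mB.inter (measurableSet_le hu measurable_const)
  have mG : MeasurableSet G := mB.inter (measurableSet_le measurable_const hu)
  have mD : MeasurableSet D := mB.inter
    ((measurableSet_lt measurable_const hu).inter (measurableSet_lt hu measurable_const))
  have hc : ∀ x h : X n, x ∈ F → x + h ∈ G → x + (2 : ℝ)⁻¹ • h ∈ F ∪ G ∪ D := by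
    intro x h hx hy
    have hmid : x + (2 : ℝ)⁻¹ • h ∈ (B 2 : Set (X n)) := by
      have h1 := (convex_ball (0 : X n) 2) hx.1 hy.1 (a := 1 / 2) (b := 1 / 2)
        (by norm_num) (by norm_num) (by norm_num)
      have h2 : x + (2 : ℝ)⁻¹ • h = (1 / 2 : ℝ) • x + (1 / 2 : ℝ) • (x + h) := by
        rw [smul_add, ← add_assoc, ← add_smul]
        norm_num
      rw [h2]
      exact h1
    rcases le_or_gt (u (x + (2 : ℝ)⁻¹ • h)) (1 / 4) with h3 | h3
    · exact Or.inl (Or.inl ⟨hmid, h3⟩)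
    · rcases le_or_gt (1 / 2) (u (x + (2 : ℝ)⁻¹ • h)) with h4 | h4
      · exact Or.inl (Or.inr ⟨hmid, h4⟩)
      · exact Or.inr ⟨hmid, h3, h4⟩
  -- the energy
  have henergy : ENNReal.ofReal (1 / 16) * ∫⁻ h, p F G h * K σ h ≤ ENNReal.ofReal E₀ := by
    rw [← energy_eq mF mG]
    refine le_trans ?_ hen
    rw [En_eq]
    refine le_trans ?_ (DI_mono_set (show F ⊆ B 2 from inter_subset_left)
      (show G ⊆ B 2 from inter_subset_left) _)
    have h1 : DI σ F G (fun _ _ => ENNReal.ofReal (1 / 16) * 1) ≤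
        DI σ F G (fun x y => sq (u x - u y)) := by
      apply DI_mono mF mG
      intro x hx y hy
      rw [mul_one]
      unfold sq
      apply ENNReal.ofReal_le_ofReal
      have h2 : u x ≤ 1 / 4 := hx.2
      have h3 : 1 / 2 ≤ u y := hy.2
      nlinarith
    refine le_trans (le_of_eq ?_) h1
    rw [DI_const_mul ENNReal.ofReal_ne_top]
    unfold DI
    simp_rw [one_mul]
  have hPhij : ENNReal.ofReal (1 / 16 * (2 ^ (2 * σ * j) * (4 ^ ((n : ℝ) + 2 * σ))⁻¹)) *
      Phi F G j ≤ ENNReal.ofReal E₀ := by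
    rw [ENNReal.ofReal_mul (by norm_num), mul_assoc]
    refine le_trans ?_ henergy
    gcongr
    exact Phi_le hn hσ0 j
  have hPhij2 : (2 : ℝ≥0∞) ^ j * Phi F G j ≤ ENNReal.ofReal (ε ^ 2 / 2) := by
    set a : ℝ := 1 / 16 * (2 ^ (2 * σ * j) * (4 ^ ((n : ℝ) + 2 * σ))⁻¹) with ha
    have hapos : 0 < a := by positivity
    have h1 : Phi F G j ≤ ENNReal.ofReal (E₀ / a) := by
      rw [ENNReal.ofReal_div_of_pos hapos, ENNReal.le_div_iff_mul_le
        (Or.inl (ENNReal.ofReal_pos.2 hapos).ne') (Or.inl ENNReal.ofReal_ne_top), mul_comm]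
      exact hPhij
    have h2 : (2 : ℝ≥0∞) ^ j = ENNReal.ofReal (2 ^ j) := by
      rw [ENNReal.ofReal_pow (by norm_num)]
      simp
    rw [h2]
    calc ENNReal.ofReal (2 ^ j) * Phi F G j ≤ ENNReal.ofReal (2 ^ j) * ENNReal.ofReal (E₀ / a) := by
          gcongr
      _ = ENNReal.ofReal (2 ^ j * (E₀ / a)) := by rw [ENNReal.ofReal_mul (by positivity)]
      _ ≤ ENNReal.ofReal (ε ^ 2 / 2) := by
          apply ENNReal.ofReal_le_ofReal
          have h3 : (2 : ℝ) ^ j * (E₀ / a) = C * q ^ j := by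
            have hqj : q ^ j = (2 : ℝ) ^ j * ((2 : ℝ) ^ (2 * σ * j))⁻¹ := by
              rw [hq, ← Real.rpow_natCast, ← Real.rpow_mul (by norm_num), ← Real.rpow_natCast 2 j,
                ← Real.rpow_neg (by norm_num), ← Real.rpow_add (by norm_num)]
              congr 1
              ring
            rw [hqj, ha, hC]
            have e1 : (2 : ℝ) ^ (2 * σ * j) ≠ 0 := by positivity
            have e2 : (4 : ℝ) ^ ((n : ℝ) + 2 * σ) ≠ 0 := by positivity
            field_simp
          rw [h3]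
          have h4 := (mul_lt_mul_of_pos_left hj hCpos).le
          have h5 : C * (ε ^ 2 / 2 / C) = ε ^ 2 / 2 := by field_simp
          linarith
  have hmain : ENNReal.ofReal (ε ^ 2) ≤
      ENNReal.ofReal (ε ^ 2 / 2) + 2 ^ j * (V * volume D) := by
    calc ENNReal.ofReal (ε ^ 2) = ENNReal.ofReal ε * ENNReal.ofReal ε := by
          rw [← ENNReal.ofReal_mul hε.le, pow_two]
      _ ≤ volume F * volume G := by gcongr
      _ ≤ Phi F G 0 := Phi_zero mF mG inter_subset_left inter_subset_left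
      _ ≤ 2 ^ j * Phi F G j + 2 ^ j * (V * volume D) := Phi_iter mF mG mD hc j
      _ ≤ _ := by gcongr
  by_contra hlt
  rw [not_le] at hlt
  have hcpos : 0 < ε ^ 2 / 2 / (2 ^ j * V.toReal) := by positivity
  have h6 : (2 : ℝ≥0∞) ^ j * (V * volume D) < ENNReal.ofReal (ε ^ 2 / 2) := by
    have hVV : V = ENNReal.ofReal V.toReal := (ENNReal.ofReal_toReal hVtop).symm
    have h2 : (2 : ℝ≥0∞) ^ j = ENNReal.ofReal (2 ^ j) := by
      rw [ENNReal.ofReal_pow (by norm_num)]
      simp
    calc (2 : ℝ≥0∞) ^ j * (V * volume D) = (2 ^ j * V) * volume D := by rw [mul_assoc]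
      _ < (2 ^ j * V) * ENNReal.ofReal (ε ^ 2 / 2 / (2 ^ j * V.toReal)) := by
          apply ENNReal.mul_lt_mul_right _ _ hlt
          · exact mul_ne_zero (by positivity) hV0
          · exact ENNReal.mul_ne_top (by simp) hVtop
      _ = ENNReal.ofReal (ε ^ 2 / 2) := by
          rw [h2]
          nth_rewrite 1 [hVV]
          rw [← ENNReal.ofReal_mul (by positivity), ← ENNReal.ofReal_mul (by positivity)]
          congr 1
          field_simp
  have h7 : ENNReal.ofReal (ε ^ 2) < ENNReal.ofReal (ε ^ 2) := by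
    calc ENNReal.ofReal (ε ^ 2) ≤ ENNReal.ofReal (ε ^ 2 / 2) + 2 ^ j * (V * volume D) := hmain
      _ < ENNReal.ofReal (ε ^ 2 / 2) + ENNReal.ofReal (ε ^ 2 / 2) :=
          ENNReal.add_lt_add_left ENNReal.ofReal_ne_top h6
      _ = ENNReal.ofReal (ε ^ 2) := by
          rw [← ENNReal.ofReal_add (by positivity) (by positivity)]
          congr 1
          ring
  exact lt_irrefl _ h7

end RFK
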