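import Pool.Agent.RFK.Basic
import Pool.Agent.RFK.Targets

/-!
# MP_35334d_an, RFK-TRC: continuity of translations (helper38)
-/

set_option autoImplicit false

open MeasureTheory Filter Topology Metric Set
open scoped ENNReal NNReal

namespace RFK

namespace TRC_

theorem sq_eq_enorm (t : ℝ) : sq t = ‖t‖ₑ ^ (2 : ℝ) := by
  rw [sq_eq, ← ofReal_norm, ENNReal.ofReal_rpow_of_nonneg (norm_nonneg _) (by norm_num)]
  congr 1
  rw [Real.norm_eq_abs]
  norm_num

theorem lint_sq {Y : Type*} [MeasurableSpace Y] (μ : Measure Y) (F : Y → ℝ) :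
    ∫⁻ y, sq (F y) ∂μ = (eLpNorm F 2 μ) ^ (2 : ℝ) := by
  rw [eLpNorm_eq_lintegral_rpow_enorm_toReal (by norm_num) (by norm_num)]
  simp only [ENNReal.toReal_ofNat]
  rw [← ENNReal.rpow_mul]
  norm_num
  apply lintegral_congr
  intro y
  rw [sq_eq_enorm]
  norm_num

theorem gen {Y : Type*} [TopologicalSpace Y] [R1Space Y] [MeasurableSpace Y] [BorelSpace Y]
    (μ : Measure Y) [μ.InnerRegularCompactLTTop] [IsLocallyFiniteMeasure μ] {n : ℕ}
    (g : X n → C(Y, Y)) (hg : Continuous g) (hgm : ∀ z, MeasurePreserving (g z) μ μ)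
    (h0 : ∀ y, g 0 y = y) (F : Y → ℝ) (hF : Measurable F) (hF2 : ∫⁻ y, sq (F y) ∂μ ≠ ∞) :
    Tendsto (fun z => ∫⁻ y, sq (F (g z y) - F y) ∂μ) (𝓝 0) (𝓝 0) := by
  have hmem : MemLp F 2 μ := by
    refine ⟨hF.aestronglyMeasurable, ?_⟩
    rw [lint_sq] at hF2
    by_contra hc
    rw [not_lt, top_le_iff] at hc
    rw [hc] at hF2
    simp at hF2
  have hc : Continuous fun z => Lp.compMeasurePreserving (g z) (hgm z) (hmem.toLp F) :=
    continuous_const.compMeasurePreservingLp hg hgm (by norm_num)
  have h1 := (hc.tendsto 0)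
  have h2 : Lp.compMeasurePreserving (g 0) (hgm 0) (hmem.toLp F) = hmem.toLp F := by
    rw [Lp.toLp_compMeasurePreserving]
    apply MemLp.toLp_congr
    exact Filter.Eventually.of_forall fun y => by simp [h0]
  rw [h2, tendsto_iff_edist_tendsto_0] at h1
  have h3 : ∀ z, edist (Lp.compMeasurePreserving (g z) (hgm z) (hmem.toLp F)) (hmem.toLp F) =
      eLpNorm (F ∘ (g z) - F) 2 μ := by
    intro z
    rw [Lp.toLp_compMeasurePreserving, Lp.edist_toLp_toLp]
  simp only [h3] at h1
  have h4 : ∀ z, ∫⁻ y, sq (F (g z y) - F y) ∂μ = (eLpNorm (F ∘ (g z) - F) 2 μ) ^ (2 : ℝ) := by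
    intro z
    rw [← lint_sq]
    rfl
  simp only [h4]
  have h5 := (ENNReal.continuous_rpow_const (y := 2)).tendsto 0
  rw [ENNReal.zero_rpow_of_pos (by norm_num)] at h5
  exact h5.comp h1

/-- the shift of `Xⁿ` -/
def sh {n : ℕ} (z : X n) : C(X n, X n) := ⟨fun x => x - z, by fun_prop⟩

theorem continuous_sh {n : ℕ} : Continuous (sh : X n → C(X n, X n)) := by
  have : Continuous fun a : X n × X n => a.2 - a.1 := by fun_prop
  exact (ContinuousMap.mk (fun a : X n × X n => a.2 - a.1) this).curry.continuous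

/-- the diagonal shift of `Xⁿ × Xⁿ` -/
def sh2 {n : ℕ} (z : X n) : C(X n × X n, X n × X n) :=
  ⟨fun x => (x.1 - z, x.2 - z), by fun_prop⟩

theorem continuous_sh2 {n : ℕ} : Continuous (sh2 : X n → C(X n × X n, X n × X n)) := by
  have : Continuous fun a : X n × (X n × X n) => (a.2.1 - a.1, a.2.2 - a.1) := by fun_prop
  exact (ContinuousMap.mk (fun a : X n × (X n × X n) => (a.2.1 - a.1, a.2.2 - a.1))
    this).curry.continuous

end TRC_

theorem p_TRC : T_TRC := by
  intro n σ hOK w hw h1 h2
  constructor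
  · have := TRC_.gen (volume : Measure (X n)) TRC_.sh TRC_.continuous_sh
      (fun z => measurePreserving_sub_right volume z) (fun y => by simp [TRC_.sh]) w hw h1
    exact this
  · have hKm : Measurable fun p : X n × X n => (K σ (p.1 - p.2)).toReal :=
      (measurable_K.comp (measurable_fst.sub measurable_snd)).ennreal_toReal
    have hFm : Measurable fun p : X n × X n =>
        (w p.1 - w p.2) * Real.sqrt ((K σ (p.1 - p.2)).toReal) :=
      ((hw.comp measurable_fst).sub (hw.comp measurable_snd)).mul hKm.sqrt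
    have key : ∀ v : X n → ℝ, Measurable v → En σ univ v = ∫⁻ p : X n × X n,
        sq ((v p.1 - v p.2) * Real.sqrt ((K σ (p.1 - p.2)).toReal)) := by
      intro v hv
      have hm : Measurable fun p : X n × X n =>
          (v p.1 - v p.2) * Real.sqrt ((K σ (p.1 - p.2)).toReal) :=
        ((hv.comp measurable_fst).sub (hv.comp measurable_snd)).mul hKm.sqrt
      have hp := lintegral_prod (μ := (volume : Measure (X n))) (ν := (volume : Measure (X n)))
        (fun p : X n × X n => sq ((v p.1 - v p.2) * Real.sqrt ((K σ (p.1 - p.2)).toReal)))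
        (measurable_sq.comp hm).aemeasurable
      rw [En_eq, Measure.volume_eq_prod, hp]
      unfold DI
      rw [Measure.restrict_univ]
      apply lintegral_congr
      intro x
      apply lintegral_congr
      intro y
      rw [sq_mul]
      congr 1
      rw [sq_eq, Real.sq_sqrt ENNReal.toReal_nonneg, ENNReal.ofReal_toReal (K_ne_top _)]
    have hfin := h2
    rw [key w hw] at hfin
    have hmp : ∀ z : X n, MeasurePreserving (TRC_.sh2 z) (volume : Measure (X n × X n))
        (volume : Measure (X n × X n)) := fun z =>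
      (measurePreserving_sub_right volume z).prod (measurePreserving_sub_right volume z)
    have := TRC_.gen (volume : Measure (X n × X n)) TRC_.sh2 TRC_.continuous_sh2 hmp
      (fun y => by simp [TRC_.sh2]) _ hFm hfin
    refine this.congr fun z => ?_
    have hk := key (fun x => w (x - z) - w x) ((hw.comp (measurable_id.sub_const z)).sub hw)
    rw [hk]
    apply lintegral_congr
    intro p
    congr 1
    simp only [TRC_.sh2, ContinuousMap.coe_mk, sub_sub_sub_cancel_right]
    ring

end RFK
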