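import Pool.Agent.RFK.Targets

/-!
# UPA: few points near the maximum
-/

set_option autoImplicit false

open MeasureTheory Filter Topology Metric Set
open scoped ENNReal NNReal

namespace RFK

namespace UPA_

variable {n : ℕ} {σ : ℝ}

theorem cut_Cut {r' r : ℝ} (h : r' < r) : Cut (cut r' r : X n → ℝ) (r - r') :=
  ⟨by linarith, fun x => ⟨cut_nonneg _ _ _, cut_le_one _ _ _⟩, fun x y => cut_lip h x y⟩

/-- the kernel far away -/
theorem K_far (h : 0 ≤ (n : ℝ) + 2 * σ) {x y : X n} (hx : ‖x‖ < 3) (hy : 4 ≤ ‖y‖) :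
    K σ (x - y) ≤ ENNReal.ofReal (4 ^ ((n : ℝ) + 2 * σ)) * K σ y := by
  have hy0 : y ≠ 0 := by
    rintro rfl
    rw [norm_zero] at hy
    linarith
  have h1 : K σ (x - y) ≤ K σ ((1 / 4 : ℝ) • y) := by
    apply K_anti h
    · exact smul_ne_zero (by norm_num) hy0
    · rw [norm_smul, Real.norm_eq_abs, abs_of_pos (by norm_num)]
      have h2 := norm_sub_norm_le y x
      rw [norm_sub_rev] at h2
      linarith
  refine h1.trans (le_of_eq ?_)
  rw [K_smul (by norm_num)]
  congr 2
  rw [Real.rpow_neg (by norm_num), one_div, Real.inv_rpow (by norm_num), inv_inv]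

/-- the integral in `y` for `x` in the ball -/
theorem inner_le {C : ℝ≥0} (hC : ∀ (η : X n → ℝ) (d : ℝ), Cut η d →
    ∀ x, ∫⁻ y, sq (η x - η y) * K σ (x - y) ≤ C * ENNReal.ofReal (d ^ (-(2 * σ))))
    (hOK : OK n σ) {Ω : Set (X n)} {f : X n → ℝ} {δ CT k r' r : ℝ}
    (hΩ : MeasurableSet Ω) (hδ : 0 < δ) (hk : 1 - δ ≤ k) (hr : r' < r)
    (htail : TailC σ Ω f δ CT) (x : X n) (hx : ‖x‖ < 3) :
    ∫⁻ y in Ω, (ENNReal.ofReal (δ ^ 2) * sq (cut r' r x - cut r' r y) +
        ((B 4)ᶜ : Set (X n)).indicator (fun y => ENNReal.ofReal (δ * pos (f y - k))) y) *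
          K σ (x - y) ≤
      ENNReal.ofReal (δ ^ 2) * (C * ENNReal.ofReal ((r - r') ^ (-(2 * σ)))) +
        ENNReal.ofReal δ * (ENNReal.ofReal (4 ^ ((n : ℝ) + 2 * σ)) * ENNReal.ofReal (CT * δ)) := by
  obtain ⟨hn, hσ1, hσ2⟩ := hOK
  have hnσ : 0 ≤ (n : ℝ) + 2 * σ := by positivity
  have hcm : Measurable (fun y : X n => sq (cut r' r x - cut r' r y)) :=
    measurable_sq_comp (measurable_const.sub (measurable_cut r' r))
  have hKm : Measurable (fun y : X n => K σ (x - y)) :=
    measurable_K.comp (measurable_const.sub measurable_id)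
  simp_rw [add_mul]
  have hm1 : Measurable (fun y : X n =>
      ENNReal.ofReal (δ ^ 2) * sq (cut r' r x - cut r' r y) * K σ (x - y)) :=
    (hcm.const_mul _).mul hKm
  rw [lintegral_add_left hm1]
  apply add_le_add
  · calc ∫⁻ y in Ω, ENNReal.ofReal (δ ^ 2) * sq (cut r' r x - cut r' r y) * K σ (x - y)
        ≤ ∫⁻ y, ENNReal.ofReal (δ ^ 2) * sq (cut r' r x - cut r' r y) * K σ (x - y) :=
          setLIntegral_le_lintegral _ _
      _ = ENNReal.ofReal (δ ^ 2) * ∫⁻ y, sq (cut r' r x - cut r' r y) * K σ (x - y) := by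
          rw [← lintegral_const_mul' _ _ ENNReal.ofReal_ne_top]
          simp_rw [mul_assoc]
      _ ≤ _ := by
          gcongr
          exact hC _ _ (cut_Cut hr) x
  · have hB4 : MeasurableSet ((B 4)ᶜ : Set (X n)) := measurableSet_ball.compl
    have e1 : ∀ y : X n, ((B 4)ᶜ : Set (X n)).indicator
        (fun y => ENNReal.ofReal (δ * pos (f y - k))) y * K σ (x - y) =
        ((B 4)ᶜ : Set (X n)).indicator
          (fun y => ENNReal.ofReal (δ * pos (f y - k)) * K σ (x - y)) y := by
      intro y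
      by_cases hy : y ∈ ((B 4)ᶜ : Set (X n))
      · rw [indicator_of_mem hy, indicator_of_mem hy]
      · rw [indicator_of_notMem hy, indicator_of_notMem hy, zero_mul]
    simp_rw [e1]
    rw [lintegral_indicator hB4, Measure.restrict_restrict hB4]
    have e2 : ((B 4)ᶜ : Set (X n)) ∩ Ω = Ω \ B 4 := by
      rw [inter_comm]
      rfl
    rw [e2]
    calc ∫⁻ y in Ω \ B 4, ENNReal.ofReal (δ * pos (f y - k)) * K σ (x - y)
        ≤ ∫⁻ y in Ω \ B 4, ENNReal.ofReal δ * (ENNReal.ofReal (4 ^ ((n : ℝ) + 2 * σ)) *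
            (ENNReal.ofReal (pos (f y - (1 - δ))) * K σ y)) := by
          apply setLIntegral_mono' (hΩ.diff measurableSet_ball)
          intro y hy
          have hy4 : 4 ≤ ‖y‖ := by
            have := hy.2
            rw [mem_ball_zero_iff, not_lt] at this
            exact this
          rw [ENNReal.ofReal_mul hδ.le, mul_assoc]
          apply mul_le_mul' le_rfl
          calc ENNReal.ofReal (pos (f y - k)) * K σ (x - y)
              ≤ ENNReal.ofReal (pos (f y - (1 - δ))) *
                (ENNReal.ofReal (4 ^ ((n : ℝ) + 2 * σ)) * K σ y) := by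
                apply mul_le_mul' _ (K_far hnσ hx hy4)
                apply ENNReal.ofReal_le_ofReal
                exact pos_mono (by linarith)
            _ = _ := by ring
      _ = ENNReal.ofReal δ * (ENNReal.ofReal (4 ^ ((n : ℝ) + 2 * σ)) *
            ∫⁻ y in Ω \ B 4, ENNReal.ofReal (pos (f y - (1 - δ))) * K σ y) := by
          rw [lintegral_const_mul' _ _ ENNReal.ofReal_ne_top,
            lintegral_const_mul' _ _ ENNReal.ofReal_ne_top]
      _ ≤ _ := by
          gcongr
          exact htail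

/-- the right side of the Caccioppoli inequality -/
theorem rhs {C : ℝ≥0} (hC : ∀ (η : X n → ℝ) (d : ℝ), Cut η d →
    ∀ x, ∫⁻ y, sq (η x - η y) * K σ (x - y) ≤ C * ENNReal.ofReal (d ^ (-(2 * σ))))
    (hOK : OK n σ) {Ω : Set (X n)} {f : X n → ℝ} {δ CT k r' r : ℝ}
    (hΩ : MeasurableSet Ω) (hf : Measurable f) (hδ : 0 < δ) (hCT : 0 < CT)
    (hk : 1 - δ ≤ k) (hr : r' < r) (hr3 : r ≤ 3)
    (hup : ∀ᵐ x, x ∈ Ω → x ∈ B 4 → f x ≤ 1) (htail : TailC σ Ω f δ CT) :
    DI σ Ω Ω (fun x y =>
      ENNReal.ofReal (pos (f x - k) * pos (f y - k) * (cut r' r x - cut r' r y) ^ 2)) +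
    ENNReal.ofReal δ * ∫⁻ x in Ω, ENNReal.ofReal (pos (f x - k) * cut r' r x ^ 2) ≤
    ENNReal.ofReal (δ ^ 2) * (2 * C * ENNReal.ofReal ((r - r') ^ (-(2 * σ))) +
      2 * ENNReal.ofReal (4 ^ ((n : ℝ) + 2 * σ)) * ENNReal.ofReal CT + 1) *
      volume (Ω ∩ B r ∩ {x | k < f x}) := by
  have hOK' := hOK
  obtain ⟨hn, hσ1, hσ2⟩ := hOK
  set A : Set (X n) := Ω ∩ B r ∩ {x | k < f x} with hA
  have hAm : MeasurableSet A :=
    (hΩ.inter measurableSet_ball).inter (measurableSet_lt measurable_const hf)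
  have hwδ : ∀ x : X n, f x ≤ 1 → pos (f x - k) ≤ δ := by
    intro x hx
    unfold pos
    exact max_le (by linarith) hδ.le
  have hw0 : ∀ x : X n, 0 ≤ pos (f x - k) := fun x => pos_nonneg _
  have hwz : ∀ x : X n, ¬ k < f x → pos (f x - k) = 0 := by
    intro x hx
    exact pos_of_nonpos (by linarith [not_lt.1 hx])
  have hη0 : ∀ x : X n, 0 ≤ cut r' r x := fun x => cut_nonneg _ _ _
  have hη1 : ∀ x : X n, cut r' r x ≤ 1 := fun x => cut_le_one _ _ _
  have hηd : ∀ x y : X n, (cut r' r x - cut r' r y) ^ 2 ≤ 1 := by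
    intro x y
    have h1 := hη0 x
    have h2 := hη1 x
    have h3 := hη0 y
    have h4 := hη1 y
    have h5 : |cut r' r x - cut r' r y| ≤ 1 := by
      rw [abs_le]
      constructor <;> linarith
    calc (cut r' r x - cut r' r y) ^ 2 = |cut r' r x - cut r' r y| ^ 2 := (sq_abs _).symm
      _ ≤ 1 ^ 2 := pow_le_pow_left₀ (abs_nonneg _) h5 2
      _ = 1 := one_pow 2
  have hwm : Measurable (fun x : X n => pos (f x - k)) :=
    measurable_pos.comp (hf.sub measurable_const)
  set g : X n → X n → ℝ≥0∞ := fun x y => A.indicator (fun _ => 1) x *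
    (ENNReal.ofReal (δ ^ 2) * sq (cut r' r x - cut r' r y) +
      ((B 4)ᶜ : Set (X n)).indicator (fun y => ENNReal.ofReal (δ * pos (f y - k))) y) with hg
  have hgm : Measurable (Function.uncurry g) := by
    have h1 : Measurable (fun p : X n × X n => A.indicator (fun _ => (1 : ℝ≥0∞)) p.1) :=
      (measurable_const.indicator hAm).comp measurable_fst
    have h2 : Measurable (fun p : X n × X n => sq (cut r' r p.1 - cut r' r p.2)) :=
      measurable_dsq (measurable_cut r' r)
    have h3 : Measurable (fun p : X n × X n => ((B 4)ᶜ : Set (X n)).indicator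
        (fun y => ENNReal.ofReal (δ * pos (f y - k))) p.2) :=
      (((hwm.const_mul δ).ennreal_ofReal).indicator measurableSet_ball.compl).comp measurable_snd
    exact h1.mul ((h2.const_mul _).add h3)
  -- the pointwise bound, first case
  have hpt : ∀ x y : X n, x ∈ A → f x ≤ 1 → (y ∈ B 4 → f y ≤ 1) →
      ENNReal.ofReal (pos (f x - k) * pos (f y - k) * (cut r' r x - cut r' r y) ^ 2) ≤ g x y := by
    intro x y hxA hx hy
    have h1 := hwδ x hx
    simp only [hg]
    rw [indicator_of_mem hxA, one_mul]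
    by_cases hy4 : y ∈ B 4
    · have h2 := hwδ y (hy hy4)
      refine le_trans ?_ le_self_add
      rw [sq_eq, ← ENNReal.ofReal_mul (by positivity)]
      apply ENNReal.ofReal_le_ofReal
      apply mul_le_mul_of_nonneg_right _ (sq_nonneg _)
      calc pos (f x - k) * pos (f y - k) ≤ δ * δ :=
            mul_le_mul h1 h2 (hw0 y) hδ.le
        _ = δ ^ 2 := by ring
    · refine le_trans ?_ le_add_self
      rw [indicator_of_mem (show y ∈ ((B 4)ᶜ : Set (X n)) from hy4)]
      apply ENNReal.ofReal_le_ofReal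
      calc pos (f x - k) * pos (f y - k) * (cut r' r x - cut r' r y) ^ 2
          ≤ δ * pos (f y - k) * 1 := by
            apply mul_le_mul _ (hηd x y) (sq_nonneg _) (mul_nonneg hδ.le (hw0 y))
            exact mul_le_mul_of_nonneg_right h1 (hw0 y)
        _ = δ * pos (f y - k) := mul_one _
  have hr4 : ∀ x : X n, ‖x‖ < r → x ∈ B 4 := by
    intro x hx
    rw [mem_ball_zero_iff]
    linarith
  have hae : ∀ᵐ x, x ∈ Ω → ∀ᵐ y, y ∈ Ω →
      ENNReal.ofReal (pos (f x - k) * pos (f y - k) * (cut r' r x - cut r' r y) ^ 2) ≤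
        g x y + g y x := by
    filter_upwards [hup] with x hx hxΩ
    filter_upwards [hup] with y hy hyΩ
    by_cases hfx : k < f x
    · by_cases hfy : k < f y
      · by_cases hxr : ‖x‖ < r
        · have hxA : x ∈ A := ⟨⟨hxΩ, mem_ball_zero_iff.2 hxr⟩, hfx⟩
          exact (hpt x y hxA (hx hxΩ (hr4 x hxr)) (hy hyΩ)).trans le_self_add
        · by_cases hyr : ‖y‖ < r
          · have hyA : y ∈ A := ⟨⟨hyΩ, mem_ball_zero_iff.2 hyr⟩, hfy⟩
            have h1 := hpt y x hyA (hy hyΩ (hr4 y hyr)) (hx hxΩ)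
            refine le_trans (le_of_eq ?_) (h1.trans le_add_self)
            congr 1
            ring
          · rw [cut_eq_zero hr (not_lt.1 hxr), cut_eq_zero hr (not_lt.1 hyr)]
            simp
      · rw [hwz y hfy]
        simp
    · rw [hwz x hfx]
      simp
  -- the double integral
  have h1 : DI σ Ω Ω (fun x y =>
      ENNReal.ofReal (pos (f x - k) * pos (f y - k) * (cut r' r x - cut r' r y) ^ 2)) ≤
      2 * DI σ Ω Ω g := by
    refine (DI_mono_ae hΩ hΩ hae).trans (le_of_eq ?_)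
    rw [DI_add hgm, two_mul]
    congr 1
    exact (DI_swap hgm).symm
  set M' : ℝ≥0∞ := ENNReal.ofReal (δ ^ 2) * (C * ENNReal.ofReal ((r - r') ^ (-(2 * σ)))) +
    ENNReal.ofReal δ * (ENNReal.ofReal (4 ^ ((n : ℝ) + 2 * σ)) * ENNReal.ofReal (CT * δ)) with hM'
  have h2 : DI σ Ω Ω g ≤ M' * volume A := by
    unfold DI
    calc ∫⁻ x in Ω, ∫⁻ y in Ω, g x y * K σ (x - y)
        ≤ ∫⁻ x in Ω, A.indicator (fun _ => M') x := by
          apply lintegral_mono
          intro x
          by_cases hxA : x ∈ A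
          · rw [indicator_of_mem hxA]
            have hx3 : ‖x‖ < 3 := by
              have := hxA.1.2
              rw [mem_ball_zero_iff] at this
              linarith
            have h3 := inner_le (f := f) hC hOK' hΩ hδ hk hr htail x hx3
            refine le_trans (le_of_eq ?_) h3
            apply lintegral_congr
            intro y
            simp only [hg]
            rw [indicator_of_mem hxA, one_mul]
          · rw [indicator_of_notMem hxA]
            apply le_of_eq
            simp only [hg]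
            rw [indicator_of_notMem hxA]
            simp
      _ ≤ ∫⁻ x, A.indicator (fun _ => M') x := setLIntegral_le_lintegral _ _
      _ = M' * volume A := by
          rw [lintegral_indicator hAm, lintegral_const, Measure.restrict_apply_univ]
  have h3 : ∫⁻ x in Ω, ENNReal.ofReal (pos (f x - k) * cut r' r x ^ 2) ≤
      ENNReal.ofReal δ * volume A := by
    calc ∫⁻ x in Ω, ENNReal.ofReal (pos (f x - k) * cut r' r x ^ 2)
        ≤ ∫⁻ x in Ω, A.indicator (fun _ => ENNReal.ofReal δ) x := by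
          apply lintegral_mono_ae
          rw [ae_restrict_iff' hΩ]
          filter_upwards [hup] with x hx hxΩ
          by_cases hfx : k < f x
          · by_cases hxr : ‖x‖ < r
            · have hxA : x ∈ A := ⟨⟨hxΩ, mem_ball_zero_iff.2 hxr⟩, hfx⟩
              rw [indicator_of_mem hxA]
              apply ENNReal.ofReal_le_ofReal
              have h4 := hwδ x (hx hxΩ (hr4 x hxr))
              have h5 : cut r' r x ^ 2 ≤ 1 := pow_le_one₀ (hη0 x) (hη1 x)
              calc pos (f x - k) * cut r' r x ^ 2 ≤ δ * 1 :=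
                    mul_le_mul h4 h5 (sq_nonneg _) hδ.le
                _ = δ := mul_one δ
            · rw [cut_eq_zero hr (not_lt.1 hxr)]
              simp
          · rw [hwz x hfx]
            simp
      _ ≤ ∫⁻ x, A.indicator (fun _ => ENNReal.ofReal δ) x := setLIntegral_le_lintegral _ _
      _ = ENNReal.ofReal δ * volume A := by
          rw [lintegral_indicator hAm, lintegral_const, Measure.restrict_apply_univ]
  calc _ ≤ 2 * (M' * volume A) + ENNReal.ofReal δ * (ENNReal.ofReal δ * volume A) := by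
        gcongr
        exact h1.trans (by gcongr)
    _ = _ := by
        rw [hM', pow_two, ENNReal.ofReal_mul hδ.le, ENNReal.ofReal_mul hCT.le]
        ring

/-- lower bound for the cross term -/
theorem lower (hOK : OK n σ) {Ω : Set (X n)} {f : X n → ℝ} {δ κ : ℝ}
    (hΩ : MeasurableSet Ω) (hf : Measurable f) (hδκ : δ ≤ κ / 2) :
    (∫⁻ x in Ω ∩ B 2, ENNReal.ofReal (pos (f x - (1 - δ)))) *
      (ENNReal.ofReal (κ / 2) * ENNReal.ofReal ((4 ^ ((n : ℝ) + 2 * σ))⁻¹) *
        volume (Ω ∩ B 2 ∩ {x | f x < 1 - κ})) ≤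
    DI σ Ω Ω (fun x y => ENNReal.ofReal
      (pos (f x - (1 - δ)) * cut 2 3 x ^ 2 * pos (1 - δ - f y))) := by
  obtain ⟨hn, hσ1, hσ2⟩ := hOK
  have hnσ : 0 ≤ (n : ℝ) + 2 * σ := by positivity
  have : Nontrivial (X n) := by
    have : Nonempty (Fin n) := ⟨⟨0, by omega⟩⟩
    infer_instance
  set D : Set (X n) := Ω ∩ B 2 ∩ {x | f x < 1 - κ} with hD
  have hB2 : MeasurableSet (Ω ∩ B 2) := hΩ.inter measurableSet_ball
  have hDm : MeasurableSet D := hB2.inter (measurableSet_lt hf measurable_const)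
  have hwm : Measurable (fun x : X n => ENNReal.ofReal (pos (f x - (1 - δ)))) :=
    (measurable_pos.comp (hf.sub measurable_const)).ennreal_ofReal
  rw [← lintegral_mul_const _ hwm]
  refine le_trans ?_ (DI_mono_set (inter_subset_left : Ω ∩ B 2 ⊆ Ω)
    ((inter_subset_left.trans inter_subset_left : D ⊆ Ω)) _)
  unfold DI
  apply setLIntegral_mono' hB2
  intro x hx
  have hx2 : ‖x‖ < 2 := mem_ball_zero_iff.1 hx.2
  have hc : cut 2 3 x = 1 := cut_eq_one (by norm_num) hx2.le
  simp only [hc]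
  have hne : ∀ᵐ y : X n, y ≠ x := compl_mem_ae_iff.2 (measure_singleton x)
  calc ENNReal.ofReal (pos (f x - (1 - δ))) *
        (ENNReal.ofReal (κ / 2) * ENNReal.ofReal ((4 ^ ((n : ℝ) + 2 * σ))⁻¹) * volume D)
      = ∫⁻ _y in D, ENNReal.ofReal (pos (f x - (1 - δ))) *
          (ENNReal.ofReal (κ / 2) * ENNReal.ofReal ((4 ^ ((n : ℝ) + 2 * σ))⁻¹)) := by
        rw [setLIntegral_const]
        ring
    _ ≤ _ := by
        apply lintegral_mono_ae
        rw [ae_restrict_iff' hDm]
        filter_upwards [hne] with y hy hyD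
        have hy2 : ‖y‖ < 2 := mem_ball_zero_iff.1 hyD.1.2
        have hyκ : f y < 1 - κ := hyD.2
        have hK : ENNReal.ofReal ((4 ^ ((n : ℝ) + 2 * σ))⁻¹) ≤ K σ (x - y) := by
          apply le_K hnσ (sub_ne_zero.2 (Ne.symm hy))
          have := norm_sub_le x y
          linarith
        rw [← mul_assoc]
        apply mul_le_mul' _ hK
        rw [← ENNReal.ofReal_mul (pos_nonneg _)]
        apply ENNReal.ofReal_le_ofReal
        have h1 : κ / 2 ≤ pos (1 - δ - f y) := by
          refine le_trans ?_ (le_pos _)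
          linarith
        calc pos (f x - (1 - δ)) * (κ / 2) ≤ pos (f x - (1 - δ)) * pos (1 - δ - f y) :=
              mul_le_mul_of_nonneg_left h1 (pos_nonneg _)
          _ = pos (f x - (1 - δ)) * 1 ^ 2 * pos (1 - δ - f y) := by ring

/-- Chebyshev -/
theorem cheb {Ω : Set (X n)} {f : X n → ℝ} {δ : ℝ} (hΩ : MeasurableSet Ω) (hf : Measurable f) :
    ENNReal.ofReal (δ / 2) * volume (Ω ∩ B 2 ∩ {x | 1 - δ / 2 < f x}) ≤
      ∫⁻ x in Ω ∩ B 2, ENNReal.ofReal (pos (f x - (1 - δ))) := by
  have hEm : MeasurableSet (Ω ∩ B 2 ∩ {x | 1 - δ / 2 < f x}) :=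
    (hΩ.inter measurableSet_ball).inter (measurableSet_lt measurable_const hf)
  rw [← setLIntegral_const]
  refine le_trans ?_ (lintegral_mono_set (inter_subset_left :
    Ω ∩ B 2 ∩ {x | 1 - δ / 2 < f x} ⊆ Ω ∩ B 2))
  apply setLIntegral_mono' hEm
  intro x hx
  apply ENNReal.ofReal_le_ofReal
  have : 1 - δ / 2 < f x := hx.2
  refine le_trans ?_ (le_pos _)
  linarith

end UPA_

open UPA_

theorem p_UPA (h : T_KCU) : T_UPA := by
  intro n σ hOK κ ε ε₂ CT hκ hκ2 hε hε₂ hCT
  obtain ⟨C, hC⟩ := h n σ hOK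
  have hOK' := hOK
  obtain ⟨hn, hσ1, hσ2⟩ := hOK
  set q : ℝ := 4 ^ ((n : ℝ) + 2 * σ) with hq
  have hq0 : 0 < q := by positivity
  set V : ℝ := volume.real (B 3 : Set (X n)) with hV
  have hV0 : 0 ≤ V := measureReal_nonneg
  have hVfin : volume (B 3 : Set (X n)) ≠ ∞ := measure_ball_lt_top.ne
  set M : ℝ := 2 * C * 1 + 2 * q * CT + 1 with hM
  have hM0 : 0 < M := by positivity
  refine ⟨min (κ / 2) (ε₂ * κ * ε / (2 * M * (V + 1) * q)), by positivity,
    (min_le_left _ _).trans (by linarith), ?_⟩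
  intro δ hδ hδ0 Ω f hΩ hf hsub hup htail hvol
  have hδκ : δ ≤ κ / 2 := hδ0.trans (min_le_left _ _)
  have hδ2 : δ ≤ ε₂ * κ * ε / (2 * M * (V + 1) * q) := hδ0.trans (min_le_right _ _)
  have h1 := hsub (1 - δ) 2 3 (by linarith) (by norm_num) (by norm_num) le_rfl
  have h2 := rhs hC hOK' hΩ hf hδ hCT (le_refl (1 - δ)) (show (2 : ℝ) < 3 by norm_num) le_rfl
    hup htail
  have h3 := lower hOK' hΩ hf hδκ
  have h4 := cheb (δ := δ) hΩ hf
  set E := volume (Ω ∩ B 2 ∩ {x | 1 - δ / 2 < f x}) with hE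
  have hEfin : E ≠ ∞ := by
    refine ne_top_of_le_ne_top (measure_ball_lt_top (μ := volume) (x := (0 : X n)) (r := 2)).ne ?_
    exact measure_mono (inter_subset_left.trans inter_subset_right)
  have hAV : volume (Ω ∩ B 3 ∩ {x | 1 - δ < f x}) ≤ volume (B 3 : Set (X n)) :=
    measure_mono (inter_subset_left.trans inter_subset_right)
  -- all together
  have h5 : 2 * ((ENNReal.ofReal (δ / 2) * E) *
      (ENNReal.ofReal (κ / 2) * ENNReal.ofReal (q⁻¹) * ENNReal.ofReal ε)) ≤
      ENNReal.ofReal (δ ^ 2) * ENNReal.ofReal M * ENNReal.ofReal V := by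
    calc 2 * ((ENNReal.ofReal (δ / 2) * E) *
          (ENNReal.ofReal (κ / 2) * ENNReal.ofReal (q⁻¹) * ENNReal.ofReal ε))
        ≤ 2 * DI σ Ω Ω (fun x y => ENNReal.ofReal
            (pos (f x - (1 - δ)) * cut 2 3 x ^ 2 * pos (1 - δ - f y))) := by
          apply mul_le_mul' le_rfl
          refine le_trans ?_ h3
          gcongr
      _ ≤ _ := le_add_self
      _ ≤ _ := h1.trans h2
      _ ≤ ENNReal.ofReal (δ ^ 2) * ENNReal.ofReal M * ENNReal.ofReal V := by
          have e1 : ENNReal.ofReal V = volume (B 3 : Set (X n)) := by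
            rw [hV, measureReal_def, ENNReal.ofReal_toReal hVfin]
          rw [e1]
          apply mul_le_mul' _ hAV
          apply mul_le_mul' le_rfl
          apply le_of_eq
          have e2 : (3 - 2 : ℝ) ^ (-(2 * σ)) = 1 := by
            rw [show (3 - 2 : ℝ) = 1 by norm_num, Real.one_rpow]
          rw [e2, hM, ENNReal.ofReal_add (by positivity) (by norm_num),
            ENNReal.ofReal_add (by positivity) (by positivity), ENNReal.ofReal_mul (by positivity),
            ENNReal.ofReal_mul (by positivity), ENNReal.ofReal_mul (by positivity),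
            ENNReal.ofReal_mul (by positivity), ENNReal.ofReal_coe_nnreal,
            ENNReal.ofReal_ofNat]
          simp
          rw [hq]
  have hEr : E = ENNReal.ofReal E.toReal := (ENNReal.ofReal_toReal hEfin).symm
  set e : ℝ := E.toReal with he
  have he0 : 0 ≤ e := ENNReal.toReal_nonneg
  rw [hEr, show (2 : ℝ≥0∞) = ENNReal.ofReal 2 by simp] at h5
  rw [← ENNReal.ofReal_mul (by positivity), ← ENNReal.ofReal_mul (by positivity),
    ← ENNReal.ofReal_mul (by positivity), ← ENNReal.ofReal_mul (by positivity),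
    ← ENNReal.ofReal_mul (by norm_num), ← ENNReal.ofReal_mul (by positivity),
    ← ENNReal.ofReal_mul (by positivity), ENNReal.ofReal_le_ofReal_iff (by positivity)] at h5
  rw [hEr]
  apply ENNReal.ofReal_le_ofReal
  -- real numbers
  have h6 : δ * (2 * M * (V + 1) * q) ≤ ε₂ * κ * ε := by
    rwa [le_div_iff₀ (by positivity)] at hδ2
  have h7 : δ * (e * (κ * ε)) ≤ δ * (δ * (2 * M * V * q)) := by
    have h8 : 2 * (δ / 2 * e * (κ / 2 * q⁻¹ * ε)) * (2 * q) = δ * (e * (κ * ε)) := by
      field_simp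
    have h9 := mul_le_mul_of_nonneg_right h5 (show 0 ≤ 2 * q by positivity)
    rw [h8] at h9
    linarith
  have h10 : e * (κ * ε) ≤ δ * (2 * M * V * q) := le_of_mul_le_mul_left h7 hδ
  have h11 : δ * (2 * M * V * q) ≤ δ * (2 * M * (V + 1) * q) := by
    gcongr
    linarith
  have h12 : e * (κ * ε) ≤ ε₂ * (κ * ε) := by linarith
  exact le_of_mul_le_mul_right h12 (by positivity)

end RFK
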