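import Pool.Agent.RFK.UPA

/-!
# UPD: De Giorgi iteration near the maximum
-/

set_option autoImplicit false

open MeasureTheory Filter Topology Metric Set
open scoped ENNReal NNReal

namespace RFK

namespace UPD_

open UPA_

variable {n : ℕ} {σ : ℝ}

/-- the energy of the extension by zero -/
theorem ext_le {C : ℝ≥0} (hC : ∀ (B' Ω : Set (X n)) (g : X n → ℝ),
    Convex ℝ B' → MeasurableSet B' → MeasurableSet Ω → Measurable g →
    DI σ (B' \ Ω) (B' ∩ Ω) (fun _ y => sq (g y)) ≠ ∞ →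
    DI σ (B' \ Ω) (B' ∩ Ω) (fun _ y => sq (g y)) ≤ C * En σ (B' ∩ Ω) g)
    {Ω : Set (X n)} {g : X n → ℝ} (hΩ : MeasurableSet Ω) (hg : Measurable g)
    (hfin : DI σ Ωᶜ Ω (fun _ y => sq (g y)) ≠ ∞) :
    En σ univ (Ω.indicator g) ≤ (1 + 2 * C) * En σ Ω g := by
  have h1 := hC univ Ω g convex_univ MeasurableSet.univ hΩ hg
  rw [← compl_eq_univ_sdiff, univ_inter] at h1
  have h2 := h1 hfin
  have hG : Measurable (Ω.indicator g) := hg.indicator hΩ
  rw [← compl_union_self Ω, En_union hΩ disjoint_compl_left hG]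
  have e1 : En σ Ωᶜ (Ω.indicator g) = 0 := by
    rw [En_eq]
    have : DI σ Ωᶜ Ωᶜ (fun x y => sq (Ω.indicator g x - Ω.indicator g y)) =
        DI σ Ωᶜ Ωᶜ (fun _ _ => 0) := by
      apply DI_congr hΩ.compl hΩ.compl
      intro x hx y hy
      rw [indicator_of_notMem hx, indicator_of_notMem hy, sub_zero, sq_zero]
    rw [this]
    simp [DI]
  have e2 : DI σ Ωᶜ Ω (fun x y => sq (Ω.indicator g x - Ω.indicator g y)) =
      DI σ Ωᶜ Ω (fun _ y => sq (g y)) := by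
    apply DI_congr hΩ.compl hΩ
    intro x hx y hy
    rw [indicator_of_notMem hx, indicator_of_mem hy, zero_sub, sq_neg]
  have e3 : En σ Ω (Ω.indicator g) = En σ Ω g := by
    rw [En_eq, En_eq]
    apply DI_congr hΩ hΩ
    intro x hx y hy
    rw [indicator_of_mem hx, indicator_of_mem hy]
  rw [e1, e2, e3, zero_add]
  calc 2 * DI σ Ωᶜ Ω (fun _ y => sq (g y)) + En σ Ω g ≤ 2 * (C * En σ Ω g) + En σ Ω g := by
        gcongr
    _ = _ := by ring

theorem pw (hσ : σ < 1) (j : ℕ) :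
    ((1 / 2 : ℝ) ^ (j + 1)) ^ (-(2 * σ)) ≤ 4 ^ (j + 1) := by
  have h1 : ((1 / 2 : ℝ) ^ (j + 1)) ^ (-(2 * σ)) = ((2 : ℝ) ^ (j + 1)) ^ (2 * σ) := by
    rw [Real.rpow_neg (by positivity), ← Real.inv_rpow (by positivity)]
    congr 1
    rw [one_div, inv_pow, inv_inv]
  rw [h1]
  have h2 : (1 : ℝ) ≤ 2 ^ (j + 1) := one_le_pow₀ (by norm_num)
  calc ((2 : ℝ) ^ (j + 1)) ^ (2 * σ) ≤ ((2 : ℝ) ^ (j + 1)) ^ (2 : ℝ) :=
        Real.rpow_le_rpow_of_exponent_le h2 (by linarith)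
    _ = 4 ^ (j + 1) := by
        rw [Real.rpow_two, ← pow_mul, mul_comm, pow_mul]
        norm_num

/-- one step of the iteration -/
theorem step {C₁ C₂ C₃ : ℝ≥0} (hC₁ : ∀ (η : X n → ℝ) (d : ℝ), Cut η d →
    ∀ x, ∫⁻ y, sq (η x - η y) * K σ (x - y) ≤ C₁ * ENNReal.ofReal (d ^ (-(2 * σ))))
    (hC₂ : ∀ (B' Ω : Set (X n)) (g : X n → ℝ),
    Convex ℝ B' → MeasurableSet B' → MeasurableSet Ω → Measurable g →
    DI σ (B' \ Ω) (B' ∩ Ω) (fun _ y => sq (g y)) ≠ ∞ →
    DI σ (B' \ Ω) (B' ∩ Ω) (fun _ y => sq (g y)) ≤ C₂ * En σ (B' ∩ Ω) g)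
    (hC₃ : ∀ (D : Set (X n)) (w : X n → ℝ),
    MeasurableSet D → volume D ≠ ∞ → Measurable w → (∀ x, x ∉ D → w x = 0) →
    ∫⁻ x, sq (w x) ≤ C₃ * volume D ^ (2 * σ / n) * En σ univ w)
    (hOK : OK n σ) {Ω : Set (X n)} {f : X n → ℝ} {δ CT k k' r' r : ℝ}
    (hΩ : MeasurableSet Ω) (hf : Measurable f) (hδ : 0 < δ) (hCT : 0 < CT)
    (hk0 : 0 ≤ k) (hk : 1 - δ ≤ k) (hkk : k < k') (hr' : 1 ≤ r') (hr : r' < r) (hr3 : r ≤ 3)
    (hsub : SubC σ Ω f δ) (hfin : FinC σ Ω f)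
    (hup : ∀ᵐ x, x ∈ Ω → x ∈ B 4 → f x ≤ 1) (htail : TailC σ Ω f δ CT) :
    ENNReal.ofReal ((k' - k) ^ 2) * volume (Ω ∩ B r' ∩ {x | k' < f x}) ≤
      C₃ * volume (Ω ∩ B r ∩ {x | k < f x}) ^ (2 * σ / n) * ((1 + 2 * C₂) *
        (ENNReal.ofReal (δ ^ 2) * (2 * C₁ * ENNReal.ofReal ((r - r') ^ (-(2 * σ))) +
      2 * ENNReal.ofReal (4 ^ ((n : ℝ) + 2 * σ)) * ENNReal.ofReal CT + 1) *
      volume (Ω ∩ B r ∩ {x | k < f x}))) := by
  have h1 := hsub k r' r hk0 hr' hr hr3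
  have h2 := rhs hC₁ hOK hΩ hf hδ hCT hk hr hr3 hup htail
  have h3 := (le_self_add.trans h1).trans h2
  set g : X n → ℝ := fun x => pos (f x - k) * cut r' r x with hg
  have hgm : Measurable g :=
    (measurable_pos.comp (hf.sub measurable_const)).mul (measurable_cut r' r)
  have h4 := ext_le hC₂ hΩ hgm (hfin k r' r hk0 hr' hr hr3)
  have hAm : MeasurableSet (Ω ∩ B r ∩ {x | k < f x}) :=
    (hΩ.inter measurableSet_ball).inter (measurableSet_lt measurable_const hf)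
  have hAm' : MeasurableSet (Ω ∩ B r' ∩ {x | k' < f x}) :=
    (hΩ.inter measurableSet_ball).inter (measurableSet_lt measurable_const hf)
  have hAfin : volume (Ω ∩ B r ∩ {x | k < f x}) ≠ ∞ := by
    refine ne_top_of_le_ne_top (measure_ball_lt_top (μ := volume) (x := (0 : X n)) (r := r)).ne ?_
    exact measure_mono (inter_subset_left.trans inter_subset_right)
  have h5 := hC₃ _ (Ω.indicator g) hAm hAfin (hgm.indicator hΩ) (by
    intro x hx
    by_cases hxΩ : x ∈ Ω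
    · rw [indicator_of_mem hxΩ, hg]
      by_cases hxr : ‖x‖ < r
      · have hfx : ¬ k < f x := fun h => hx ⟨⟨hxΩ, mem_ball_zero_iff.2 hxr⟩, h⟩
        have : pos (f x - k) = 0 := pos_of_nonpos (by linarith [not_lt.1 hfx])
        simp only [this, zero_mul]
      · have : cut r' r x = 0 := cut_eq_zero hr (not_lt.1 hxr)
        simp only [this, mul_zero]
    · rw [indicator_of_notMem hxΩ])
  have h6 : ENNReal.ofReal ((k' - k) ^ 2) * volume (Ω ∩ B r' ∩ {x | k' < f x}) ≤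
      ∫⁻ x, sq (Ω.indicator g x) := by
    rw [← setLIntegral_const]
    refine le_trans ?_ (setLIntegral_le_lintegral (Ω ∩ B r' ∩ {x | k' < f x}) _)
    apply setLIntegral_mono' hAm'
    intro x hx
    have hxΩ : x ∈ Ω := hx.1.1
    have hxr : ‖x‖ < r' := mem_ball_zero_iff.1 hx.1.2
    have hxk : k' < f x := hx.2
    rw [indicator_of_mem hxΩ, hg]
    have e1 : cut r' r x = 1 := cut_eq_one hr hxr.le
    simp only [e1, mul_one]
    have e2 : sq (k' - k) ≤ sq (pos (f x - k)) := by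
      apply sq_le
      rw [abs_of_nonneg (by linarith), abs_of_nonneg (pos_nonneg _)]
      refine le_trans ?_ (le_pos _)
      linarith
    exact e2
  refine h6.trans (h5.trans ?_)
  apply mul_le_mul' le_rfl
  exact h4.trans (mul_le_mul' le_rfl h3)

end UPD_

open UPA_ UPD_

theorem p_UPD (h1 : T_KCU) (h2 : T_HAR) (h3 : T_POI) (h4 : T_DGI) : T_UPD := by
  intro n σ hOK CT hCT
  obtain ⟨C₁, hC₁⟩ := h1 n σ hOK
  obtain ⟨C₂, hC₂⟩ := h2 n σ hOK
  obtain ⟨C₃, hC₃⟩ := h3 n σ hOK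
  have hOK' := hOK
  obtain ⟨hn, hσ1, hσ2⟩ := hOK
  have hn0 : (0 : ℝ) < n := by
    have : 0 < n := by omega
    exact_mod_cast this
  set q : ℝ := 4 ^ ((n : ℝ) + 2 * σ) with hq
  have hq0 : 0 < q := by positivity
  set M : ℝ := 2 * C₁ + 2 * q * CT + 1 with hM
  have hM0 : 0 < M := by positivity
  set C : ℝ := 256 * C₃ * (1 + 2 * C₂) * M + 1 with hC
  have hCpos : 0 < C := by positivity
  have hα : 0 < 2 * σ / n := by positivity
  obtain ⟨ε, hε, hDG⟩ := h4 C 16 (2 * σ / n) hCpos (by norm_num) hα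
  refine ⟨ε, hε, ?_⟩
  intro δ hδ hδ2 Ω f hΩ hf hsub hfin hup htail hvol
  set k : ℕ → ℝ := fun j => 1 - δ / 4 - (1 / 2) ^ j * (δ / 4) with hk
  set r : ℕ → ℝ := fun j => 1 + (1 / 2) ^ j with hr
  set A : ℕ → Set (X n) := fun j => Ω ∩ B (r j) ∩ {x | k j < f x} with hA
  have hAfin : ∀ j, volume (A j) ≠ ∞ := by
    intro j
    refine ne_top_of_le_ne_top
      (measure_ball_lt_top (μ := volume) (x := (0 : X n)) (r := r j)).ne ?_
    exact measure_mono (inter_subset_left.trans inter_subset_right)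
  have hpow : ∀ j : ℕ, (0 : ℝ) < (1 / 2) ^ j ∧ (1 / 2 : ℝ) ^ j ≤ 1 := by
    intro j
    exact ⟨by positivity, pow_le_one₀ (by norm_num) (by norm_num)⟩
  have hsucc : ∀ j : ℕ, (1 / 2 : ℝ) ^ (j + 1) = (1 / 2) ^ j / 2 := by
    intro j
    rw [pow_succ]
    ring
  have hY : ∀ j, (volume (A (j + 1))).toReal ≤
      C * 16 ^ j * (volume (A j)).toReal ^ (1 + 2 * σ / n) := by
    intro j
    obtain ⟨hp0, hp1⟩ := hpow j
    have hs := hsucc j
    have hkj : 1 - δ ≤ k j := by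
      simp only [hk]
      nlinarith
    have hkk : k j < k (j + 1) := by
      simp only [hk, hs]
      nlinarith
    have hst := step hC₁ hC₂ hC₃ hOK' hΩ hf hδ hCT (k := k j) (k' := k (j + 1))
      (r' := r (j + 1)) (r := r j) (by linarith) hkj hkk (by simp only [hr]; linarith [hpow (j + 1)])
      (by simp only [hr, hs]; linarith) (by simp only [hr]; linarith) hsub hfin hup htail
    have ekk : k (j + 1) - k j = (1 / 2) ^ (j + 1) * (δ / 4) := by
      simp only [hk, hs]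
      ring
    have err : r j - r (j + 1) = (1 / 2) ^ (j + 1) := by
      simp only [hr, hs]
      ring
    rw [ekk, err] at hst
    have eA : Ω ∩ B (r (j + 1)) ∩ {x | k (j + 1) < f x} = A (j + 1) := rfl
    have eA' : Ω ∩ B (r j) ∩ {x | k j < f x} = A j := rfl
    rw [eA, eA'] at hst
    set a : ℝ := (volume (A j)).toReal with ha
    set a' : ℝ := (volume (A (j + 1))).toReal with ha'
    have ha0 : 0 ≤ a := ENNReal.toReal_nonneg
    have ha'0 : 0 ≤ a' := ENNReal.toReal_nonneg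
    rw [← ENNReal.ofReal_toReal (hAfin j), ← ENNReal.ofReal_toReal (hAfin (j + 1)), ← ha, ← ha',
      ENNReal.ofReal_rpow_of_nonneg ha0 hα.le] at hst
    have hM1 : 2 * (C₁ : ℝ≥0∞) * ENNReal.ofReal (((1 / 2 : ℝ) ^ (j + 1)) ^ (-(2 * σ))) +
        2 * ENNReal.ofReal (4 ^ ((n : ℝ) + 2 * σ)) * ENNReal.ofReal CT + 1 ≤
        ENNReal.ofReal (M * 4 ^ (j + 1)) := by
      have h5 := pw hσ2 j
      have h6 : (1 : ℝ) ≤ 4 ^ (j + 1) := one_le_pow₀ (by norm_num)
      calc 2 * (C₁ : ℝ≥0∞) * ENNReal.ofReal (((1 / 2 : ℝ) ^ (j + 1)) ^ (-(2 * σ))) +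
            2 * ENNReal.ofReal (4 ^ ((n : ℝ) + 2 * σ)) * ENNReal.ofReal CT + 1
          = ENNReal.ofReal (2 * C₁ * ((1 / 2 : ℝ) ^ (j + 1)) ^ (-(2 * σ)) + 2 * q * CT + 1) := by
            rw [ENNReal.ofReal_add (by positivity) (by norm_num),
              ENNReal.ofReal_add (by positivity) (by positivity), ENNReal.ofReal_mul (by positivity),
              ENNReal.ofReal_mul (by positivity), ENNReal.ofReal_mul (by positivity),
              ENNReal.ofReal_mul (by positivity), ENNReal.ofReal_coe_nnreal,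
              ENNReal.ofReal_ofNat, ENNReal.ofReal_one, hq]
        _ ≤ _ := by
            apply ENNReal.ofReal_le_ofReal
            have h7 : 2 * (C₁ : ℝ) * ((1 / 2 : ℝ) ^ (j + 1)) ^ (-(2 * σ)) ≤
                2 * C₁ * 4 ^ (j + 1) := by gcongr
            have h8 : 2 * q * CT ≤ 2 * q * CT * 4 ^ (j + 1) :=
              le_mul_of_one_le_right (by positivity) h6
            rw [hM]
            linarith
    have hfinal : ENNReal.ofReal (((1 / 2) ^ (j + 1) * (δ / 4)) ^ 2) * ENNReal.ofReal a' ≤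
        ENNReal.ofReal (C₃ * a ^ (2 * σ / n) * ((1 + 2 * C₂) * (δ ^ 2 * (M * 4 ^ (j + 1)) * a))) := by
      refine hst.trans ?_
      rw [ENNReal.ofReal_mul (by positivity), ENNReal.ofReal_mul (by positivity),
        ENNReal.ofReal_mul (by positivity), ENNReal.ofReal_mul (by positivity),
        ENNReal.ofReal_mul (by positivity), ENNReal.ofReal_coe_nnreal]
      have h9 : ENNReal.ofReal (1 + 2 * (C₂ : ℝ)) = 1 + 2 * (C₂ : ℝ≥0∞) := by
        rw [ENNReal.ofReal_add (by norm_num) (by positivity), ENNReal.ofReal_one,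
          ENNReal.ofReal_mul (by norm_num), ENNReal.ofReal_ofNat, ENNReal.ofReal_coe_nnreal]
      rw [h9]
      gcongr
    rw [← ENNReal.ofReal_mul (by positivity), ENNReal.ofReal_le_ofReal_iff (by positivity)] at hfinal
    -- real numbers
    have e4 : ((4 : ℝ) ^ (j + 1)) * ((1 / 2) ^ (j + 1)) ^ 2 = 1 := by
      rw [← pow_mul, mul_comm (j + 1) 2, pow_mul, ← mul_pow]
      norm_num
    have h10 := mul_le_mul_of_nonneg_right hfinal
      (show (0 : ℝ) ≤ 16 * 4 ^ (j + 1) by positivity)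
    have e5 : ((1 / 2) ^ (j + 1) * (δ / 4)) ^ 2 * a' * (16 * 4 ^ (j + 1)) = δ ^ 2 * a' := by
      calc ((1 / 2) ^ (j + 1) * (δ / 4)) ^ 2 * a' * (16 * 4 ^ (j + 1))
          = (((4 : ℝ) ^ (j + 1)) * ((1 / 2) ^ (j + 1)) ^ 2) * (δ ^ 2 * a') := by ring
        _ = δ ^ 2 * a' := by rw [e4, one_mul]
    have e6 : (4 : ℝ) ^ (j + 1) * 4 ^ (j + 1) = 16 * 16 ^ j := by
      rw [← mul_pow, pow_succ]
      norm_num
      ring
    have e7 : C₃ * a ^ (2 * σ / n) * ((1 + 2 * C₂) * (δ ^ 2 * (M * 4 ^ (j + 1)) * a)) *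
        (16 * 4 ^ (j + 1)) =
        δ ^ 2 * ((256 * C₃ * (1 + 2 * C₂) * M) * 16 ^ j * (a * a ^ (2 * σ / n))) := by
      calc C₃ * a ^ (2 * σ / n) * ((1 + 2 * C₂) * (δ ^ 2 * (M * 4 ^ (j + 1)) * a)) *
            (16 * 4 ^ (j + 1))
          = δ ^ 2 * ((16 * C₃ * (1 + 2 * C₂) * M) * ((4 : ℝ) ^ (j + 1) * 4 ^ (j + 1)) *
              (a * a ^ (2 * σ / n))) := by ring
        _ = _ := by
            rw [e6]
            ring
    rw [e5, e7] at h10
    have h11 := le_of_mul_le_mul_left h10 (by positivity : (0 : ℝ) < δ ^ 2)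
    have e8 : a ^ (1 + 2 * σ / n) = a * a ^ (2 * σ / n) := by
      rw [Real.rpow_add_of_nonneg ha0 (by norm_num) hα.le, Real.rpow_one]
    rw [e8]
    refine h11.trans ?_
    have h12 : 0 ≤ a * a ^ (2 * σ / n) := by positivity
    gcongr
    rw [hC]
    linarith
  have h0 : (volume (A 0)).toReal ≤ ε := by
    have e1 : A 0 = Ω ∩ B 2 ∩ {x | 1 - δ / 2 < f x} := by
      simp only [hA, hr, hk, pow_zero, one_mul]
      have e2 : (1 : ℝ) + 1 = 2 := by norm_num
      have e3 : 1 - δ / 4 - δ / 4 = 1 - δ / 2 := by ring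
      rw [e2, e3]
    rw [e1]
    exact ENNReal.toReal_le_of_le_ofReal hε.le hvol
  have hlim := hDG (fun j => (volume (A j)).toReal) (fun j => ENNReal.toReal_nonneg) h0 hY
  have hnull : volume {x | x ∈ Ω ∧ x ∈ B 1 ∧ 1 - δ / 4 < f x} = 0 := by
    set Z := {x | x ∈ Ω ∧ x ∈ (B 1 : Set (X n)) ∧ 1 - δ / 4 < f x} with hZ
    have hsubset : ∀ j, Z ⊆ A j := by
      rintro j x ⟨hx1, hx2, hx3⟩
      obtain ⟨hp0, hp1⟩ := hpow j
      refine ⟨⟨hx1, ?_⟩, ?_⟩
      · rw [mem_ball_zero_iff] at hx2 ⊢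
        simp only [hr]
        linarith
      · show k j < f x
        simp only [hk]
        have : 0 < (1 / 2 : ℝ) ^ j * (δ / 4) := by positivity
        linarith
    have hZle : ∀ j, (volume Z).toReal ≤ (volume (A j)).toReal := fun j =>
      ENNReal.toReal_mono (hAfin j) (measure_mono (hsubset j))
    have h13 : (volume Z).toReal ≤ 0 := ge_of_tendsto' hlim hZle
    have h14 : (volume Z).toReal = 0 := le_antisymm h13 ENNReal.toReal_nonneg
    rcases (ENNReal.toReal_eq_zero_iff _).1 h14 with h15 | h15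
    · exact h15
    · exact absurd h15 (ne_top_of_le_ne_top (hAfin 0) (measure_mono (hsubset 0)))
  rw [ae_iff]
  refine measure_mono_null ?_ hnull
  intro x hx
  simp only [mem_ofPred_eq] at hx ⊢
  push Not at hx
  exact hx

end RFK
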