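import Pool.Agent.RFK.KTL
import Pool.Agent.RFK.KCU
import Pool.Agent.RFK.HAR
import Pool.Agent.RFK.POI
import Pool.Agent.RFK.TRA
import Pool.Agent.RFK.DGI
import Pool.Agent.RFK.GIA
import Pool.Agent.RFK.ETA
import Pool.Agent.RFK.PRO
import Pool.Agent.RFK.HFI
import Pool.Agent.RFK.DE1
import Pool.Agent.RFK.TRC
import Pool.Agent.RFK.DE2
import Pool.Agent.RFK.DEN
import Pool.Agent.RFK.JFI
import Pool.Agent.RFK.NRM
import Pool.Agent.RFK.CAC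
import Pool.Agent.RFK.CAL
import Pool.Agent.RFK.CMP
import Pool.Agent.RFK.BDD
import Pool.Agent.RFK.UPA
import Pool.Agent.RFK.UPD
import Pool.Agent.RFK.LW1
import Pool.Agent.RFK.LW2
import Pool.Agent.RFK.LW3
import Pool.Agent.RFK.LOW
import Pool.Agent.RFK.ENB
import Pool.Agent.RFK.TL1
import Pool.Agent.RFK.TL2
import Pool.Agent.RFK.FNC
import Pool.Agent.RFK.STB
import Pool.Agent.RFK.STI
import Pool.Agent.RFK.SC1
import Pool.Agent.RFK.SC2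
import Pool.Agent.RFK.SC3
import Pool.Agent.RFK.SC4
import Pool.Agent.RFK.ITR
import Pool.Agent.RFK.CNT
import Pool.Agent.RFK.REG
import Pool.Agent.RFK.NAD
import Pool.Agent.RFK.EX1
import Pool.Agent.RFK.EX2
import Pool.Agent.RFK.EXL
import Pool.Agent.RFK.EXB
import Pool.Agent.RFK.EX3
import Pool.Agent.RFK.EX4
import Pool.Agent.RFK.EX5
import Pool.Agent.RFK.EX6
import Pool.Agent.RFK.EX7
import Pool.Agent.RFK.EX9
import Pool.Agent.RFK.EXI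
import Pool.Agent.RFK.MCO
import Pool.Agent.RFK.FIN

/-!
# MP_35334d_an: assembly (helper27)
-/

set_option autoImplicit false

namespace RFK

theorem a_KCU : T_KCU := p_KCU p_KTL
theorem a_ETA : T_ETA := p_ETA a_KCU
theorem a_PRO : T_PRO := p_PRO a_KCU
theorem a_HFI : T_HFI := p_HFI a_KCU
theorem a_DE1 : T_DE1 := p_DE1 a_KCU a_PRO
theorem a_DE2 : T_DE2 := p_DE2 p_TRC
theorem a_DEN : T_DEN := p_DEN a_DE1 a_DE2
theorem a_JFI : T_JFI := p_JFI a_HFI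
theorem a_NRM : T_NRM := p_NRM a_HFI a_DEN a_JFI p_POI
theorem a_CAC : T_CAC := p_CAC a_PRO
theorem a_CAL : T_CAL := p_CAL a_ETA
theorem a_CMP : T_CMP := p_CMP a_ETA
theorem a_BDD : T_BDD := p_BDD a_CAC p_HAR p_POI p_DGI
theorem a_UPA : T_UPA := p_UPA a_KCU
theorem a_UPD : T_UPD := p_UPD a_KCU p_HAR p_POI p_DGI
theorem a_LW1 : T_LW1 := p_LW1 a_KCU
theorem a_LW2 : T_LW2 := p_LW2 a_LW1 p_HAR p_KTL
theorem a_LW3 : T_LW3 := p_LW3 a_LW2 p_GIA a_KCU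
theorem a_LOW : T_LOW := p_LOW a_LW3 p_POI p_DGI
theorem a_ENB : T_ENB := p_ENB a_KCU p_HAR
theorem a_TL1 : T_TL1 := p_TL1 p_KTL
theorem a_TL2 : T_TL2 := p_TL2 p_KTL
theorem a_FNC : T_FNC := p_FNC p_KTL a_KCU
theorem a_STB : T_STB := p_STB a_UPA a_UPD a_LOW a_ENB p_TRA a_TL1 a_TL2 a_FNC
theorem a_STI : T_STI := p_STI a_UPA a_UPD a_TL1 a_FNC
theorem a_SC1 : T_SC1 := p_SC1 a_CAC
theorem a_SC2 : T_SC2 := p_SC2 a_CAL
theorem a_SC3 : T_SC3 := p_SC3 a_CMP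
theorem a_ITR : T_ITR := p_ITR a_STB a_STI a_SC1 a_SC2 a_SC3 p_SC4 a_BDD
theorem a_REG : T_REG := p_REG a_NRM a_ITR p_CNT
theorem a_NAD : T_NAD := p_NAD a_HFI p_POI
theorem a_EX1 : T_EX1 := p_EX1 a_NAD a_JFI a_DEN
theorem a_EX2 : T_EX2 := p_EX2 p_HAR
theorem a_EXL : T_EXL := p_EXL p_POI
theorem a_EX3 : T_EX3 := p_EX3 a_EXL p_EXB
theorem a_EX6 : T_EX6 := p_EX6 a_KCU
theorem a_EX7 : T_EX7 := p_EX7 a_EX6 p_EX5
theorem a_EXI : T_EXI := p_EXI a_EX1 a_EX2 a_EX3 p_EX4 p_EX5 a_EX7 p_EX9 a_DEN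
theorem a_FIN : T_FIN := p_FIN a_REG a_EXI p_MCO

end RFK
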