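import Pool.Agent.RFK.Targets

/-!
# MP_35334d_an, CAC: the Caccioppoli inequality (helper60, for helper27)
-/

set_option autoImplicit false

open MeasureTheory Filter Topology Metric Set
open scoped ENNReal NNReal

namespace RFK

namespace CAC_

variable {n : ℕ} {σ : ℝ}

theorem cut_meas {η : X n → ℝ} {d : ℝ} (h : Cut η d) : Measurable η := by
  have hd := h.1
  have hL : LipschitzWith (Real.toNNReal (1 / d)) η := by
    apply LipschitzWith.of_dist_le_mul
    intro x y
    rw [Real.dist_eq, dist_eq_norm, Real.coe_toNNReal _ (by positivity)]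
    calc |η x - η y| ≤ ‖x - y‖ / d := h.2.2 x y
      _ = 1 / d * ‖x - y‖ := by ring
  exact hL.continuous.measurable

/-- the pointwise identity -/
theorem key (k t p q r s : ℝ) :
    ((p - t * (pos (p - k) * r ^ 2)) - (q - t * (pos (q - k) * s ^ 2))) ^ 2 +
      2 * t * ((pos (p - k) * r - pos (q - k) * s) ^ 2 +
        (pos (p - k) * r ^ 2 * pos (k - q) + pos (q - k) * s ^ 2 * pos (k - p))) =
    (p - q) ^ 2 + (2 * t * (pos (p - k) * pos (q - k) * (r - s) ^ 2) +
      t ^ 2 * (pos (p - k) * r ^ 2 - pos (q - k) * s ^ 2) ^ 2) := by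
  rcases le_total p k with hp | hp <;> rcases le_total q k with hq | hq
  · rw [pos_of_nonneg (by linarith : 0 ≤ k - p), pos_of_nonneg (by linarith : 0 ≤ k - q),
      pos_of_nonpos (by linarith : q - k ≤ 0), pos_of_nonpos (by linarith : p - k ≤ 0)]
    ring
  · rw [pos_of_nonneg (by linarith : 0 ≤ k - p), pos_of_nonpos (by linarith : k - q ≤ 0),
      pos_of_nonneg (by linarith : 0 ≤ q - k), pos_of_nonpos (by linarith : p - k ≤ 0)]
    ring
  · rw [pos_of_nonpos (by linarith : k - p ≤ 0), pos_of_nonneg (by linarith : 0 ≤ k - q),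
      pos_of_nonpos (by linarith : q - k ≤ 0), pos_of_nonneg (by linarith : 0 ≤ p - k)]
    ring
  · rw [pos_of_nonpos (by linarith : k - p ≤ 0), pos_of_nonpos (by linarith : k - q ≤ 0),
      pos_of_nonneg (by linarith : 0 ≤ q - k), pos_of_nonneg (by linarith : 0 ≤ p - k)]
    ring

/-- the pointwise identity in `[0, ∞]` -/
theorem keyE (k t p q r s : ℝ) (ht : 0 ≤ t) :
    sq ((p - t * (pos (p - k) * r ^ 2)) - (q - t * (pos (q - k) * s ^ 2))) +
      ENNReal.ofReal (2 * t) * (sq (pos (p - k) * r - pos (q - k) * s) +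
        (ENNReal.ofReal (pos (p - k) * r ^ 2 * pos (k - q)) +
          ENNReal.ofReal (pos (q - k) * s ^ 2 * pos (k - p)))) =
    sq (p - q) + (ENNReal.ofReal (2 * t) *
      ENNReal.ofReal (pos (p - k) * pos (q - k) * (r - s) ^ 2) +
      ENNReal.ofReal (t ^ 2) * sq (pos (p - k) * r ^ 2 - pos (q - k) * s ^ 2)) := by
  have h1 := pos_nonneg (k - p)
  have h2 := pos_nonneg (k - q)
  have h3 := pos_nonneg (p - k)
  have h4 := pos_nonneg (q - k)
  unfold sq
  rw [← ENNReal.ofReal_add (by positivity) (by positivity),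
    ← ENNReal.ofReal_add (by positivity) (by positivity),
    ← ENNReal.ofReal_mul (by positivity), ← ENNReal.ofReal_mul (by positivity),
    ← ENNReal.ofReal_mul (by positivity),
    ← ENNReal.ofReal_add (by positivity) (by positivity),
    ← ENNReal.ofReal_add (by positivity) (by positivity),
    ← ENNReal.ofReal_add (by positivity) (by positivity), key]

/-- the limit `t → 0` -/
theorem lim {P N E : ℝ≥0∞} (hE : E ≠ ∞)
    (h : ∀ t : ℝ, 0 < t → t ≤ 1 / 2 →
      ENNReal.ofReal (2 * t) * P ≤ ENNReal.ofReal (2 * t) * N + ENNReal.ofReal (t ^ 2) * E) :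
    P ≤ N := by
  apply ENNReal.le_of_forall_pos_le_add
  intro ε hε _
  have he : (0 : ℝ) ≤ E.toReal := ENNReal.toReal_nonneg
  have hε' : (0 : ℝ) < ε := hε
  obtain ⟨t, ht0, ht1, ht2⟩ : ∃ t : ℝ, 0 < t ∧ t ≤ 1 / 2 ∧ t * E.toReal ≤ ε := by
    refine ⟨min (1 / 2) (ε / (E.toReal + 1)), by positivity, min_le_left _ _, ?_⟩
    calc min (1 / 2) (ε / (E.toReal + 1)) * E.toReal ≤ ε / (E.toReal + 1) * (E.toReal + 1) := by
          apply mul_le_mul (min_le_right _ _) (by linarith) he (by positivity)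
      _ = ε := by field_simp
  have h1 := h t ht0 ht1
  have hc0 : ENNReal.ofReal (2 * t) ≠ 0 := by
    rw [Ne, ENNReal.ofReal_eq_zero, not_le]
    positivity
  have hct : ENNReal.ofReal (2 * t) ≠ ∞ := ENNReal.ofReal_ne_top
  rw [← ENNReal.mul_le_mul_iff_right hc0 hct, mul_add]
  refine h1.trans (add_le_add le_rfl ?_)
  rw [← ENNReal.ofReal_toReal hE, ← ENNReal.ofReal_mul (by positivity)]
  have h2 : (ε : ℝ≥0∞) = ENNReal.ofReal (ε : ℝ) := by simp
  rw [h2, ← ENNReal.ofReal_mul (by positivity)]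
  apply ENNReal.ofReal_le_ofReal
  nlinarith [mul_nonneg ht0.le hε'.le]

/-- a Lipschitz image has smaller energy -/
theorem En_le {u w : X n → ℝ} (h : ∀ x y, |w x - w y| ≤ |u x - u y|) :
    En σ univ w ≤ En σ univ u := by
  rw [En_eq, En_eq]
  apply DI_mono MeasurableSet.univ MeasurableSet.univ
  intro x _ y _
  exact sq_le (h x y)

end CAC_

open CAC_ in
/-- CAC: the Caccioppoli inequality -/
theorem p_CAC (hP : T_PRO) : T_CAC := by
  intro n σ hok u L hu k d η hk hη
  obtain ⟨C, hC⟩ := hP n σ hok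
  have hηm := cut_meas hη
  have hum := hu.meas
  -- `w` and `φ`
  set w : X n → ℝ := fun x => pos (u x - k) with hw
  have hwm : Measurable w := measurable_pos.comp (hum.sub_const k)
  have hw0 : ∀ x, 0 ≤ w x := fun x => pos_nonneg _
  have hwu : ∀ x, w x ≤ u x := by
    intro x
    simp only [hw, pos]
    exact max_le (by linarith) (hu.nonneg x)
  set φ : X n → ℝ := fun x => pos (u x - k) * η x ^ 2 with hφ
  have hφm : Measurable φ := hwm.mul (hηm.pow_const 2)
  have hφ0 : ∀ x, 0 ≤ φ x := fun x => mul_nonneg (pos_nonneg _) (sq_nonneg _)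
  have hη2 : ∀ x, η x ^ 2 ≤ 1 := by
    intro x
    have := hη.2.1 x
    nlinarith
  have hφu : ∀ x, φ x ≤ u x := by
    intro x
    calc φ x ≤ w x * 1 := mul_le_mul_of_nonneg_left (hη2 x) (hw0 x)
      _ = w x := mul_one _
      _ ≤ u x := hwu x
  have hΩm : MeasurableSet {x | 0 < u x} := measurableSet_lt measurable_const hum
  -- finiteness
  have hun : ∫⁻ x, sq (u x) ≠ ∞ := by
    rw [hu.norm]
    simp
  have hle2 : ∀ f : X n → ℝ, (∀ x, 0 ≤ f x) → (∀ x, f x ≤ u x) → ∫⁻ x, sq (f x) ≠ ∞ := by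
    intro f hf0 hfu
    refine ne_top_of_le_ne_top hun (lintegral_mono fun x => sq_le ?_)
    rw [abs_of_nonneg (hf0 x), abs_of_nonneg (hu.nonneg x)]
    exact hfu x
  have hCd : (C : ℝ≥0∞) * ENNReal.ofReal (d ^ (-(2 * σ))) ≠ ∞ :=
    ENNReal.mul_ne_top ENNReal.coe_ne_top ENNReal.ofReal_ne_top
  have hEw : En σ univ w ≠ ∞ := by
    refine ne_top_of_le_ne_top hu.fin (En_le ?_)
    intro x y
    refine (abs_pos_sub_pos_le _ _).trans_eq ?_
    congr 1
    ring
  have hwη0 : ∀ x, 0 ≤ w x * η x := fun x => mul_nonneg (hw0 x) (hη.2.1 x).1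
  have hwηu : ∀ x, w x * η x ≤ u x := fun x =>
    (mul_le_of_le_one_right (hw0 x) (hη.2.1 x).2).trans (hwu x)
  have hEwη : En σ univ (fun x => w x * η x) ≠ ∞ := by
    refine ne_top_of_le_ne_top ?_ (hC η w d hη hwm)
    exact ENNReal.add_ne_top.mpr ⟨ENNReal.mul_ne_top (by simp) hEw,
      ENNReal.mul_ne_top hCd (hle2 w hw0 hwu)⟩
  have hEφ : En σ univ φ ≠ ∞ := by
    have h1 := hC η (fun x => w x * η x) d hη (hwm.mul hηm)
    have h2 : (fun x => w x * η x * η x) = φ := by
      funext x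
      simp only [hw, hφ]
      ring
    rw [h2] at h1
    refine ne_top_of_le_ne_top ?_ h1
    exact ENNReal.add_ne_top.mpr ⟨ENNReal.mul_ne_top (by simp) hEwη,
      ENNReal.mul_ne_top hCd (hle2 _ hwη0 hwηu)⟩
  have hEφΩ : En σ {x | 0 < u x} φ ≠ ∞ := ne_top_of_le_ne_top hEφ (En_mono (subset_univ _) φ)
  -- measurability
  have hm1 : Measurable (Function.uncurry fun x y : X n =>
      ENNReal.ofReal (pos (u x - k) * η x ^ 2 * pos (k - u y))) := by
    apply ENNReal.measurable_ofReal.comp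
    exact (((measurable_pos.comp ((hum.comp measurable_fst).sub_const k)).mul
      ((hηm.comp measurable_fst).pow_const 2)).mul
      (measurable_pos.comp (measurable_const.sub (hum.comp measurable_snd))))
  have hm2 : Measurable (Function.uncurry fun x y : X n =>
      ENNReal.ofReal (pos (u x - k) * pos (u y - k) * (η x - η y) ^ 2)) := by
    apply ENNReal.measurable_ofReal.comp
    exact (((measurable_pos.comp ((hum.comp measurable_fst).sub_const k)).mul
      (measurable_pos.comp ((hum.comp measurable_snd).sub_const k))).mul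
      (((hηm.comp measurable_fst).sub (hηm.comp measurable_snd)).pow_const 2))
  have hwηm : Measurable fun x => pos (u x - k) * η x := hwm.mul hηm
  have huφm : Measurable fun x => ENNReal.ofReal (u x * φ x) :=
    ENNReal.measurable_ofReal.comp (hum.mul hφm)
  apply lim hEφΩ
  intro t ht0 ht1
  -- the competitor
  set v : X n → ℝ := fun x => u x - t * φ x with hv
  have hvm : Measurable v := hum.sub (hφm.const_mul t)
  have hvu : ∀ x, v x ≤ u x := fun x => sub_le_self _ (mul_nonneg ht0.le (hφ0 x))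
  have huv : ∀ x, (1 - t) * u x ≤ v x := by
    intro x
    have := mul_le_mul_of_nonneg_left (hφu x) ht0.le
    simp only [hv]
    linarith
  have hv0 : ∀ x, 0 ≤ v x := fun x =>
    (mul_nonneg (by linarith) (hu.nonneg x)).trans (huv x)
  have hvn : ∫⁻ x, sq (v x) ≠ ∞ := hle2 v hv0 hvu
  have hvE : En σ univ v ≠ ∞ := by
    have h1 : En σ univ v ≤ 2 * En σ univ u + 2 * sq t * En σ univ φ := by
      rw [En_eq, En_eq, En_eq, ← DI_const_mul (by simp),
        ← DI_const_mul (ENNReal.mul_ne_top (by simp) (sq_ne_top t)),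
        ← DI_add ((measurable_dsq hum).const_mul 2)]
      apply DI_mono MeasurableSet.univ MeasurableSet.univ
      intro x _ y _
      have h2 : v x - v y = (u x - u y) + (-(t * (φ x - φ y))) := by
        simp only [hv]
        ring
      rw [h2]
      refine (sq_add_le _ _).trans_eq ?_
      rw [sq_neg, sq_mul, mul_assoc]
    refine ne_top_of_le_ne_top ?_ h1
    exact ENNReal.add_ne_top.mpr ⟨ENNReal.mul_ne_top (by simp) hu.fin,
      ENNReal.mul_ne_top (ENNReal.mul_ne_top (by simp) (sq_ne_top t)) hEφ⟩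
  have hset : {x | 0 < v x} = {x | 0 < u x} := by
    ext x
    simp only [mem_ofPred_eq]
    constructor
    · intro h
      exact lt_of_lt_of_le h (hvu x)
    · intro h
      exact lt_of_lt_of_le (mul_pos (by linarith) h) (huv x)
  have hmin := hu.min v hvm hv0 hvn hvE (by rw [hset]; exact hu.vol)
  rw [hset, add_sub_cancel_right] at hmin
  have hEvΩ : En σ {x | 0 < u x} v ≠ ∞ := ne_top_of_le_ne_top hvE (En_mono (subset_univ _) v)
  -- the term with `u φ`
  have hIΩ : ∫⁻ x in {x | 0 < u x}, ENNReal.ofReal (u x * φ x) =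
      ∫⁻ x, ENNReal.ofReal (u x * φ x) := by
    rw [← lintegral_indicator hΩm]
    apply lintegral_congr
    intro x
    by_cases hx : 0 < u x
    · rw [indicator_of_mem (show x ∈ {x | 0 < u x} from hx)]
    · have h0 : u x = 0 := le_antisymm (not_lt.mp hx) (hu.nonneg x)
      rw [indicator_of_notMem (show x ∉ {x | 0 < u x} from hx), h0]
      simp
  have hIfin : ∫⁻ x, ENNReal.ofReal (u x * φ x) ≠ ∞ := by
    refine ne_top_of_le_ne_top hun (lintegral_mono fun x => ?_)
    apply ENNReal.ofReal_le_ofReal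
    nlinarith [hu.nonneg x, hφu x]
  have hone : (1 : ℝ≥0∞) ≤ ∫⁻ x, (sq (v x) +
      ENNReal.ofReal (2 * t) * ENNReal.ofReal (u x * φ x)) := by
    rw [← hu.norm]
    apply lintegral_mono
    intro x
    unfold sq
    beta_reduce
    rw [← ENNReal.ofReal_mul (by positivity), ← ENNReal.ofReal_add (sq_nonneg _)
      (mul_nonneg (by positivity) (mul_nonneg (hu.nonneg x) (hφ0 x)))]
    apply ENNReal.ofReal_le_ofReal
    simp only [hv]
    nlinarith [sq_nonneg (t * φ x)]
  rw [lintegral_add_left (measurable_sq_comp hvm), lintegral_const_mul _ huφm] at hone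
  have hLE : En σ {x | 0 < u x} u ≤ En σ {x | 0 < u x} v + ENNReal.ofReal (2 * t) *
      (ENNReal.ofReal L * ∫⁻ x in {x | 0 < u x}, ENNReal.ofReal (u x * φ x)) := by
    rw [hIΩ, hu.lam]
    have h1 : ENNReal.ofReal L * ∫⁻ x, sq (v x) ≤ En σ {x | 0 < u x} v := by
      rw [← ENNReal.ofReal_toReal hvn, ← ENNReal.ofReal_toReal hEvΩ, ← ENNReal.ofReal_mul hu.L0]
      exact ENNReal.ofReal_le_ofReal hmin
    calc ENNReal.ofReal L = ENNReal.ofReal L * 1 := (mul_one _).symm
      _ ≤ ENNReal.ofReal L * ((∫⁻ x, sq (v x)) +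
          ENNReal.ofReal (2 * t) * (∫⁻ x, ENNReal.ofReal (u x * φ x))) := by
          gcongr
      _ = ENNReal.ofReal L * (∫⁻ x, sq (v x)) + ENNReal.ofReal (2 * t) *
          (ENNReal.ofReal L * (∫⁻ x, ENNReal.ofReal (u x * φ x))) := by ring
      _ ≤ _ := by gcongr
  -- integrate the identity
  have hswap : DI σ {x | 0 < u x} {x | 0 < u x}
      (fun x y => ENNReal.ofReal (pos (u y - k) * η y ^ 2 * pos (k - u x))) =
      DI σ {x | 0 < u x} {x | 0 < u x}
      (fun x y => ENNReal.ofReal (pos (u x - k) * η x ^ 2 * pos (k - u y))) :=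
    (DI_swap hm1).symm
  have hint : En σ {x | 0 < u x} v + ENNReal.ofReal (2 * t) *
      (En σ {x | 0 < u x} (fun x => pos (u x - k) * η x) +
        2 * DI σ {x | 0 < u x} {x | 0 < u x}
        (fun x y => ENNReal.ofReal (pos (u x - k) * η x ^ 2 * pos (k - u y)))) =
      En σ {x | 0 < u x} u + (ENNReal.ofReal (2 * t) * DI σ {x | 0 < u x} {x | 0 < u x}
        (fun x y => ENNReal.ofReal (pos (u x - k) * pos (u y - k) * (η x - η y) ^ 2)) +
        ENNReal.ofReal (t ^ 2) * En σ {x | 0 < u x} φ) := by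
    have hc : ENNReal.ofReal (2 * t) ≠ ∞ := ENNReal.ofReal_ne_top
    have hc' : ENNReal.ofReal (t ^ 2) ≠ ∞ := ENNReal.ofReal_ne_top
    rw [two_mul (DI σ {x | 0 < u x} {x | 0 < u x}
      (fun x y => ENNReal.ofReal (pos (u x - k) * η x ^ 2 * pos (k - u y))))]
    nth_rewrite 2 [← hswap]
    rw [En_eq _ v, En_eq _ (fun x => pos (u x - k) * η x), En_eq _ u, En_eq _ φ,
      ← DI_add hm1, ← DI_add (measurable_dsq hwηm), ← DI_const_mul hc, ← DI_const_mul hc,
      ← DI_const_mul hc', ← DI_add (measurable_dsq hvm), ← DI_add (hm2.const_mul _),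
      ← DI_add (measurable_dsq hum)]
    apply DI_congr hΩm hΩm
    intro x _ y _
    simp only [hv, hφ]
    exact keyE k t (u x) (u y) (η x) (η y) ht0.le
  have hfinu : En σ {x | 0 < u x} u ≠ ∞ := by
    rw [hu.lam]
    exact ENNReal.ofReal_ne_top
  have hfinal : En σ {x | 0 < u x} u + ENNReal.ofReal (2 * t) *
      (En σ {x | 0 < u x} (fun x => pos (u x - k) * η x) +
        2 * DI σ {x | 0 < u x} {x | 0 < u x}
        (fun x y => ENNReal.ofReal (pos (u x - k) * η x ^ 2 * pos (k - u y)))) ≤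
      En σ {x | 0 < u x} u + (ENNReal.ofReal (2 * t) * (DI σ {x | 0 < u x} {x | 0 < u x}
        (fun x y => ENNReal.ofReal (pos (u x - k) * pos (u y - k) * (η x - η y) ^ 2)) +
        ENNReal.ofReal L * ∫⁻ x in {x | 0 < u x}, ENNReal.ofReal (u x * φ x)) +
        ENNReal.ofReal (t ^ 2) * En σ {x | 0 < u x} φ) := by
    calc _ ≤ (En σ {x | 0 < u x} v + ENNReal.ofReal (2 * t) *
          (ENNReal.ofReal L * ∫⁻ x in {x | 0 < u x}, ENNReal.ofReal (u x * φ x))) +
          ENNReal.ofReal (2 * t) *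
          (En σ {x | 0 < u x} (fun x => pos (u x - k) * η x) +
          2 * DI σ {x | 0 < u x} {x | 0 < u x}
          (fun x y => ENNReal.ofReal (pos (u x - k) * η x ^ 2 * pos (k - u y)))) := by
          gcongr
      _ = (En σ {x | 0 < u x} v + ENNReal.ofReal (2 * t) *
          (En σ {x | 0 < u x} (fun x => pos (u x - k) * η x) +
          2 * DI σ {x | 0 < u x} {x | 0 < u x}
          (fun x y => ENNReal.ofReal (pos (u x - k) * η x ^ 2 * pos (k - u y))))) +
          ENNReal.ofReal (2 * t) *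
          (ENNReal.ofReal L * ∫⁻ x in {x | 0 < u x}, ENNReal.ofReal (u x * φ x)) := by ring
      _ = _ := by
          rw [hint]
          ring
  exact (ENNReal.add_le_add_iff_left hfinu).mp hfinal

end RFK
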