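import Mathlib

/-!
# MP_35334d_an, the regional fractional Faber-Krahn problem: definitions (helper27)
-/

set_option autoImplicit false

open MeasureTheory Filter Topology Metric Set
open scoped ENNReal NNReal

namespace RFK

/-- `ℝⁿ` -/
abbrev X (n : ℕ) := EuclideanSpace ℝ (Fin n)

/-- the energy `I_E[u] = ∬_{E × E} (u(x) - u(y))² / |x - y|^(n + 2σ) dx dy` -/
noncomputable def En {n : ℕ} (σ : ℝ) (E : Set (X n)) (u : X n → ℝ) : ℝ≥0∞ :=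
  ∫⁻ x in E, ∫⁻ y in E, ENNReal.ofReal ((u x - u y) ^ 2 / ‖x - y‖ ^ ((n : ℝ) + 2 * σ))

/-- `u` belongs to the completion of `C¹_c(ℝⁿ)` under `I_{ℝⁿ}[·]^(1/2)`, realised as a space of
functions defined almost everywhere -/
def InH {n : ℕ} (σ : ℝ) (u : X n → ℝ) : Prop :=
  ∃ φ : ℕ → X n → ℝ, (∀ k, ContDiff ℝ 1 (φ k) ∧ HasCompactSupport (φ k)) ∧
    Tendsto (fun k => En σ univ (fun x => φ k x - u x)) atTop (𝓝 0) ∧
    ∀ᵐ x, Tendsto (fun k => φ k x) atTop (𝓝 (u x))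

/-- the functional `J(u) = I_{u > 0}[u] / ‖u‖² + |{u > 0}|` -/
noncomputable def J {n : ℕ} (σ : ℝ) (u : X n → ℝ) : ℝ≥0∞ :=
  En σ {x | 0 < u x} u / (∫⁻ x, ENNReal.ofReal (u x ^ 2)) + volume {x | 0 < u x}

/-- admissible functions: `u ∈ H`, `u ≥ 0`, `u ≢ 0` -/
def Adm {n : ℕ} (σ : ℝ) (u : X n → ℝ) : Prop :=
  InH σ u ∧ (∀ᵐ x, 0 ≤ u x) ∧ ¬ (∀ᵐ x, u x = 0)

/-- minimizers of `J` -/
def IsMin {n : ℕ} (σ : ℝ) (u : X n → ℝ) : Prop :=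
  Adm σ u ∧ ∀ v : X n → ℝ, Adm σ v → J σ u ≤ J σ v

/-- the parameters of the problem -/
def OK (n : ℕ) (σ : ℝ) : Prop := 2 ≤ n ∧ 1 / 2 < σ ∧ σ < 1

/-! ## Working definitions -/

/-- the kernel `|z|^(-n-2σ)` (`0` at `0`) -/
noncomputable def K {n : ℕ} (σ : ℝ) (z : X n) : ℝ≥0∞ :=
  ENNReal.ofReal ((‖z‖ ^ ((n : ℝ) + 2 * σ))⁻¹)

/-- the square, with values in `[0, ∞]` -/
noncomputable def sq (t : ℝ) : ℝ≥0∞ := ENNReal.ofReal (t ^ 2)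

/-- the double integral `∬_{A × B} G(x,y) K(x-y)` -/
noncomputable def DI {n : ℕ} (σ : ℝ) (A B : Set (X n)) (G : X n → X n → ℝ≥0∞) : ℝ≥0∞ :=
  ∫⁻ x in A, ∫⁻ y in B, G x y * K σ (x - y)

/-- the positive part -/
noncomputable def pos (t : ℝ) : ℝ := max t 0

/-- the ball of radius `r` around `0` -/
abbrev B {n : ℕ} (r : ℝ) : Set (X n) := ball (0 : X n) r

/-- the cut-off function: `1` for `|x| ≤ r'`, `0` for `|x| ≥ r` -/
noncomputable def cut {n : ℕ} (r' r : ℝ) (x : X n) : ℝ := max 0 (min 1 ((r - ‖x‖) / (r - r')))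

end RFK
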