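import Pool.Agent.RFK.TargetsE

/-!
# MP_35334d_an, target EXI: a minimizer exists (helper27)
-/

set_option autoImplicit false

open MeasureTheory Filter Topology Metric Set
open scoped ENNReal NNReal

namespace RFK

open Classical in
theorem p_EXI (h1 : T_EX1) (h2 : T_EX2) (h3 : T_EX3) (h4 : T_EX4) (h5 : T_EX5) (h7 : T_EX7)
    (h9 : T_EX9) (hD : T_DEN) : T_EXI := by
  intro n σ ok
  obtain ⟨m, hLB, hm, w, hNA, hlim⟩ := h1 n σ ok
  obtain ⟨C, hC⟩ := h2 n σ ok
  -- bounds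
  have hFFtop : ∀ v : X n → ℝ, NA σ v → FF σ v ≠ ∞ := by
    intro v hv
    exact ENNReal.add_ne_top.mpr
      ⟨ne_top_of_le_ne_top hv.fin (En_mono (subset_univ _) v), hv.vol⟩
  obtain ⟨K0, hK0⟩ := hlim.bddAbove_range
  have hK : ∀ j, (FF σ (w j)).toReal ≤ |K0| + 1 := by
    intro j
    have := hK0 (mem_range_self j)
    have h' := le_abs_self K0
    linarith
  set C₁ : ℝ := ((C : ℝ) + 1) * (|K0| + 1) with hC₁
  have hC1 : 1 ≤ C₁ := by
    have e1 : (0 : ℝ) ≤ C := C.2
    have e2 := abs_nonneg K0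
    rw [hC₁]
    nlinarith [mul_nonneg e1 e2]
  have hKC : |K0| + 1 ≤ C₁ := by
    have e1 : (0 : ℝ) ≤ C := C.2
    have e2 := abs_nonneg K0
    rw [hC₁]
    nlinarith [mul_nonneg e1 e2]
  have hFF : ∀ j, FF σ (w j) ≤ ENNReal.ofReal (|K0| + 1) := by
    intro j
    rw [← ENNReal.ofReal_toReal (hFFtop _ (hNA j))]
    exact ENNReal.ofReal_le_ofReal (hK j)
  have hvol : ∀ j, volume {x | 0 < w j x} ≤ ENNReal.ofReal C₁ := by
    intro j
    exact (le_add_self.trans (hFF j)).trans (ENNReal.ofReal_le_ofReal hKC)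
  have hEn : ∀ j, En σ univ (w j) ≤ ENNReal.ofReal C₁ := by
    intro j
    refine (hC (w j) (hNA j)).trans ?_
    rw [hC₁, ENNReal.ofReal_mul (by positivity)]
    gcongr
    · rw [← ENNReal.ofReal_coe_nnreal]
      exact ENNReal.ofReal_le_ofReal (by linarith)
    · exact le_self_add.trans (hFF j)
  -- translation
  obtain ⟨c, hc, H3⟩ := h3 n σ ok C₁ (by linarith)
  choose z hz using fun j => H3 (w j) (hNA j) (hEn j) (hvol j)
  have H9 := fun j => h9 n σ (w j) (z j) (hNA j)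
  obtain ⟨φ, u, hφ, hum, hae, hL2⟩ := h4 n σ ok C₁ (fun j x => w j (z j + x)) (by
    intro j
    refine ⟨(H9 j).1.meas, ?_, ?_⟩
    · rw [(H9 j).1.norm, ← ENNReal.ofReal_one]
      exact ENNReal.ofReal_le_ofReal hC1
    · rw [(H9 j).2.2.1]
      exact hEn j)
  set v : ℕ → X n → ℝ := fun j x => w (φ j) (z (φ j) + x) with hv
  have hvNA : ∀ j, NA σ (v j) := fun j => (H9 (φ j)).1
  have hvFF : ∀ j, FF σ (v j) = FF σ (w (φ j)) := fun j => (H9 (φ j)).2.1
  have hvlim : Tendsto (fun j => (FF σ (v j)).toReal) atTop (𝓝 m) := by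
    simp_rw [hvFF]
    exact hlim.comp hφ.tendsto_atTop
  have hvB : ∀ j, ENNReal.ofReal c ≤ ∫⁻ x in B 1, sq (v j x) := by
    intro j
    rw [hv]
    show _ ≤ ∫⁻ x in B 1, sq (w (φ j) (z (φ j) + x))
    rw [(H9 (φ j)).2.2.2]
    exact hz (φ j)
  have hvEn : ∀ j, En σ univ (v j) ≤ ENNReal.ofReal C₁ := by
    intro j
    rw [hv]
    show En σ univ (fun x => w (φ j) (z (φ j) + x)) ≤ _
    rw [(H9 (φ j)).2.2.1]
    exact hEn _
  -- the limit is not zero
  have hu0 : ¬ (∀ᵐ x, u x = 0) := by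
    intro h0
    have e1 : ∀ j, ENNReal.ofReal c ≤ ∫⁻ x in B 1, sq (v j x - u x) := by
      intro j
      refine (hvB j).trans (le_of_eq ?_)
      apply lintegral_congr_ae
      filter_upwards [ae_restrict_of_ae h0] with x hx
      rw [hx, sub_zero]
    have e2 := ge_of_tendsto' (hL2 1) e1
    have e3 : 0 < ENNReal.ofReal c := ENNReal.ofReal_pos.mpr hc
    exact absurd e2 (not_le.mpr e3)
  have hnorm : ∫⁻ x, sq (u x) = 1 := h7 n σ ok m hLB v u hvNA hum hvlim hae hL2 hu0
  obtain ⟨e1, -, -, e4⟩ := h5 n σ v u (fun j => ⟨(hvNA j).meas, (hvNA j).nonneg⟩) hum hae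
  have hEnu : En σ univ u ≠ ∞ := by
    apply ne_top_of_le_ne_top (ENNReal.ofReal_ne_top (r := C₁))
    refine e1.trans ?_
    refine (liminf_le_limsup).trans ?_
    exact limsup_le_of_le (h := Eventually.of_forall hvEn)
  have hFFlim : Tendsto (fun j => FF σ (v j)) atTop (𝓝 (ENNReal.ofReal m)) := by
    have := (ENNReal.continuous_ofReal.tendsto m).comp hvlim
    refine this.congr ?_
    intro j
    exact ENNReal.ofReal_toReal (hFFtop _ (hvNA j))
  have hFFu : FF σ u ≤ ENNReal.ofReal m := by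
    rw [← hFFlim.liminf_eq]
    exact e4
  -- the positive part
  have hunn : ∀ᵐ x, 0 ≤ u x := by
    filter_upwards [hae] with x hx
    exact ge_of_tendsto' hx fun j => (hvNA j).nonneg x
  set u₀ : X n → ℝ := fun x => max (u x) 0 with hu₀
  have hu₀u : ∀ᵐ x, u₀ x = u x := by
    filter_upwards [hunn] with x hx
    exact max_eq_left hx
  have hset : {x | 0 < u₀ x} = {x | 0 < u x} := by
    ext x
    simp [hu₀]
  have hu₀m : Measurable u₀ := hum.max measurable_const
  have hsq : ∫⁻ x, sq (u₀ x) = 1 := by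
    rw [← hnorm]
    apply lintegral_congr_ae
    filter_upwards [hu₀u] with x hx
    rw [hx]
  have hEn1 : En σ univ u₀ = En σ univ u := by
    rw [En_eq, En_eq]
    apply DI_congr_ae MeasurableSet.univ MeasurableSet.univ
    filter_upwards [hu₀u] with x hx _
    filter_upwards [hu₀u] with y hy _
    rw [hx, hy]
  have hmeasΩ : MeasurableSet {x | 0 < u x} := measurableSet_lt measurable_const hum
  have hEn2 : En σ {x | 0 < u x} u₀ = En σ {x | 0 < u x} u := by
    rw [En_eq, En_eq]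
    apply DI_congr_ae hmeasΩ hmeasΩ
    filter_upwards [hu₀u] with x hx _
    filter_upwards [hu₀u] with y hy _
    rw [hx, hy]
  refine ⟨u₀, ⟨hD n σ ok u₀ hu₀m (by rw [hsq]; exact ENNReal.one_ne_top) (by rw [hEn1]; exact hEnu),
    Eventually.of_forall fun x => le_max_right _ _, ?_⟩, ?_⟩
  · intro h0
    apply hu0
    filter_upwards [h0, hu₀u] with x hx hx'
    rw [← hx', hx]
  · intro v' hv'
    refine le_trans ?_ (hm v' hv')
    refine le_trans (le_of_eq ?_) hFFu
    unfold J FF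
    rw [hset, hEn2]
    have : ∫⁻ x, ENNReal.ofReal (u₀ x ^ 2) = 1 := hsq
    rw [this, div_one]

end RFK
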