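import Pool.Agent.RFK.Targets

/-!
# MP_35334d_an, KTL: the tail of the kernel (helper76, for helper27)
-/

set_option autoImplicit false

open MeasureTheory Filter Topology Metric Set
open scoped ENNReal NNReal

namespace RFK

namespace KTL_

variable {n : ℕ} {σ : ℝ}

/-- the tail outside the unit ball is finite -/
theorem fin (h2 : 0 < σ) : ∫⁻ y in (ball (0 : X n) 1)ᶜ, K σ y ≠ ∞ := by
  have hr : (Module.finrank ℝ (X n) : ℝ) < (n : ℝ) + 2 * σ := by
    rw [finrank_euclideanSpace_fin]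
    linarith
  have h0 : 0 ≤ (n : ℝ) + 2 * σ := by positivity
  have hf := finite_integral_one_add_norm (μ := (volume : Measure (X n))) hr
  have hb : ∫⁻ y in (ball (0 : X n) 1)ᶜ, K σ y ≤
      ENNReal.ofReal (2 ^ ((n : ℝ) + 2 * σ)) *
        ∫⁻ y : X n, ENNReal.ofReal ((1 + ‖y‖) ^ (-((n : ℝ) + 2 * σ))) := by
    rw [← lintegral_const_mul' _ _ ENNReal.ofReal_ne_top]
    refine le_trans ?_ (setLIntegral_le_lintegral ((ball (0 : X n) 1)ᶜ) _)
    refine setLIntegral_mono' measurableSet_ball.compl (fun y hy => ?_)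
    have hy1 : 1 ≤ ‖y‖ := by
      rw [mem_compl_iff, mem_ball_zero_iff, not_lt] at hy
      exact hy
    unfold K
    rw [← ENNReal.ofReal_mul (by positivity)]
    apply ENNReal.ofReal_le_ofReal
    have h3 : (1 + ‖y‖) / 2 ≤ ‖y‖ := by linarith
    have h4 : ((1 + ‖y‖) / 2) ^ ((n : ℝ) + 2 * σ) ≤ ‖y‖ ^ ((n : ℝ) + 2 * σ) :=
      Real.rpow_le_rpow (by positivity) h3 h0
    rw [Real.rpow_neg (by positivity)]
    calc (‖y‖ ^ ((n : ℝ) + 2 * σ))⁻¹ ≤ (((1 + ‖y‖) / 2) ^ ((n : ℝ) + 2 * σ))⁻¹ :=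
          inv_anti₀ (by positivity) h4
      _ = 2 ^ ((n : ℝ) + 2 * σ) * ((1 + ‖y‖) ^ ((n : ℝ) + 2 * σ))⁻¹ := by
          rw [Real.div_rpow (by positivity) (by norm_num), inv_div, div_eq_mul_inv]
  exact ne_top_of_le_ne_top (ENNReal.mul_ne_top ENNReal.ofReal_ne_top hf.ne) hb

end KTL_

theorem p_KTL : T_KTL := by
  intro n σ hOK
  obtain ⟨-, hσ, -⟩ := hOK
  have hσ0 : 0 < σ := by linarith
  have hfin := KTL_.fin (n := n) hσ0
  refine ⟨(∫⁻ y in (ball (0 : X n) 1)ᶜ, K σ y).toNNReal, ?_⟩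
  intro ρ hρ x
  rw [ENNReal.coe_toNNReal hfin, lintegral_aff hρ x]
  have hpre : (fun y : X n => x + ρ • y) ⁻¹' (ball x ρ)ᶜ = (ball (0 : X n) 1)ᶜ := by
    ext y
    simp only [mem_preimage, mem_compl_iff, mem_ball, dist_eq_norm, add_sub_cancel_left, sub_zero,
      norm_smul, Real.norm_eq_abs, abs_of_pos hρ, not_lt]
    constructor
    · intro h
      by_contra hc
      push Not at hc
      nlinarith
    · intro h
      nlinarith
  rw [hpre]
  have hK : ∀ y : X n, K σ (x - (x + ρ • y)) =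
      ENNReal.ofReal (ρ ^ (-((n : ℝ) + 2 * σ))) * K σ y := by
    intro y
    rw [show x - (x + ρ • y) = -(ρ • y) by abel, K_neg, K_smul hρ]
  simp_rw [hK]
  rw [lintegral_const_mul' _ _ ENNReal.ofReal_ne_top, ← mul_assoc,
    ← ENNReal.ofReal_mul (by positivity), ← Real.rpow_add hρ, mul_comm]
  apply le_of_eq
  congr 3
  ring

end RFK
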