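import Pool.Agent.RFK.Targets

/-!
# MP_35334d_an, SC2: scaling of the Caccioppoli inequality from below (helper29, for helper27)
-/

set_option autoImplicit false

open MeasureTheory Filter Topology Metric Set
open scoped ENNReal NNReal

namespace RFK

namespace SC2_

variable {n : ℕ} {σ : ℝ}

/-- the cut-off function around `x₀` at scale `R` -/
noncomputable def eta (x₀ : X n) (R r' r : ℝ) (x : X n) : ℝ := cut r' r (R⁻¹ • (x - x₀))

theorem eta_aff {R : ℝ} (hR : 0 < R) (x₀ : X n) (r' r : ℝ) (x : X n) :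
    eta x₀ R r' r (x₀ + R • x) = cut r' r x := by
  unfold eta
  rw [add_sub_cancel_left, smul_smul, inv_mul_cancel₀ hR.ne', one_smul]

theorem eta_cut {R : ℝ} (hR : 0 < R) (x₀ : X n) {r' r : ℝ} (h : r' < r) :
    Cut (eta x₀ R r' r) (R * (r - r')) := by
  refine ⟨mul_pos hR (by linarith), fun x => ⟨cut_nonneg _ _ _, cut_le_one _ _ _⟩, ?_⟩
  intro x y
  refine (cut_lip h _ _).trans (le_of_eq ?_)
  rw [← smul_sub, sub_sub_sub_cancel_right, norm_smul, norm_inv, Real.norm_eq_abs,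
    abs_of_pos hR]
  field_simp

/-- null sets and the affine map -/
theorem null_aff {R : ℝ} (hR : 0 < R) (x₀ : X n) {S : Set (X n)}
    (h : volume ((fun x => x₀ + R • x) ⁻¹' S) = 0) : volume S = 0 := by
  have h1 := lintegral_aff hR x₀ S (fun _ => 1)
  rw [setLIntegral_one, setLIntegral_one, h, mul_zero] at h1
  exact h1

theorem pos_div {M : ℝ} (hM : 0 < M) (t : ℝ) : pos (t / M) = pos t / M := by
  unfold pos
  rw [← max_div_div_right hM.le, zero_div]

/-- scaling of a double integral -/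
theorem scale {R M : ℝ} (hR : 0 < R) (x₀ : X n) (A : Set (X n))
    (G G' : X n → X n → ℝ≥0∞)
    (h : ∀ x y, G (x₀ + R • x) (x₀ + R • y) = ENNReal.ofReal (M ^ 2) * G' x y) :
    DI σ A A G = ENNReal.ofReal (R ^ ((n : ℝ) - 2 * σ)) * ENNReal.ofReal (M ^ 2) *
      DI σ ((fun x => x₀ + R • x) ⁻¹' A) ((fun x => x₀ + R • x) ⁻¹' A) G' := by
  rw [DI_scale hR x₀]
  simp_rw [h]
  rw [DI_const_mul ENNReal.ofReal_ne_top, mul_assoc]

end SC2_

open SC2_ in
theorem p_SC2 (h : T_CAL) : T_SC2 := by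
  intro n σ hOK u L hNM x₀ R M a hR hM ha hvol k r' r hk hr' hr'r hr3
  have hz : volume ({x | eta x₀ R r' r x ≠ 0} \ {x | 0 < u x}) = 0 := by
    apply null_aff hR x₀
    refine measure_mono_null ?_ hvol
    rintro x ⟨hx1, hx2⟩
    refine ⟨?_, hx2⟩
    change eta x₀ R r' r (x₀ + R • x) ≠ 0 at hx1
    rw [eta_aff hR] at hx1
    have h1 : 0 < cut r' r x := lt_of_le_of_ne (cut_nonneg _ _ _) (Ne.symm hx1)
    rw [cut_pos_iff hr'r] at h1
    rw [mem_ball_zero_iff]
    linarith
  have key := h n σ hOK u L hNM ((1 - k) * M + a) (R * (r - r')) (eta x₀ R r' r)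
    (eta_cut hR x₀ hr'r) hz
  have hf1 : ∀ x : X n, pos (1 - (u (x₀ + R • x) - a) / M - k) =
      pos ((1 - k) * M + a - u (x₀ + R • x)) / M := by
    intro x
    rw [← pos_div hM]
    congr 1
    field_simp
    ring
  have hf2 : ∀ x : X n, pos (k - (1 - (u (x₀ + R • x) - a) / M)) =
      pos (u (x₀ + R • x) - ((1 - k) * M + a)) / M := by
    intro x
    rw [← pos_div hM]
    congr 1
    field_simp
    ring
  have hM2 : (0 : ℝ) < M ^ 2 := by positivity
  rw [En_eq, scale (M := M) hR x₀ {x | 0 < u x} _ (fun x y =>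
      sq (pos (1 - (u (x₀ + R • x) - a) / M - k) * cut r' r x -
        pos (1 - (u (x₀ + R • y) - a) / M - k) * cut r' r y)),
    scale (M := M) hR x₀ {x | 0 < u x} _ (fun x y =>
      ENNReal.ofReal (pos (1 - (u (x₀ + R • x) - a) / M - k) * cut r' r x ^ 2 *
        pos (k - (1 - (u (x₀ + R • y) - a) / M)))),
    scale (M := M) hR x₀ {x | 0 < u x} _ (fun x y =>
      ENNReal.ofReal (pos (1 - (u (x₀ + R • x) - a) / M - k) *
        pos (1 - (u (x₀ + R • y) - a) / M - k) * (cut r' r x - cut r' r y) ^ 2))] at key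
  · rw [mul_left_comm, ← mul_add] at key
    have hc0 : ENNReal.ofReal (R ^ ((n : ℝ) - 2 * σ)) * ENNReal.ofReal (M ^ 2) ≠ 0 := by
      rw [← ENNReal.ofReal_mul (by positivity), Ne, ENNReal.ofReal_eq_zero, not_le]
      positivity
    have hc1 : ENNReal.ofReal (R ^ ((n : ℝ) - 2 * σ)) * ENNReal.ofReal (M ^ 2) ≠ ∞ :=
      ENNReal.mul_ne_top ENNReal.ofReal_ne_top ENNReal.ofReal_ne_top
    rw [ENNReal.mul_le_mul_iff_right hc0 hc1] at key
    rw [ENNReal.ofReal_zero, zero_mul, add_zero, En_eq]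
    exact key
  · intro x y
    rw [eta_aff hR, eta_aff hR, hf1, hf1, ← ENNReal.ofReal_mul hM2.le]
    congr 1
    field_simp
  · intro x y
    rw [eta_aff hR, hf1, hf2, ← ENNReal.ofReal_mul hM2.le]
    congr 1
    field_simp
  · intro x y
    rw [eta_aff hR, eta_aff hR, hf1, hf1]
    unfold sq
    rw [← ENNReal.ofReal_mul hM2.le]
    congr 1
    field_simp

end RFK
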